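import Pool.Agent.H35.CI.TM

set_option autoImplicit false
set_option linter.unusedSectionVars false
set_option linter.unusedVariables false

/-! # Reduction of the order of the poles along a complete intersection -/

namespace Pool.Agent.H35.CI

open MvPolynomial Pool.Agent.W574.SM

section deg

variable {κ B : Type} [Fintype κ] [DecidableEq κ] [CommRing B] [Algebra ℂ B]

/-- the degree in `X` is `< k` -/
def LT (k : ℕ) (Q : MvPolynomial κ B) : Prop := ∀ γ : κ →₀ ℕ, k ≤ γ.degree → coeff γ Q = 0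

theorem LT.mono {k l : ℕ} {Q : MvPolynomial κ B} (h : LT k Q) (hkl : k ≤ l) : LT l Q :=
  fun γ hγ => h γ (hkl.trans hγ)

theorem LT.zero (k : ℕ) : LT k (0 : MvPolynomial κ B) := fun γ _ => coeff_zero γ

theorem LT.add {k : ℕ} {P Q : MvPolynomial κ B} (hP : LT k P) (hQ : LT k Q) : LT k (P + Q) := by
  intro γ hγ
  rw [coeff_add, hP γ hγ, hQ γ hγ, add_zero]

theorem LT.sub {k : ℕ} {P Q : MvPolynomial κ B} (hP : LT k P) (hQ : LT k Q) : LT k (P - Q) := by
  intro γ hγ
  rw [coeff_sub, hP γ hγ, hQ γ hγ, sub_zero]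

theorem LT.sum {k : ℕ} {α : Type} (s : Finset α) {P : α → MvPolynomial κ B}
    (hP : ∀ i ∈ s, LT k (P i)) : LT k (∑ i ∈ s, P i) := by
  intro γ hγ
  rw [coeff_sum]
  exact Finset.sum_eq_zero fun i hi => hP i hi γ hγ

theorem LT.C_mul {k : ℕ} {P : MvPolynomial κ B} (hP : LT k P) (a : B) : LT k (C a * P) := by
  intro γ hγ
  rw [coeff_C_mul, hP γ hγ, mul_zero]

theorem LT.dcoef {k : ℕ} {P : MvPolynomial κ B} (hP : LT k P) (δ : Derivation ℂ B B) :
    LT k (dcoef δ P) := by
  intro γ hγ
  rw [coeff_dcoef, hP γ hγ, map_zero]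

theorem LT.pderiv {k : ℕ} {P : MvPolynomial κ B} (hP : LT (k + 1) P) (j : κ) :
    LT k (pderiv j P) := by
  intro γ hγ
  rw [coeff_pderiv, hP, zero_mul]
  rw [map_add, Finsupp.degree_single]
  omega

theorem LT.X_mul {k : ℕ} {P : MvPolynomial κ B} (hP : LT k P) (j : κ) : LT (k + 1) (X j * P) := by
  intro γ hγ
  rw [coeff_X_mul']
  split_ifs with h
  · have h1 : (γ - Finsupp.single j 1) + Finsupp.single j 1 = γ := by
      rw [tsub_add_cancel_of_le]
      rw [Finsupp.single_le_iff]
      have : γ j ≠ 0 := by simpa using h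
      omega
    have h2 := congrArg Finsupp.degree h1
    rw [map_add, Finsupp.degree_single] at h2
    exact hP _ (by omega)
  · rfl

theorem LT.one : LT 1 (1 : MvPolynomial κ B) := by
  classical
  intro γ hγ
  rw [coeff_one, if_neg]
  rintro rfl
  simp at hγ

theorem degree_eq_of {γ : κ →₀ ℕ} {P : MvPolynomial κ B} {n : ℕ} (hP : P.IsHomogeneous n)
    (h : coeff γ P ≠ 0) : γ.degree = n := by
  have e := DFunLike.congr_fun (Finsupp.degree_eq_weight_one (R := ℕ) (σ := κ)) γ
  exact e.trans (hP h)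

theorem LT.of_hom {P : MvPolynomial κ B} {n : ℕ} (hP : P.IsHomogeneous n) : LT (n + 1) P := by
  intro γ hγ
  by_contra h
  have := degree_eq_of hP h
  omega

/-- the component of degree `k` -/
theorem coeff_hc (k : ℕ) (P : MvPolynomial κ B) (γ : κ →₀ ℕ) :
    coeff γ (homogeneousComponent k P) = if γ.degree = k then coeff γ P else 0 := by
  rw [coeff_homogeneousComponent]

theorem hc_LT {k : ℕ} {P : MvPolynomial κ B} (hP : LT k P) : homogeneousComponent k P = 0 := by
  ext γ
  rw [coeff_hc, coeff_zero]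
  split_ifs with h
  · exact hP γ h.ge
  · rfl

theorem LT.sub_hc {k : ℕ} {P : MvPolynomial κ B} (hP : LT (k + 1) P) :
    LT k (P - homogeneousComponent k P) := by
  intro γ hγ
  rw [coeff_sub, coeff_hc]
  split_ifs with h
  · rw [sub_self]
  · rw [sub_zero]
    exact hP γ (by omega)

theorem hc_hom {n : ℕ} {P : MvPolynomial κ B} (hP : P.IsHomogeneous n) :
    homogeneousComponent n P = P := by
  ext γ
  rw [coeff_hc]
  split_ifs with h
  · rfl
  · by_contra h1
    exact h (degree_eq_of hP fun h2 => h1 h2.symm)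

theorem hc_X_mul (k : ℕ) (j : κ) (P : MvPolynomial κ B) :
    homogeneousComponent (k + 1) (X j * P) = X j * homogeneousComponent k P := by
  ext γ
  rw [coeff_hc, coeff_X_mul', coeff_X_mul', coeff_hc]
  by_cases hj : j ∈ γ.support
  · rw [if_pos hj, if_pos hj]
    have h1 : (γ - Finsupp.single j 1) + Finsupp.single j 1 = γ := by
      rw [tsub_add_cancel_of_le]
      rw [Finsupp.single_le_iff]
      have : γ j ≠ 0 := by simpa using hj
      omega
    have h2 := congrArg Finsupp.degree h1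
    rw [map_add, Finsupp.degree_single] at h2
    by_cases h3 : γ.degree = k + 1
    · rw [if_pos h3, if_pos (by omega)]
    · rw [if_neg h3, if_neg (by omega)]
  · rw [if_neg hj, if_neg hj, ite_self]

theorem hc_C_mul (k : ℕ) (a : B) (P : MvPolynomial κ B) :
    homogeneousComponent k (C a * P) = C a * homogeneousComponent k P := by
  rw [C_mul', C_mul', map_smul]

theorem homog_pderiv {n : ℕ} {P : MvPolynomial κ B} (hP : P.IsHomogeneous (n + 1)) (j : κ) :
    (pderiv j P).IsHomogeneous n := by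
  have := hP.pderiv (i := j)
  simpa using this

variable (F : κ → B)

/-- the ideal of the complete intersection -/
def JJ : Ideal B := Ideal.span (Set.range F)

/-- congruence to zero of the coefficients -/
def InJ (P : MvPolynomial κ B) : Prop := ∀ γ, coeff γ P ∈ JJ F

variable {F}

theorem InJ.add {P Q : MvPolynomial κ B} (hP : InJ F P) (hQ : InJ F Q) : InJ F (P + Q) := by
  intro γ
  rw [coeff_add]
  exact Ideal.add_mem _ (hP γ) (hQ γ)

theorem InJ.sub {P Q : MvPolynomial κ B} (hP : InJ F P) (hQ : InJ F Q) : InJ F (P - Q) := by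
  intro γ
  rw [coeff_sub]
  exact Ideal.sub_mem _ (hP γ) (hQ γ)

theorem InJ.mul_left {P : MvPolynomial κ B} (hP : InJ F P) (Q : MvPolynomial κ B) :
    InJ F (Q * P) := by
  intro γ
  rw [coeff_mul]
  exact Ideal.sum_mem _ fun x _ => Ideal.mul_mem_left _ _ (hP x.2)

theorem InJ.sum {α : Type} (s : Finset α) {P : α → MvPolynomial κ B}
    (hP : ∀ i ∈ s, InJ F (P i)) : InJ F (∑ i ∈ s, P i) := by
  intro γ
  rw [coeff_sum]
  exact Ideal.sum_mem _ fun i hi => hP i hi γ

theorem InJ.zero : InJ F 0 := by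
  intro γ
  rw [coeff_zero]
  exact Ideal.zero_mem _

theorem InJ.pderiv {P : MvPolynomial κ B} (hP : InJ F P) (j : κ) : InJ F (pderiv j P) := by
  intro γ
  rw [coeff_pderiv]
  exact Ideal.mul_mem_right _ _ (hP _)

theorem InJ.of_C {a : B} (ha : a ∈ JJ F) : InJ F (C a) := by
  intro γ
  rw [coeff_C]
  split_ifs
  · exact ha
  · exact Ideal.zero_mem _

theorem exists_of_InJ {P : MvPolynomial κ B} {n : ℕ} (hP : InJ F P) (hn : P.IsHomogeneous n) :
    ∃ μ : κ → MvPolynomial κ B, (∀ j, (μ j).IsHomogeneous n) ∧ P = ∑ j, C (F j) * μ j := by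
  classical
  choose a ha using fun γ => (Submodule.mem_span_range_iff_exists_fun B).1 (hP γ)
  refine ⟨fun j => ∑ γ ∈ P.support, monomial γ (a γ j), fun j => ?_, ?_⟩
  · refine IsHomogeneous.sum _ _ _ fun γ hγ => ?_
    refine isHomogeneous_monomial _ ?_
    exact degree_eq_of hn (mem_support_iff.1 hγ)
  · conv_lhs => rw [← support_sum_monomial_coeff P]
    simp only [Finset.mul_sum]
    rw [Finset.sum_comm]
    refine Finset.sum_congr rfl fun γ _ => ?_
    rw [← ha γ, map_sum]
    refine Finset.sum_congr rfl fun j _ => ?_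
    rw [C_mul_monomial, smul_eq_mul, mul_comm]

/-- The relations between the `F_j` are the trivial ones. -/
def KK (F : κ → B) : Prop := ∀ u : κ → B, ∑ j, F j * u j = 0 →
  ∃ τ : κ → κ → B, (∀ j m, τ j m = -τ m j) ∧ ∀ j, u j = ∑ m, F m * τ j m

theorem KK.lift (hK : KK F) (u : κ → MvPolynomial κ B) (n : ℕ) (hu : ∀ j, (u j).IsHomogeneous n)
    (h : ∑ j, C (F j) * u j = 0) : ∃ τ : κ → κ → MvPolynomial κ B,
      (∀ j m, τ j m = -τ m j) ∧ (∀ j m, (τ j m).IsHomogeneous n) ∧
        ∀ j, u j = ∑ m, C (F m) * τ j m := by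
  classical
  have h1 : ∀ γ, ∑ j, F j * coeff γ (u j) = 0 := by
    intro γ
    have := congrArg (coeff γ) h
    rw [coeff_sum, coeff_zero] at this
    simpa only [coeff_C_mul] using this
  choose τ hτ1 hτ2 using fun γ => hK (fun j => coeff γ (u j)) (h1 γ)
  set G : Finset (κ →₀ ℕ) := Finset.univ.biUnion fun j => (u j).support with hG
  refine ⟨fun j m => ∑ γ ∈ G, monomial γ (τ γ j m), fun j m => ?_, fun j m => ?_, fun j => ?_⟩
  · rw [← Finset.sum_neg_distrib]
    refine Finset.sum_congr rfl fun γ _ => ?_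
    rw [hτ1 γ j m, map_neg]
  · refine IsHomogeneous.sum _ _ _ fun γ hγ => ?_
    obtain ⟨j', -, hj'⟩ := Finset.mem_biUnion.1 hγ
    exact isHomogeneous_monomial _ (degree_eq_of (hu j') (mem_support_iff.1 hj'))
  · have h2 : u j = ∑ γ ∈ G, monomial γ (coeff γ (u j)) := by
      conv_lhs => rw [← support_sum_monomial_coeff (u j)]
      refine Finset.sum_subset (fun γ hγ => Finset.mem_biUnion.2 ⟨j, Finset.mem_univ j, hγ⟩)
        fun γ _ hγ => ?_
      rw [notMem_support_iff.1 hγ, monomial_zero]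
    rw [h2]
    simp only [Finset.mul_sum]
    rw [Finset.sum_comm]
    refine Finset.sum_congr rfl fun γ _ => ?_
    rw [hτ2 γ j, map_sum]
    exact Finset.sum_congr rfl fun m _ => (C_mul_monomial).symm

end deg

section red

variable {σ κ B : Type} [Fintype σ] [DecidableEq σ] [Fintype κ] [DecidableEq κ] [CommRing B]
  [Algebra ℂ B] (θ : σ → Derivation ℂ B B) (c : σ → B) (F : κ → B)

/-- the symbol of `∂_i` -/
noncomputable def ai (i : σ) : MvPolynomial κ B := ∑ k, C (θ i (F k)) * X k

/-- `∂_i` on the twisted local cohomology -/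
noncomputable def Dq (i : σ) (Q : MvPolynomial κ B) : MvPolynomial κ B :=
  dcoef (θ i) Q + C (c i) * Q + ai θ F i * Q

/-- `t_k` -/
noncomputable def tq (k : κ) (P : MvPolynomial κ B) : MvPolynomial κ B := C (F k) * P + pderiv k P

variable {θ c F}

theorem Dq_add (i : σ) (P Q : MvPolynomial κ B) : Dq θ c F i (P + Q) = Dq θ c F i P + Dq θ c F i Q := by
  rw [Dq, Dq, Dq, dcoef_add]; ring

theorem dcoef_zero' (δ : Derivation ℂ B B) : dcoef δ (0 : MvPolynomial κ B) = 0 := by
  have := dcoef_add δ (0 : MvPolynomial κ B) 0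
  rw [add_zero] at this
  simpa using this

theorem dcoef_neg' (δ : Derivation ℂ B B) (P : MvPolynomial κ B) : dcoef δ (-P) = -dcoef δ P := by
  have := dcoef_add δ P (-P)
  rw [add_neg_cancel, dcoef_zero'] at this
  exact (neg_eq_of_add_eq_zero_right this.symm).symm

theorem dcoef_C' (δ : Derivation ℂ B B) (a : B) :
    dcoef δ (C a : MvPolynomial κ B) = C (δ a) :=
  dcoef_monomial δ (0 : κ →₀ ℕ) a

theorem dcoef_mul' (δ : Derivation ℂ B B) (P Q : MvPolynomial κ B) :
    dcoef δ (P * Q) = dcoef δ P * Q + P * dcoef δ Q := by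
  induction P using MvPolynomial.induction_on with
  | C a =>
    have h : dcoef δ (C a : MvPolynomial κ B) = C (δ a) := by
      have := dcoef_C_mul δ a (1 : MvPolynomial κ B)
      have h1 : dcoef δ (1 : MvPolynomial κ B) = 0 := by
        have := dcoef_monomial δ (0 : κ →₀ ℕ) 1
        rw [Derivation.map_one_eq_zero, monomial_zero] at this
        exact this
      rw [mul_one, mul_one, h1, mul_zero, add_zero] at this
      exact this
    rw [dcoef_C_mul, h]
  | add p q hp hq => rw [add_mul, dcoef_add, hp, hq, dcoef_add]; ring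
  | mul_X p j hp =>
    have h1 : p * X j * Q = X j * (p * Q) := by ring
    have h2 : p * X j = X j * p := by ring
    rw [h1, dcoef_X_mul, hp, h2, dcoef_X_mul]
    ring

theorem Dq_neg (i : σ) (P : MvPolynomial κ B) : Dq θ c F i (-P) = -Dq θ c F i P := by
  rw [Dq, Dq, dcoef_neg']; ring

theorem Dq_sub (i : σ) (P Q : MvPolynomial κ B) : Dq θ c F i (P - Q) = Dq θ c F i P - Dq θ c F i Q := by
  rw [sub_eq_add_neg, Dq_add, Dq_neg, sub_eq_add_neg]

theorem Dq_zero (i : σ) : Dq θ c F i 0 = 0 := by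
  rw [Dq, dcoef_zero']; ring

theorem Dq_sum {α : Type} (i : σ) (s : Finset α) (P : α → MvPolynomial κ B) :
    Dq θ c F i (∑ a ∈ s, P a) = ∑ a ∈ s, Dq θ c F i (P a) := by
  classical
  induction s using Finset.induction_on with
  | empty => rw [Finset.sum_empty, Finset.sum_empty, Dq_zero]
  | insert a t ha ih => rw [Finset.sum_insert ha, Finset.sum_insert ha, Dq_add, ih]

theorem tq_add (k : κ) (P Q : MvPolynomial κ B) : tq F k (P + Q) = tq F k P + tq F k Q := by
  rw [tq, tq, tq, map_add]; ring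

theorem tq_sub (k : κ) (P Q : MvPolynomial κ B) : tq F k (P - Q) = tq F k P - tq F k Q := by
  rw [tq, tq, tq, map_sub]; ring

theorem tq_neg (k : κ) (P : MvPolynomial κ B) : tq F k (-P) = -tq F k P := by
  rw [tq, tq, map_neg]; ring

theorem tq_zero (k : κ) : tq F k 0 = 0 := by
  rw [tq, map_zero]; ring

theorem tq_sum {α : Type} (k : κ) (s : Finset α) (P : α → MvPolynomial κ B) :
    tq F k (∑ a ∈ s, P a) = ∑ a ∈ s, tq F k (P a) := by
  classical
  induction s using Finset.induction_on with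
  | empty => rw [Finset.sum_empty, Finset.sum_empty, tq_zero]
  | insert a t ha ih => rw [Finset.sum_insert ha, Finset.sum_insert ha, tq_add, ih]

theorem pderiv_commB (j k : κ) (q : MvPolynomial κ B) :
    pderiv j (pderiv k q) = pderiv k (pderiv j q) := by
  have h : ⁅(pderiv j : Derivation B (MvPolynomial κ B) (MvPolynomial κ B)),
      (pderiv k : Derivation B (MvPolynomial κ B) (MvPolynomial κ B))⁆ = 0 := by
    refine derivation_ext fun i => ?_
    rw [Derivation.commutator_apply, pderiv_X, pderiv_X, Derivation.zero_apply, Pi.single_apply,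
      Pi.single_apply]
    split_ifs <;> simp
  have h1 := congrArg (fun D => D q) h
  simp only [Derivation.commutator_apply, Derivation.zero_apply] at h1
  exact sub_eq_zero.1 h1

theorem tq_comm (j k : κ) (Q : MvPolynomial κ B) : tq F j (tq F k Q) = tq F k (tq F j Q) := by
  rw [tq, tq, tq, tq, map_add, map_add, Derivation.leibniz, Derivation.leibniz, pderiv_C,
    pderiv_C, pderiv_commB j k]
  simp only [smul_eq_mul, mul_zero, add_zero]
  ring

theorem dcoef_pderiv' (δ : Derivation ℂ B B) (j : κ) (q : MvPolynomial κ B) :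
    dcoef δ (pderiv j q) = pderiv j (dcoef δ q) := by
  ext1 μ
  rw [coeff_dcoef, coeff_pderiv, coeff_pderiv, coeff_dcoef, Derivation.leibniz]
  have h : δ ((μ j : B) + 1) = 0 := by
    rw [map_add, Derivation.map_natCast, Derivation.map_one_eq_zero, add_zero]
  rw [h, smul_zero, zero_add, smul_eq_mul, mul_comm]

theorem pderiv_ai (i : σ) (j : κ) : pderiv j (ai θ F i) = C (θ i (F j)) := by
  rw [ai, map_sum, Finset.sum_eq_single j]
  · rw [Derivation.leibniz, pderiv_C, pderiv_X_self]
    simp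
  · intro m _ hm
    rw [Derivation.leibniz, pderiv_C, pderiv_X_of_ne hm]
    simp
  · intro h
    exact absurd (Finset.mem_univ j) h

theorem Dq_tq (i : σ) (k : κ) (Q : MvPolynomial κ B) :
    Dq θ c F i (tq F k Q) = tq F k (Dq θ c F i Q) := by
  rw [tq, Dq_add, tq, Dq, Dq, Dq, dcoef_C_mul, dcoef_pderiv', map_add, map_add,
    Derivation.leibniz, Derivation.leibniz, pderiv_ai, pderiv_C]
  simp only [smul_eq_mul, mul_zero, add_zero]
  ring

theorem dcoef_ai (hcomm : ∀ i m u, θ i (θ m u) = θ m (θ i u)) (i m : σ) :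
    dcoef (θ i) (ai θ F m) = dcoef (θ m) (ai θ F i) := by
  have h : ∀ i m : σ, dcoef (θ i) (ai θ F m) = ∑ k, C (θ i (θ m (F k))) * X k := by
    intro i m
    rw [ai, dcoef_sum]
    refine Finset.sum_congr rfl fun k _ => ?_
    rw [mul_comm, dcoef_X_mul]
    have := dcoef_monomial (θ i) (0 : κ →₀ ℕ) (θ m (F k))
    rw [mul_comm]
    congr 1
  rw [h, h]
  refine Finset.sum_congr rfl fun k _ => ?_
  rw [hcomm]

theorem Dq_comm (hcomm : ∀ i m u, θ i (θ m u) = θ m (θ i u)) (hc : ∀ i m, θ i (c m) = θ m (c i))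
    (i m : σ) (Q : MvPolynomial κ B) :
    Dq θ c F i (Dq θ c F m Q) = Dq θ c F m (Dq θ c F i Q) := by
  have h1 : dcoef (θ i) (dcoef (θ m) Q) = dcoef (θ m) (dcoef (θ i) Q) := by
    ext1 μ
    rw [coeff_dcoef, coeff_dcoef, coeff_dcoef, coeff_dcoef, hcomm]
  have h2 := dcoef_ai (F := F) hcomm i m
  simp only [Dq, dcoef_add, dcoef_C', dcoef_mul', h1, hc i m, h2]
  ring

end red

end Pool.Agent.H35.CI
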