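import Pool.Agent.H35.CI.Saito
import Pool.Agent.H35.CI.Red

set_option autoImplicit false
set_option linter.unusedSectionVars false
set_option linter.unusedVariables false

/-! # Regular sequences -/

namespace Pool.Agent.H35.CI

section exch

variable {S : Type} [CommRing S] [IsNoetherianRing S]

theorem exists_zd_assoc (J : Ideal S) (z : S) (h : ¬ NZ J z) :
    ∃ p ∈ associatedPrimes S (S ⧸ J), z ∈ p := by
  rw [NZ] at h
  push Not at h
  obtain ⟨h, h1, h2⟩ := h
  have h4 : z ∈ ⋃ p ∈ associatedPrimes S (S ⧸ J), (p : Set S) := by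
    rw [biUnion_associatedPrimes_eq_zero_divisors]
    refine ⟨Ideal.Quotient.mk J h, fun h3 => h2 (Ideal.Quotient.eq_zero_iff_mem.1 h3), ?_⟩
    rw [Algebra.smul_def, Ideal.Quotient.algebraMap_eq, ← map_mul]
    exact Ideal.Quotient.eq_zero_iff_mem.2 h1
  simpa using h4

theorem exists_NZ (I : Ideal S) (s : Finset (Ideal S))
    (h : ∀ J ∈ s, ∀ u, u ∉ J → ∃ z ∈ I, z * u ∉ J) : ∃ z ∈ I, ∀ J ∈ s, NZ J z := by
  by_contra hc
  push Not at hc
  have hfin : (⋃ J ∈ (s : Set (Ideal S)), associatedPrimes S (S ⧸ J)).Finite :=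
    s.finite_toSet.biUnion fun J _ => associatedPrimes.finite S (S ⧸ J)
  have hsub : (I : Set S) ⊆ ⋃ p ∈ (⋃ J ∈ (s : Set (Ideal S)), associatedPrimes S (S ⧸ J)),
      ((id p : Ideal S) : Set S) := by
    intro z hz
    obtain ⟨J, hJ, hn⟩ := hc z hz
    obtain ⟨p, hp, hzp⟩ := exists_zd_assoc J z hn
    simp only [Set.mem_iUnion]
    exact ⟨p, ⟨J, hJ, hp⟩, hzp⟩
  obtain ⟨p, hp, hIp⟩ := (Ideal.subset_union_prime_finite hfin (f := id) ⊥ ⊥ (by
    intro p hp _ _
    simp only [Set.mem_iUnion] at hp
    obtain ⟨J, _, hp⟩ := hp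
    exact IsAssociatedPrime.isPrime hp)).1 hsub
  simp only [Set.mem_iUnion] at hp
  obtain ⟨J, hJ, hp⟩ := hp
  rw [AssociatedPrimes.mem_iff, isAssociatedPrime_iff] at hp
  obtain ⟨hpp, x, hx⟩ := hp
  obtain ⟨u, rfl⟩ := Ideal.Quotient.mk_surjective x
  have hu : u ∉ J := by
    intro hu
    apply hpp.ne_top
    rw [hx, Ideal.Quotient.eq_zero_iff_mem.2 hu, Ideal.eq_top_iff_one]
    simp
  obtain ⟨z, hz, hzu⟩ := h J hJ u hu
  have h1 : z ∈ p := hIp hz
  rw [hx, Submodule.mem_colon_singleton, Submodule.mem_bot, Algebra.smul_def,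
    Ideal.Quotient.algebraMap_eq, ← map_mul, Ideal.Quotient.eq_zero_iff_mem] at h1
  exact hzu h1

theorem NZ.swap {J : Ideal S} {a z : S} (hz : NZ J z) (hza : NZ (J ⊔ Ideal.span {a}) z)
    (ha : NZ J a) : NZ (J ⊔ Ideal.span {z}) a := by
  intro h hh
  obtain ⟨j, hj, w, hw, hjw⟩ := Submodule.mem_sup.1 hh
  obtain ⟨v, rfl⟩ := Ideal.mem_span_singleton'.1 hw
  have h1 : z * v ∈ J ⊔ Ideal.span {a} := by
    have : z * v = a * h - j := by rw [← hjw]; ring
    rw [this]
    exact Ideal.sub_mem _ (Ideal.mem_sup_right (Ideal.mem_span_singleton'.2 ⟨h, by ring⟩))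
      (Ideal.mem_sup_left hj)
  obtain ⟨j', hj', w', hw', hjw'⟩ := Submodule.mem_sup.1 (hza v h1)
  obtain ⟨v', rfl⟩ := Ideal.mem_span_singleton'.1 hw'
  have h2 : h - z * v' ∈ J := by
    apply ha
    have : a * (h - z * v') = j + z * j' := by
      rw [mul_sub, ← hjw, ← hjw']
      ring
    rw [this]
    exact Ideal.add_mem _ hj (Ideal.mul_mem_left _ _ hj')
  have h3 : h = (h - z * v') + v' * z := by ring
  rw [h3]
  exact Ideal.add_mem _ (Ideal.mem_sup_left h2)
    (Ideal.mem_sup_right (Ideal.mem_span_singleton'.2 ⟨v', rfl⟩))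

theorem exch (I : Ideal S) : ∀ (m : ℕ) (J : Ideal S) (l : List S) (y : S), l.length = m + 1 →
    (∀ a ∈ l, a ∈ I) → y ∈ I → Wreg J l → NZ J y →
    ∃ l' : List S, l'.length = m ∧ (∀ a ∈ l', a ∈ I) ∧ Wreg (J ⊔ Ideal.span {y}) l' := by
  intro m
  induction m with
  | zero => exact fun J l y _ _ _ _ _ => ⟨[], rfl, by simp, trivial⟩
  | succ m ih =>
    intro J l y hl hI hy hreg hNy
    obtain ⟨a, l1, rfl⟩ := List.exists_cons_of_length_eq_add_one hl
    obtain ⟨b, l2, rfl⟩ := List.exists_cons_of_length_eq_add_one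
      (show l1.length = m + 1 by simpa using hl)
    obtain ⟨hNa, hNb, hreg2⟩ := hreg
    have ha : a ∈ I := hI a (by simp)
    have hb : b ∈ I := hI b (by simp)
    classical
    obtain ⟨z, hz, hNz⟩ := exists_NZ I {J, J ⊔ Ideal.span {y}, J ⊔ Ideal.span {a}} (by
      intro J' hJ' u hu
      rw [Finset.mem_insert, Finset.mem_insert, Finset.mem_singleton] at hJ'
      rcases hJ' with h | h | h
      · subst h
        exact ⟨y, hy, fun h => hu (hNy u h)⟩
      · subst h
        by_contra hc
        push Not at hc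
        apply hu
        obtain ⟨j, hj, w, hw, hjw⟩ := Submodule.mem_sup.1 (hc a ha)
        obtain ⟨v, rfl⟩ := Ideal.mem_span_singleton'.1 hw
        -- `z v ∈ J + (a)` for all `z ∈ I`
        have h1 : b * v ∈ J ⊔ Ideal.span {a} := by
          obtain ⟨j', hj', w', hw', hjw'⟩ := Submodule.mem_sup.1 (hc b hb)
          obtain ⟨v', rfl⟩ := Ideal.mem_span_singleton'.1 hw'
          have h2 : b * v - a * v' ∈ J := by
            apply hNy
            have : y * (b * v - a * v') = a * j' - b * j := by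
              have e1 : b * (j + v * y) = b * (a * u) := by rw [hjw]
              have e2 : a * (j' + v' * y) = a * (b * u) := by rw [hjw']
              linear_combination e1 - e2
            rw [this]
            exact Ideal.sub_mem _ (Ideal.mul_mem_left _ _ hj') (Ideal.mul_mem_left _ _ hj)
          have h3 : b * v = (b * v - a * v') + v' * a := by ring
          rw [h3]
          exact Ideal.add_mem _ (Ideal.mem_sup_left h2)
            (Ideal.mem_sup_right (Ideal.mem_span_singleton'.2 ⟨v', rfl⟩))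
        obtain ⟨j'', hj'', w'', hw'', hjw''⟩ := Submodule.mem_sup.1 (hNb v h1)
        obtain ⟨v'', rfl⟩ := Ideal.mem_span_singleton'.1 hw''
        have h4 : u - y * v'' ∈ J := by
          apply hNa
          have : a * (u - y * v'') = j + y * j'' := by
            rw [← hjw''] at hjw
            linear_combination -hjw
          rw [this]
          exact Ideal.add_mem _ hj (Ideal.mul_mem_left _ _ hj'')
        have h5 : u = (u - y * v'') + v'' * y := by ring
        rw [h5]
        exact Ideal.add_mem _ (Ideal.mem_sup_left h4)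
          (Ideal.mem_sup_right (Ideal.mem_span_singleton'.2 ⟨v'', rfl⟩))
      · subst h
        exact ⟨b, hb, fun h => hu (hNb u h)⟩)
    have hz1 : NZ J z := hNz _ (by simp)
    have hz2 : NZ (J ⊔ Ideal.span {y}) z := hNz _ (by simp)
    have hz3 : NZ (J ⊔ Ideal.span {a}) z := hNz _ (by simp)
    obtain ⟨l3, hl3, hI3, hreg3⟩ := ih (J ⊔ Ideal.span {a}) (b :: l2) z (by simpa using hl)
      (fun x hx => hI x (List.mem_cons_of_mem _ hx)) hz ⟨hNb, hreg2⟩ hz3
    obtain ⟨l4, hl4, hI4, hreg4⟩ := ih (J ⊔ Ideal.span {z}) (a :: l3) y (by simp [hl3])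
      (fun x hx => by
        rcases List.mem_cons.1 hx with h | h
        · rw [h]; exact ha
        · exact hI3 x h) hy
      ⟨hz1.swap hz3 hNa, by
        have : J ⊔ Ideal.span {z} ⊔ Ideal.span {a} = J ⊔ Ideal.span {a} ⊔ Ideal.span {z} :=
          sup_right_comm _ _ _
        rw [this]
        exact hreg3⟩ (hz1.swap hz2 hNy)
    refine ⟨z :: l4, by simp [hl4], fun x hx => ?_, hz2, ?_⟩
    · rcases List.mem_cons.1 hx with h | h
      · rw [h]; exact hz
      · exact hI4 x h
    · have : J ⊔ Ideal.span {y} ⊔ Ideal.span {z} = J ⊔ Ideal.span {z} ⊔ Ideal.span {y} :=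
        sup_right_comm _ _ _
      rw [this]
      exact hreg4

/-- the derivation argument -/
theorem nz_of_der [Algebra ℂ S] (J : Ideal S) (f y : S) (M : ℕ) (D : Set (Derivation ℂ S S))
    (hD : ∀ δ ∈ D, ∀ x ∈ J, δ x ∈ J) (hy : NZ J y)
    (hyM : y ^ M ∈ J ⊔ Ideal.span (insert f ((fun δ : Derivation ℂ S S => δ f) '' D))) :
    NZ J f := by
  let Qi : ℕ → Ideal S := fun t => Submodule.comap (LinearMap.mulLeft S (f ^ t)) J
  have hQ : ∀ t h, h ∈ Qi t ↔ f ^ t * h ∈ J := fun t h => Iff.rfl
  have hmono : Monotone Qi := by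
    refine monotone_nat_of_le_succ fun t h hh => ?_
    rw [hQ] at hh ⊢
    rw [pow_succ', mul_assoc]
    exact Ideal.mul_mem_left _ _ hh
  obtain ⟨T, hT⟩ := (monotone_stabilizes_iff_noetherian (R := S) (M := S)).2 inferInstance
    ⟨Qi, hmono⟩
  have hT' : ∀ t, T ≤ t → ∀ h, f ^ (t + 1) * h ∈ J → f ^ t * h ∈ J := by
    intro t ht h hh
    have h1 : Qi T = Qi t := hT t ht
    have h2 : Qi T = Qi (t + 1) := hT (t + 1) (by omega)
    have h3 : h ∈ Qi (t + 1) := hh
    rw [← h2, h1] at h3
    exact h3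
  have key : ∀ T : ℕ, (∀ t, T ≤ t → ∀ h, f ^ (t + 1) * h ∈ J → f ^ t * h ∈ J) →
      ∀ h, f * h ∈ J → h ∈ J := by
    intro T
    induction T with
    | zero =>
      intro h1 h hh
      have := h1 0 le_rfl h (by rwa [zero_add, pow_one])
      rwa [pow_zero, one_mul] at this
    | succ T ih =>
      intro h1
      refine ih fun t ht h hh => ?_
      rcases Nat.eq_or_lt_of_le ht with h2 | h2
      · subst h2
        let A : Ideal S := Submodule.comap (LinearMap.mulLeft S (f ^ T) ∘ₗ
          LinearMap.mulRight S h) J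
        have hA : ∀ z, z ∈ A ↔ f ^ T * (z * h) ∈ J := fun z => Iff.rfl
        have hle : J ⊔ Ideal.span (insert f ((fun δ : Derivation ℂ S S => δ f) '' D)) ≤ A := by
          refine sup_le ?_ (Ideal.span_le.2 ?_)
          · intro z hz
            rw [hA]
            exact Ideal.mul_mem_left _ _ (Ideal.mul_mem_right _ _ hz)
          · intro z hz
            rw [SetLike.mem_coe, hA]
            rcases Set.mem_insert_iff.1 hz with h3 | ⟨δ, hδ, rfl⟩
            · subst h3
              rw [← mul_assoc, ← pow_succ]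
              exact hh
            · have h4 := hD δ hδ _ hh
              rw [Derivation.leibniz, Derivation.leibniz_pow, Nat.add_sub_cancel, smul_eq_mul,
                smul_eq_mul, smul_eq_mul, nsmul_eq_mul] at h4
              have h5 : f ^ (T + 1 + 1) * δ h ∈ J := by
                have h6 := Ideal.mul_mem_left J f h4
                have h7 : f ^ (T + 1 + 1) * δ h = f * (f ^ (T + 1) * δ h +
                    h * (((T + 1 : ℕ) : S) * (f ^ T * δ f))) -
                      (((T + 1 : ℕ) : S) * δ f) * (f ^ (T + 1) * h) := by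
                  ring
                rw [h7]
                exact Ideal.sub_mem _ h6 (Ideal.mul_mem_left _ _ hh)
              have h6 := h1 (T + 1) le_rfl _ h5
              have h7 : ((T + 1 : ℕ) : S) * (f ^ T * (δ f * h)) ∈ J := by
                have h8 := Ideal.sub_mem _ h4 h6
                have h9 : f ^ (T + 1) * δ h + h * (((T + 1 : ℕ) : S) * (f ^ T * δ f)) -
                    f ^ (T + 1) * δ h = ((T + 1 : ℕ) : S) * (f ^ T * (δ f * h)) := by ring
                rwa [h9] at h8
              have h8 := Ideal.mul_mem_left J (algebraMap ℂ S ((T + 1 : ℕ) : ℂ)⁻¹) h7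
              have h9 : algebraMap ℂ S ((T + 1 : ℕ) : ℂ)⁻¹ * ((T + 1 : ℕ) : S) = 1 := by
                rw [← map_natCast (algebraMap ℂ S), ← map_mul,
                  inv_mul_cancel₀ (Nat.cast_ne_zero.2 (Nat.succ_ne_zero T)), map_one]
              rwa [← mul_assoc, h9, one_mul] at h8
        have h3 := hle hyM
        rw [hA] at h3
        have h4 : ∀ M : ℕ, ∀ x, y ^ M * x ∈ J → x ∈ J := by
          intro M
          induction M with
          | zero => exact fun x hx => by rwa [pow_zero, one_mul] at hx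
          | succ M ih2 =>
            intro x hx
            rw [pow_succ, mul_assoc] at hx
            exact hy _ (ih2 _ hx)
        apply h4 M
        have h5 : y ^ M * (f ^ T * h) = f ^ T * (y ^ M * h) := by ring
        rw [h5]
        exact h3
      · exact h1 t h2 h hh
  exact key T hT'

end exch

/-! ### minors -/

theorem exists_minor {n l : ℕ} (v : Fin l → Fin n → ℂ) (hv : LinearIndependent ℂ v) :
    ∃ e : Fin l → Fin n, (Matrix.of fun a b => v b (e a)).det ≠ 0 := by
  classical
  let A : Matrix (Fin l) (Fin n) ℂ := Matrix.of v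
  have hr : A.rank = l := by
    have := LinearIndependent.rank_matrix (M := A) hv
    rwa [Fintype.card_fin] at this
  rw [Matrix.rank_eq_finrank_span_cols] at hr
  obtain ⟨f, hf1, hf2, hf3⟩ := Submodule.exists_fun_fin_finrank_span_eq ℂ (Set.range A.col)
  choose e he using hf1
  refine ⟨fun a => e (Fin.cast hr.symm a), ?_⟩
  have h1 : LinearIndependent ℂ (fun a : Fin l => f (Fin.cast hr.symm a)) :=
    hf3.comp _ (Fin.cast_injective _)
  have h2 : LinearIndependent ℂ (Matrix.of fun a b => v b (e (Fin.cast hr.symm a))).row := by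
    convert h1 using 1
    funext a
    rw [← he]
    rfl
  have h3 := (Matrix.linearIndependent_rows_iff_isUnit).1 h2
  rw [Matrix.isUnit_iff_isUnit_det] at h3
  exact h3.ne_zero

end Pool.Agent.H35.CI
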