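import Pool.Agent.H35.CI.CA

set_option autoImplicit false
set_option linter.unusedSectionVars false
set_option linter.unusedVariables false

/-! # Regular sequences of forms -/

namespace Pool.Agent.H35.CI

open MvPolynomial

section ca2

variable {n : ℕ}

/-- the gradient -/
noncomputable def gr (F : MvPolynomial (Fin n) ℂ) : Fin n → MvPolynomial (Fin n) ℂ :=
  fun i => pderiv i F

/-- the minors of the Jacobian matrix -/
noncomputable def dlt {l : ℕ} (F : Fin l → MvPolynomial (Fin n) ℂ) (e : Fin l → Fin n) :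
    MvPolynomial (Fin n) ℂ :=
  (Matrix.of fun a b => pderiv (e a) (F b)).det

theorem exists_dual {l : ℕ} (F : Fin l → MvPolynomial (Fin n) ℂ) (e : Fin l → Fin n) :
    ∃ V : Fin l → Fin n → MvPolynomial (Fin n) ℂ,
      ∀ j m, ∑ i, gr (F j) i * V m i = if j = m then dlt F e else 0 := by
  classical
  set M : Matrix (Fin l) (Fin l) (MvPolynomial (Fin n) ℂ) :=
    Matrix.of fun a b => pderiv (e a) (F b) with hM
  refine ⟨fun m i => ∑ a, if e a = i then M.adjugate m a else 0, fun j m => ?_⟩
  have h1 := congrFun (congrFun (Matrix.adjugate_mul M) m) j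
  rw [Matrix.mul_apply, Matrix.smul_apply, Matrix.one_apply] at h1
  have h2 : ∑ i, gr (F j) i * ∑ a, (if e a = i then M.adjugate m a else 0) =
      ∑ a, M.adjugate m a * M a j := by
    simp only [Finset.mul_sum]
    rw [Finset.sum_comm]
    refine Finset.sum_congr rfl fun a _ => ?_
    simp only [mul_ite, mul_zero]
    rw [Finset.sum_ite_eq]
    simp only [Finset.mem_univ, if_true, gr, hM, Matrix.of_apply]
    ring
  rw [h2, h1, smul_eq_mul]
  by_cases h : j = m
  · rw [if_pos h, if_pos h.symm, mul_one]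
    rfl
  · rw [if_neg h, if_neg (fun h' => h h'.symm), mul_zero]

/-- the Jacobian condition -/
def Jac {l : ℕ} (F : Fin l → MvPolynomial (Fin n) ℂ) : Prop :=
  ∀ p : Fin n → ℂ, p ≠ 0 → (∀ j, eval p (F j) = 0) →
    LinearIndependent ℂ (fun j i => eval p (pderiv i (F j)))

theorem exists_pow_mem {l : ℕ} {F : Fin l → MvPolynomial (Fin n) ℂ} (hF : Jac F)
    (x : MvPolynomial (Fin n) ℂ) (hx : eval 0 x = 0) (L : ℕ) :
    ∃ M, x ^ M ∈ Ideal.span (Set.range fun e => dlt F e ^ L) ⊔ JJ F := by
  classical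
  set I := Ideal.span (Set.range fun e => dlt F e ^ L) ⊔ JJ F with hI
  have h1 : x ∈ I.radical := by
    rw [← vanishingIdeal_zeroLocus_eq_radical (K := ℂ), mem_vanishingIdeal_iff]
    intro p hp
    rw [mem_zeroLocus_iff] at hp
    have haev : ∀ q : MvPolynomial (Fin n) ℂ, aeval p q = eval p q := fun q => rfl
    rw [haev]
    by_cases hp0 : p = 0
    · rw [hp0]; exact hx
    · exfalso
      have h2 : ∀ j, eval p (F j) = 0 := fun j => by
        rw [← haev]
        exact hp _ (Ideal.mem_sup_right (Ideal.subset_span ⟨j, rfl⟩))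
      obtain ⟨e, he⟩ := exists_minor _ (hF p hp0 h2)
      apply he
      have h3 : eval p (dlt F e ^ L) = 0 := by
        rw [← haev]
        exact hp _ (Ideal.mem_sup_left (Ideal.subset_span ⟨e, rfl⟩))
      rw [map_pow] at h3
      have h4 := eq_zero_of_pow_eq_zero h3
      rw [dlt, RingHom.map_det] at h4
      rw [← h4]
      rfl
  exact h1

/-- powers of the variables form a regular sequence -/
theorem Wreg_X (M : ℕ) : ∀ (l : List (Fin n)), l.Nodup → ∀ s : Set (Fin n), (∀ a ∈ l, a ∉ s) →
    Wreg (Ideal.span ((fun i => (X i ^ M : MvPolynomial (Fin n) ℂ)) '' s))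
      (l.map fun i => X i ^ M) := by
  intro l
  induction l with
  | nil => exact fun _ _ _ => trivial
  | cons a l ih =>
    intro hl s hs
    rw [List.nodup_cons] at hl
    refine ⟨?_, ?_⟩
    · intro h hh
      have himg : (fun i => (X i ^ M : MvPolynomial (Fin n) ℂ)) '' s =
          (fun t => monomial t (1 : ℂ)) '' ((fun i => Finsupp.single i M) '' s) := by
        rw [Set.image_image]
        refine Set.image_congr fun i _ => ?_
        rw [X_pow_eq_monomial]
      rw [himg, mem_ideal_span_monomial_image] at hh ⊢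
      intro m hm
      have h1 : m + Finsupp.single a M ∈ (X a ^ M * h).support := by
        rw [mem_support_iff, X_pow_eq_monomial, add_comm, coeff_monomial_mul, one_mul]
        exact mem_support_iff.1 hm
      obtain ⟨si, ⟨i, hi, rfl⟩, h2⟩ := hh _ h1
      refine ⟨_, ⟨i, hi, rfl⟩, ?_⟩
      have h3 : i ≠ a := fun h => hs a (by simp) (h ▸ hi)
      have h4 := h2 i
      simp only [Finsupp.single_eq_same, Finsupp.add_apply] at h4
      rw [Finsupp.single_eq_of_ne h3, add_zero] at h4
      rw [Finsupp.single_le_iff]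
      exact h4
    · have h1 := ih hl.2 (insert a s) (fun b hb => by
        rw [Set.mem_insert_iff, not_or]
        exact ⟨fun h => hl.1 (h ▸ hb), hs b (List.mem_cons_of_mem _ hb)⟩)
      rw [Set.image_insert_eq, Ideal.span_insert, sup_comm] at h1
      exact h1

theorem Wreg_X_univ (M : ℕ) : Wreg (⊥ : Ideal (MvPolynomial (Fin n) ℂ))
    ((List.finRange n).map fun i => X i ^ M) := by
  have := Wreg_X (n := n) M (List.finRange n) (List.nodup_finRange n) ∅ (fun _ _ h => h)
  rwa [Set.image_empty, Ideal.span_empty] at this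

theorem JJ_succ {S : Type} [CommRing S] (f : ℕ → S) (k : ℕ) :
    JJ (fun j : Fin (k + 1) => f j) = JJ (fun j : Fin k => f j) ⊔ Ideal.span {f k} := by
  rw [JJ, JJ, ← Ideal.span_union]
  congr 1
  ext x
  simp only [Set.mem_range, Set.mem_union, Set.mem_singleton_iff]
  constructor
  · rintro ⟨j, rfl⟩
    rcases Nat.lt_succ_iff_lt_or_eq.1 j.2 with h | h
    · exact Or.inl ⟨⟨j, h⟩, rfl⟩
    · exact Or.inr (by rw [h])
  · rintro (⟨j, rfl⟩ | rfl)
    · exact ⟨Fin.castSucc j, rfl⟩
    · exact ⟨Fin.last k, rfl⟩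

/-- exchange with a prefix -/
theorem wreg_prefix {S : Type} [CommRing S] [IsNoetherianRing S] (I : Ideal S) (f : ℕ → S)
    (N : ℕ) (rs : List S) (hrs : rs.length = N) (hI : ∀ a ∈ rs, a ∈ I) (hreg : Wreg ⊥ rs) :
    ∀ k, k ≤ N → (∀ j < k, f j ∈ I) → (∀ j < k, NZ (JJ fun i : Fin j => f i) (f j)) →
      ∃ rs' : List S, rs'.length = N - k ∧ (∀ a ∈ rs', a ∈ I) ∧
        Wreg (JJ fun i : Fin k => f i) rs' := by
  intro k
  induction k with
  | zero =>
    intro _ _ _
    refine ⟨rs, by rw [hrs, Nat.sub_zero], hI, ?_⟩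
    have : JJ (fun i : Fin 0 => f i) = ⊥ := by
      rw [JJ, Set.range_eq_empty, Ideal.span_empty]
    rw [this]
    exact hreg
  | succ k ih =>
    intro hk hf hN
    obtain ⟨rs', h1, h2, h3⟩ := ih (by omega) (fun j hj => hf j (by omega))
      (fun j hj => hN j (by omega))
    obtain ⟨rs'', h4, h5, h6⟩ := exch I (N - (k + 1)) _ rs' (f k) (by rw [h1]; omega) h2
      (hf k (by omega)) h3 (hN k (by omega))
    refine ⟨rs'', h4, h5, ?_⟩
    rw [JJ_succ]
    exact h6

/-- **The forms are a regular sequence.** -/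
theorem nz_all (f : ℕ → MvPolynomial (Fin n) ℂ) (l : ℕ) (hl : l ≤ n)
    (h0 : ∀ j < l, eval 0 (f j) = 0) (hJ : ∀ k ≤ l, Jac fun j : Fin k => f j) :
    ∀ k < l, NZ (JJ fun i : Fin k => f i) (f k) := by
  intro k
  induction k using Nat.strong_induction_on with
  | _ k ih =>
    intro hk
    classical
    let I : Ideal (MvPolynomial (Fin n) ℂ) := RingHom.ker (eval (0 : Fin n → ℂ))
    obtain ⟨rs', h1, h2, h3⟩ := wreg_prefix I f n ((List.finRange n).map fun i => X i ^ 1)
      (by simp) (by
        intro a ha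
        rw [List.mem_map] at ha
        obtain ⟨i, _, rfl⟩ := ha
        rw [RingHom.mem_ker]
        simp) (Wreg_X_univ 1) k (by omega) (fun j hj => RingHom.mem_ker.2 (h0 j (by omega)))
      (fun j hj => ih j hj (by omega))
    obtain ⟨y, rs'', rfl⟩ := List.exists_cons_of_length_eq_add_one
      (show rs'.length = (n - k - 1) + 1 by omega)
    obtain ⟨M, hM⟩ := exists_pow_mem (hJ (k + 1) (by omega)) y (RingHom.mem_ker.1 (h2 y (by simp)))
      1
    -- the derivations
    choose V hV using fun e : Fin (k + 1) → Fin n => exists_dual (fun j : Fin (k + 1) => f j) e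
    let D : (Fin (k + 1) → Fin n) →
        Derivation ℂ (MvPolynomial (Fin n) ℂ) (MvPolynomial (Fin n) ℂ) :=
      fun e => ∑ i, V e (Fin.last k) i • pderiv i
    have hD : ∀ e (x : MvPolynomial (Fin n) ℂ), D e x = ∑ i, gr x i * V e (Fin.last k) i := by
      intro e x
      have h4 : ∀ s : Finset (Fin n), (∑ i ∈ s, V e (Fin.last k) i • pderiv i :
          Derivation ℂ (MvPolynomial (Fin n) ℂ) (MvPolynomial (Fin n) ℂ)) x =
            ∑ i ∈ s, gr x i * V e (Fin.last k) i := by
        intro s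
        induction s using Finset.induction_on with
        | empty => simp
        | insert a s ha ih =>
          rw [Finset.sum_insert ha, Finset.sum_insert ha, Derivation.add_apply, ih,
            Derivation.smul_apply, smul_eq_mul, mul_comm]
          rfl
      exact h4 Finset.univ
    refine nz_of_der _ (f k) y M (Set.range D) ?_ h3.1 ?_
    · rintro δ ⟨e, rfl⟩ x hx
      obtain ⟨b, rfl⟩ := (Submodule.mem_span_range_iff_exists_fun _).1 hx
      rw [map_sum]
      refine Ideal.sum_mem _ fun j _ => ?_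
      have h4 : D e (f j) = 0 := by
        rw [hD]
        have h5 := hV e (Fin.castSucc j) (Fin.last k)
        rw [if_neg (Fin.castSucc_lt_last j).ne] at h5
        exact h5
      rw [smul_eq_mul, Derivation.leibniz, h4, smul_zero, zero_add, smul_eq_mul]
      exact Ideal.mul_mem_right _ _ (Ideal.subset_span ⟨j, rfl⟩)
    · refine (?_ : Ideal.span (Set.range fun e => dlt (fun j : Fin (k + 1) => f j) e ^ 1) ⊔
        JJ (fun j : Fin (k + 1) => f j) ≤ _) hM
      refine sup_le (Ideal.span_le.2 ?_) ?_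
      · rintro _ ⟨e, rfl⟩
        refine Ideal.mem_sup_right (Ideal.subset_span (Or.inr ⟨D e, ⟨e, rfl⟩, ?_⟩))
        simp only
        rw [hD, pow_one]
        have h5 := hV e (Fin.last k) (Fin.last k)
        rw [if_pos rfl] at h5
        exact h5
      · rw [JJ_succ]
        refine sup_le le_sup_left (le_sup_of_le_right (Ideal.span_mono ?_))
        rw [Set.singleton_subset_iff]
        exact Set.mem_insert _ _

/-- the Koszul property -/
theorem kk_succ {S : Type} [CommRing S] (c : ℕ) (f : ℕ → S) (hK : KK fun j : Fin c => f j)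
    (hN : NZ (JJ fun j : Fin c => f j) (f c)) : KK fun j : Fin (c + 1) => f j := by
  intro u hu
  rw [Fin.sum_univ_castSucc] at hu
  simp only [Fin.val_castSucc, Fin.val_last] at hu
  have h1 : f c * u (Fin.last c) ∈ JJ fun j : Fin c => f j := by
    have : f c * u (Fin.last c) = -∑ j : Fin c, f j * u (Fin.castSucc j) := by
      linear_combination hu
    rw [this]
    exact neg_mem (Ideal.sum_mem _ fun j _ => Ideal.mul_mem_right _ _
      (Ideal.subset_span ⟨j, rfl⟩))
  obtain ⟨w, hw⟩ := (Submodule.mem_span_range_iff_exists_fun _).1 (hN _ h1)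
  have h2 : ∑ j : Fin c, f j * (u (Fin.castSucc j) + f c * w j) = 0 := by
    rw [← hu, ← hw, Finset.mul_sum, ← Finset.sum_add_distrib]
    refine Finset.sum_congr rfl fun j _ => ?_
    rw [smul_eq_mul]
    ring
  obtain ⟨τ0, hτ1, hτ2⟩ := hK _ h2
  let τ : Fin (c + 1) → Fin (c + 1) → S := fun j m =>
    Fin.lastCases (motive := fun _ => S) (Fin.lastCases (motive := fun _ => S) 0 w m)
      (fun j => Fin.lastCases (motive := fun _ => S) (-w j) (fun m => τ0 j m) m) j
  have e1 : ∀ j m : Fin c, τ (Fin.castSucc j) (Fin.castSucc m) = τ0 j m := fun j m => by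
    simp [τ]
  have e2 : ∀ j : Fin c, τ (Fin.castSucc j) (Fin.last c) = -w j := fun j => by simp [τ]
  have e3 : ∀ m : Fin c, τ (Fin.last c) (Fin.castSucc m) = w m := fun m => by simp [τ]
  have e4 : τ (Fin.last c) (Fin.last c) = 0 := by simp [τ]
  refine ⟨τ, fun j m => ?_, fun j => ?_⟩
  · induction j using Fin.lastCases with
    | last =>
      induction m using Fin.lastCases with
      | last => rw [e4, neg_zero]
      | cast m => rw [e3, e2, neg_neg]
    | cast j =>
      induction m using Fin.lastCases with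
      | last => rw [e2, e3]
      | cast m => rw [e1, e1, hτ1]
  · induction j using Fin.lastCases with
    | last =>
      rw [Fin.sum_univ_castSucc, e4, mul_zero, add_zero, ← hw]
      refine Finset.sum_congr rfl fun m _ => ?_
      rw [e3, smul_eq_mul, mul_comm]
      rfl
    | cast j =>
      rw [Fin.sum_univ_castSucc, e2]
      have h3 : ∑ m : Fin c, f ((Fin.castSucc m : Fin (c + 1)) : ℕ) *
          τ (Fin.castSucc j) (Fin.castSucc m) = ∑ m : Fin c, f m * τ0 j m :=
        Finset.sum_congr rfl fun m _ => by rw [e1]; rfl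
      have h4 : ∀ x : S, (fun j : Fin (c + 1) => f j) (Fin.last c) * x = f c * x := fun x => rfl
      have h5 := hτ2 j
      simp only [Fin.val_castSucc] at h3 h5 ⊢
      rw [h3, ← h5, Fin.val_last]
      ring

theorem kk_prefix {S : Type} [CommRing S] (f : ℕ → S) (c : ℕ)
    (hN : ∀ k < c, NZ (JJ fun j : Fin k => f j) (f k)) : KK fun j : Fin c => f j := by
  induction c with
  | zero =>
    intro u _
    exact ⟨fun j _ => j.elim0, fun j => j.elim0, fun j => j.elim0⟩
  | succ c ih => exact kk_succ c f (ih fun k hk => hN k (by omega)) (hN c (by omega))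

/-- the gradients of the first `c` forms, in reversed order -/
noncomputable def Lg (f : ℕ → MvPolynomial (Fin n) ℂ) :
    ℕ → List (Fin n → MvPolynomial (Fin n) ℂ)
  | 0 => []
  | c + 1 => gr (f c) :: Lg f c

theorem Lg_length (f : ℕ → MvPolynomial (Fin n) ℂ) (c : ℕ) : (Lg f c).length = c := by
  induction c with
  | zero => rfl
  | succ c ih => rw [Lg, List.length_cons, ih]

theorem mem_Lg (f : ℕ → MvPolynomial (Fin n) ℂ) (c : ℕ) {v : Fin n → MvPolynomial (Fin n) ℂ}
    (hv : v ∈ Lg f c) : ∃ j < c, v = gr (f j) := by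
  induction c with
  | zero => simp [Lg] at hv
  | succ c ih =>
    rcases List.mem_cons.1 hv with h | h
    · exact ⟨c, by omega, h⟩
    · obtain ⟨j, hj, h⟩ := ih h
      exact ⟨j, by omega, h⟩

theorem dual_Lg {u : MvPolynomial (Fin n) ℂ} (f : ℕ → MvPolynomial (Fin n) ℂ) : ∀ {l : ℕ}
    (V : Fin l → Fin n → MvPolynomial (Fin n) ℂ),
    (∀ j m : Fin l, ∑ i, gr (f j) i * V m i = if j = m then u else 0) →
      ∃ Vs, Dual u (Lg f l) Vs := by
  intro l
  induction l with
  | zero => exact fun V _ => ⟨[], trivial⟩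
  | succ l ih =>
    intro V h
    obtain ⟨Vs, hVs⟩ := ih (fun m => V (Fin.castSucc m)) (fun j m => by
      have := h (Fin.castSucc j) (Fin.castSucc m)
      rw [Fin.val_castSucc] at this
      rw [this]
      simp [Fin.castSucc_inj])
    refine ⟨V (Fin.last l) :: Vs, ?_, ?_, hVs⟩
    · simpa using h (Fin.last l) (Fin.last l)
    · intro v' hv'
      obtain ⟨j, hj, rfl⟩ := mem_Lg f l hv'
      have := h (Fin.castSucc ⟨j, hj⟩) (Fin.last l)
      rwa [if_neg (Fin.castSucc_lt_last _).ne] at this

theorem good_dlt (f : ℕ → MvPolynomial (Fin n) ℂ) (c : ℕ) (e : Fin c → Fin n)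
    (I : Ideal (MvPolynomial (Fin n) ℂ)) :
    GoodA (Lg f c) I (dlt (fun j : Fin c => f j) e ^ c) := by
  obtain ⟨V, hV⟩ := exists_dual (fun j : Fin c => f j) e
  obtain ⟨Vs, h1⟩ := dual_Lg f V hV
  have h2 := goodA_of_dual h1 I
  rwa [Lg_length] at h2

/-- the regular sequence needed for Saito's lemma -/
theorem exists_rs (f : ℕ → MvPolynomial (Fin n) ℂ) (c : ℕ) (hl : c + 1 ≤ n)
    (h0 : ∀ j < c + 1, eval 0 (f j) = 0) (hJ : ∀ k ≤ c + 1, Jac fun j : Fin k => f j) :
    ∃ rs : List (MvPolynomial (Fin n) ℂ), rs.length = n - (c + 1) ∧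
      Wreg (JJ fun j : Fin (c + 1) => f j) rs ∧
      ∀ a ∈ rs, GoodA (Lg f (c + 1)) (JJ fun j : Fin (c + 1) => f j) a := by
  classical
  set I := Ideal.span (Set.range fun e => dlt (fun j : Fin (c + 1) => f j) e ^ (c + 1)) ⊔
    JJ (fun j : Fin (c + 1) => f j) with hI
  have h1 : ∃ M, ∀ i : Fin n, (X i ^ M : MvPolynomial (Fin n) ℂ) ∈ I := by
    choose M hM using fun i : Fin n => exists_pow_mem (hJ (c + 1) le_rfl) (X i)
      (by simp) (c + 1)
    refine ⟨∑ i, M i, fun i => ?_⟩
    obtain ⟨K, hK⟩ := Nat.exists_eq_add_of_le (Finset.single_le_sum (f := M)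
      (fun _ _ => Nat.zero_le _) (Finset.mem_univ i))
    rw [hK, pow_add]
    exact Ideal.mul_mem_right _ _ (hM i)
  obtain ⟨M, hM⟩ := h1
  obtain ⟨rs, h2, h3, h4⟩ := wreg_prefix I f n ((List.finRange n).map fun i => X i ^ M)
    (by simp) (by
      intro a ha
      rw [List.mem_map] at ha
      obtain ⟨i, _, rfl⟩ := ha
      exact hM i) (Wreg_X_univ M) (c + 1) hl
    (fun j hj => Ideal.mem_sup_right (Ideal.subset_span ⟨⟨j, hj⟩, rfl⟩))
    (nz_all f (c + 1) hl h0 hJ)
  refine ⟨rs, h2, h4, fun a ha => ?_⟩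
  refine GoodA.of_span ?_ (h3 a ha)
  rintro _ ⟨e, rfl⟩
  exact good_dlt f (c + 1) e _

end ca2

end Pool.Agent.H35.CI
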