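import Pool.Agent.H35.CI.Red2

set_option autoImplicit false
set_option linter.unusedSectionVars false
set_option linter.unusedVariables false

/-! # The vector field -/

namespace Pool.Agent.H35.CI

open MvPolynomial Pool.Agent.W574.SM

theorem pderiv_swap {σ : Type} [DecidableEq σ] (s t : σ) (x : MvPolynomial σ ℂ) :
    pderiv s (pderiv t x) = pderiv t (pderiv s x) := by
  have h : ⁅(pderiv s : Derivation ℂ (MvPolynomial σ ℂ) (MvPolynomial σ ℂ)),
      (pderiv t : Derivation ℂ (MvPolynomial σ ℂ) (MvPolynomial σ ℂ))⁆ = 0 := by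
    refine derivation_ext fun i => ?_
    rw [Derivation.commutator_apply, pderiv_X, pderiv_X, Derivation.zero_apply, Pi.single_apply,
      Pi.single_apply]
    split_ifs <;> simp
  have h1 := congrArg (fun D => D x) h
  simp only [Derivation.commutator_apply, Derivation.zero_apply] at h1
  exact sub_eq_zero.1 h1

/-- Derivations extend to localizations. -/
theorem exists_der_loc {k A B : Type} [Field k] [CommRing A] [CommRing B] [Algebra k A]
    [Algebra k B] [Algebra A B] [IsScalarTower k A B] (M : Submonoid A) [IsLocalization M B]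
    (E : Derivation k A A) : ∃ E' : Derivation k B B,
      ∀ b, E' (algebraMap A B b) = algebraMap A B (E b) := by
  have hfe : Algebra.FormallyEtale A B := Algebra.FormallyEtale.of_isLocalization M
  let l0 : Ω[A⁄k] →ₗ[A] B := (Algebra.linearMap A B) ∘ₗ E.liftKaehlerDifferential
  let l : TensorProduct A B Ω[A⁄k] →ₗ[B] B := LinearMap.liftBaseChange B l0
  let e := KaehlerDifferential.tensorKaehlerEquivOfFormallyEtale k A B
  refine ⟨(l ∘ₗ e.symm.toLinearMap).compDer (KaehlerDifferential.D k B), fun c => ?_⟩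
  change l (e.symm (KaehlerDifferential.D k B (algebraMap A B c))) = _
  rw [KaehlerDifferential.tensorKaehlerEquivOfFormallyEtale_symm_D_algebraMap,
    LinearMap.liftBaseChange_tmul, one_smul]
  change algebraMap A B (E.liftKaehlerDifferential (KaehlerDifferential.D k A c)) = _
  rw [Derivation.liftKaehlerDifferential_comp_D]

/-- the localization at `g` -/
theorem exists_loc (σ : Type) [DecidableEq σ] (g : MvPolynomial σ ℂ) (hg : g ≠ 0) :
    ∃ (B : Type) (_ : CommRing B) (_ : Algebra ℂ B) (φ : MvPolynomial σ ℂ →ₐ[ℂ] B) (w : B)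
      (θ : σ → Derivation ℂ B B), φ g * w = 1 ∧ Function.Injective φ ∧
      (∀ u : B, ∃ (N : ℕ) (a : MvPolynomial σ ℂ), u = φ a * w ^ N) ∧
      ∀ i p, θ i (φ p) = φ (pderiv i p) := by
  have hder := fun i : σ => exists_der_loc (k := ℂ) (A := MvPolynomial σ ℂ)
    (B := Localization.Away g) (Submonoid.powers g) (pderiv i)
  choose θ hθ using hder
  refine ⟨Localization.Away g, inferInstance, inferInstance,
    IsScalarTower.toAlgHom ℂ (MvPolynomial σ ℂ) (Localization.Away g),
    IsLocalization.Away.invSelf g, θ, ?_, ?_, ?_, fun i p => hθ i p⟩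
  · exact IsLocalization.Away.mul_invSelf g
  · exact IsLocalization.injective (Localization.Away g)
      (powers_le_nonZeroDivisors_of_noZeroDivisors hg)
  · intro u
    obtain ⟨N, a, h⟩ := IsLocalization.Away.surj g u
    refine ⟨N, a, ?_⟩
    have h1 : (algebraMap (MvPolynomial σ ℂ) (Localization.Away g)) g *
        IsLocalization.Away.invSelf g = 1 := IsLocalization.Away.mul_invSelf g
    change u = algebraMap (MvPolynomial σ ℂ) (Localization.Away g) a *
      IsLocalization.Away.invSelf g ^ N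
    rw [← h, mul_assoc, ← mul_pow, h1, one_pow, mul_one]

section cr

variable {σ ι κ : Type} [Fintype σ] [DecidableEq σ] [Fintype ι] [DecidableEq ι]
  [Fintype κ] [DecidableEq κ]

theorem mem_JJ_loc {B : Type} [CommRing B] [Algebra ℂ B] {φ : MvPolynomial σ ℂ →ₐ[ℂ] B}
    {w : B} {g : MvPolynomial σ ℂ} (hw : φ g * w = 1)
    (hsurj : ∀ u : B, ∃ (N : ℕ) (a : MvPolynomial σ ℂ), u = φ a * w ^ N)
    (F : κ → MvPolynomial σ ℂ) {x : B} (hx : x ∈ JJ fun k => φ (F k)) :
    ∃ (N : ℕ) (a : MvPolynomial σ ℂ), a ∈ JJ F ∧ x = φ a * w ^ N := by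
  obtain ⟨b, rfl⟩ := (Submodule.mem_span_range_iff_exists_fun B).1 hx
  choose N a hNa using fun k => hsurj (b k)
  refine ⟨∑ k, N k, ∑ k, g ^ (∑ k, N k - N k) * a k * F k, Ideal.sum_mem _ fun k _ =>
    Ideal.mul_mem_left _ _ (Ideal.subset_span ⟨k, rfl⟩), ?_⟩
  rw [map_sum, Finset.sum_mul]
  refine Finset.sum_congr rfl fun k _ => ?_
  have hk : N k ≤ ∑ k, N k := Finset.single_le_sum (f := N) (fun _ _ => Nat.zero_le _)
    (Finset.mem_univ k)
  obtain ⟨M, hM⟩ := Nat.exists_eq_add_of_le hk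
  have h1 : ∑ k, N k - N k = M := by omega
  rw [h1, hM, hNa k, map_mul, map_mul, map_pow, smul_eq_mul, pow_add]
  have h2 : (φ g) ^ M * w ^ M = 1 := by rw [← mul_pow, hw, one_pow]
  linear_combination (-(φ (a k) * φ (F k) * w ^ N k)) * h2

theorem KK_loc {B : Type} [CommRing B] [Algebra ℂ B] {φ : MvPolynomial σ ℂ →ₐ[ℂ] B}
    {w : B} {g : MvPolynomial σ ℂ} (hw : φ g * w = 1) (hinj : Function.Injective φ)
    (hsurj : ∀ u : B, ∃ (N : ℕ) (a : MvPolynomial σ ℂ), u = φ a * w ^ N)
    {F : κ → MvPolynomial σ ℂ} (hK : KK F) : KK fun k => φ (F k) := by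
  intro u hu
  choose N a hNa using fun k => hsurj (u k)
  have hk : ∀ k, N k ≤ ∑ k, N k := fun k => Finset.single_le_sum (f := N)
    (fun _ _ => Nat.zero_le _) (Finset.mem_univ k)
  set T := ∑ k, N k with hT
  have hwp : ∀ M : ℕ, (φ g) ^ M * w ^ M = 1 := fun M => by rw [← mul_pow, hw, one_pow]
  have hu' : ∀ k, u k = φ (g ^ (T - N k) * a k) * w ^ T := by
    intro k
    obtain ⟨M, hM⟩ := Nat.exists_eq_add_of_le (hk k)
    have h1 : T - N k = M := by omega
    rw [h1, hM, hNa k, map_mul, map_pow, pow_add]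
    linear_combination (-(φ (a k) * w ^ N k)) * hwp M
  have h1 : ∑ k, F k * (g ^ (T - N k) * a k) = 0 := by
    apply hinj
    rw [map_zero, map_sum]
    have h2 := congrArg (fun x => x * (φ g) ^ T) hu
    simp only [zero_mul, Finset.sum_mul] at h2
    rw [← h2]
    refine Finset.sum_congr rfl fun k _ => ?_
    rw [hu' k, map_mul]
    linear_combination (-(φ (F k) * φ (g ^ (T - N k) * a k))) * hwp T
  obtain ⟨τ, hτ1, hτ2⟩ := hK _ h1
  refine ⟨fun j m => φ (τ j m) * w ^ T, fun j m => ?_, fun j => ?_⟩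
  · beta_reduce
    rw [hτ1 j m, map_neg]
    ring
  · rw [hu' j, hτ2 j, map_sum, Finset.sum_mul]
    refine Finset.sum_congr rfl fun m _ => ?_
    rw [map_mul]
    ring

/-- **The vector field.** -/
theorem exists_vf (f : ι → MvPolynomial σ ℂ) (d : ι → ℕ) (e : κ → ι)
    (he : Function.Injective e) (o : ι) (heo : ∀ k, e k ≠ o) (Bc : Finset ι)
    (hBc : ∀ j ∈ Bc, j ≠ o ∧ ∀ k, e k ≠ j)
    (hall : ∀ j, j = o ∨ (∃ k, e k = j) ∨ j ∈ Bc)
    (s : ℂ) (hs : s * d o = -((Fintype.card σ : ℂ) - ∑ k, (d (e k) : ℂ)))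
    (hg : f o ≠ 0) (hK : KK fun k => f (e k)) (M : ℕ) (V : κ → σ → MvPolynomial σ ℂ)
    (hV : ∀ j m, ∑ i, pderiv i (f (e j)) * V m i - (if j = m then f o ^ M else 0) ∈
      JJ fun k => f (e k)) (hZ : ZZ f d (Finset.univ.image e) Bc 1) :
    ∃ (N : ℕ) (Q : σ → MvPolynomial σ ℂ),
      (∀ j, ∑ i, pderiv i (f (e j)) * Q i ∈ JJ fun k : κ × κ => f (e k.1) * f (e k.2)) ∧
      ∑ i, (f o * pderiv i (Q i) + C (s - N) * (Q i * pderiv i (f o))) - f o ^ (N + 1) ∈
        JJ fun k => f (e k) := by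
  classical
  obtain ⟨B, _, _, φ, w, θ, hw, hinj, hsurj, hθ⟩ := exists_loc σ (f o) hg
  set F : κ → B := fun k => φ (f (e k)) with hF
  set c : σ → B := fun i => algebraMap ℂ B s * (φ (pderiv i (f o)) * w) with hc
  have hθF : ∀ i k, θ i (F k) = φ (pderiv i (f (e k))) := fun i k => hθ i _
  have hother : ∀ j ∈ Bc, ∀ q, TT φ e o w s (X j * q) = 0 := fun j hj q =>
    TT_other φ e o w s he heo j (hBc j hj).1 (hBc j hj).2 q
  obtain ⟨q, p, u, z, hrel⟩ := hZ
  have hdh : ∀ i q, TT φ e o w s (dh f i q) = Dq θ c F i (TT φ e o w s q) := by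
    intro i q
    rw [TT_dh θ e o w s he heo hw hθ (fun j => ?_) i q, Dq]
    · congr 2
      rw [ai]
      refine Finset.sum_congr rfl fun k _ => ?_
      rw [hθF]
    · rcases hall j with h | h | h
      · exact Or.inl h
      · exact Or.inr (Or.inl h)
      · exact Or.inr (Or.inr (hother j h))
  have htj : ∀ k q, TT φ e o w s (tj f (e k) q) = tq F k (TT φ e o w s q) := by
    intro k q
    rw [tj, TT_add, TT_C, TT_pderiv φ e o w s he heo, tq]
  have heul : TT φ e o w s (eul f d z) =
      ∑ k, tq F k (C (algebraMap ℂ B (d (e k) : ℂ)) * (X k * TT φ e o w s z)) := by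
    have h1 : ∀ k, TT φ e o w s (theta f (e k) z) =
        tq F k (X k * TT φ e o w s z) - TT φ e o w s z := by
      intro k
      rw [theta_eq, TT_X φ e o w s he heo, htj, tq, tq, Derivation.leibniz, pderiv_X_self,
        smul_eq_mul, smul_eq_mul]
      ring
    have h2 : ∀ (a : ℂ) k (P : MvPolynomial κ B), tq F k (C (algebraMap ℂ B a) * P) =
        C (algebraMap ℂ B a) * tq F k P := by
      intro a k P
      rw [tq, tq, Derivation.leibniz, pderiv_C, smul_zero, add_zero, smul_eq_mul]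
      ring
    have h3 : ∀ a : ℂ, φ (C a) = algebraMap ℂ B a := fun a => φ.commutes a
    rw [eul, TT_add, TT_sum, TT_C, h3]
    simp only [TT_C, h3, h2]
    have h4 : ∑ j, C (algebraMap ℂ B (d j : ℂ)) * TT φ e o w s (theta f j z) =
        ∑ j ∈ insert o (Finset.univ.image e), C (algebraMap ℂ B (d j : ℂ)) *
          TT φ e o w s (theta f j z) := by
      symm
      refine Finset.sum_subset (Finset.subset_univ _) fun j _ hj => ?_
      rw [Finset.mem_insert, Finset.mem_image, not_or] at hj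
      rcases hall j with h | ⟨k, h⟩ | h
      · exact absurd h hj.1
      · exact absurd ⟨k, Finset.mem_univ k, h⟩ hj.2
      · rw [theta_eq, hother j h, mul_zero]
    rw [h4, Finset.sum_insert, Finset.sum_image fun a _ b _ h => he h]
    · simp only [h1]
      rw [TT_theta e o w s he heo hw, ← mul_assoc, ← C_mul, ← map_mul]
      simp only [mul_sub, Finset.sum_sub_distrib]
      rw [← Finset.sum_mul, ← map_sum, ← map_sum]
      have h5 : (C (algebraMap ℂ B ((d o : ℂ) * s)) : MvPolynomial κ B) =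
          C (algebraMap ℂ B (∑ k, (d (e k) : ℂ))) - C (algebraMap ℂ B (Fintype.card σ : ℂ)) := by
        rw [← map_sub, ← map_sub]
        congr 2
        linear_combination hs
      rw [h5]
      ring
    · rw [Finset.mem_image]
      rintro ⟨k, -, hk⟩
      exact heo k hk
  have hone : TT φ e o w s 1 = 1 := by
    have h1 : (1 : MvPolynomial ι (MvPolynomial σ ℂ)) = monomial 0 1 := rfl
    rw [h1, TT_monomial, map_one, C_1, one_mul, cf,
      if_pos (show Only e o (0 : ι →₀ ℕ) from fun j _ _ => rfl),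
      Finsupp.coe_zero, Pi.zero_apply, an_zero]
    have : rs e (0 : ι →₀ ℕ) = 0 := by
      ext k
      rfl
    rw [this]
    rfl
  have hrel' : ∑ i, Dq θ c F i (TT φ e o w s (q i)) +
      ∑ k, tq F k (TT φ e o w s (p (e k)) +
        C (algebraMap ℂ B (d (e k) : ℂ)) * (X k * TT φ e o w s z)) = 1 := by
    rw [← hone, hrel, TT_add, TT_add, TT_add, TT_sum, TT_sum, TT_sum, heul,
      Finset.sum_image fun a _ b _ h => he h, Finset.sum_eq_zero fun j hj => hother j hj (u j)]
    simp only [hdh, htj, tq_add, Finset.sum_add_distrib]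
    ring
  -- the structure on `B`
  have hwp : ∀ M : ℕ, (φ (f o)) ^ M * w ^ M = 1 := fun M => by rw [← mul_pow, hw, one_pow]
  have hdw : ∀ i, θ i w = -(w * w * φ (pderiv i (f o))) := fun i => deriv_w hw hθ i
  have hdwp : ∀ (i : σ) (N : ℕ), θ i (w ^ N) = -((N : B) * φ (pderiv i (f o)) * w ^ (N + 1)) := by
    intro i N
    rw [Derivation.leibniz_pow, hdw, nsmul_eq_mul, smul_eq_mul]
    rcases N with _ | N
    · simp
    · rw [Nat.add_sub_cancel]
      ring
  have hcomm : ∀ i m u, θ i (θ m u) = θ m (θ i u) := by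
    intro i m u
    obtain ⟨N, a, rfl⟩ := hsurj u
    simp only [Derivation.leibniz, hθ, hdwp, smul_eq_mul, map_add, map_neg,
      Derivation.map_natCast, pderiv_swap i m]
    ring
  have hcc : ∀ i m, θ i (c m) = θ m (c i) := by
    intro i m
    simp only [hc, Derivation.leibniz, hθ, hdw, smul_eq_mul, Derivation.map_algebraMap,
      pderiv_swap i m]
    ring
  have hJmap : ∀ x ∈ JJ (fun k => f (e k)), φ x ∈ JJ F := by
    intro x hx
    obtain ⟨b, rfl⟩ := (Submodule.mem_span_range_iff_exists_fun _).1 hx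
    rw [map_sum]
    refine Ideal.sum_mem _ fun k _ => ?_
    rw [smul_eq_mul, map_mul]
    exact Ideal.mul_mem_left _ _ (Ideal.subset_span ⟨k, rfl⟩)
  have hV' : ∀ j m, ∑ i, θ i (F j) * (φ (V m i) * w ^ M) - (if j = m then 1 else 0) ∈ JJ F := by
    intro j m
    have h1 := Ideal.mul_mem_right (w ^ M) _ (hJmap _ (hV j m))
    have h2 : ∑ i, θ i (F j) * (φ (V m i) * w ^ M) - (if j = m then 1 else 0) =
        φ (∑ i, pderiv i (f (e j)) * V m i - (if j = m then f o ^ M else 0)) * w ^ M := by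
      rw [map_sub, sub_mul, map_sum, Finset.sum_mul]
      congr 1
      · refine Finset.sum_congr rfl fun i _ => ?_
        rw [hθF, map_mul]
        ring
      · split_ifs
        · rw [map_pow, hwp]
        · rw [map_zero, zero_mul]
    rw [h2]
    exact h1
  obtain ⟨q0, hq1, hq2⟩ := reduce hcomm hcc (KK_loc hw hinj hsurj hK) (fun m i => φ (V m i) * w ^ M)
    hV' _ _ hrel'
  -- clearing the denominators
  choose N0 a0 ha0 using fun i => hsurj (q0 i)
  set N1 := ∑ i, N0 i with hN1
  have hN0 : ∀ i, N0 i ≤ N1 := fun i => Finset.single_le_sum (f := N0)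
    (fun _ _ => Nat.zero_le _) (Finset.mem_univ i)
  set a1 : σ → MvPolynomial σ ℂ := fun i => f o ^ (N1 - N0 i) * a0 i with ha1
  have hq0 : ∀ i, q0 i = φ (a1 i) * w ^ N1 := by
    intro i
    obtain ⟨M, hM⟩ := Nat.exists_eq_add_of_le (hN0 i)
    have h1 : N1 - N0 i = M := by omega
    simp only [ha1]
    rw [h1, hM, ha0 i, map_mul, map_pow, pow_add]
    linear_combination (-(φ (a0 i) * w ^ N0 i)) * hwp M
  clear_value a1
  -- membership
  have hclear : ∀ P : MvPolynomial σ ℂ, φ P ∈ JJ F → ∃ K, f o ^ K * P ∈ JJ fun k => f (e k) := by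
    intro P hP
    obtain ⟨K, a, ha, h⟩ := mem_JJ_loc hw hsurj _ hP
    refine ⟨K, ?_⟩
    have h1 : f o ^ K * P = a := by
      apply hinj
      rw [map_mul, map_pow, h]
      linear_combination (φ a) * hwp K
    rw [h1]
    exact ha
  have hclear2 : ∀ P : MvPolynomial σ ℂ, φ P ∈ (JJ fun k : κ × κ => F k.1 * F k.2) →
      ∃ K, f o ^ K * P ∈ JJ fun k : κ × κ => f (e k.1) * f (e k.2) := by
    intro P hP
    have hF2 : (fun k : κ × κ => F k.1 * F k.2) =
        fun k : κ × κ => φ ((fun k : κ × κ => f (e k.1) * f (e k.2)) k) := by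
      funext k
      exact (map_mul φ _ _).symm
    rw [hF2] at hP
    obtain ⟨K, a, ha, h⟩ := mem_JJ_loc (κ := κ × κ) hw hsurj _ hP
    refine ⟨K, ?_⟩
    have h1 : f o ^ K * P = a := by
      apply hinj
      rw [map_mul, map_pow, h]
      linear_combination (φ a) * hwp K
    rw [h1]
    exact ha
  have hq1' : ∀ j, ∃ K, f o ^ K * ∑ i, pderiv i (f (e j)) * a1 i ∈
      JJ fun k : κ × κ => f (e k.1) * f (e k.2) := by
    intro j
    apply hclear2
    have h1 : (∑ i, θ i (F j) * q0 i) * (φ (f o)) ^ N1 ∈ JJ fun k : κ × κ => F k.1 * F k.2 :=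
      Ideal.mul_mem_right ((φ (f o)) ^ N1) _ (hq1 j)
    have h2 : (∑ i, θ i (F j) * q0 i) * (φ (f o)) ^ N1 =
        φ (∑ i, pderiv i (f (e j)) * a1 i) := by
      rw [map_sum, Finset.sum_mul]
      refine Finset.sum_congr rfl fun i _ => ?_
      rw [hq0, hθF, map_mul]
      linear_combination (φ (pderiv i (f (e j))) * φ (a1 i)) * hwp N1
    rw [← h2]
    exact h1
  obtain ⟨K2, hK2⟩ : ∃ K, f o ^ K * (∑ i, (f o * pderiv i (a1 i) + C (s - N1) *
      (a1 i * pderiv i (f o))) - f o ^ (N1 + 1)) ∈ JJ fun k => f (e k) := by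
    apply hclear
    have h1 := Ideal.mul_mem_right ((φ (f o)) ^ (N1 + 1)) _ hq2
    have h3 : ∀ a : ℂ, φ (C a) = algebraMap ℂ B a := fun a => φ.commutes a
    have h2 : φ (∑ i, (f o * pderiv i (a1 i) + C (s - N1) * (a1 i * pderiv i (f o))) -
        f o ^ (N1 + 1)) = (∑ i, (θ i (q0 i) + c i * q0 i) - 1) * (φ (f o)) ^ (N1 + 1) := by
      rw [map_sub, sub_mul, one_mul, map_pow, map_sum, Finset.sum_mul]
      congr 1
      refine Finset.sum_congr rfl fun i _ => ?_
      rw [hq0, Derivation.leibniz, hθ, hdwp, smul_eq_mul, smul_eq_mul, map_add, map_mul, map_mul,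
        map_mul, h3, map_sub, map_natCast]
      simp only [hc]
      have e1 := hwp N1
      have e2 := hwp (N1 + 1)
      rw [pow_succ, pow_succ] at e2
      rw [pow_succ, pow_succ]
      linear_combination (-(φ (f o) * φ (pderiv i (a1 i)))) * e1 +
        ((N1 : B) * φ (a1 i) * φ (pderiv i (f o))) * e2 -
          (algebraMap ℂ B s * φ (pderiv i (f o)) * φ (a1 i)) * e2
    rw [h2]
    exact h1
  choose K1 hK1 using hq1'
  set K := ∑ j, K1 j + K2 with hKdef
  refine ⟨N1 + K, fun i => f o ^ K * a1 i, fun j => ?_, ?_⟩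
  · have h1 : K1 j ≤ K := by
      have := Finset.single_le_sum (f := K1) (fun _ _ => Nat.zero_le _) (Finset.mem_univ j)
      omega
    obtain ⟨M, hM⟩ := Nat.exists_eq_add_of_le h1
    have h2 : ∑ i, pderiv i (f (e j)) * (f o ^ K * a1 i) =
        f o ^ M * (f o ^ K1 j * ∑ i, pderiv i (f (e j)) * a1 i) := by
      rw [hM, Finset.mul_sum, Finset.mul_sum]
      refine Finset.sum_congr rfl fun i _ => ?_
      rw [pow_add]
      ring
    rw [h2]
    exact Ideal.mul_mem_left _ _ (hK1 j)
  · have h1 : K2 ≤ K := by omega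
    obtain ⟨M, hM⟩ := Nat.exists_eq_add_of_le h1
    have h2 : ∑ i, (f o * pderiv i (f o ^ K * a1 i) + C (s - ((N1 + K : ℕ) : ℂ)) *
        (f o ^ K * a1 i * pderiv i (f o))) - f o ^ (N1 + K + 1) =
        f o ^ M * (f o ^ K2 * (∑ i, (f o * pderiv i (a1 i) + C (s - N1) *
          (a1 i * pderiv i (f o))) - f o ^ (N1 + 1))) := by
      have h3 : ∀ i, f o * pderiv i (f o ^ K * a1 i) + C (s - ((N1 + K : ℕ) : ℂ)) *
          (f o ^ K * a1 i * pderiv i (f o)) = f o ^ K * (f o * pderiv i (a1 i) + C (s - N1) *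
            (a1 i * pderiv i (f o))) := by
        intro i
        have h5 : (C (s - ((N1 + K : ℕ) : ℂ)) : MvPolynomial σ ℂ) =
            C (s - N1) - (K : MvPolynomial σ ℂ) := by
          push_cast
          rw [← sub_sub, C_sub]
          simp only [map_natCast]
        rw [h5, Derivation.leibniz, Derivation.leibniz_pow, smul_eq_mul, smul_eq_mul,
          nsmul_eq_mul]
        rcases K with _ | K
        · simp
        · rw [Nat.add_sub_cancel, smul_eq_mul]
          push_cast
          ring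
      rw [Finset.sum_congr rfl fun i _ => h3 i, ← Finset.mul_sum, ← mul_assoc, ← pow_add,
        add_comm M K2, ← hM, mul_sub]
      congr 1
      rw [← pow_add]
      congr 1
      ring
    rw [h2]
    exact Ideal.mul_mem_left _ _ hK2

end cr

end Pool.Agent.H35.CI
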