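import Pool.Agent.H35.CI.DR

set_option autoImplicit false
set_option linter.unusedSectionVars false
set_option linter.unusedVariables false

/-! # The descending induction -/

namespace Pool.Agent.H35.CI

open MvPolynomial

theorem Pr_kk_mod {S : Type} [CommRing S] {n : ℕ} (I : Ideal S) (L : List (Fin n → S))
    (V : Fin n → S) (hV : ∀ v ∈ L, ∑ i, v i * V i ∈ I) (φ : Fm S n) :
    InI I (Pr L (kk V φ) - (-1 : S) ^ L.length • kk V (Pr L φ)) := by
  induction L with
  | nil =>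
    rw [Pr_nil, Pr_nil, List.length_nil, pow_zero, one_smul, sub_self]
    exact InI.zero I
  | cons v L ih =>
    have h1 := kk_ww_apply v V (Pr L φ)
    have h2 := (ih fun v' hv' => hV v' (List.mem_cons_of_mem _ hv')).ww v
    have h3 : Pr (v :: L) (kk V φ) - (-1 : S) ^ (v :: L).length • kk V (Pr (v :: L) φ) =
        ww v (Pr L (kk V φ) - (-1 : S) ^ L.length • kk V (Pr L φ)) +
          (-1 : S) ^ L.length • (∑ i, v i * V i) • Pr L φ := by
      rw [Pr_cons, Pr_cons, ← h1, map_sub, map_smul, List.length_cons, pow_succ, mul_smul,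
        neg_smul, one_smul, smul_add, smul_neg]
      abel
    rw [h3]
    exact h2.add ((InI.of_mem (hV v (by simp)) _).smul _)

section contra

variable {n : ℕ}

theorem gr_mem_Lg (f : ℕ → MvPolynomial (Fin n) ℂ) (c : ℕ) : ∀ j < c, gr (f j) ∈ Lg f c := by
  induction c with
  | zero => exact fun j hj => absurd hj (by omega)
  | succ c ih =>
    intro j hj
    rw [Lg]
    rcases Nat.lt_succ_iff_lt_or_eq.1 hj with h | h
    · exact List.mem_cons_of_mem _ (ih j h)
    · rw [h]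
      exact List.mem_cons_self

theorem InI_dd (f : ℕ → MvPolynomial (Fin n) ℂ) (c : ℕ) {z : Fm (MvPolynomial (Fin n) ℂ) n}
    (hz : InI (JJ fun j : Fin c => f j) z) :
    InI (JJ fun j : Fin c => f j) (Pr (Lg f c) (dd z)) := by
  choose b hb using fun T => (Submodule.mem_span_range_iff_exists_fun _).1 (hz T)
  have h1 : z = ∑ j : Fin c, f j • (fun T => b T j : Fm (MvPolynomial (Fin n) ℂ) n) := by
    funext T
    rw [Finset.sum_apply, ← hb T]
    refine Finset.sum_congr rfl fun j _ => ?_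
    rw [Pi.smul_apply, smul_eq_mul, smul_eq_mul, mul_comm]
  rw [h1, dd_sum, map_sum]
  refine InI.sum _ fun j _ => ?_
  rw [dd_smul, map_add, Pr_ww_mem _ _ (gr_mem_Lg f c j j.2), add_zero, map_smul]
  have h2 : f (j : ℕ) ∈ JJ fun j : Fin c => f j := Ideal.subset_span ⟨j, rfl⟩
  exact InI.of_mem h2 _

theorem InB_dd (f : ℕ → MvPolynomial (Fin n) ℂ) (c : ℕ) :
    ∀ (L' : List (Fin n → MvPolynomial (Fin n) ℂ)), (∀ v ∈ L', v ∈ Lg f c ∧ Closed v) →
      ∀ {y : Fm (MvPolynomial (Fin n) ℂ) n}, InB (JJ fun j : Fin c => f j) L' y →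
        InI (JJ fun j : Fin c => f j) (Pr (Lg f c) (dd y)) := by
  intro L'
  induction L' with
  | nil => exact fun _ y hy => InI_dd f c hy
  | cons v L' ih =>
    rintro hL y ⟨η, hη⟩
    have h1 := ih (fun v' hv' => hL v' (List.mem_cons_of_mem _ hv')) hη
    obtain ⟨hv1, hv2⟩ := hL v (by simp)
    rwa [dd_sub, dd_ww hv2, map_sub, map_neg, Pr_ww_mem _ _ hv1, neg_zero, sub_zero] at h1

theorem closed_of_mem_Lg (f : ℕ → MvPolynomial (Fin n) ℂ) (c : ℕ)
    {v : Fin n → MvPolynomial (Fin n) ℂ} (hv : v ∈ Lg f c) : Closed v := by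
  obtain ⟨j, _, rfl⟩ := mem_Lg f c hv
  exact closed_gr _

theorem pw_Pr (f : ℕ → MvPolynomial (Fin n) ℂ) (d : ℕ → ℕ) : ∀ (c : ℕ),
    (∀ j < c, (f j).IsHomogeneous (d j)) → (∀ j < c, 0 < d j) → ∀ (w : ℤ)
      (φ : Fm (MvPolynomial (Fin n) ℂ) n),
      pw (w + ∑ j ∈ Finset.range c, (d j : ℤ)) (Pr (Lg f c) φ) = Pr (Lg f c) (pw w φ) := by
  intro c
  induction c with
  | zero =>
    intro _ _ w φ
    rw [Finset.sum_range_zero, add_zero]
    rfl
  | succ c ih =>
    intro hf hd w φ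
    rw [Finset.sum_range_succ, ← add_assoc, Lg, Pr_cons, Pr_cons,
      pw_ww (hf c (by omega)) (hd c (by omega)),
      ih (fun j hj => hf j (by omega)) fun j hj => hd j (by omega)]

theorem sum_gr_X {d : ℕ} {F : MvPolynomial (Fin n) ℂ} (hF : F.IsHomogeneous d) :
    ∑ i, gr F i * X i = C (d : ℂ) * F := by
  have h1 := hF.sum_X_mul_pderiv
  rw [nsmul_eq_mul, ← map_natCast (C : ℂ →+* MvPolynomial (Fin n) ℂ)] at h1
  rw [← h1]
  exact Finset.sum_congr rfl fun i _ => mul_comm _ _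

theorem eval_hom_zero {d : ℕ} {F : MvPolynomial (Fin n) ℂ} (hF : F.IsHomogeneous d)
    (hd : 0 < d) : eval 0 F = 0 := by
  have h1 := hF.coeff_eq_zero (d := 0) (by rw [map_zero]; omega)
  rw [show (eval (0 : Fin n → ℂ)) F = constantCoeff F from by
    rw [← eval_zero]]
  exact h1

section main

variable (f : ℕ → MvPolynomial (Fin n) ℂ) (c : ℕ) (d : ℕ → ℕ)
  (hl : c + 1 ≤ n) (hf : ∀ j < c + 1, (f j).IsHomogeneous (d j)) (hd : ∀ j < c + 1, 0 < d j)
  (hJ : ∀ k ≤ c + 1, Jac fun j : Fin k => f j) (s : ℂ)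
  (hs : s * d c = -((n : ℂ) - ∑ j ∈ Finset.range c, (d j : ℂ)))

include hl hf hd hJ in
theorem nz_c : NZ (JJ fun j : Fin c => f j) (f c) :=
  nz_all f (c + 1) hl (fun j hj => eval_hom_zero (hf j hj) (hd j hj)) hJ c (by omega)

include hf hd in
theorem JJ_le_ker : (JJ fun j : Fin c => f j) ≤ RingHom.ker (eval (0 : Fin n → ℂ)) := by
  rw [JJ, Ideal.span_le]
  rintro _ ⟨j, rfl⟩
  exact RingHom.mem_ker.2 (eval_hom_zero (hf j (by omega)) (hd j (by omega)))

include hl hf hd hJ in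
theorem not_InI_vol (K : ℕ) (a : ℂ) (ha : a ≠ 0) :
    ¬ InI (JJ fun j : Fin c => f j)
      ((C a : MvPolynomial (Fin n) ℂ) • f c ^ K • vol n) := by
  intro h
  have h1 := h Finset.univ
  rw [Pi.smul_apply, Pi.smul_apply, vol, if_pos rfl, smul_eq_mul, smul_eq_mul, mul_one] at h1
  have h2 := Ideal.mul_mem_left _ (C a⁻¹) h1
  rw [← mul_assoc, ← C_mul, inv_mul_cancel₀ ha, C_1, one_mul] at h2
  have hN := nz_c f c d hl hf hd hJ
  have h3 : ∀ K : ℕ, f c ^ K ∈ (JJ fun j : Fin c => f j) → (1 : MvPolynomial (Fin n) ℂ) ∈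
      (JJ fun j : Fin c => f j) := by
    intro K
    induction K with
    | zero => exact fun h => by rwa [pow_zero] at h
    | succ K ih => exact fun h => ih (hN _ (by rwa [← pow_succ']))
  have h4 := JJ_le_ker f c d hf hd (h3 K h2)
  rw [RingHom.mem_ker, map_one] at h4
  exact one_ne_zero h4

/-- the relation -/
def Rel (K : ℕ) (Ξ : Fm (MvPolynomial (Fin n) ℂ) n) : Prop :=
  InI (JJ fun j : Fin c => f j) (f c ^ (K + 1) • vol n -
    Pr (Lg f c) (f c • dd Ξ + (C (s - K) : MvPolynomial (Fin n) ℂ) • ww (gr (f c)) Ξ))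

include hf hd in
theorem Rel.proj {K : ℕ} {Ξ : Fm (MvPolynomial (Fin n) ℂ) n} (h : Rel f c s K Ξ) :
    Rel f c s K (pw (K * d c + (n - ∑ j ∈ Finset.range c, (d j : ℤ))) Ξ) := by
  have hg := hf c (by omega)
  have h1 := InI_pw (d := fun j : Fin c => d j) (fun j => hf j (by omega))
    ((n : ℤ) + (((K + 1) * d c : ℕ) : ℤ)) h
  rw [pw_sub] at h1
  have hgK : (f c ^ (K + 1)).IsHomogeneous ((K + 1) * d c) := by
    have := hg.pow (K + 1)
    rwa [mul_comm] at this
  rw [pw_smul hgK, pw_vol] at h1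
  have h2 : (n : ℤ) + (((K + 1) * d c : ℕ) : ℤ) =
      ((K * d c + (n - ∑ j ∈ Finset.range c, (d j : ℤ))) + d c) +
        ∑ j ∈ Finset.range c, (d j : ℤ) := by
    push_cast
    ring
  rw [h2, pw_Pr f d c (fun j hj => hf j (by omega)) (fun j hj => hd j (by omega)), pw_add,
    pw_smul hg, pw_C_smul, pw_ww hg (hd c (by omega)), pw_dd] at h1
  exact h1

include hl hf hd hJ hs in
theorem step (K : ℕ) (Ξ : Fm (MvPolynomial (Fin n) ℂ) n) (hΞ : Dg (n - (c + 1)) Ξ)
    (h : Rel f c s K Ξ) : ∃ ψ : Fm (MvPolynomial (Fin n) ℂ) n, dd ψ = 0 ∧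
      Dg (n - (c + 1)) ψ ∧ (n - (c + 1) = 0 → ψ = 0) ∧
      InI (JJ fun j : Fin c => f j) ((C (d c : ℂ) : MvPolynomial (Fin n) ℂ) • f c ^ K • vol n +
        Pr (Lg f c) (ww (gr (f c)) ψ)) := by
  set w : ℤ := K * d c + (n - ∑ j ∈ Finset.range c, (d j : ℤ)) with hw
  have hwC : (w : ℂ) = -(d c * (s - K)) := by
    rw [hw]
    push_cast
    linear_combination hs
  have hD0 : (d c : ℂ) ≠ 0 := Nat.cast_ne_zero.2 (hd c (by omega)).ne'
  replace h := h.proj f c d hf hd s
  have hpr : Dg (n - (c + 1)) (pw w Ξ) := by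
    intro T hT
    rw [pw, hΞ T hT, hz_zero]
  have hpw : pw w (pw w Ξ) = pw w Ξ := pw_pw w Ξ
  clear hΞ
  rw [← hw] at h
  generalize pw w Ξ = Ξ at h hpr hpw
  set g := f c with hg
  set J := JJ fun j : Fin c => f j with hJdef
  have hghom : g.IsHomogeneous (d c) := hf c (by omega)
  have hcart := cartan_pw hpw
  have hN : NZ J g := nz_c f c d hl hf hd hJ
  -- `ι Ξ = E a + g c' + y`
  have hsplit : ∃ a c' y : Fm (MvPolynomial (Fin n) ℂ) n, iot Ξ = ww (gr g) a + g • c' + y ∧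
      InB J (Lg f c) y ∧ (n - (c + 1) = 0 → a = 0 ∧ c' = 0) := by
    rcases Nat.eq_zero_or_pos (n - (c + 1)) with h0 | h0
    · refine ⟨0, 0, 0, ?_, InB_of_InI _ (InI.zero _), fun _ => ⟨rfl, rfl⟩⟩
      rw [map_zero, smul_zero, add_zero, add_zero, iot]
      rw [h0] at hpr
      exact kk_Dg_zero hpr _
    · by_cases hκ : s - K = 0
      · -- weight zero
        have hw0 : w = 0 := by
          have : (w : ℂ) = 0 := by rw [hwC, hκ, mul_zero, neg_zero]
          exact_mod_cast this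
        have h1 : Ξ = 0 := by
          rw [← hpw]
          funext T
          rw [pw, hw0]
          by_cases hT : T.card = n - (c + 1)
          · rw [hz, if_neg]
            · rfl
            · omega
          · rw [hpr T hT, hz_zero]
            rfl
        refine ⟨0, 0, 0, ?_, InB_of_InI _ (InI.zero _), fun _ => ⟨rfl, rfl⟩⟩
        rw [map_zero, smul_zero, add_zero, add_zero, iot, h1, map_zero]
      · have hJ' : (JJ fun j : Fin (c + 1) => f j) = J ⊔ Ideal.span {g} := JJ_succ f c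
        have hgJ' : g ∈ J ⊔ Ideal.span {g} :=
          Ideal.mem_sup_right (Ideal.mem_span_singleton_self g)
        -- `Pr L' Ξ ∈ J'`
        have h1 : InI (J ⊔ Ideal.span {g}) (Pr (Lg f c) (ww (gr g) Ξ)) := by
          have h2 : (C (s - K) : MvPolynomial (Fin n) ℂ) • Pr (Lg f c) (ww (gr g) Ξ) =
              g ^ (K + 1) • vol n - g • Pr (Lg f c) (dd Ξ) - (g ^ (K + 1) • vol n -
                Pr (Lg f c) (g • dd Ξ + (C (s - K) : MvPolynomial (Fin n) ℂ) •
                  ww (gr g) Ξ)) := by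
            rw [map_add, map_smul, map_smul]
            abel
          have h3 : InI (J ⊔ Ideal.span {g})
              ((C (s - K) : MvPolynomial (Fin n) ℂ) • Pr (Lg f c) (ww (gr g) Ξ)) := by
            rw [h2]
            refine ((InI.of_mem ?_ _).sub (InI.of_mem hgJ' _)).sub (InI.mono le_sup_left h)
            rw [pow_succ]
            exact Ideal.mul_mem_left _ _ hgJ'
          have h4 := h3.smul (C (s - K)⁻¹)
          rwa [smul_smul, ← C_mul, inv_mul_cancel₀ hκ, C_1, one_smul] at h4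
        have h2 : InI (J ⊔ Ideal.span {g}) (Pr (Lg f (c + 1)) Ξ) := by
          rw [Pr_ww] at h1
          have h3 := h1.smul ((-1) ^ (Lg f c).length)
          rw [smul_smul, ← mul_pow, neg_mul_neg, one_mul, one_pow, one_smul] at h3
          exact h3
        have h3 : InI (J ⊔ Ideal.span {g}) (Pr (Lg f (c + 1)) (iot Ξ)) := by
          have h4 := Pr_kk_mod (J ⊔ Ideal.span {g}) (Lg f (c + 1)) (fun i => X i) (by
            intro v hv
            obtain ⟨j, hj, rfl⟩ := mem_Lg f (c + 1) hv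
            rw [sum_gr_X (hf j hj), ← hJ']
            exact Ideal.mul_mem_left _ _ (Ideal.subset_span ⟨⟨j, hj⟩, rfl⟩)) Ξ
          have h5 := h4.add ((h2.kk fun i => X i).smul ((-1) ^ (Lg f (c + 1)).length))
          rw [sub_add_cancel] at h5
          exact h5
        obtain ⟨rs, hrs1, hrs2, hrs3⟩ := exists_rs f c hl
          (fun j hj => eval_hom_zero (hf j hj) (hd j hj)) hJ
        rw [hJ'] at hrs2 hrs3
        obtain ⟨q, hq⟩ := Nat.exists_eq_succ_of_ne_zero h0.ne'
        have h4 : Dg q (iot Ξ) := Dg.kk (by rwa [hq] at hpr) _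
        have h5 := saito q (Lg f (c + 1)) (J ⊔ Ideal.span {g}) rs (by rw [hrs1, hq]) hrs2 hrs3 _
          h4 h3
        obtain ⟨a, ha⟩ := h5
        obtain ⟨c', hc'⟩ := InB.split ha
        refine ⟨a, c', iot Ξ - ww (gr g) a - g • c', by abel, hc', fun h => by omega⟩
  obtain ⟨a, c', y, hι, hy, hzero⟩ := hsplit
  set β := c' - dd a with hβ
  set E := ww (gr g) with hE
  -- `Pr L (dd ι Ξ) ≡ Pr L (E β + g dβ)`
  have hddβ : dd β = dd c' := by rw [hβ, dd_sub, dd_dd, sub_zero]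
  have h1 : InI J (Pr (Lg f c) (dd (iot Ξ)) - Pr (Lg f c) (E β + g • dd β)) := by
    have h2 : dd (iot Ξ) = E β + g • dd β + dd y := by
      rw [hι, dd_add, dd_add, hE, dd_ww (closed_gr g), dd_smul, hddβ, hβ, map_sub]
      abel
    rw [h2, map_add (Pr (Lg f c)) (E β + g • dd β) (dd y), add_sub_cancel_left]
    exact InB_dd f c (Lg f c) (fun v hv => ⟨hv, closed_of_mem_Lg f c hv⟩) hy
  -- `D (g dΞ + κ E Ξ) = - E d ι Ξ + ι E dΞ`
  have h2 : (C (d c : ℂ) : MvPolynomial (Fin n) ℂ) •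
      (g • dd Ξ + (C (s - K) : MvPolynomial (Fin n) ℂ) • E Ξ) =
        -E (dd (iot Ξ)) + iot (E (dd Ξ)) := by
    have h3 : E (iot (dd Ξ)) + iot (E (dd Ξ)) = (C (d c : ℂ) * g) • dd Ξ := by
      have := kk_ww_apply (gr g) (fun i => X i) (dd Ξ)
      rwa [sum_gr_X hghom] at this
    have h4 : (C (w : ℂ) : MvPolynomial (Fin n) ℂ) • E Ξ = E (dd (iot Ξ)) + E (iot (dd Ξ)) := by
      rw [← map_add, hcart, map_smul]
    rw [hwC, C_neg, C_mul, neg_smul] at h4
    rw [smul_add, smul_smul, smul_smul, ← h3]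
    have h5 : (C (d c : ℂ) * C (s - K) : MvPolynomial (Fin n) ℂ) • E Ξ =
        -(E (dd (iot Ξ)) + E (iot (dd Ξ))) := by rw [← h4, neg_neg]
    rw [h5]
    abel
  -- `Pr L (ι E dΞ) ∈ J`
  have h3 : InI J (Pr (Lg f c) (iot (E (dd Ξ)))) := by
    have h4 : Pr (Lg f c) (E (dd Ξ)) = 0 := by
      refine Dg_big ((hpr.dd.ww (gr g)).Pr (Lg f c)) ?_
      rw [Lg_length]
      omega
    have h5 := Pr_kk_mod J (Lg f c) (fun i => X i) (by
      intro v hv
      obtain ⟨j, hj, rfl⟩ := mem_Lg f c hv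
      rw [sum_gr_X (hf j (by omega))]
      exact Ideal.mul_mem_left _ _ (Ideal.subset_span ⟨⟨j, hj⟩, rfl⟩)) (E (dd Ξ))
    rw [h4, map_zero, smul_zero, sub_zero] at h5
    exact h5
  -- `Pr L (E d ι Ξ) ≡ g Pr L (E dβ)`
  have h4 : InI J (Pr (Lg f c) (E (dd (iot Ξ))) - g • Pr (Lg f c) (E (dd β))) := by
    have h5 := (h1.ww (gr g)).smul ((-1) ^ (Lg f c).length)
    rw [map_sub, smul_sub, ← Pr_ww, ← Pr_ww] at h5
    have h6 : ww (gr g) (E β + g • dd β) = g • E (dd β) := by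
      rw [map_add, hE, ww_self_apply, zero_add, map_smul]
    rw [h6, map_smul] at h5
    exact h5
  -- the conclusion, multiplied by `g`
  have h5 : InI J (g • ((C (d c : ℂ) : MvPolynomial (Fin n) ℂ) • g ^ K • vol n +
      Pr (Lg f c) (E (dd β)))) := by
    have h6 : g • ((C (d c : ℂ) : MvPolynomial (Fin n) ℂ) • g ^ K • vol n +
        Pr (Lg f c) (E (dd β))) =
        (C (d c : ℂ) : MvPolynomial (Fin n) ℂ) • (g ^ (K + 1) • vol n -
          Pr (Lg f c) (g • dd Ξ + (C (s - K) : MvPolynomial (Fin n) ℂ) • E Ξ)) -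
          (Pr (Lg f c) (E (dd (iot Ξ))) - g • Pr (Lg f c) (E (dd β))) +
          Pr (Lg f c) (iot (E (dd Ξ))) := by
      have h7 : (C (d c : ℂ) : MvPolynomial (Fin n) ℂ) • (g ^ (K + 1) • vol n -
          Pr (Lg f c) (g • dd Ξ + (C (s - K) : MvPolynomial (Fin n) ℂ) • E Ξ)) =
          (C (d c : ℂ) : MvPolynomial (Fin n) ℂ) • g ^ (K + 1) • vol n -
            Pr (Lg f c) (-E (dd (iot Ξ)) + iot (E (dd Ξ))) := by
        rw [← h2, map_smul, smul_sub]
      rw [h7, map_add, map_neg, smul_add, smul_smul, smul_smul, smul_smul, pow_succ]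
      have h8 : g * C (d c : ℂ) * g ^ K = C (d c : ℂ) * (g ^ K * g) := by ring
      rw [h8]
      abel
    rw [h6]
    exact ((h.smul _).sub h4).add h3
  have h6 : InI J ((C (d c : ℂ) : MvPolynomial (Fin n) ℂ) • g ^ K • vol n +
      Pr (Lg f c) (E (dd β))) := fun T => hN _ (h5 T)
  -- project to the right degree
  rcases Nat.eq_zero_or_pos (n - (c + 1)) with h0 | h0
  · obtain ⟨ha, hc⟩ := hzero h0
    have hβ0 : β = 0 := by rw [hβ, ha, hc, dd_zero, sub_zero]
    refine ⟨0, dd_zero, Dg.zero _, fun _ => rfl, ?_⟩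
    rw [hβ0, dd_zero] at h6
    exact h6
  · obtain ⟨q, hq⟩ := Nat.exists_eq_succ_of_ne_zero h0.ne'
    refine ⟨dd (pr q β), dd_dd _, by rw [hq]; exact (Dg_pr q β).dd, fun h => by omega, ?_⟩
    have h7 := h6.pr n
    rw [pr_add, pr_smul, pr_smul, pr_of_Dg vol_Dg] at h7
    have h8 : n = (q + 1) + 1 + (Lg f c).length := by
      rw [Lg_length]
      omega
    have h9 : pr n (Pr (Lg f c) (E (dd β))) = Pr (Lg f c) (E (dd (pr q β))) := by
      have := pr_Pr (q + 1 + 1) (Lg f c) (E (dd β))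
      rw [← h8, hE, pr_ww, pr_dd] at this
      exact this
    rw [h9] at h7
    exact h7

include hl hf hd hJ hs in
/-- **The contradiction.** -/
theorem contra (hdc : 2 ≤ d c) : ∀ (K : ℕ) (Ξ : Fm (MvPolynomial (Fin n) ℂ) n),
    Dg (n - (c + 1)) Ξ → Rel f c s K Ξ → False := by
  have hD0 : (d c : ℂ) ≠ 0 := Nat.cast_ne_zero.2 (hd c (by omega)).ne'
  intro K
  induction K with
  | zero =>
    intro Ξ hΞ h
    obtain ⟨ψ, hψ1, hψ2, hψ3, hψ⟩ := step f c d hl hf hd hJ s hs 0 Ξ hΞ h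
    have h1 : InI (RingHom.ker (eval (0 : Fin n → ℂ))) (Pr (Lg f c) (ww (gr (f c)) ψ)) := by
      refine InI.Pr ?_ _
      rw [ww_apply]
      refine InI.sum _ fun i _ => InI.of_mem ?_ _
      rw [RingHom.mem_ker]
      exact eval_hom_zero (hf c (by omega)).pderiv (by omega)
    have h2 := hψ.mono (JJ_le_ker f c d hf hd)
    have h3 := h2.sub h1
    rw [add_sub_cancel_right] at h3
    have h4 := h3 Finset.univ
    rw [Pi.smul_apply, Pi.smul_apply, vol, if_pos rfl, pow_zero, smul_eq_mul, smul_eq_mul,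
      mul_one, mul_one, RingHom.mem_ker, eval_C] at h4
    exact hD0 h4
  | succ K ih =>
    intro Ξ hΞ h
    obtain ⟨ψ, hψ1, hψ2, hψ3, hψ⟩ := step f c d hl hf hd hJ s hs (K + 1) Ξ hΞ h
    by_cases hκ : s - K = 0
    · -- weight zero
      have hw0 : (K * d c + (n - ∑ j ∈ Finset.range c, (d j : ℤ)) : ℤ) = 0 := by
        have h1 : ((K * d c + (n - ∑ j ∈ Finset.range c, (d j : ℤ)) : ℤ) : ℂ) = 0 := by
          push_cast
          linear_combination (-(d c : ℂ)) * hκ + hs
        exact_mod_cast h1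
      have h1 := InI_pw (d := fun j : Fin c => d j) (fun j => hf j (by omega))
        ((n : ℤ) + (((K + 1) * d c : ℕ) : ℤ)) hψ
      have hgK : (f c ^ (K + 1)).IsHomogeneous ((K + 1) * d c) := by
        have := (hf c (by omega)).pow (K + 1)
        rwa [mul_comm] at this
      rw [pw_add, pw_C_smul, pw_smul hgK, pw_vol] at h1
      have h2 : (n : ℤ) + (((K + 1) * d c : ℕ) : ℤ) =
          ((K * d c + (n - ∑ j ∈ Finset.range c, (d j : ℤ))) + d c) +
            ∑ j ∈ Finset.range c, (d j : ℤ) := by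
        push_cast
        ring
      rw [h2, pw_Pr f d c (fun j hj => hf j (by omega)) (fun j hj => hd j (by omega)),
        pw_ww (hf c (by omega)) (hd c (by omega)), hw0] at h1
      have h3 : pw 0 ψ = 0 := by
        rcases Nat.eq_zero_or_pos (n - (c + 1)) with h0 | h0
        · rw [hψ3 h0, pw_zero]
        · funext T
          rw [pw]
          by_cases hT : T.card = n - (c + 1)
          · rw [hz, if_neg]
            · rfl
            · omega
          · rw [hψ2 T hT, hz_zero]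
            rfl
      rw [h3, map_zero, map_zero, add_zero] at h1
      exact not_InI_vol f c d hl hf hd hJ (K + 1) _ hD0 h1
    · refine ih ((C (-(d c * (s - K))⁻¹ : ℂ) : MvPolynomial (Fin n) ℂ) • ψ) (hψ2.smul _) ?_
      rw [Rel, dd_C_smul, hψ1, smul_zero, smul_zero, zero_add, map_smul, map_smul, map_smul,
        smul_smul, ← C_mul]
      have h1 := hψ.smul (C (d c : ℂ)⁻¹)
      rw [smul_add, smul_smul, ← C_mul, inv_mul_cancel₀ hD0, C_1, one_smul] at h1
      have h2 : (s - K) * -(d c * (s - K))⁻¹ = -(d c : ℂ)⁻¹ := by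
        field_simp
      rw [h2, C_neg, neg_smul, sub_neg_eq_add]
      exact h1

end main

end contra

end Pool.Agent.H35.CI
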