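import Pool.Agent.H35.CI.CA2

set_option autoImplicit false
set_option linter.unusedSectionVars false
set_option linter.unusedVariables false

/-! # The de Rham calculus -/

namespace Pool.Agent.H35.CI

open MvPolynomial

section dr

variable {n : ℕ}

/-- coefficientwise partial derivative -/
noncomputable def pd (i : Fin n) (φ : Fm (MvPolynomial (Fin n) ℂ) n) :
    Fm (MvPolynomial (Fin n) ℂ) n := fun T => pderiv i (φ T)

theorem pd_add (i : Fin n) (φ ψ : Fm (MvPolynomial (Fin n) ℂ) n) :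
    pd i (φ + ψ) = pd i φ + pd i ψ := by
  funext T
  simp [pd]

theorem pd_zero (i : Fin n) : pd i (0 : Fm (MvPolynomial (Fin n) ℂ) n) = 0 := by
  funext T
  simp [pd]

theorem pd_neg (i : Fin n) (φ : Fm (MvPolynomial (Fin n) ℂ) n) : pd i (-φ) = -pd i φ := by
  funext T
  simp [pd]

theorem pd_sub (i : Fin n) (φ ψ : Fm (MvPolynomial (Fin n) ℂ) n) :
    pd i (φ - ψ) = pd i φ - pd i ψ := by
  funext T
  simp [pd]

theorem pd_sum {α : Type} (i : Fin n) (s : Finset α) (φ : α → Fm (MvPolynomial (Fin n) ℂ) n) :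
    pd i (∑ x ∈ s, φ x) = ∑ x ∈ s, pd i (φ x) := by
  classical
  induction s using Finset.induction_on with
  | empty => rw [Finset.sum_empty, Finset.sum_empty, pd_zero]
  | insert x s hx ih => rw [Finset.sum_insert hx, Finset.sum_insert hx, pd_add, ih]

theorem pd_smul (i : Fin n) (a : MvPolynomial (Fin n) ℂ) (φ : Fm (MvPolynomial (Fin n) ℂ) n) :
    pd i (a • φ) = a • pd i φ + pderiv i a • φ := by
  funext T
  simp only [pd, Pi.smul_apply, Pi.add_apply, smul_eq_mul, Derivation.leibniz]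
  ring

theorem pderiv_sg (i j : Fin n) (T : Finset (Fin n)) (a : MvPolynomial (Fin n) ℂ) :
    pderiv i (sg (MvPolynomial (Fin n) ℂ) j T * a) = sg (MvPolynomial (Fin n) ℂ) j T *
      pderiv i a := by
  rw [sg]
  rcases neg_one_pow_eq_or (MvPolynomial (Fin n) ℂ) (T.filter (· < j)).card with h | h
  · rw [h, one_mul, one_mul]
  · rw [h, neg_one_mul, neg_one_mul, map_neg]

theorem pd_ee (i j : Fin n) (φ : Fm (MvPolynomial (Fin n) ℂ) n) :
    pd i (ee j φ) = ee j (pd i φ) := by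
  funext T
  rw [ee_apply, pd, ee_apply]
  split_ifs
  · rw [pderiv_sg]
    rfl
  · exact map_zero _

theorem pd_cc (i j : Fin n) (φ : Fm (MvPolynomial (Fin n) ℂ) n) :
    pd i (cc j φ) = cc j (pd i φ) := by
  funext T
  rw [cc_apply, pd, cc_apply]
  split_ifs
  · exact map_zero _
  · rw [pderiv_sg]
    rfl

theorem pd_comm (i j : Fin n) (φ : Fm (MvPolynomial (Fin n) ℂ) n) :
    pd i (pd j φ) = pd j (pd i φ) := by
  funext T
  simp only [pd]
  have h : ⁅(pderiv i : Derivation ℂ (MvPolynomial (Fin n) ℂ) (MvPolynomial (Fin n) ℂ)),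
      (pderiv j : Derivation ℂ (MvPolynomial (Fin n) ℂ) (MvPolynomial (Fin n) ℂ))⁆ = 0 := by
    refine derivation_ext fun k => ?_
    rw [Derivation.commutator_apply, pderiv_X, pderiv_X, Derivation.zero_apply, Pi.single_apply,
      Pi.single_apply]
    split_ifs <;> simp
  have h1 := congrArg (fun D => D (φ T)) h
  simp only [Derivation.commutator_apply, Derivation.zero_apply] at h1
  exact sub_eq_zero.1 h1

/-- the exterior derivative -/
noncomputable def dd (φ : Fm (MvPolynomial (Fin n) ℂ) n) : Fm (MvPolynomial (Fin n) ℂ) n :=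
  ∑ i, ee i (pd i φ)

theorem dd_add (φ ψ : Fm (MvPolynomial (Fin n) ℂ) n) : dd (φ + ψ) = dd φ + dd ψ := by
  simp only [dd, pd_add, map_add, Finset.sum_add_distrib]

theorem dd_sub (φ ψ : Fm (MvPolynomial (Fin n) ℂ) n) : dd (φ - ψ) = dd φ - dd ψ := by
  simp only [dd, pd_sub, map_sub, Finset.sum_sub_distrib]

theorem dd_neg (φ : Fm (MvPolynomial (Fin n) ℂ) n) : dd (-φ) = -dd φ := by
  simp only [dd, pd_neg, map_neg, Finset.sum_neg_distrib]

theorem dd_zero : dd (0 : Fm (MvPolynomial (Fin n) ℂ) n) = 0 := by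
  simp only [dd, pd_zero, map_zero, Finset.sum_const_zero]

theorem dd_sum {α : Type} (s : Finset α) (φ : α → Fm (MvPolynomial (Fin n) ℂ) n) :
    dd (∑ x ∈ s, φ x) = ∑ x ∈ s, dd (φ x) := by
  classical
  induction s using Finset.induction_on with
  | empty => rw [Finset.sum_empty, Finset.sum_empty, dd_zero]
  | insert x s hx ih => rw [Finset.sum_insert hx, Finset.sum_insert hx, dd_add, ih]

theorem dd_smul (a : MvPolynomial (Fin n) ℂ) (φ : Fm (MvPolynomial (Fin n) ℂ) n) :
    dd (a • φ) = a • dd φ + ww (gr a) φ := by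
  simp only [dd, pd_smul, map_add, map_smul, Finset.sum_add_distrib, Finset.smul_sum, ww_apply, gr]

theorem dd_C_smul (a : ℂ) (φ : Fm (MvPolynomial (Fin n) ℂ) n) :
    dd ((C a : MvPolynomial (Fin n) ℂ) • φ) = (C a : MvPolynomial (Fin n) ℂ) • dd φ := by
  rw [dd_smul, add_eq_left, ww_apply]
  refine Finset.sum_eq_zero fun i _ => ?_
  rw [gr, pderiv_C, zero_smul]

theorem eq_zero_of_eq_neg (x : Fm (MvPolynomial (Fin n) ℂ) n) (h : x = -x) : x = 0 := by
  have h1 : (C (2 : ℂ) : MvPolynomial (Fin n) ℂ) • x = 0 := by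
    have : (C (2 : ℂ) : MvPolynomial (Fin n) ℂ) = 1 + 1 := by
      rw [← C_1, ← C_add]
      norm_num
    rw [this, add_smul, one_smul]
    nth_rewrite 1 [h]
    exact neg_add_cancel x
  have h2 : (C (1/2 : ℂ) : MvPolynomial (Fin n) ℂ) • (C (2 : ℂ) : MvPolynomial (Fin n) ℂ) • x =
      x := by
    rw [smul_smul, ← C_mul]
    norm_num
  rw [← h2, h1, smul_zero]

theorem sum_symm_zero (a : Fin n → Fin n → MvPolynomial (Fin n) ℂ) (ha : ∀ i j, a i j = a j i)
    (φ : Fm (MvPolynomial (Fin n) ℂ) n) :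
    ∑ i, ∑ j, a i j • ee i (ee j φ) = 0 := by
  apply eq_zero_of_eq_neg
  conv_lhs => rw [Finset.sum_comm]
  rw [← Finset.sum_neg_distrib]
  refine Finset.sum_congr rfl fun i _ => ?_
  rw [← Finset.sum_neg_distrib]
  refine Finset.sum_congr rfl fun j _ => ?_
  have h1 : ee j (ee i φ) = -ee i (ee j φ) := LinearMap.congr_fun (ee_ee j i) φ
  rw [h1, ha j i, smul_neg]

/-- closed covectors -/
def Closed (v : Fin n → MvPolynomial (Fin n) ℂ) : Prop := ∀ i j, pderiv i (v j) = pderiv j (v i)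

theorem closed_gr (F : MvPolynomial (Fin n) ℂ) : Closed (gr F) := by
  intro i j
  have := congrFun (pd_comm i j (fun _ => F)) ∅
  exact this

theorem dd_ww {v : Fin n → MvPolynomial (Fin n) ℂ} (hv : Closed v)
    (φ : Fm (MvPolynomial (Fin n) ℂ) n) : dd (ww v φ) = -ww v (dd φ) := by
  have h1 : dd (ww v φ) = ∑ i, ∑ j, v j • ee i (ee j (pd i φ)) +
      ∑ i, ∑ j, pderiv i (v j) • ee i (ee j φ) := by
    rw [← Finset.sum_add_distrib, dd]
    refine Finset.sum_congr rfl fun i _ => ?_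
    rw [← Finset.sum_add_distrib, ww_apply, pd_sum, map_sum]
    refine Finset.sum_congr rfl fun j _ => ?_
    rw [pd_smul, map_add, map_smul, map_smul, pd_ee]
  rw [h1, sum_symm_zero _ hv, add_zero, ww_apply, ← Finset.sum_neg_distrib, Finset.sum_comm]
  refine Finset.sum_congr rfl fun j _ => ?_
  rw [dd, map_sum, Finset.smul_sum, ← Finset.sum_neg_distrib]
  refine Finset.sum_congr rfl fun i _ => ?_
  have h2 : ee i (ee j (pd i φ)) = -ee j (ee i (pd i φ)) := LinearMap.congr_fun (ee_ee i j) _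
  rw [h2, smul_neg]

theorem dd_dd (φ : Fm (MvPolynomial (Fin n) ℂ) n) : dd (dd φ) = 0 := by
  apply eq_zero_of_eq_neg
  have h1 : dd (dd φ) = ∑ i, ∑ j, ee i (ee j (pd i (pd j φ))) := by
    rw [dd]
    refine Finset.sum_congr rfl fun i _ => ?_
    rw [dd, pd_sum, map_sum]
    refine Finset.sum_congr rfl fun j _ => ?_
    rw [pd_ee]
  rw [h1]
  conv_lhs => rw [Finset.sum_comm]
  rw [← Finset.sum_neg_distrib]
  refine Finset.sum_congr rfl fun i _ => ?_
  rw [← Finset.sum_neg_distrib]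
  refine Finset.sum_congr rfl fun j _ => ?_
  have h2 : ∀ x : Fm (MvPolynomial (Fin n) ℂ) n, ee j (ee i x) = -ee i (ee j x) := fun x =>
    LinearMap.congr_fun (ee_ee j i) x
  rw [h2, pd_comm]

/-- contraction with the Euler field -/
noncomputable def iot (φ : Fm (MvPolynomial (Fin n) ℂ) n) : Fm (MvPolynomial (Fin n) ℂ) n :=
  kk (fun i => X i) φ

/-- Cartan's formula -/
theorem cartan (φ : Fm (MvPolynomial (Fin n) ℂ) n) :
    dd (iot φ) + iot (dd φ) = ∑ i, ee i (cc i φ) +
      ∑ i, (X i : MvPolynomial (Fin n) ℂ) • pd i φ := by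
  have h1 : dd (iot φ) = ∑ i, ∑ j, (X j : MvPolynomial (Fin n) ℂ) • ee i (cc j (pd i φ)) +
      ∑ i, ee i (cc i φ) := by
    rw [← Finset.sum_add_distrib, dd]
    refine Finset.sum_congr rfl fun i _ => ?_
    rw [iot, kk_apply, pd_sum, map_sum]
    have h2 : ∀ j, ee i (pd i ((X j : MvPolynomial (Fin n) ℂ) • cc j φ)) =
        (X j : MvPolynomial (Fin n) ℂ) • ee i (cc j (pd i φ)) +
          if j = i then ee i (cc i φ) else 0 := by
      intro j
      rw [pd_smul, map_add, map_smul, map_smul, pd_cc, pderiv_X, Pi.single_apply]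
      by_cases hij : j = i
      · rw [if_pos hij, if_pos hij, one_smul, hij]
      · rw [if_neg hij, if_neg hij, zero_smul]
    simp only [h2, Finset.sum_add_distrib]
    congr 1
    rw [Finset.sum_ite_eq']
    simp
  have h2 : iot (dd φ) = ∑ i, ∑ j, (X j : MvPolynomial (Fin n) ℂ) • cc j (ee i (pd i φ)) := by
    rw [iot, kk_apply, Finset.sum_comm]
    refine Finset.sum_congr rfl fun j _ => ?_
    rw [dd, map_sum, Finset.smul_sum]
  have h3 : ∑ i, ∑ j, (X j : MvPolynomial (Fin n) ℂ) • ee i (cc j (pd i φ)) +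
      ∑ i, ∑ j, (X j : MvPolynomial (Fin n) ℂ) • cc j (ee i (pd i φ)) =
        ∑ i, (X i : MvPolynomial (Fin n) ℂ) • pd i φ := by
    rw [← Finset.sum_add_distrib]
    refine Finset.sum_congr rfl fun i _ => ?_
    rw [← Finset.sum_add_distrib]
    have h4 : ∀ j, (X j : MvPolynomial (Fin n) ℂ) • ee i (cc j (pd i φ)) +
        (X j : MvPolynomial (Fin n) ℂ) • cc j (ee i (pd i φ)) =
          if i = j then (X i : MvPolynomial (Fin n) ℂ) • pd i φ else 0 := by
      intro j
      have h5 := LinearMap.congr_fun (ee_cc (S := MvPolynomial (Fin n) ℂ) i j) (pd i φ)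
      rw [LinearMap.add_apply, Module.End.mul_apply, Module.End.mul_apply] at h5
      rw [← smul_add, h5]
      by_cases hij : i = j
      · rw [if_pos hij, if_pos hij, Module.End.one_apply, hij]
      · rw [if_neg hij, if_neg hij, LinearMap.zero_apply, smul_zero]
    simp only [h4]
    rw [Finset.sum_ite_eq]
    simp
  rw [h1, h2, ← h3]
  abel

theorem number_op (φ : Fm (MvPolynomial (Fin n) ℂ) n) (T : Finset (Fin n)) :
    (∑ i, ee i (cc i φ)) T = (T.card : MvPolynomial (Fin n) ℂ) * φ T := by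
  rw [Finset.sum_apply]
  have h1 : ∀ i, ee i (cc i φ) T = if i ∈ T then φ T else 0 := by
    intro i
    rw [ee_apply]
    split_ifs with hi
    · rw [cc_apply, if_neg (Finset.notMem_erase i T), ← mul_assoc,
        sg_erase_of_not_lt (lt_irrefl i), sg_sq, one_mul, Finset.insert_erase hi]
    · rfl
  simp only [h1]
  rw [Finset.sum_ite_mem, Finset.univ_inter, Finset.sum_const, nsmul_eq_mul]

/-! ### weights -/

/-- homogeneous components with integer degrees -/
noncomputable def hz (k : ℤ) (a : MvPolynomial (Fin n) ℂ) : MvPolynomial (Fin n) ℂ :=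
  if 0 ≤ k then homogeneousComponent k.toNat a else 0

theorem coeff_hz (k : ℤ) (a : MvPolynomial (Fin n) ℂ) (m : Fin n →₀ ℕ) :
    coeff m (hz k a) = if (m.degree : ℤ) = k then coeff m a else 0 := by
  rw [hz]
  by_cases h : 0 ≤ k
  · rw [if_pos h, coeff_homogeneousComponent]
    have h1 : m.degree = k.toNat ↔ (m.degree : ℤ) = k := by omega
    simp only [h1]
  · rw [if_neg h, coeff_zero, if_neg]
    have : (0 : ℤ) ≤ m.degree := Int.natCast_nonneg _
    omega

theorem hz_add (k : ℤ) (a b : MvPolynomial (Fin n) ℂ) : hz k (a + b) = hz k a + hz k b := by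
  ext m
  simp only [coeff_hz, coeff_add]
  split_ifs <;> simp

theorem hz_zero (k : ℤ) : hz k (0 : MvPolynomial (Fin n) ℂ) = 0 := by
  ext m
  simp [coeff_hz]

theorem hz_sum {α : Type} (k : ℤ) (s : Finset α) (a : α → MvPolynomial (Fin n) ℂ) :
    hz k (∑ x ∈ s, a x) = ∑ x ∈ s, hz k (a x) := by
  classical
  induction s using Finset.induction_on with
  | empty => rw [Finset.sum_empty, Finset.sum_empty, hz_zero]
  | insert x s hx ih => rw [Finset.sum_insert hx, Finset.sum_insert hx, hz_add, ih]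

theorem hz_hom {k : ℤ} {d : ℕ} {a : MvPolynomial (Fin n) ℂ} (ha : a.IsHomogeneous d) :
    hz k a = if (d : ℤ) = k then a else 0 := by
  ext m
  rw [coeff_hz]
  by_cases hm : coeff m a = 0
  · split_ifs <;> simp [hm]
  · have h1 : m.degree = d := by
      have := ha hm
      rwa [Finsupp.degree_eq_weight_one]
    rw [h1]
    split_ifs
    · rfl
    · rw [coeff_zero]

theorem hz_mul {k : ℤ} {d : ℕ} {a : MvPolynomial (Fin n) ℂ} (ha : a.IsHomogeneous d)
    (b : MvPolynomial (Fin n) ℂ) : hz (k + d) (a * b) = a * hz k b := by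
  induction b using MvPolynomial.induction_on' with
  | monomial m r =>
    have h1 : (monomial m r : MvPolynomial (Fin n) ℂ).IsHomogeneous m.degree :=
      isHomogeneous_monomial r rfl
    rw [hz_hom (ha.mul h1), hz_hom h1]
    have h2 : ((d + m.degree : ℕ) : ℤ) = k + d ↔ ((m.degree : ℕ) : ℤ) = k := by
      push_cast
      omega
    simp only [h2]
    split_ifs
    · rfl
    · rw [mul_zero]
  | add p q hp hq => rw [mul_add, hz_add, hp, hq, hz_add, mul_add]

theorem hz_pderiv (k : ℤ) (i : Fin n) (a : MvPolynomial (Fin n) ℂ) :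
    hz k (pderiv i a) = pderiv i (hz (k + 1) a) := by
  ext m
  rw [coeff_hz, coeff_pderiv, coeff_pderiv, coeff_hz]
  have h1 : ((m + Finsupp.single i 1).degree : ℤ) = k + 1 ↔ (m.degree : ℤ) = k := by
    rw [map_add, Finsupp.degree_single]
    push_cast
    omega
  simp only [h1]
  split_ifs
  · rfl
  · rw [zero_mul]

/-- the weight `w` part -/
noncomputable def pw (w : ℤ) (φ : Fm (MvPolynomial (Fin n) ℂ) n) :
    Fm (MvPolynomial (Fin n) ℂ) n := fun T => hz (w - T.card) (φ T)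

theorem pw_add (w : ℤ) (φ ψ : Fm (MvPolynomial (Fin n) ℂ) n) :
    pw w (φ + ψ) = pw w φ + pw w ψ := by
  funext T
  exact hz_add _ _ _

theorem pw_zero (w : ℤ) : pw w (0 : Fm (MvPolynomial (Fin n) ℂ) n) = 0 := by
  funext T
  exact hz_zero _

theorem pw_sum {α : Type} (w : ℤ) (s : Finset α) (φ : α → Fm (MvPolynomial (Fin n) ℂ) n) :
    pw w (∑ x ∈ s, φ x) = ∑ x ∈ s, pw w (φ x) := by
  classical
  induction s using Finset.induction_on with
  | empty => rw [Finset.sum_empty, Finset.sum_empty, pw_zero]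
  | insert x s hx ih => rw [Finset.sum_insert hx, Finset.sum_insert hx, pw_add, ih]

theorem pw_smul {w : ℤ} {d : ℕ} {a : MvPolynomial (Fin n) ℂ} (ha : a.IsHomogeneous d)
    (φ : Fm (MvPolynomial (Fin n) ℂ) n) : pw (w + d) (a • φ) = a • pw w φ := by
  funext T
  have h1 : w + d - T.card = (w - T.card) + d := by ring
  simp only [pw, Pi.smul_apply, smul_eq_mul, h1]
  exact hz_mul ha _

theorem pw_C_smul (w : ℤ) (a : ℂ) (φ : Fm (MvPolynomial (Fin n) ℂ) n) :
    pw w ((C a : MvPolynomial (Fin n) ℂ) • φ) = (C a : MvPolynomial (Fin n) ℂ) • pw w φ := by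
  have := pw_smul (w := w) (isHomogeneous_C (Fin n) a) φ
  rwa [Nat.cast_zero, add_zero] at this

theorem pw_sub (w : ℤ) (φ ψ : Fm (MvPolynomial (Fin n) ℂ) n) :
    pw w (φ - ψ) = pw w φ - pw w ψ := by
  have h1 : φ - ψ = φ + (C (-1 : ℂ) : MvPolynomial (Fin n) ℂ) • ψ := by
    rw [C_neg, C_1, neg_smul, one_smul, sub_eq_add_neg]
  rw [h1, pw_add, pw_C_smul, C_neg, C_1, neg_smul, one_smul, sub_eq_add_neg]

theorem sg_hom (j : Fin n) (T : Finset (Fin n)) :
    (sg (MvPolynomial (Fin n) ℂ) j T).IsHomogeneous 0 := by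
  rw [sg]
  rcases neg_one_pow_eq_or (MvPolynomial (Fin n) ℂ) (T.filter (· < j)).card with h | h
  · rw [h]; exact isHomogeneous_one _ _
  · rw [h]
    have := (isHomogeneous_C (Fin n) (-1 : ℂ))
    rwa [C_neg, C_1] at this

theorem pw_ee (w : ℤ) (i : Fin n) (φ : Fm (MvPolynomial (Fin n) ℂ) n) :
    pw (w + 1) (ee i φ) = ee i (pw w φ) := by
  funext T
  rw [ee_apply, pw, ee_apply]
  split_ifs with hi
  · have h1 : (w + 1 - T.card : ℤ) = (w - (T.erase i).card) + (0 : ℕ) := by
      rw [Finset.card_erase_of_mem hi]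
      have := Finset.card_pos.2 ⟨i, hi⟩
      push_cast [Nat.cast_sub this]
      ring
    rw [h1, hz_mul (sg_hom i T)]
    rfl
  · exact hz_zero _

theorem pw_cc (w : ℤ) (i : Fin n) (φ : Fm (MvPolynomial (Fin n) ℂ) n) :
    pw w (cc i φ) = cc i (pw (w + 1) φ) := by
  funext T
  rw [cc_apply, pw, cc_apply]
  split_ifs with hi
  · exact hz_zero _
  · have h1 : (w - T.card : ℤ) = (w + 1 - (insert i T).card) + (0 : ℕ) := by
      rw [Finset.card_insert_of_notMem hi]
      push_cast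
      ring
    rw [h1, hz_mul (sg_hom i T)]
    rfl

theorem pw_pd (w : ℤ) (i : Fin n) (φ : Fm (MvPolynomial (Fin n) ℂ) n) :
    pw w (pd i φ) = pd i (pw (w + 1) φ) := by
  funext T
  have h1 : (w + 1 - T.card : ℤ) = w - T.card + 1 := by ring
  simp only [pw, pd, h1]
  exact hz_pderiv _ _ _

theorem pw_dd (w : ℤ) (φ : Fm (MvPolynomial (Fin n) ℂ) n) : pw w (dd φ) = dd (pw w φ) := by
  rw [dd, dd, pw_sum]
  refine Finset.sum_congr rfl fun i _ => ?_
  have h1 : w = (w - 1) + 1 := by ring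
  nth_rewrite 1 [h1]
  rw [pw_ee, pw_pd, ← h1]

theorem pw_ww {w : ℤ} {d : ℕ} {F : MvPolynomial (Fin n) ℂ} (hF : F.IsHomogeneous d) (hd : 0 < d)
    (φ : Fm (MvPolynomial (Fin n) ℂ) n) : pw (w + d) (ww (gr F) φ) = ww (gr F) (pw w φ) := by
  rw [ww_apply, ww_apply, pw_sum]
  refine Finset.sum_congr rfl fun i _ => ?_
  have h1 : w + d = (w + 1) + ((d - 1 : ℕ) : ℤ) := by
    rw [Nat.cast_sub hd]
    push_cast
    ring
  rw [h1, pw_smul (show (gr F i).IsHomogeneous (d - 1) from hF.pderiv), pw_ee]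

/-- Euler's formula on forms of weight `w` -/
theorem cartan_pw {w : ℤ} {φ : Fm (MvPolynomial (Fin n) ℂ) n} (h : pw w φ = φ) :
    dd (iot φ) + iot (dd φ) = (C (w : ℂ) : MvPolynomial (Fin n) ℂ) • φ := by
  rw [cartan]
  funext T
  rw [Pi.add_apply, number_op, Finset.sum_apply, Pi.smul_apply, smul_eq_mul]
  have h1 : φ T = hz (w - T.card) (φ T) := (congrFun h T).symm
  by_cases h0 : 0 ≤ w - T.card
  · have h2 : (φ T).IsHomogeneous (w - T.card).toNat := by
      rw [h1, hz, if_pos h0]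
      exact homogeneousComponent_isHomogeneous _ _
    have h3 := h2.sum_X_mul_pderiv
    have h4 : ∑ i, ((X i : MvPolynomial (Fin n) ℂ) • pd i φ) T =
        (w - T.card).toNat • φ T := h3
    rw [h4, nsmul_eq_mul, ← add_mul]
    congr 1
    rw [← map_natCast (C : ℂ →+* MvPolynomial (Fin n) ℂ),
      ← map_natCast (C : ℂ →+* MvPolynomial (Fin n) ℂ), ← C_add]
    congr 1
    have h5 : (((w - T.card).toNat : ℤ) : ℂ) = ((w - T.card : ℤ) : ℂ) := by
      rw [Int.toNat_of_nonneg h0]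
    rw [Int.cast_natCast] at h5
    rw [h5]
    push_cast
    ring
  · have h2 : φ T = 0 := by rw [h1, hz, if_neg h0]
    have h3 : ∑ i, ((X i : MvPolynomial (Fin n) ℂ) • pd i φ) T = 0 := by
      refine Finset.sum_eq_zero fun i _ => ?_
      rw [Pi.smul_apply, pd, h2, map_zero, smul_zero]
    rw [h2, h3, mul_zero, mul_zero, add_zero]

theorem pw_pw (w : ℤ) (φ : Fm (MvPolynomial (Fin n) ℂ) n) : pw w (pw w φ) = pw w φ := by
  funext T
  ext m
  simp only [pw, coeff_hz]
  split_ifs <;> rfl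

/-- homogeneous ideals -/
theorem hz_mem {κ : Type} [Fintype κ] {F : κ → MvPolynomial (Fin n) ℂ} {d : κ → ℕ}
    (hF : ∀ j, (F j).IsHomogeneous (d j)) (k : ℤ) {a : MvPolynomial (Fin n) ℂ} (ha : a ∈ JJ F) :
    hz k a ∈ JJ F := by
  obtain ⟨b, rfl⟩ := (Submodule.mem_span_range_iff_exists_fun _).1 ha
  rw [hz_sum]
  refine Ideal.sum_mem _ fun j _ => ?_
  have h1 : hz k (b j • F j) = F j * hz (k - d j) (b j) := by
    rw [smul_eq_mul, mul_comm, ← hz_mul (hF j), sub_add_cancel]
  rw [h1]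
  exact Ideal.mul_mem_right _ _ (Ideal.subset_span ⟨j, rfl⟩)

theorem InI_pw {κ : Type} [Fintype κ] {F : κ → MvPolynomial (Fin n) ℂ} {d : κ → ℕ}
    (hF : ∀ j, (F j).IsHomogeneous (d j)) (w : ℤ) {φ : Fm (MvPolynomial (Fin n) ℂ) n}
    (h : InI (JJ F) φ) : InI (JJ F) (pw w φ) := fun T => hz_mem hF _ (h T)

theorem pr_pd (q : ℕ) (i : Fin n) (φ : Fm (MvPolynomial (Fin n) ℂ) n) :
    pr q (pd i φ) = pd i (pr q φ) := by
  funext T
  rw [pr_apply, pd, pd, pr_apply]
  split_ifs
  · rfl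
  · exact (map_zero _).symm

theorem pr_dd (q : ℕ) (φ : Fm (MvPolynomial (Fin n) ℂ) n) :
    pr (q + 1) (dd φ) = dd (pr q φ) := by
  rw [dd, dd, pr_sum]
  refine Finset.sum_congr rfl fun i _ => ?_
  rw [pr_ee, pr_pd]

theorem Dg.dd {q : ℕ} {φ : Fm (MvPolynomial (Fin n) ℂ) n} (h : Dg q φ) : Dg (q + 1) (dd φ) :=
  Dg_of_pr (by rw [pr_dd, pr_of_Dg h])

/-- the volume form -/
noncomputable def vol (n : ℕ) : Fm (MvPolynomial (Fin n) ℂ) n := fun T => if T = Finset.univ then 1 else 0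

theorem vol_Dg : Dg n (vol n) := by
  intro T hT
  rw [vol, if_neg]
  intro h
  rw [h, Finset.card_univ, Fintype.card_fin] at hT
  exact hT rfl

theorem ww_vol (v : Fin n → MvPolynomial (Fin n) ℂ) : ww v (vol n) = 0 :=
  Dg_big (vol_Dg.ww v) (by omega)

theorem pw_vol : pw (n : ℤ) (vol n) = vol n := by
  funext T
  simp only [pw, vol]
  split_ifs with h
  · rw [h, Finset.card_univ, Fintype.card_fin, hz_hom (isHomogeneous_one _ _)]
    simp
  · exact hz_zero _

theorem Dg_top {φ : Fm (MvPolynomial (Fin n) ℂ) n} (h : Dg n φ) :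
    φ = φ Finset.univ • vol n := by
  funext T
  rw [Pi.smul_apply, vol]
  split_ifs with hT
  · rw [hT, smul_eq_mul, mul_one]
  · rw [smul_zero]
    refine h T ?_
    intro hc
    apply hT
    rw [Finset.eq_univ_iff_forall]
    intro x
    have : T = Finset.univ := Finset.eq_univ_of_card T (by rw [hc, Fintype.card_fin])
    rw [this]
    exact Finset.mem_univ x

end dr

end Pool.Agent.H35.CI
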