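import Mathlib

set_option autoImplicit false

/-! # Flags of smooth complete intersections -/

namespace Pool.Agent.H35.CI

open MvPolynomial

/-- At every common zero `p ≠ 0` of the `f_j`, `j ≤ o`, the gradients of the `f_j`, `j ≤ o`, are
linearly independent, for every `o`. So for forms `f_j`, every one of the schemes
`{f_0 = … = f_o = 0}` in the projective space is a smooth complete intersection (or empty). -/
def Flag {n r : ℕ} (f : Fin r → MvPolynomial (Fin n) ℂ) : Prop :=
  ∀ (o : Fin r) (p : Fin n → ℂ), p ≠ 0 → (∀ j ≤ o, eval p (f j) = 0) →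
    LinearIndependent ℂ fun (j : Finset.Iic o) i => eval p (pderiv i (f j))

/-- The numbers `ν_o = n + ∑_(j ≤ o) (d_o - d_j)`. -/
def nu (n : ℕ) {r : ℕ} (d : Fin r → ℕ) (o : Fin r) : ℕ := n + ∑ j ∈ Finset.Iic o, (d o - d j)

/-- The pairs `(-ν_o, d_o)` for the first `n` indices `o` (all indices if `r ≤ n`), and `(-r, 1)` if
`r < n`. -/
def flagPairs (n : ℕ) {r : ℕ} (d : Fin r → ℕ) : Finset (ℤ × ℤ) :=
  ((Finset.univ.filter fun o : Fin r => (o : ℕ) + 1 ≤ n).image fun o =>
    (-(nu n d o : ℤ), (d o : ℤ))) ∪ if r < n then {(-(r : ℤ), 1)} else ∅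

end Pool.Agent.H35.CI
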