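import Pool.Agent.H35.CI.Contra
import Pool.Agent.H35.CI.CR

set_option autoImplicit false
set_option linter.unusedSectionVars false
set_option linter.unusedVariables false

/-! # From the vector field to the relation -/

namespace Pool.Agent.H35.CI

open MvPolynomial

section ex

variable {n : ℕ}

theorem pd_vol (i : Fin n) : pd i (vol n) = 0 := by
  funext T
  rw [pd, vol]
  split_ifs
  · exact Derivation.map_one_eq_zero _
  · exact map_zero _

theorem ee_vol (i : Fin n) : ee i (vol n) = 0 := by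
  have h1 := pr_ee n i (vol n)
  rw [pr_of_Dg vol_Dg] at h1
  rw [← h1]
  exact Dg_big (Dg_pr (n + 1) _) (by omega)

theorem ee_cc_vol (i j : Fin n) : ee i (cc j (vol n)) = if i = j then vol n else 0 := by
  have h1 := LinearMap.congr_fun (ee_cc (S := MvPolynomial (Fin n) ℂ) i j) (vol n)
  rw [LinearMap.add_apply, Module.End.mul_apply, Module.End.mul_apply, ee_vol, map_zero,
    add_zero] at h1
  rw [h1]
  split_ifs <;> rfl

theorem dd_kk_vol (Q : Fin n → MvPolynomial (Fin n) ℂ) :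
    dd (kk Q (vol n)) = (∑ i, pderiv i (Q i)) • vol n := by
  rw [dd, Finset.sum_smul]
  refine Finset.sum_congr rfl fun i _ => ?_
  rw [kk_apply, pd_sum, map_sum]
  have h1 : ∀ j, ee i (pd i (Q j • cc j (vol n))) =
      if i = j then pderiv i (Q j) • vol n else 0 := by
    intro j
    rw [pd_smul, pd_cc, pd_vol, map_zero, smul_zero, zero_add, map_smul, ee_cc_vol]
    split_ifs
    · rfl
    · exact smul_zero _
  simp only [h1]
  rw [Finset.sum_ite_eq]
  simp

theorem ww_kk_vol (v Q : Fin n → MvPolynomial (Fin n) ℂ) :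
    ww v (kk Q (vol n)) = (∑ i, v i * Q i) • vol n := by
  have h1 := kk_ww_apply v Q (vol n)
  rwa [ww_vol, map_zero, add_zero] at h1

theorem dd_Pr (f : ℕ → MvPolynomial (Fin n) ℂ) (c : ℕ) (φ : Fm (MvPolynomial (Fin n) ℂ) n) :
    dd (Pr (Lg f c) φ) = (C ((-1) ^ c) : MvPolynomial (Fin n) ℂ) • Pr (Lg f c) (dd φ) := by
  induction c with
  | zero =>
    rw [pow_zero, C_1, one_smul]
    rfl
  | succ c ih =>
    rw [Lg, Pr_cons, dd_ww (closed_gr _), ih, map_smul, Pr_cons, pow_succ, C_mul, mul_smul,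
      C_neg, C_1, neg_smul, one_smul, smul_neg]

theorem ww_Pr (f : ℕ → MvPolynomial (Fin n) ℂ) (c : ℕ) (v : Fin n → MvPolynomial (Fin n) ℂ)
    (φ : Fm (MvPolynomial (Fin n) ℂ) n) :
    ww v (Pr (Lg f c) φ) = (C ((-1) ^ c) : MvPolynomial (Fin n) ℂ) • Pr (Lg f c) (ww v φ) := by
  rw [Pr_ww, smul_smul, Lg_length, C_pow, C_neg, C_1, ← mul_pow, neg_mul_neg, one_mul, one_pow,
    one_smul]

theorem JJ2_le {κ : Type} [Fintype κ] (F : κ → MvPolynomial (Fin n) ℂ) :
    (JJ fun k : κ × κ => F k.1 * F k.2) ≤ JJ F := by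
  rw [JJ, Ideal.span_le]
  rintro _ ⟨k, rfl⟩
  exact Ideal.mul_mem_left _ _ (Ideal.subset_span ⟨k.2, rfl⟩)

theorem JJ2_pderiv {κ : Type} [Fintype κ] (F : κ → MvPolynomial (Fin n) ℂ) (i : Fin n)
    {x : MvPolynomial (Fin n) ℂ} (hx : x ∈ JJ fun k : κ × κ => F k.1 * F k.2) :
    pderiv i x ∈ JJ F := by
  obtain ⟨b, rfl⟩ := (Submodule.mem_span_range_iff_exists_fun _).1 hx
  rw [map_sum]
  refine Ideal.sum_mem _ fun k _ => ?_
  have h1 : ∀ k, F k ∈ JJ F := fun k => Ideal.subset_span ⟨k, rfl⟩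
  rw [smul_eq_mul, Derivation.leibniz, Derivation.leibniz, smul_eq_mul, smul_eq_mul,
    smul_eq_mul, smul_eq_mul]
  refine Ideal.add_mem _ (Ideal.mul_mem_left _ _ (Ideal.add_mem _ (Ideal.mul_mem_right _ _ (h1 _))
    (Ideal.mul_mem_right _ _ (h1 _)))) (Ideal.mul_mem_right _ _ (Ideal.mul_mem_right _ _ (h1 _)))

/-- **The relation from the vector field.** -/
theorem exists_Rel (f : ℕ → MvPolynomial (Fin n) ℂ) (c : ℕ) (hl : c + 1 ≤ n)
    (s : ℂ) (u : MvPolynomial (Fin n) ℂ) (M : ℕ)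
    (hu : u - f c ^ M ∈ JJ fun j : Fin c => f j) (Vs : List (Fin n → MvPolynomial (Fin n) ℂ))
    (hVs : Dual u (Lg f c) Vs) (N : ℕ) (Q : Fin n → MvPolynomial (Fin n) ℂ)
    (hQ1 : ∀ j : Fin c, ∑ i, pderiv i (f j) * Q i ∈ JJ fun k : Fin c × Fin c => f k.1 * f k.2)
    (hQ2 : ∑ i, (f c * pderiv i (Q i) + C (s - N) * (Q i * pderiv i (f c))) - f c ^ (N + 1) ∈
      JJ fun j : Fin c => f j) :
    ∃ (K : ℕ) (Ξ : Fm (MvPolynomial (Fin n) ℂ) n), Dg (n - (c + 1)) Ξ ∧ Rel f c s K Ξ := by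
  set J := JJ fun j : Fin c => f j with hJ
  set J2 := JJ fun k : Fin c × Fin c => f k.1 * f k.2 with hJ2
  have hJ2le : J2 ≤ J := JJ2_le fun j : Fin c => f j
  set g := f c with hg
  set η := kk Q (vol n) with hη
  have hηD : Dg (n - 1) η := Dg.kk (by
    have : n - 1 + 1 = n := by omega
    rw [this]
    exact vol_Dg) Q
  set Ξ0 := Kr Vs η with hΞ0
  have hVl : Vs.length = c := by rw [← hVs.length, Lg_length]
  have hΞD : Dg (n - (c + 1)) Ξ0 := Dg_Kr Vs _ _ (by
    have : n - (c + 1) + Vs.length = n - 1 := by omega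
    rw [this]
    exact hηD)
  -- reconstruction
  have h1 : InI J2 (Pr (Lg f c) Ξ0 - u ^ (Lg f c).length • η) := by
    refine Pr_Kr u (Lg f c) Vs hVs J2 η fun v hv => ?_
    obtain ⟨j, hj, rfl⟩ := mem_Lg f c hv
    rw [hη, ww_kk_vol]
    exact InI.of_mem (hQ1 ⟨j, hj⟩) _
  rw [Lg_length] at h1
  set ρ := Pr (Lg f c) Ξ0 - u ^ c • η with hρ
  have h2 : u ^ c - g ^ (M * c) ∈ J := by
    obtain ⟨t, ht⟩ := sub_dvd_pow_sub_pow u (g ^ M) c
    rw [← pow_mul] at ht
    rw [ht]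
    exact Ideal.mul_mem_right _ _ hu
  set h := u ^ c - g ^ (M * c) with hh
  have h3 : Pr (Lg f c) Ξ0 = g ^ (M * c) • η + h • η + ρ := by
    rw [hρ, hh, sub_smul]
    abel
  set K := N + M * c with hK
  -- the operator
  set 𝒟 : Fm (MvPolynomial (Fin n) ℂ) n → Fm (MvPolynomial (Fin n) ℂ) n :=
    fun φ => g • dd φ + (C (s - K) : MvPolynomial (Fin n) ℂ) • ww (gr g) φ with h𝒟
  have hadd : ∀ φ ψ, 𝒟 (φ + ψ) = 𝒟 φ + 𝒟 ψ := by
    intro φ ψ
    simp only [h𝒟, dd_add, map_add, smul_add]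
    abel
  have hmemJ : ∀ j : Fin c, f (j : ℕ) ∈ J := fun j => Ideal.subset_span ⟨j, rfl⟩
  -- first term
  have h4 : InI J (g ^ (K + 1) • vol n - 𝒟 (g ^ (M * c) • η)) := by
    have h5 : ∀ m : ℕ, g • ww (gr (g ^ m)) η =
        (C (m : ℂ) : MvPolynomial (Fin n) ℂ) • g ^ m • ww (gr g) η := by
      intro m
      rw [hη, ww_kk_vol, ww_kk_vol, smul_smul, smul_smul, smul_smul]
      congr 1
      rw [Finset.mul_sum, Finset.mul_sum]
      refine Finset.sum_congr rfl fun i _ => ?_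
      rw [gr, gr, Derivation.leibniz_pow, nsmul_eq_mul, smul_eq_mul, map_natCast C m]
      rcases m with _ | m
      · simp
      · rw [Nat.add_sub_cancel, pow_succ]
        ring
    have h6 : 𝒟 (g ^ (M * c) • η) = g ^ (M * c) •
        ((∑ i, (g * pderiv i (Q i) + C (s - N) * (Q i * pderiv i g))) • vol n) := by
      simp only [h𝒟]
      rw [dd_smul, smul_add, h5, map_smul, Finset.sum_add_distrib, add_smul, ← Finset.mul_sum,
        ← Finset.mul_sum]
      have h7 : ∑ i, Q i * pderiv i g = ∑ i, gr g i * Q i :=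
        Finset.sum_congr rfl fun i _ => mul_comm _ _
      have h8 : (C (s - K) : MvPolynomial (Fin n) ℂ) = C (s - N) - C ((M * c : ℕ) : ℂ) := by
        rw [← C_sub, hK]
        congr 1
        push_cast
        ring
      rw [h7, h8, hη, dd_kk_vol, ww_kk_vol]
      simp only [smul_smul, ← add_smul]
      congr 1
      ring
    have h7 : g ^ (K + 1) • vol n - 𝒟 (g ^ (M * c) • η) = -(g ^ (M * c) *
        (∑ i, (g * pderiv i (Q i) + C (s - N) * (Q i * pderiv i g)) - g ^ (N + 1))) • vol n := by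
      rw [h6, smul_smul, ← sub_smul]
      congr 1
      rw [hK]
      ring
    rw [h7]
    exact InI.of_mem (neg_mem (Ideal.mul_mem_left _ _ hQ2)) _
  -- second term
  have h5 : InI J (𝒟 (h • η)) := by
    simp only [h𝒟]
    rw [dd_smul, map_smul]
    refine InI.add (InI.smul (InI.add (InI.of_mem h2 _) ?_) _) (InI.smul (InI.of_mem h2 _) _)
    rw [hη, ww_kk_vol]
    refine InI.of_mem ?_ _
    obtain ⟨b, hb⟩ := (Submodule.mem_span_range_iff_exists_fun _).1 h2
    have h6 : ∑ i, gr h i * Q i = ∑ j : Fin c, (b j * ∑ i, pderiv i (f j) * Q i +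
        f j * ∑ i, pderiv i (b j) * Q i) := by
      rw [← hb]
      simp only [gr, map_sum, smul_eq_mul, Derivation.leibniz, Finset.mul_sum, Finset.sum_mul,
        ← Finset.sum_add_distrib]
      rw [Finset.sum_comm]
      refine Finset.sum_congr rfl fun j _ => Finset.sum_congr rfl fun i _ => ?_
      ring
    rw [h6]
    exact Ideal.sum_mem _ fun j _ => Ideal.add_mem _ (Ideal.mul_mem_left _ _ (hJ2le (hQ1 j)))
      (Ideal.mul_mem_right _ _ (hmemJ j))
  -- third term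
  have h6 : InI J (𝒟 ρ) := by
    simp only [h𝒟]
    refine InI.add (InI.smul ?_ _) (InI.smul (InI.ww (h1.mono hJ2le) _) _)
    rw [dd]
    exact InI.sum _ fun i _ => InI.ee (fun T => JJ2_pderiv (fun j : Fin c => f j) i (h1 T)) i
  refine ⟨K, (C ((-1) ^ c) : MvPolynomial (Fin n) ℂ) • Ξ0, hΞD.smul _, ?_⟩
  rw [Rel]
  have h7 : Pr (Lg f c) (g • dd ((C ((-1) ^ c) : MvPolynomial (Fin n) ℂ) • Ξ0) +
      (C (s - K) : MvPolynomial (Fin n) ℂ) •
        ww (gr g) ((C ((-1) ^ c) : MvPolynomial (Fin n) ℂ) • Ξ0)) =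
      𝒟 (Pr (Lg f c) Ξ0) := by
    simp only [h𝒟]
    rw [dd_C_smul, dd_Pr, ww_Pr, map_add, map_smul, map_smul, map_smul, map_smul, map_smul]
  rw [h7, h3, hadd, hadd]
  have h8 : g ^ (K + 1) • vol n - (𝒟 (g ^ (M * c) • η) + 𝒟 (h • η) + 𝒟 ρ) =
      (g ^ (K + 1) • vol n - 𝒟 (g ^ (M * c) • η)) - 𝒟 (h • η) - 𝒟 ρ := by abel
  rw [h8]
  exact (h4.sub h5).sub h6

/-- dual vector fields modulo `J` -/
theorem exists_u (f : ℕ → MvPolynomial (Fin n) ℂ) (c : ℕ) (hJ : Jac fun j : Fin c => f j)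
    (g : MvPolynomial (Fin n) ℂ) (hg : eval 0 g = 0) :
    ∃ (M : ℕ) (u : MvPolynomial (Fin n) ℂ) (V : Fin c → Fin n → MvPolynomial (Fin n) ℂ),
      u - g ^ M ∈ (JJ fun j : Fin c => f j) ∧
      ∀ j m : Fin c, ∑ i, gr (f j) i * V m i = if j = m then u else 0 := by
  obtain ⟨M, hM⟩ := exists_pow_mem hJ g hg 1
  obtain ⟨y, hy, z, hz, hyz⟩ := Submodule.mem_sup.1 hM
  obtain ⟨b, hb⟩ := (Submodule.mem_span_range_iff_exists_fun _).1 hy
  choose V hV using fun e => exists_dual (fun j : Fin c => f j) e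
  refine ⟨M, y, fun m i => ∑ e, b e * V e m i, ?_, fun j m => ?_⟩
  · rw [← hyz]
    have : y - (y + z) = -z := by ring
    rw [this]
    exact neg_mem hz
  · have h1 : ∑ i, gr (f j) i * ∑ e, b e * V e m i = ∑ e, b e * ∑ i, gr (f j) i * V e m i := by
      simp only [Finset.mul_sum]
      rw [Finset.sum_comm]
      refine Finset.sum_congr rfl fun e _ => Finset.sum_congr rfl fun i _ => ?_
      ring
    have hV' : ∀ e, ∑ i, gr (f j) i * V e m i =
        if j = m then dlt (fun j : Fin c => f j) e else 0 := fun e => hV e j m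
    rw [h1]
    simp only [hV']
    split_ifs
    · rw [← hb]
      refine Finset.sum_congr rfl fun e _ => ?_
      rw [pow_one, smul_eq_mul]
    · simp

end ex

end Pool.Agent.H35.CI
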