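import Pool.Graph.R_seed8.W574.LM.Eng

set_option autoImplicit false
set_option linter.unusedSectionVars false
set_option linter.unusedVariables false

/-! # Local functional equations and the exactness of a class: forms of different degrees

`R = A[∂_t]` is represented by the polynomials in `X_j` with coefficients in `A = ℂ[x]`;
`tj f j` is the multiplication by `t_j`, `theta f j = X_j t_j` represents `s_j`, and `dh f i`
represents `∂_i`. -/

namespace Pool.Agent.H35.CI

open MvPolynomial Pool.Agent.W574.SM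
open Pool.Agent.W574.LM (IsLocEq)

section basic

variable {σ ι : Type} [Fintype σ] [DecidableEq σ] [Fintype ι] [DecidableEq ι]
  (f : ι → MvPolynomial σ ℂ)

/-- the multiplication by `t_j` -/
noncomputable def tj (j : ι) (q : MvPolynomial ι (MvPolynomial σ ℂ)) :
    MvPolynomial ι (MvPolynomial σ ℂ) := C (f j) * q + pderiv j q

theorem theta_eq (j : ι) (q : MvPolynomial ι (MvPolynomial σ ℂ)) :
    theta f j q = X j * tj f j q := rfl

theorem tj_add (j : ι) (p q : MvPolynomial ι (MvPolynomial σ ℂ)) :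
    tj f j (p + q) = tj f j p + tj f j q := by
  rw [tj, tj, tj, map_add]; ring

theorem tj_C_mul (j : ι) (a : MvPolynomial σ ℂ) (q : MvPolynomial ι (MvPolynomial σ ℂ)) :
    tj f j (C a * q) = C a * tj f j q := by
  rw [tj, tj, Derivation.leibniz, pderiv_C, smul_zero, add_zero, smul_eq_mul]; ring

theorem tj_X_mul (j k : ι) (q : MvPolynomial ι (MvPolynomial σ ℂ)) :
    tj f j (X k * q) = X k * tj f j q + (if j = k then q else 0) := by
  rw [tj, tj, Derivation.leibniz, pderiv_X, smul_eq_mul, smul_eq_mul, Pi.single_apply]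
  by_cases h : k = j
  · subst h
    rw [if_pos rfl, if_pos rfl]; ring
  · rw [if_neg h, if_neg (Ne.symm h)]; ring

theorem pderiv_comm' (j k : ι) (q : MvPolynomial ι (MvPolynomial σ ℂ)) :
    pderiv j (pderiv k q) = pderiv k (pderiv j q) := by
  have h : ⁅(pderiv j : Derivation (MvPolynomial σ ℂ) (MvPolynomial ι (MvPolynomial σ ℂ))
      (MvPolynomial ι (MvPolynomial σ ℂ))), (pderiv k : Derivation (MvPolynomial σ ℂ)
      (MvPolynomial ι (MvPolynomial σ ℂ)) (MvPolynomial ι (MvPolynomial σ ℂ)))⁆ = 0 := by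
    refine derivation_ext fun i => ?_
    rw [Derivation.commutator_apply, pderiv_X, pderiv_X, Derivation.zero_apply, Pi.single_apply,
      Pi.single_apply]
    split_ifs <;> simp
  have h1 := congrArg (fun D => D q) h
  simp only [Derivation.commutator_apply, Derivation.zero_apply] at h1
  exact sub_eq_zero.1 h1

theorem tj_comm (j k : ι) (q : MvPolynomial ι (MvPolynomial σ ℂ)) :
    tj f j (tj f k q) = tj f k (tj f j q) := by
  rw [tj, tj, tj, tj, map_add, map_add, Derivation.leibniz, Derivation.leibniz, pderiv_C,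
    pderiv_C, pderiv_comm' j k]
  simp only [smul_eq_mul, mul_zero, add_zero]
  ring

theorem theta_add (j : ι) (p q : MvPolynomial ι (MvPolynomial σ ℂ)) :
    theta f j (p + q) = theta f j p + theta f j q := by
  rw [theta_eq, theta_eq, theta_eq, tj_add, mul_add]

theorem theta_C_mul (j : ι) (a : MvPolynomial σ ℂ) (q : MvPolynomial ι (MvPolynomial σ ℂ)) :
    theta f j (C a * q) = C a * theta f j q := by
  rw [theta_eq, theta_eq, tj_C_mul]; ring

theorem theta_tj (j k : ι) (q : MvPolynomial ι (MvPolynomial σ ℂ)) :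
    theta f j (tj f k q) = tj f k (theta f j q + C (C (if j = k then -1 else 0)) * q) := by
  rw [theta_eq, theta_eq, tj_add, tj_X_mul, tj_C_mul, tj_comm f j k]
  by_cases h : j = k
  · subst h
    rw [if_pos rfl, if_pos rfl, C_neg, C_neg, C_1, C_1]; ring
  · rw [if_neg (Ne.symm h), if_neg h, C_0, C_0]; ring

theorem theta_X (j k : ι) (q : MvPolynomial ι (MvPolynomial σ ℂ)) :
    theta f j (X k * q) = X k * (theta f j q + (if j = k then q else 0)) := by
  rw [theta_eq, theta_eq, tj_X_mul]
  by_cases h : j = k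
  · subst h
    rw [if_pos rfl, mul_add]
  · rw [if_neg h]; ring

theorem dcoef_pderiv (i : σ) (j : ι) (q : MvPolynomial ι (MvPolynomial σ ℂ)) :
    dcoef (pderiv i) (pderiv j q) = pderiv j (dcoef (pderiv i) q) := by
  ext1 μ
  rw [coeff_dcoef, coeff_pderiv, coeff_pderiv, coeff_dcoef, Derivation.leibniz]
  have h : (pderiv i : Derivation ℂ (MvPolynomial σ ℂ) (MvPolynomial σ ℂ))
      ((μ j : MvPolynomial σ ℂ) + 1) = 0 := by
    rw [map_add]
    have h1 : (μ j : MvPolynomial σ ℂ) = C (μ j : ℂ) := by simp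
    rw [h1, pderiv_C]
    simp
  rw [h, smul_zero, zero_add, smul_eq_mul, mul_comm]

theorem dh_add (i : σ) (p q : MvPolynomial ι (MvPolynomial σ ℂ)) :
    dh f i (p + q) = dh f i p + dh f i q := by
  rw [dh, dh, dh, dcoef_add]; ring

theorem dh_X (i : σ) (j : ι) (q : MvPolynomial ι (MvPolynomial σ ℂ)) :
    dh f i (X j * q) = X j * dh f i q := by
  rw [dh, dh, dcoef_X_mul]; ring

theorem dh_C (i : σ) (a : MvPolynomial σ ℂ) (q : MvPolynomial ι (MvPolynomial σ ℂ)) :
    dh f i (C a * q) = C (pderiv i a) * q + C a * dh f i q := by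
  rw [dh, dh, dcoef_C_mul]; ring

theorem dh_tj (i : σ) (j : ι) (q : MvPolynomial ι (MvPolynomial σ ℂ)) :
    dh f i (tj f j q) = tj f j (dh f i q) := by
  have h1 : pderiv j (∑ m, C (pderiv i (f m)) * X m : MvPolynomial ι (MvPolynomial σ ℂ)) =
      C (pderiv i (f j)) := by
    rw [map_sum, Finset.sum_eq_single j]
    · rw [Derivation.leibniz, pderiv_C, pderiv_X_self]
      simp
    · intro m _ hm
      rw [Derivation.leibniz, pderiv_C, pderiv_X_of_ne hm]
      simp
    · intro h
      exact absurd (Finset.mem_univ j) h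
  rw [tj, dh_add, dh_C, tj, dh, dh, dcoef_pderiv, map_add, Derivation.leibniz, h1, smul_eq_mul,
    smul_eq_mul]
  ring

theorem theta_dh (i : σ) (j : ι) (q : MvPolynomial ι (MvPolynomial σ ℂ)) :
    theta f j (dh f i q) = dh f i (theta f j q) := by
  rw [theta_eq, theta_eq, ← dh_tj, dh_X]

/-- all the weights are positive -/
def Pos (d : ι → ℕ) (q : MvPolynomial ι (MvPolynomial σ ℂ)) : Prop :=
  ∀ (γ : ι →₀ ℕ) (m : σ →₀ ℕ), coeff m (coeff γ q) ≠ 0 → ∑ j, γ j * d j < m.degree

theorem Pos.add {d : ι → ℕ} {p q : MvPolynomial ι (MvPolynomial σ ℂ)} (hp : Pos d p)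
    (hq : Pos d q) : Pos d (p + q) := by
  intro γ m h
  rw [coeff_add, coeff_add] at h
  by_cases h1 : coeff m (coeff γ p) = 0
  · rw [h1, zero_add] at h
    exact hq γ m h
  · exact hp γ m h1

theorem Pos.C_mul {d : ι → ℕ} {q : MvPolynomial ι (MvPolynomial σ ℂ)} (hq : Pos d q)
    (a : MvPolynomial σ ℂ) : Pos d (C a * q) := by
  classical
  intro γ m h
  rw [coeff_C_mul, coeff_mul] at h
  obtain ⟨x, hx, hne⟩ := Finset.exists_ne_zero_of_sum_ne_zero h
  have h1 := hq γ x.2 (right_ne_zero_of_mul hne)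
  have h2 := Finset.HasAntidiagonal.mem_antidiagonal.1 hx
  rw [← h2, map_add]
  omega

theorem sum_tsub_single (d : ι → ℕ) (γ : ι →₀ ℕ) (j : ι) (h : γ j ≠ 0) :
    ∑ k, γ k * d k = ∑ k, (γ - Finsupp.single j 1 : ι →₀ ℕ) k * d k + d j := by
  rw [← Finset.add_sum_erase _ _ (Finset.mem_univ j),
    ← Finset.add_sum_erase _ (fun k => (γ - Finsupp.single j 1 : ι →₀ ℕ) k * d k) (Finset.mem_univ j)]
  have h1 : ∑ k ∈ Finset.univ.erase j, (γ - Finsupp.single j 1 : ι →₀ ℕ) k * d k =
      ∑ k ∈ Finset.univ.erase j, γ k * d k := by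
    refine Finset.sum_congr rfl fun k hk => ?_
    rw [Finsupp.tsub_apply, Finsupp.single_eq_of_ne (Finset.ne_of_mem_erase hk), Nat.sub_zero]
  rw [h1, Finsupp.tsub_apply, Finsupp.single_eq_same]
  obtain ⟨m, hm⟩ := Nat.exists_eq_succ_of_ne_zero h
  rw [hm, Nat.succ_sub_one, Nat.succ_mul]
  ring

theorem Pos.theta {d : ι → ℕ} (hf : ∀ j, (f j).IsHomogeneous (d j))
    {q : MvPolynomial ι (MvPolynomial σ ℂ)} (hq : Pos d q) (j : ι) : Pos d (theta f j q) := by
  classical
  intro γ m h
  rw [theta_eq, coeff_X_mul'] at h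
  split_ifs at h with hj
  · have hj' : γ j ≠ 0 := by simpa using hj
    have h1 : (γ - Finsupp.single j 1) + Finsupp.single j 1 = γ := by
      rw [tsub_add_cancel_of_le]
      rw [Finsupp.single_le_iff]
      omega
    rw [tj, coeff_add, coeff_C_mul, coeff_pderiv, h1, coeff_add] at h
    by_cases h2 : coeff m (f j * coeff (γ - Finsupp.single j 1) q) = 0
    · rw [h2, zero_add] at h
      have h3 : (((γ - Finsupp.single j 1 : ι →₀ ℕ) j : MvPolynomial σ ℂ) + 1) =
          C ((((γ - Finsupp.single j 1 : ι →₀ ℕ) j : ℕ) : ℂ) + 1) := by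
        rw [C_add, C_1, map_natCast]
      rw [h3, mul_comm, coeff_C_mul] at h
      exact hq γ m (right_ne_zero_of_mul h)
    · rw [coeff_mul] at h2
      obtain ⟨x, hx, hne⟩ := Finset.exists_ne_zero_of_sum_ne_zero h2
      have h3 := hq _ x.2 (right_ne_zero_of_mul hne)
      have h4 : x.1.degree = d j := by
        have := hf j (left_ne_zero_of_mul hne)
        have e := DFunLike.congr_fun (Finsupp.degree_eq_weight_one (R := ℕ) (σ := σ)) x.1
        exact e.trans this
      have h5 := Finset.HasAntidiagonal.mem_antidiagonal.1 hx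
      rw [sum_tsub_single d γ j hj', ← h5, map_add]
      omega
  · simp at h

/-- the elements of positive weight, `t_j R` (`j ∈ A`), `X_j R` (`j ∈ B`), and what one gets from
them with the operators `∂_i` -/
inductive UU (d : ι → ℕ) (A B : Finset ι) : MvPolynomial ι (MvPolynomial σ ℂ) → Prop
  | pos (q : MvPolynomial ι (MvPolynomial σ ℂ)) (hq : Pos d q) : UU d A B q
  | ta (j : ι) (hj : j ∈ A) (q : MvPolynomial ι (MvPolynomial σ ℂ)) : UU d A B (tj f j q)
  | xb (j : ι) (hj : j ∈ B) (q : MvPolynomial ι (MvPolynomial σ ℂ)) : UU d A B (X j * q)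
  | add (p q : MvPolynomial ι (MvPolynomial σ ℂ)) (hp : UU d A B p) (hq : UU d A B q) :
      UU d A B (p + q)
  | der (i : σ) (q : MvPolynomial ι (MvPolynomial σ ℂ)) (hq : UU d A B q) : UU d A B (dh f i q)

variable {f} {d : ι → ℕ} {A B : Finset ι}

theorem UU.CC {q : MvPolynomial ι (MvPolynomial σ ℂ)} (hq : UU f d A B q) (a : ℂ) :
    UU f d A B (C (C a) * q) := by
  induction hq with
  | pos q hq => exact UU.pos _ (hq.C_mul _)
  | ta j hj q =>
    rw [← tj_C_mul]
    exact UU.ta j hj _
  | xb j hj q =>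
    rw [mul_left_comm]
    exact UU.xb j hj _
  | add p q _ _ h1 h2 =>
    rw [mul_add]
    exact UU.add _ _ h1 h2
  | der i q _ h =>
    have h1 := dh_C f i (C a) q
    rw [pderiv_C, C_0, zero_mul, zero_add] at h1
    rw [← h1]
    exact UU.der i _ h

theorem UU.CX {q : MvPolynomial ι (MvPolynomial σ ℂ)} (hq : UU f d A B q) (k : σ) :
    UU f d A B (C (X k) * q) := by
  induction hq with
  | pos q hq => exact UU.pos _ (hq.C_mul _)
  | ta j hj q =>
    rw [← tj_C_mul]
    exact UU.ta j hj _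
  | xb j hj q =>
    rw [mul_left_comm]
    exact UU.xb j hj _
  | add p q _ _ h1 h2 =>
    rw [mul_add]
    exact UU.add _ _ h1 h2
  | der i q hq h =>
    have h1 := dh_C f i (X k) q
    have h2 : C (X k) * dh f i q = dh f i (C (X k) * q) +
        C (C (-(if k = i then 1 else 0))) * q := by
      rw [h1, pderiv_X, Pi.single_apply]
      split_ifs with h
      · simp only [map_one, map_neg]
        ring
      · simp only [map_zero, neg_zero]
        ring
    rw [h2]
    exact UU.add _ _ (UU.der i _ h) (hq.CC _)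

theorem UU.th (hf : ∀ j, (f j).IsHomogeneous (d j))
    {q : MvPolynomial ι (MvPolynomial σ ℂ)} (hq : UU f d A B q) (k : ι) :
    UU f d A B (theta f k q) := by
  induction hq with
  | pos q hq => exact UU.pos _ (Pos.theta f hf hq k)
  | ta j hj q =>
    rw [theta_tj]
    exact UU.ta j hj _
  | xb j hj q =>
    rw [theta_X]
    exact UU.xb j hj _
  | add p q _ _ h1 h2 =>
    rw [theta_add]
    exact UU.add _ _ h1 h2
  | der i q _ h =>
    rw [theta_dh]
    exact UU.der i _ h

theorem UU.zero : UU f d A B 0 :=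
  UU.pos _ fun γ m h => by simp at h

theorem UU.sum {α : Type} (s : Finset α) (q : α → MvPolynomial ι (MvPolynomial σ ℂ))
    (h : ∀ i ∈ s, UU f d A B (q i)) : UU f d A B (∑ i ∈ s, q i) := by
  classical
  induction s using Finset.induction_on with
  | empty =>
    rw [Finset.sum_empty]
    exact UU.zero
  | insert a s ha ih =>
    rw [Finset.sum_insert ha]
    exact UU.add _ _ (h a (Finset.mem_insert_self a s)) (ih fun i hi =>
      h i (Finset.mem_insert_of_mem hi))

theorem exists_theta_UU (hf : ∀ j, (f j).IsHomogeneous (d j)) (β : ι →₀ ℕ) :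
    ∃ Th : MvPolynomial ι (MvPolynomial σ ℂ) → MvPolynomial ι (MvPolynomial σ ℂ),
      (∀ s q, ip (E f s) (Th q) = (∏ j, ((s j : ℂ)) ^ β j) • ip (E f s) q) ∧
      ∀ q, UU f d A B q → UU f d A B (Th q) := by
  induction β using finsupp_ind with
  | h0 => exact ⟨id, fun s q => by simp, fun q h => h⟩
  | h1 β j ih =>
    obtain ⟨Th, h1, h2⟩ := ih
    refine ⟨fun q => theta f j (Th q), fun s q => ?_,
      fun q h => (h2 q h).th hf j⟩
    rw [ip_theta, h1]
    have h3 : ∏ k, ((s k : ℂ)) ^ ((β + Finsupp.single j 1 : ι →₀ ℕ) k)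
        = (s j : ℂ) * ∏ k, ((s k : ℂ)) ^ (β k) := by
      rw [← Finset.mul_prod_erase _ _ (Finset.mem_univ j),
        ← Finset.mul_prod_erase Finset.univ (fun k => ((s k : ℂ)) ^ (β k)) (Finset.mem_univ j),
        Finsupp.add_apply, Finsupp.single_eq_same, pow_succ, mul_comm (_ ^ _) (s j : ℂ), mul_assoc]
      congr 2
      refine Finset.prod_congr rfl fun k hk => ?_
      rw [Finsupp.add_apply, Finsupp.single_eq_of_ne (Finset.ne_of_mem_erase hk), add_zero]
    rw [h3, mul_smul]
    have h4 : ((s j : ℕ) : MvPolynomial σ ℂ) = C ((s j : ℕ) : ℂ) := by simp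
    rw [h4, C_mul']

theorem lift_UU (Q : Module.End ℂ (MvPolynomial σ ℂ)) (hQ : Q ∈ weyl σ) :
    ∃ Qh : MvPolynomial ι (MvPolynomial σ ℂ) → MvPolynomial ι (MvPolynomial σ ℂ),
      (∀ s q, Q (ip (E f s) q) = ip (E f s) (Qh q)) ∧
      ∀ q, UU f d A B q → UU f d A B (Qh q) := by
  induction hQ using Algebra.adjoin_induction with
  | mem Q hQ =>
    rcases hQ with ⟨i, rfl⟩ | ⟨i, rfl⟩
    · refine ⟨fun q => C (X i) * q, fun s q => ?_, fun q hq => hq.CX i⟩
      rw [ip_C_mul]; rfl
    · exact ⟨fun q => dh f i q, fun s q => ip_dh f i s q,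
        fun q hq => UU.der i q hq⟩
  | algebraMap r =>
    refine ⟨fun q => C (C r) * q, fun s q => ?_, fun q hq => hq.CC r⟩
    rw [ip_C_mul, C_mul']; rfl
  | add Q1 Q2 _ _ h1 h2 =>
    obtain ⟨A1, hA1, hB1⟩ := h1
    obtain ⟨A2, hA2, hB2⟩ := h2
    refine ⟨fun q => A1 q + A2 q, fun s q => ?_, fun q hq => UU.add _ _ (hB1 q hq) (hB2 q hq)⟩
    rw [LinearMap.add_apply, hA1, hA2, map_add]
  | mul Q1 Q2 _ _ h1 h2 =>
    obtain ⟨A1, hA1, hB1⟩ := h1
    obtain ⟨A2, hA2, hB2⟩ := h2
    refine ⟨fun q => A1 (A2 q), fun s q => ?_, fun q hq => hB1 _ (hB2 q hq)⟩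
    rw [Module.End.mul_apply, hA2, hA1]

theorem monomial_tj (j : ι) (γ : ι →₀ ℕ) (hγ : γ j = 0) (a : MvPolynomial σ ℂ) :
    tj f j (monomial γ a) = monomial γ (f j * a) := by
  rw [tj, pderiv_monomial, hγ, C_mul_monomial]
  simp

/-- the terms of a functional equation -/
theorem qc_UU (hf : ∀ j, (f j).IsHomogeneous (d j)) (o : ι) (ho : ∀ j, j = o ∨ j ∈ A ∨ j ∈ B)
    (hdo : 0 < d o) (hA : ∀ j ∈ A, d j ≤ d o) (hB : ∀ j ∈ B, d o ≤ d j)
    (c : ι → ℤ) (hc : ∑ j, c j = 1) : UU f d A B (qc f c) := by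
  classical
  by_cases h1 : ∃ j ∈ B, c j < 0
  · obtain ⟨j, hj, hcj⟩ := h1
    have h2 : (cneg c - Finsupp.single j 1) + Finsupp.single j 1 = cneg c := by
      rw [tsub_add_cancel_of_le]
      rw [Finsupp.single_le_iff, cneg_apply]
      omega
    rw [qc, ← h2, ← X_mul_monomial, h2]
    exact UU.xb j hj _
  by_cases h3 : ∃ j ∈ A, 0 < c j
  · obtain ⟨j, hj, hcj⟩ := h3
    have h4 : cneg c j = 0 := by
      rw [cneg_apply]
      omega
    have h5 : C ((mfact (cneg c) : ℂ)⁻¹) * ∏ j, f j ^ (c j).toNat =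
        f j * (C ((mfact (cneg c) : ℂ)⁻¹) * (f j ^ ((c j).toNat - 1) *
          ∏ k ∈ Finset.univ.erase j, f k ^ (c k).toNat)) := by
      rw [← Finset.mul_prod_erase _ _ (Finset.mem_univ j)]
      have h6 : (c j).toNat = ((c j).toNat - 1) + 1 := by omega
      conv_lhs => rw [h6, pow_succ]
      ring
    rw [qc, h5, ← monomial_tj j _ h4]
    exact UU.ta j hj _
  push Not at h1 h3
  refine UU.pos _ fun γ m h => ?_
  rw [qc, coeff_monomial] at h
  split_ifs at h with h7
  · rw [coeff_C_mul] at h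
    have h8 := right_ne_zero_of_mul h
    have h9 : (∏ j, f j ^ (c j).toNat).IsHomogeneous (∑ j, (c j).toNat * d j) := by
      refine IsHomogeneous.prod Finset.univ _ _ fun j _ => ?_
      have := (hf j).pow (c j).toNat
      rwa [mul_comm] at this
    have h10 := h9 h8
    have e := DFunLike.congr_fun (Finsupp.degree_eq_weight_one (R := ℕ) (σ := σ)) m
    rw [show m.degree = ∑ j, (c j).toNat * d j from e.trans h10, ← h7]
    have h11 : ∀ j, (d o : ℤ) * c j ≤ ((c j).toNat : ℤ) * d j - (cneg c j : ℤ) * d j := by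
      intro j
      rw [cneg_apply]
      have h12 : ((c j).toNat : ℤ) * d j - (((-c j).toNat : ℕ) : ℤ) * d j = c j * d j := by
        rw [← sub_mul]
        congr 1
        omega
      rw [h12, mul_comm (c j)]
      rcases ho j with rfl | hj | hj
      · exact le_rfl
      · have h13 := h3 j hj
        have h14 : (d j : ℤ) ≤ d o := by exact_mod_cast hA j hj
        exact mul_le_mul_of_nonpos_right h14 h13
      · have h13 := h1 j hj
        have h14 : (d o : ℤ) ≤ d j := by exact_mod_cast hB j hj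
        exact mul_le_mul_of_nonneg_right h14 h13
    have h15 := Finset.sum_le_sum fun j (_ : j ∈ Finset.univ) => h11 j
    rw [← Finset.mul_sum, hc, mul_one, Finset.sum_sub_distrib] at h15
    have h16 : ((∑ j, cneg c j * d j : ℕ) : ℤ) < ((∑ j, (c j).toNat * d j : ℕ) : ℤ) := by
      push_cast
      have : (0 : ℤ) < d o := by exact_mod_cast hdo
      linarith
    exact_mod_cast h16
  · simp at h

/-- the operator `∑_j θ_j` as a linear map -/
noncomputable def thL (f : ι → MvPolynomial σ ℂ) :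
    Module.End ℂ (MvPolynomial ι (MvPolynomial σ ℂ)) where
  toFun q := thetaTot f q
  map_add' p q := by
    simp only [thetaTot, theta_add, Finset.sum_add_distrib]
  map_smul' a q := by
    have h : ∀ r : MvPolynomial ι (MvPolynomial σ ℂ), a • r = C (C a) * r := by
      intro r
      rw [Algebra.smul_def]
      rfl
    simp only [thetaTot, RingHom.id_apply, h, theta_C_mul, Finset.mul_sum]

theorem thL_apply (q : MvPolynomial ι (MvPolynomial σ ℂ)) : thL f q = ∑ j, theta f j q := rfl

theorem smul_eq_CC (a : ℂ) (r : MvPolynomial ι (MvPolynomial σ ℂ)) : a • r = C (C a) * r := by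
  rw [Algebra.smul_def]
  rfl

theorem ip_bop (b : Polynomial ℂ) (s : ι →₀ ℕ) (q : MvPolynomial ι (MvPolynomial σ ℂ)) :
    ip (E f s) (Polynomial.aeval (thL f) b q) =
      C (b.eval ((∑ j, s j : ℕ) : ℂ)) * ip (E f s) q := by
  induction b using Polynomial.induction_on' with
  | add p q hp hq =>
    rw [map_add, LinearMap.add_apply, map_add, hp, hq, Polynomial.eval_add, C_add, add_mul]
  | monomial n a =>
    rw [Polynomial.aeval_monomial, Module.End.mul_apply, Module.algebraMap_end_apply,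
      smul_eq_CC, ip_C_mul, Polynomial.eval_monomial, C_mul, mul_assoc]
    congr 1
    induction n with
    | zero => simp
    | succ n ih =>
      rw [pow_succ', Module.End.mul_apply]
      have h := ip_thetaTot f s ((thL f ^ n) q)
      change ip (E f s) (thetaTot f _) = _
      rw [h, ih, pow_succ, C_mul]
      ring

theorem UU.bop (hf : ∀ j, (f j).IsHomogeneous (d j)) (b : Polynomial ℂ)
    {q : MvPolynomial ι (MvPolynomial σ ℂ)} (hq : UU f d A B q) :
    UU f d A B (Polynomial.aeval (thL f) b q) := by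
  induction b using Polynomial.induction_on' with
  | add p q hp hq =>
    rw [map_add, LinearMap.add_apply]
    exact UU.add _ _ hp hq
  | monomial n a =>
    rw [Polynomial.aeval_monomial, Module.End.mul_apply, Module.algebraMap_end_apply,
      smul_eq_CC]
    refine UU.CC ?_ a
    induction n with
    | zero => simpa using hq
    | succ n ih =>
      rw [pow_succ', Module.End.mul_apply, thL_apply]
      exact UU.sum _ _ fun j _ => ih.th hf j

/-- **The value of the polynomial of a functional equation.** -/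
theorem value_UU (hf : ∀ j, (f j).IsHomogeneous (d j)) (o : ι)
    (ho : ∀ j, j = o ∨ j ∈ A ∨ j ∈ B)
    (hdo : 0 < d o) (hA : ∀ j ∈ A, d j ≤ d o) (hB : ∀ j ∈ B, d o ≤ d j)
    (H : MvPolynomial σ ℂ) (b : Polynomial ℂ) (hb : IsLocEq H f b) :
    UU f d A B (Polynomial.aeval (thL f) b (C H)) := by
  classical
  obtain ⟨Sc, P, hc, heq⟩ := hb
  choose Th hTh1 hTh2 using fun β => exists_theta_UU (A := A) (B := B) hf β
  have hlift := fun (Q : weyl σ) => lift_UU (f := f) (d := d) (A := A) (B := B) Q.1 Q.2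
  choose Qh hQ1 hQ2 using hlift
  have h1 : ∀ s : ι →₀ ℕ, ip (E f s) (1 : MvPolynomial ι (MvPolynomial σ ℂ)) =
      ∏ j, f j ^ s j := by
    intro s
    have h := ip_E_monomial f 0 s (1 : MvPolynomial σ ℂ)
    have h1 : (monomial 0 1 : MvPolynomial ι (MvPolynomial σ ℂ)) = 1 := rfl
    rw [h1] at h
    simpa using h
  have key : Polynomial.aeval (thL f) b (C H) =
      ∑ c ∈ Sc, ∑ β ∈ (P c).support, Qh (P c β) (Th β (qc f c)) := by
    rw [← sub_eq_zero]
    apply eq_zero_of_ip_E f
    intro s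
    have h2 : (C H : MvPolynomial ι (MvPolynomial σ ℂ)) = C H * 1 := by rw [mul_one]
    rw [map_sub, ip_bop, h2, ip_C_mul, h1, mul_left_comm, heq s, sub_eq_zero, map_sum]
    refine Finset.sum_congr rfl fun c _ => ?_
    rw [map_sum, applyAt, Finsupp.sum]
    refine Finset.sum_congr rfl fun β _ => ?_
    rw [← hQ1, hTh1, ip_qc, map_smul]
  rw [key]
  refine UU.sum _ _ fun c hcS => UU.sum _ _ fun β _ => ?_
  exact hQ2 _ _ (hTh2 β _ (qc_UU hf o ho hdo hA hB c (hc c hcS)))

end basic

end Pool.Agent.H35.CI
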