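import Pool.Agent.H35.CI.FE

set_option autoImplicit false
set_option linter.unusedSectionVars false
set_option linter.unusedVariables false

/-! # The exactness of the class -/

namespace Pool.Agent.H35.CI

open MvPolynomial Pool.Agent.W574.SM
open Pool.Agent.W574.LM (IsLocEq)

section basic

variable {σ ι : Type} [Fintype σ] [DecidableEq σ] [Fintype ι] [DecidableEq ι]
  (f : ι → MvPolynomial σ ℂ) (d : ι → ℕ) (A B : Finset ι)

/-- the Euler operator `∑_j d_j θ_j + n` -/
noncomputable def eul (q : MvPolynomial ι (MvPolynomial σ ℂ)) :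
    MvPolynomial ι (MvPolynomial σ ℂ) :=
  ∑ j, C (C (d j : ℂ)) * theta f j q + C (C (Fintype.card σ : ℂ)) * q

/-- the sums `∑ ∂_i q_i + ∑_(j ∈ A) t_j p_j + ∑_(j ∈ B) X_j u_j + (∑ d_j θ_j + n) z` -/
def ZZ (r : MvPolynomial ι (MvPolynomial σ ℂ)) : Prop :=
  ∃ (q : σ → MvPolynomial ι (MvPolynomial σ ℂ)) (p u : ι → MvPolynomial ι (MvPolynomial σ ℂ))
    (z : MvPolynomial ι (MvPolynomial σ ℂ)),
    r = ∑ i, dh f i (q i) + ∑ j ∈ A, tj f j (p j) + ∑ j ∈ B, X j * u j + eul f d z

variable {f d A B}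

theorem dh_zero (i : σ) : dh f i 0 = 0 := by
  have := dh_add f i 0 0
  rw [add_zero] at this
  simpa using this

theorem tj_zero (j : ι) : tj f j 0 = 0 := by
  have := tj_add f j 0 0
  rw [add_zero] at this
  simpa using this

theorem theta_zero (j : ι) : theta f j 0 = 0 := by
  rw [theta_eq, tj_zero, mul_zero]

theorem eul_zero : eul f d 0 = 0 := by
  simp only [eul, theta_zero, mul_zero, Finset.sum_const_zero, add_zero]

theorem eul_add (p q : MvPolynomial ι (MvPolynomial σ ℂ)) :
    eul f d (p + q) = eul f d p + eul f d q := by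
  simp only [eul, theta_add, mul_add, Finset.sum_add_distrib]
  ring

theorem eul_CC (a : ℂ) (q : MvPolynomial ι (MvPolynomial σ ℂ)) :
    eul f d (C (C a) * q) = C (C a) * eul f d q := by
  rw [eul, eul, mul_add, Finset.mul_sum]
  refine congrArg₂ (· + ·) (Finset.sum_congr rfl fun j _ => ?_) ?_
  · rw [theta_C_mul, mul_left_comm]
  · rw [mul_left_comm]

theorem ZZ.add {r s : MvPolynomial ι (MvPolynomial σ ℂ)} (hr : ZZ f d A B r)
    (hs : ZZ f d A B s) : ZZ f d A B (r + s) := by
  obtain ⟨q, p, u, z, rfl⟩ := hr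
  obtain ⟨q', p', u', z', rfl⟩ := hs
  refine ⟨fun i => q i + q' i, fun j => p j + p' j, fun j => u j + u' j, z + z', ?_⟩
  simp only [dh_add, tj_add, eul_add, mul_add, Finset.sum_add_distrib]
  ring

theorem ZZ.CC {r : MvPolynomial ι (MvPolynomial σ ℂ)} (hr : ZZ f d A B r) (a : ℂ) :
    ZZ f d A B (C (C a) * r) := by
  obtain ⟨q, p, u, z, rfl⟩ := hr
  refine ⟨fun i => C (C a) * q i, fun j => C (C a) * p j, fun j => C (C a) * u j,
    C (C a) * z, ?_⟩
  have h1 : ∀ i, dh f i (C (C a) * q i) = C (C a) * dh f i (q i) := by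
    intro i
    rw [dh_C, pderiv_C, C_0, zero_mul, zero_add]
  rw [mul_add, mul_add, mul_add, Finset.mul_sum, Finset.mul_sum, Finset.mul_sum, eul_CC]
  refine congrArg₂ (· + ·) (congrArg₂ (· + ·) (congrArg₂ (· + ·) ?_ ?_) ?_) rfl
  · exact Finset.sum_congr rfl fun i _ => (h1 i).symm
  · exact Finset.sum_congr rfl fun j _ => (tj_C_mul f j _ _).symm
  · exact Finset.sum_congr rfl fun j _ => mul_left_comm _ _ _

theorem ZZ.dh (i : σ) (q : MvPolynomial ι (MvPolynomial σ ℂ)) : ZZ f d A B (dh f i q) := by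
  refine ⟨Pi.single i q, 0, 0, 0, ?_⟩
  rw [Finset.sum_eq_single i]
  · simp [Pi.single_eq_same, tj_zero, eul_zero]
  · intro k _ hk
    rw [Pi.single_eq_of_ne hk, dh_zero]
  · intro h
    exact absurd (Finset.mem_univ i) h

theorem ZZ.ta (j : ι) (hj : j ∈ A) (q : MvPolynomial ι (MvPolynomial σ ℂ)) :
    ZZ f d A B (tj f j q) := by
  refine ⟨0, Pi.single j q, 0, 0, ?_⟩
  rw [Finset.sum_eq_single_of_mem j hj]
  · simp [Pi.single_eq_same, dh_zero, eul_zero]
  · intro k _ hk
    rw [Pi.single_eq_of_ne hk, tj_zero]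

theorem ZZ.xb (j : ι) (hj : j ∈ B) (q : MvPolynomial ι (MvPolynomial σ ℂ)) :
    ZZ f d A B (X j * q) := by
  refine ⟨0, 0, Pi.single j q, 0, ?_⟩
  rw [Finset.sum_eq_single_of_mem j hj]
  · simp [Pi.single_eq_same, dh_zero, tj_zero, eul_zero]
  · intro k _ hk
    rw [Pi.single_eq_of_ne hk, mul_zero]

theorem ZZ.eu (q : MvPolynomial ι (MvPolynomial σ ℂ)) : ZZ f d A B (eul f d q) := by
  refine ⟨0, 0, 0, q, ?_⟩
  simp [dh_zero, tj_zero]

theorem ZZ.zero : ZZ f d A B 0 := by
  have := ZZ.eu (f := f) (d := d) (A := A) (B := B) 0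
  rwa [eul_zero] at this

theorem ZZ.sum {α : Type} (s : Finset α) (q : α → MvPolynomial ι (MvPolynomial σ ℂ))
    (h : ∀ i ∈ s, ZZ f d A B (q i)) : ZZ f d A B (∑ i ∈ s, q i) := by
  classical
  induction s using Finset.induction_on with
  | empty =>
    rw [Finset.sum_empty]
    exact ZZ.zero
  | insert a s ha ih =>
    rw [Finset.sum_insert ha]
    exact ZZ.add (h a (Finset.mem_insert_self a s)) (ih fun i hi =>
      h i (Finset.mem_insert_of_mem hi))

theorem CC_one_mul (q : MvPolynomial ι (MvPolynomial σ ℂ)) : C (C (1 : ℂ)) * q = q := by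
  rw [C_1, C_1, one_mul]

/-- Euler's formula -/
theorem euler_mono (γ : ι →₀ ℕ) (m : σ →₀ ℕ) (a : ℂ) :
    ∑ i, dh f i (C (X i) * monomial γ (monomial m a)) =
      eul f d (monomial γ (monomial m a)) +
        C (C ((m.degree : ℂ) - ∑ j, (γ j : ℂ) * d j)) * monomial γ (monomial m a) +
        (∑ j, C (∑ i, X i * pderiv i (f j) - C (d j : ℂ) * f j) * X j) *
          monomial γ (monomial m a) := by
  have h1 : ∀ i, dh f i (C (X i) * monomial γ (monomial m a)) =
      monomial γ (monomial m a) + C (X i) * monomial γ (pderiv i (monomial m a)) +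
        (∑ j, C (X i * pderiv i (f j)) * X j) * monomial γ (monomial m a) := by
    intro i
    have h0 : (∑ j, C (X i * pderiv i (f j)) * X j : MvPolynomial ι (MvPolynomial σ ℂ)) =
        C (X i) * ∑ j, C (pderiv i (f j)) * X j := by
      rw [Finset.mul_sum]
      refine Finset.sum_congr rfl fun j _ => ?_
      rw [C_mul, mul_assoc]
    rw [dh_C, pderiv_X_self, C_1, one_mul, dh, dcoef_monomial, h0]
    ring
  have h2 : ∑ i, C (X i) * monomial γ (pderiv i (monomial m a)) =
      C (C (m.degree : ℂ)) * monomial γ (monomial m a) := by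
    have h3 : ∀ i, C (X i) * monomial γ (pderiv i (monomial m a)) =
        C (C (m i : ℂ)) * monomial γ (monomial m a) := by
      intro i
      rw [C_mul_monomial, C_mul_monomial, pderiv_monomial, C_mul_monomial, X_mul_monomial]
      congr 1
      by_cases h : m i = 0
      · rw [h]
        simp
      · rw [tsub_add_cancel_of_le, mul_comm]
        rw [Finsupp.single_le_iff]
        omega
    simp only [h3]
    rw [← Finset.sum_mul, ← map_sum, ← map_sum, Finsupp.degree_eq_sum]
    push_cast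
    rfl
  have h4 : ∀ j, theta f j (monomial γ (monomial m a)) = C (f j) * X j * monomial γ (monomial m a) +
      C (C (γ j : ℂ)) * monomial γ (monomial m a) := by
    intro j
    rw [theta_eq, tj, pderiv_monomial, mul_add]
    congr 1
    · ring
    · rw [X_mul_monomial, C_mul_monomial]
      by_cases h : γ j = 0
      · rw [h]
        simp
      · rw [tsub_add_cancel_of_le, mul_comm, map_natCast]
        rw [Finsupp.single_le_iff]
        omega
  simp only [h1, Finset.sum_add_distrib, h2, eul, h4, Finset.sum_const, Finset.card_univ]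
  rw [nsmul_eq_mul, ← Finset.sum_mul]
  have h5 : ∑ i, ∑ j, C (X i * pderiv i (f j)) * X j =
      (∑ j, C (∑ i, X i * pderiv i (f j) - C (d j : ℂ) * f j) * X j : MvPolynomial ι
        (MvPolynomial σ ℂ)) + ∑ j, C (C (d j : ℂ)) * (C (f j) * X j) := by
    rw [Finset.sum_comm, ← Finset.sum_add_distrib]
    refine Finset.sum_congr rfl fun j _ => ?_
    rw [← Finset.sum_mul, ← map_sum, C_sub, C_mul]
    ring
  have h6 : (C (C ((m.degree : ℂ) - ∑ j, (γ j : ℂ) * d j)) : MvPolynomial ι (MvPolynomial σ ℂ)) =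
      C (C (m.degree : ℂ)) - ∑ j, C (C (d j : ℂ)) * C (C (γ j : ℂ)) := by
    rw [C_sub, C_sub, map_sum, map_sum]
    congr 1
    refine Finset.sum_congr rfl fun j _ => ?_
    rw [C_mul, C_mul]
    ring
  have h7 : ∑ j, C (C (d j : ℂ)) * (C (f j) * X j * monomial γ (monomial m a) +
      C (C (γ j : ℂ)) * monomial γ (monomial m a)) =
      (∑ j, C (C (d j : ℂ)) * (C (f j) * X j)) * monomial γ (monomial m a) +
        (∑ j, C (C (d j : ℂ)) * C (C (γ j : ℂ))) * monomial γ (monomial m a) := by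
    rw [Finset.sum_mul, Finset.sum_mul, ← Finset.sum_add_distrib]
    refine Finset.sum_congr rfl fun j _ => ?_
    ring
  rw [h5, h6, h7]
  have h8 : ((Fintype.card σ : ℕ) : MvPolynomial ι (MvPolynomial σ ℂ)) =
      C (C (Fintype.card σ : ℂ)) := by simp
  rw [h8]
  ring

theorem Pos.zz (hf : ∀ j, (f j).IsHomogeneous (d j)) {q : MvPolynomial ι (MvPolynomial σ ℂ)}
    (hq : Pos d q) : ZZ f d A B q := by
  classical
  have h1 : q = ∑ γ ∈ q.support, ∑ m ∈ (coeff γ q).support,
      monomial γ (monomial m (coeff m (coeff γ q))) := by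
    conv_lhs => rw [← support_sum_monomial_coeff q]
    refine Finset.sum_congr rfl fun γ _ => ?_
    rw [← map_sum]
    congr 1
    exact (support_sum_monomial_coeff _).symm
  rw [h1]
  refine ZZ.sum _ _ fun γ _ => ZZ.sum _ _ fun m hm => ?_
  have h2 := hq γ m (mem_support_iff.1 hm)
  set a := coeff m (coeff γ q) with ha
  set w : ℂ := (m.degree : ℂ) - ∑ j, (γ j : ℂ) * d j with hw
  have hw0 : w ≠ 0 := by
    rw [hw, sub_ne_zero]
    intro h
    have : ((∑ j, γ j * d j : ℕ) : ℂ) = (m.degree : ℕ) := by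
      push_cast
      exact h.symm
    have := Nat.cast_injective this
    omega
  have h3 : ∀ j, (∑ i, X i * pderiv i (f j) - C (d j : ℂ) * f j) = 0 := by
    intro j
    have := (hf j).sum_X_mul_pderiv
    rw [this, nsmul_eq_mul, map_natCast, sub_self]
  have h4 := euler_mono (f := f) (d := d) γ m a
  simp only [h3, C_0, zero_mul, Finset.sum_const_zero, add_zero] at h4
  have h5 : monomial γ (monomial m a) = C (C w⁻¹) * (∑ i, Pool.Agent.W574.SM.dh f i
      (C (X i) * monomial γ (monomial m a)) + C (C (-1)) * eul f d (monomial γ (monomial m a))) := by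
    rw [h4, ← hw]
    have : (C (C w⁻¹) * C (C w) : MvPolynomial ι (MvPolynomial σ ℂ)) = 1 := by
      rw [← map_mul, ← map_mul, inv_mul_cancel₀ hw0, map_one, map_one]
    have h6 : (C (C (-1)) : MvPolynomial ι (MvPolynomial σ ℂ)) = -1 := by
      rw [map_neg, map_neg, map_one, map_one]
    rw [h6]
    linear_combination (- monomial γ (monomial m a)) * this
  rw [h5]
  exact (ZZ.add (ZZ.sum _ _ fun i _ => ZZ.dh i _) ((ZZ.eu _).CC _)).CC _

theorem UU.ZZ (hf : ∀ j, (f j).IsHomogeneous (d j)) {q : MvPolynomial ι (MvPolynomial σ ℂ)}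
    (hq : UU f d A B q) : ZZ f d A B q := by
  induction hq with
  | pos q hq => exact Pos.zz hf hq
  | ta j hj q => exact ZZ.ta j hj q
  | xb j hj q => exact ZZ.xb j hj q
  | add p q _ _ h1 h2 => exact h1.add h2
  | der i q _ _ => exact ZZ.dh i q

theorem ZZ.neg {r : MvPolynomial ι (MvPolynomial σ ℂ)} (hr : ZZ f d A B r) :
    ZZ f d A B (-r) := by
  have h := hr.CC (-1)
  have h6 : (C (C (-1)) : MvPolynomial ι (MvPolynomial σ ℂ)) = -1 := by
    rw [map_neg, map_neg, map_one, map_one]
  have h7 : (-1 : MvPolynomial ι (MvPolynomial σ ℂ)) * r = -r := by ring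
  rwa [h6, h7] at h

theorem ZZ.sub {r s : MvPolynomial ι (MvPolynomial σ ℂ)} (hr : ZZ f d A B r)
    (hs : ZZ f d A B s) : ZZ f d A B (r - s) := by
  rw [sub_eq_add_neg]
  exact hr.add hs.neg

theorem sum_split (o : ι) (hu : insert o (A ∪ B) = Finset.univ) (hoA : o ∉ A) (hoB : o ∉ B)
    (hAB : Disjoint A B) {M : Type} [AddCommMonoid M] (F : ι → M) :
    ∑ j, F j = F o + (∑ j ∈ A, F j + ∑ j ∈ B, F j) := by
  rw [← hu, Finset.sum_insert, Finset.sum_union hAB]
  rw [Finset.mem_union]
  tauto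

theorem thL_cong (o : ι) (hu : insert o (A ∪ B) = Finset.univ) (hoA : o ∉ A) (hoB : o ∉ B)
    (hAB : Disjoint A B) (hdo : 0 < d o) (α : ℂ)
    (hα : α * d o = -((d o : ℂ) * A.card + Fintype.card σ - ∑ j ∈ A, (d j : ℂ)))
    (q : MvPolynomial ι (MvPolynomial σ ℂ)) : ZZ f d A B (thL f q - C (C α) * q) := by
  have hd : (d o : ℂ) ≠ 0 := by
    rw [Nat.cast_ne_zero]
    omega
  have hA : ∀ j ∈ A, ZZ f d A B (theta f j q + q) := by
    intro j hj
    have := ZZ.ta (f := f) (d := d) (B := B) j hj (X j * q)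
    rwa [tj_X_mul, if_pos rfl] at this
  have h1 : thL f q - C (C α) * q =
      ∑ j ∈ A, C (C (1 - (d j : ℂ) / d o)) * (theta f j q + q) +
      ∑ j ∈ B, C (C (1 - (d j : ℂ) / d o)) * theta f j q +
      C (C (d o : ℂ)⁻¹) * eul f d q := by
    have e1 : ∀ j, (C (C (d o : ℂ)⁻¹) * (C (C (d j : ℂ)) * theta f j q) :
        MvPolynomial ι (MvPolynomial σ ℂ)) = C (C ((d j : ℂ) / d o)) * theta f j q := by
      intro j
      rw [← mul_assoc, ← map_mul, ← map_mul, inv_mul_eq_div]
    have e2 : (C (C α) : MvPolynomial ι (MvPolynomial σ ℂ)) =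
        -(∑ j ∈ A, C (C (1 - (d j : ℂ) / d o)) + C (C (d o : ℂ)⁻¹) *
          C (C (Fintype.card σ : ℂ))) := by
      rw [← map_mul, ← map_mul, ← map_sum, ← map_sum, ← map_add, ← map_add, ← map_neg, ← map_neg]
      congr 2
      have : α = -((d o : ℂ) * A.card + Fintype.card σ - ∑ j ∈ A, (d j : ℂ)) / d o := by
        rw [← hα, mul_div_cancel_right₀ _ hd]
      rw [this, Finset.sum_sub_distrib, Finset.sum_const, nsmul_eq_mul, mul_one,
        ← Finset.sum_div]
      field_simp
      ring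
    rw [e2, thL_apply, eul, mul_add, Finset.mul_sum]
    simp only [e1]
    rw [sum_split o hu hoA hoB hAB (fun j => theta f j q),
      sum_split o hu hoA hoB hAB (fun j => C (C ((d j : ℂ) / d o)) * theta f j q),
      div_self hd, map_one, map_one, one_mul]
    have e3 : ∀ j, (C (C (1 - (d j : ℂ) / d o)) : MvPolynomial ι (MvPolynomial σ ℂ)) =
        1 - C (C ((d j : ℂ) / d o)) := by
      intro j
      rw [map_sub, map_sub, map_one, map_one]
    simp only [e3, sub_mul, one_mul, mul_add, Finset.sum_sub_distrib, Finset.sum_add_distrib,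
      Finset.sum_const]
    rw [← Finset.sum_mul]
    ring
  rw [h1]
  refine ZZ.add (ZZ.add (ZZ.sum _ _ fun j hj => (hA j hj).CC _) (ZZ.sum _ _ fun j hj => ?_))
    ((ZZ.eu _).CC _)
  rw [theta_eq, mul_left_comm]
  exact ZZ.xb j hj _

theorem bop_cong (o : ι) (hu : insert o (A ∪ B) = Finset.univ) (hoA : o ∉ A) (hoB : o ∉ B)
    (hAB : Disjoint A B) (hdo : 0 < d o) (α : ℂ)
    (hα : α * d o = -((d o : ℂ) * A.card + Fintype.card σ - ∑ j ∈ A, (d j : ℂ)))
    (b : Polynomial ℂ) (q : MvPolynomial ι (MvPolynomial σ ℂ)) :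
    ZZ f d A B (Polynomial.aeval (thL f) b q - C (C (b.eval α)) * q) := by
  induction b using Polynomial.induction_on' with
  | add p r hp hr =>
    rw [map_add, LinearMap.add_apply, Polynomial.eval_add, map_add, map_add, add_mul,
      add_sub_add_comm]
    exact hp.add hr
  | monomial n a =>
    rw [Polynomial.aeval_monomial, Module.End.mul_apply, Module.algebraMap_end_apply,
      smul_eq_CC, Polynomial.eval_monomial, map_mul, map_mul, mul_assoc, ← mul_sub]
    refine ZZ.CC ?_ a
    induction n with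
    | zero =>
      rw [pow_zero, pow_zero, map_one, map_one, one_mul, Module.End.one_apply, sub_self]
      exact ZZ.zero
    | succ n ih =>
      have h1 := thL_cong (f := f) o hu hoA hoB hAB hdo α hα ((thL f ^ n) q)
      rw [pow_succ', Module.End.mul_apply, pow_succ', map_mul, map_mul]
      have h2 := h1.add (ih.CC α)
      convert h2 using 1
      ring

/-- **The exactness.** If the polynomial of a local functional equation does not vanish at `α`,
then `1` is in `ZZ`. -/
theorem one_mem (hf : ∀ j, (f j).IsHomogeneous (d j)) (o : ι)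
    (hu : insert o (A ∪ B) = Finset.univ) (hoA : o ∉ A) (hoB : o ∉ B)
    (hAB : Disjoint A B) (hdo : 0 < d o) (hA : ∀ j ∈ A, d j ≤ d o) (hB : ∀ j ∈ B, d o ≤ d j)
    (α : ℂ) (hα : α * d o = -((d o : ℂ) * A.card + Fintype.card σ - ∑ j ∈ A, (d j : ℂ)))
    (H : MvPolynomial σ ℂ) (b : Polynomial ℂ) (hb : IsLocEq H f b)
    (hH : constantCoeff H ≠ 0) (hbα : b.eval α ≠ 0) : ZZ f d A B 1 := by
  classical
  have ho : ∀ j, j = o ∨ j ∈ A ∨ j ∈ B := by
    intro j
    have : j ∈ insert o (A ∪ B) := by rw [hu]; exact Finset.mem_univ j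
    simpa using this
  have h1 := value_UU hf o ho hdo hA hB H b hb
  set H0 := constantCoeff H with hH0
  have h2 : Pos d (C (C H0 - H) : MvPolynomial ι (MvPolynomial σ ℂ)) := by
    intro γ m hm
    rw [coeff_C] at hm
    split_ifs at hm with hγ
    · rw [← hγ]
      rw [coeff_sub, coeff_C] at hm
      have h3 : m ≠ 0 := by
        rintro rfl
        rw [if_pos rfl, hH0, constantCoeff_eq, sub_self] at hm
        exact hm rfl
      simp only [Finsupp.coe_zero, Pi.zero_apply, zero_mul, Finset.sum_const_zero]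
      rw [Nat.pos_iff_ne_zero, Ne, Finsupp.degree_eq_zero_iff]
      exact h3
    · simp at hm
  have h3 := UU.add _ _ h1 ((UU.pos (f := f) (A := A) (B := B) _ h2).bop hf b)
  rw [← map_add, ← map_add, add_sub_cancel] at h3
  have h4 := h3.ZZ hf
  have h5 := bop_cong (f := f) (A := A) (B := B) o hu hoA hoB hAB hdo α hα b
    (C (C H0) : MvPolynomial ι (MvPolynomial σ ℂ))
  have h6 := (h4.sub h5).CC ((b.eval α * H0)⁻¹)
  rw [sub_sub_cancel, ← mul_assoc, ← map_mul, ← map_mul, ← map_mul, ← map_mul, mul_assoc,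
    inv_mul_cancel₀ (mul_ne_zero hbα hH), map_one, map_one] at h6
  exact h6

end basic

end Pool.Agent.H35.CI
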