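import Pool.Agent.H35.CI.VS

set_option autoImplicit false
set_option linter.unusedSectionVars false
set_option linter.unusedVariables false

/-! # The strong monodromy conjecture for flags of smooth complete intersections -/

namespace Pool.Agent.H35.CI

open MvPolynomial Pool.Agent.W428.MOT Pool.Agent.TH192.MT Pool.Agent.TH192.DT Pool.Agent.Q49.CO
open Pool.Agent.Y229 Pool.Agent.Q57.MC Pool.Agent.Q57.MD
open Pool.Agent.W574.LM (IsLocEq)

section

variable {n r : ℕ} {f : Fin r → MvPolynomial (Fin n) ℂ} (hF : Flag f) {d : Fin r → ℕ}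
  (hf : ∀ j, (f j).IsHomogeneous (d j)) (hd : ∀ j, 0 < d j) (hmono : Monotone d)

include hF hf hd in
theorem ev0 (k : ℕ) (hk : k ≤ r) : ∀ j < k, eval 0 (ext0 f j) = 0 := by
  intro j hj
  rw [ext0_eq f j (by omega)]
  exact eval_hom_zero (hf _) (hd _)

include hF hf hd in
/-- a common zero -/
theorem exists_zero (hr : r < n) : ∃ p : Fin n → ℂ, p ≠ 0 ∧ ∀ j, eval p (f j) = 0 := by
  classical
  by_contra hcon
  push Not at hcon
  set J := JJ fun j : Fin r => ext0 f j with hJ
  have hfm : ∀ j : Fin r, f j ∈ J := fun j => by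
    have h1 : ext0 f j ∈ J := Ideal.subset_span ⟨j, rfl⟩
    rwa [ext0_eq f j j.2] at h1
  have h1 : ∀ i : Fin n, ∃ M, (X i ^ M : MvPolynomial (Fin n) ℂ) ∈ J := by
    intro i
    have h2 : (X i : MvPolynomial (Fin n) ℂ) ∈ J.radical := by
      rw [← vanishingIdeal_zeroLocus_eq_radical (K := ℂ), mem_vanishingIdeal_iff]
      intro p hp
      rw [mem_zeroLocus_iff] at hp
      by_cases hp0 : p = 0
      · rw [hp0, aeval_X]
        rfl
      · exfalso
        obtain ⟨j, hj⟩ := hcon p hp0
        exact hj (hp _ (hfm j))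
    exact h2
  choose Mi hMi using h1
  have h2 : ∀ i : Fin n, (X i ^ (∑ i, Mi i) : MvPolynomial (Fin n) ℂ) ∈ J := by
    intro i
    obtain ⟨K, hK⟩ := Nat.exists_eq_add_of_le (Finset.single_le_sum (f := Mi)
      (fun _ _ => Nat.zero_le _) (Finset.mem_univ i))
    rw [hK, pow_add]
    exact Ideal.mul_mem_right _ _ (hMi i)
  obtain ⟨rs, h3, h4, h5⟩ := wreg_prefix J (ext0 f) n
    ((List.finRange n).map fun i => X i ^ (∑ i, Mi i)) (by simp) (by
      intro a ha
      rw [List.mem_map] at ha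
      obtain ⟨i, _, rfl⟩ := ha
      exact h2 i) (Wreg_X_univ _) r hr.le
    (fun j hj => Ideal.subset_span ⟨⟨j, hj⟩, rfl⟩)
    (nz_all (ext0 f) r hr.le (ev0 hF hf hd r le_rfl) fun k hk => hF.jac k hk)
  obtain ⟨a, rs', rfl⟩ := List.exists_cons_of_length_eq_add_one
    (show rs.length = (n - r - 1) + 1 by omega)
  have h6 : (1 : MvPolynomial (Fin n) ℂ) ∈ J := h5.1 1 (by
    rw [mul_one]
    exact h4 a (by simp))
  have h7 : J ≤ RingHom.ker (eval (0 : Fin n → ℂ)) := by
    rw [hJ, JJ, Ideal.span_le]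
    rintro _ ⟨j, rfl⟩
    exact RingHom.mem_ker.2 (ev0 hF hf hd r le_rfl j j.2)
  have h8 := h7 h6
  rw [RingHom.mem_ker, map_one] at h8
  exact one_ne_zero h8

include hF hf hd in
theorem flag_ne (hr : 0 < r) (hn : 0 < n) : ∃ j, f j ≠ 0 := by
  refine ⟨⟨0, hr⟩, fun h0 => ?_⟩
  have h1 := nz_all (ext0 f) 1 (by omega) (ev0 hF hf hd 1 (by omega))
    (fun k hk => hF.jac k (by omega)) 0 (by omega) 1 (by
      rw [ext0_eq f 0 hr, h0, zero_mul]
      exact Ideal.zero_mem _)
  have h2 : (JJ fun i : Fin 0 => ext0 f i) = ⊥ := by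
    rw [JJ, Set.range_eq_empty, Ideal.span_empty]
  rw [h2, Ideal.mem_bot] at h1
  exact one_ne_zero h1

include hF hf hmono in
theorem sf_nu (hd2 : ∀ j, 2 ≤ d j) (hr : 0 < r) (o : Fin r) (ho : (o : ℕ) + 1 ≤ n) :
    SF f 0 (-(nu n d o : ℂ) / d o) := by
  classical
  have hd : ∀ j, 0 < d j := fun j => by have := hd2 j; omega
  refine sf_of_local f 0 _ (fun H b hb hH => ?_) (exists_fe f (flag_ne hF hf hd hr (by omega)))
  refine root_ci f d hf hd2 hmono o ho (fun k hk => hF.jac k (by omega)) _ ?_ H b hb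
    (by rwa [eval_zero] at hH)
  have h1 : (d o : ℂ) ≠ 0 := Nat.cast_ne_zero.2 (hd o).ne'
  have h2 := congrArg (Nat.cast : ℕ → ℂ) (nu_self (n := n) hmono o)
  have h3 : (DD d o : ℂ) = ∑ j ∈ Finset.Iio o, (d j : ℂ) + d o := by
    have h4 : Finset.Iic o = insert o (Finset.Iio o) := by
      ext j
      rw [Finset.mem_insert, Finset.mem_Iic, Finset.mem_Iio, le_iff_eq_or_lt]
    rw [DD, h4, Finset.sum_insert (by rw [Finset.mem_Iio]; exact lt_irrefl o)]
    push_cast
    ring
  push_cast at h2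
  rw [div_mul_cancel₀ _ h1]
  linear_combination h3 - h2

theorem sf_coord (hr : 0 < r) : SF (fun k : Fin r => (X k : MvPolynomial (Fin r) ℂ)) 0
    (-(r : ℂ)) := by
  classical
  have h1 := sf_rel_root (Finset.univ : Finset (Fin r)) ⟨⟨0, hr⟩, Finset.mem_univ _⟩
    (fun k : Fin r => (X k : MvPolynomial (Fin r) ℂ)) 1 one_pos (fun j => by
      have := isHomogeneous_X ℂ j
      unfold HT
      simp only [Finset.mem_univ, if_true]
      exact this) ⟨fun t => t, by
      have h2 : (Matrix.of fun s t : (Finset.univ : Finset (Fin r)) =>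
          pderiv (s : Fin r) (X (t : Fin r) : MvPolynomial (Fin r) ℂ)) = 1 := by
        ext s t
        rw [Matrix.of_apply, pderiv_X, Matrix.one_apply, Pi.single_apply]
        simp only [Subtype.ext_iff]
        by_cases h : (s : Fin r) = t
        · rw [if_pos h, if_pos h.symm]
        · rw [if_neg h, if_neg (fun h' => h h'.symm)]
      rw [h2, Matrix.det_one]
      exact one_ne_zero⟩
  rw [Finset.card_univ, Fintype.card_fin, Nat.cast_one, div_one] at h1
  exact h1

include hF hf hd in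
theorem sf_r (hr : 0 < r) (hrn : r < n) : SF f 0 (-(r : ℂ)) := by
  classical
  obtain ⟨p, hp0, hp⟩ := exists_zero hF hf hd hrn
  refine sf_of_local f 0 _ (fun H b hb hH => ?_) (exists_fe f (flag_ne hF hf hd hr (by omega)))
  set G : Polynomial ℂ := MvPolynomial.aeval (fun i => Polynomial.C (p i) * Polynomial.X) H with hG
  have hGe : ∀ l : ℂ, G.eval l = MvPolynomial.eval (fun i => l * p i) H := by
    intro l
    have h1 : (Polynomial.evalRingHom l).comp
        ((MvPolynomial.aeval (fun i => Polynomial.C (p i) * Polynomial.X) :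
          MvPolynomial (Fin n) ℂ →ₐ[ℂ] Polynomial ℂ) : MvPolynomial (Fin n) ℂ →+* Polynomial ℂ) =
        MvPolynomial.eval (fun i => l * p i) := by
      refine MvPolynomial.ringHom_ext (fun a => ?_) fun i => ?_
      · rw [RingHom.comp_apply, MvPolynomial.eval_C]
        change Polynomial.eval l (MvPolynomial.aeval _ (MvPolynomial.C a)) = a
        rw [MvPolynomial.aeval_C]
        exact Polynomial.eval_C
      · rw [RingHom.comp_apply, MvPolynomial.eval_X]
        change Polynomial.eval l (MvPolynomial.aeval _ (MvPolynomial.X i)) = _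
        rw [MvPolynomial.aeval_X, Polynomial.eval_mul, Polynomial.eval_C, Polynomial.eval_X,
          mul_comm]
    exact congrArg (fun φ : MvPolynomial (Fin n) ℂ →+* ℂ => φ H) h1
  have hG0 : G * Polynomial.X ≠ 0 := by
    refine mul_ne_zero (fun h0 => hH ?_) Polynomial.X_ne_zero
    have h1 := hGe 0
    rw [h0, Polynomial.eval_zero] at h1
    rw [h1]
    congr 2
    funext i
    rw [zero_mul]
    rfl
  obtain ⟨l, hl⟩ : ∃ l : ℂ, (G * Polynomial.X).eval l ≠ 0 := by
    by_contra hcon
    push Not at hcon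
    exact hG0 (Polynomial.funext fun l => by rw [hcon l, Polynomial.eval_zero])
  rw [Polynomial.eval_mul, Polynomial.eval_X, hGe] at hl
  have hl0 : l ≠ 0 := right_ne_zero_of_mul hl
  set q : Fin n → ℂ := fun i => l * p i with hq
  have hq0 : q ≠ 0 := by
    intro h
    apply hp0
    funext i
    have := congrFun h i
    simpa [hq, hl0] using this
  have hqf : ∀ j, eval q (f j) = 0 := by
    intro j
    have h1 : eval q (f j) = l ^ d j * eval p (f j) := hom_aeval (f j) (d j) (hf j) l p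
    rw [h1, hp j, mul_zero]
  -- a minor
  have h1 := hF ⟨r - 1, by omega⟩ q hq0 fun j _ => hqf j
  have h2 : LinearIndependent ℂ fun (j : Fin r) i => eval q (pderiv i (f j)) := by
    have h3 := h1.comp (fun j : Fin r => (⟨j, Finset.mem_Iic.2 (by
      rw [Fin.le_def]
      have := j.2
      simp only
      omega)⟩ : Finset.Iic (⟨r - 1, by omega⟩ : Fin r))) (fun a b hab => by
        have := congrArg (fun x : Finset.Iic (⟨r - 1, by omega⟩ : Fin r) => (x : Fin r)) hab
        exact this)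
    exact h3
  obtain ⟨s, hs⟩ := exists_minor _ h2
  have hSame : Same f (fun k : Fin r => (X k : MvPolynomial (Fin r) ℂ)) f 1 := by
    have h3 := same_one (fun k : Fin r => (X k : MvPolynomial (Fin r) ℂ)) f
    simp only [aeval_X] at h3
    exact h3
  have hT : Transf f (fun k : Fin r => (X k : MvPolynomial (Fin r) ℂ)) q :=
    transfer_chart f _ f s 1 q (by rw [map_one]; exact one_ne_zero) hSame hqf hs
  have hne : ∃ k : Fin r, (X k : MvPolynomial (Fin r) ℂ) ≠ 0 := ⟨⟨0, hr⟩, X_ne_zero _⟩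
  exact (sf_of_transf f _ q hT hne (-(r : ℂ)) fun b hb => (sf_coord hr).localBI b hb).locEq H b hb
    (left_ne_zero_of_mul hl)

include hF hf hmono in
/-- **The statement of the induction for flags.** -/
theorem pm_flag {M : Meas ℂ (MK ℂ)} (hL : M.L = ((Lu ℂ : (MK ℂ)ˣ) : MK ℂ))
    (hd2 : ∀ j, 2 ≤ d j) (hr : 0 < r) (hn : 0 < n) :
    (∃ j, f j ≠ 0) ∧ RT f (flagPairs n d) ∧ SW M true (((Lu ℂ)⁻¹ : (MK ℂ)ˣ) : MK ℂ) f {0} ∈
      ratU (Lu ℂ) (flagPairs n d : Set (ℤ × ℤ)) := by
  have hd : ∀ j, 0 < d j := fun j => by have := hd2 j; omega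
  refine ⟨flag_ne hF hf hd hr hn, fun q hq => ?_, ?_⟩
  · rcases of_mem_flagPairs hq with ⟨o, ho, rfl⟩ | ⟨hrn, rfl⟩
    · refine ⟨?_, ?_, ?_⟩
      · simp only
        rw [nu]
        omega
      · simp only
        have := hd o
        omega
      · have := sf_nu hF hf hmono hd2 hr o ho
        simp only
        push_cast
        exact this
    · refine ⟨?_, ?_, ?_⟩
      · simp only
        omega
      · exact one_pos
      · have := sf_r hF hf hd hr hrn
        simp only
        push_cast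
        rw [div_one]
        exact this
  · rw [SW_true]
    exact VW_flag M (Lu ℂ) hL hF hf hd hmono hr hn

include hF hf hmono in
/-- **The strong monodromy conjecture for flags.** -/
theorem flag_strong (hd2 : ∀ j, 2 ≤ d j) (hr : 0 < r) (hn : 0 < n) :
    StrongMC f (flagPairs n d) := by
  obtain ⟨M, hL, hχ⟩ := exists_meas ℂ
  obtain ⟨hne, hS, hz⟩ := pm_flag hF hf hmono hL hd2 hr hn
  refine ⟨fun q hq => ⟨(hS q hq).1, (hS q hq).2.1, (Pool.Agent.Q57.MC.sf_iff f hne _).1
    (hS q hq).2.2⟩, ?_⟩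
  rw [SW_true] at hz
  exact (zeta_iff hL hχ f _).2 (ZW_of_VW M (Lu ℂ)
    (fun q hq => (hS q (Finset.mem_coe.1 hq)).2.1) hz)

end

end Pool.Agent.H35.CI
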