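import Mathlib

set_option autoImplicit false
set_option linter.unusedSectionVars false
set_option linter.unusedVariables false

/-! # Exterior forms in coordinates -/

namespace Pool.Agent.H35.CI

section fm

variable {S : Type} [CommRing S] {n : ℕ}

/-- forms with coefficients in `S` on an `n`-dimensional space -/
abbrev Fm (S : Type) (n : ℕ) : Type := Finset (Fin n) → S

/-- the sign -/
def sg (S : Type) [CommRing S] (i : Fin n) (T : Finset (Fin n)) : S :=
  (-1) ^ (T.filter (· < i)).card

theorem sg_sq (i : Fin n) (T : Finset (Fin n)) : sg S i T * sg S i T = 1 := by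
  rw [sg, ← mul_pow]
  simp

theorem sg_erase_of_lt {i j : Fin n} {T : Finset (Fin n)} (hj : j ∈ T) (h : j < i) :
    sg S i (T.erase j) = -sg S i T := by
  have h1 : (T.erase j).filter (· < i) = (T.filter (· < i)).erase j := by
    ext x
    simp only [Finset.mem_filter, Finset.mem_erase]
    tauto
  have h2 : j ∈ T.filter (· < i) := Finset.mem_filter.2 ⟨hj, h⟩
  rw [sg, sg, h1, Finset.card_erase_of_mem h2]
  obtain ⟨m, hm⟩ := Nat.exists_eq_succ_of_ne_zero (Finset.card_ne_zero_of_mem h2)
  rw [hm]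
  simp [pow_succ]

theorem sg_erase_of_not_lt {i j : Fin n} {T : Finset (Fin n)} (h : ¬ j < i) :
    sg S i (T.erase j) = sg S i T := by
  have h1 : (T.erase j).filter (· < i) = T.filter (· < i) := by
    ext x
    simp only [Finset.mem_filter, Finset.mem_erase]
    constructor
    · tauto
    · rintro ⟨hx, hxi⟩
      exact ⟨⟨fun h' => h (h' ▸ hxi), hx⟩, hxi⟩
  rw [sg, sg, h1]

theorem sg_insert_of_lt {i j : Fin n} {T : Finset (Fin n)} (hj : j ∉ T) (h : j < i) :
    sg S i (insert j T) = -sg S i T := by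
  have h1 := sg_erase_of_lt (S := S) (i := i) (Finset.mem_insert_self j T) h
  rw [Finset.erase_insert hj] at h1
  rw [h1, neg_neg]

theorem sg_insert_of_not_lt {i j : Fin n} {T : Finset (Fin n)} (hj : j ∉ T) (h : ¬ j < i) :
    sg S i (insert j T) = sg S i T := by
  have h1 := sg_erase_of_not_lt (S := S) (i := i) (T := insert j T) h
  rw [Finset.erase_insert hj] at h1
  rw [h1]

/-- exterior multiplication by `dx_i` -/
def ee (i : Fin n) : Module.End S (Fm S n) where
  toFun φ := fun T => if i ∈ T then sg S i T * φ (T.erase i) else 0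
  map_add' φ ψ := by
    funext T
    by_cases h : i ∈ T <;> simp [h, mul_add]
  map_smul' a φ := by
    funext T
    by_cases h : i ∈ T
    · simp only [h, if_true, Pi.smul_apply, smul_eq_mul, RingHom.id_apply]
      ring
    · simp [h]

/-- contraction with `∂_i` -/
def cc (i : Fin n) : Module.End S (Fm S n) where
  toFun φ := fun T => if i ∈ T then 0 else sg S i T * φ (insert i T)
  map_add' φ ψ := by
    funext T
    by_cases h : i ∈ T <;> simp [h, mul_add]
  map_smul' a φ := by
    funext T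
    by_cases h : i ∈ T
    · simp [h]
    · simp only [h, if_false, Pi.smul_apply, smul_eq_mul, RingHom.id_apply]
      ring

theorem ee_apply (i : Fin n) (φ : Fm S n) (T : Finset (Fin n)) :
    ee i φ T = if i ∈ T then sg S i T * φ (T.erase i) else 0 := rfl

theorem cc_apply (i : Fin n) (φ : Fm S n) (T : Finset (Fin n)) :
    cc i φ T = if i ∈ T then 0 else sg S i T * φ (insert i T) := rfl

theorem ee_ee (i j : Fin n) : (ee i * ee j : Module.End S (Fm S n)) = -(ee j * ee i) := by
  refine LinearMap.ext fun φ => ?_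
  funext T
  rw [LinearMap.neg_apply, Module.End.mul_apply, Module.End.mul_apply, Pi.neg_apply, ee_apply,
    ee_apply, ee_apply, ee_apply]
  by_cases hij : i = j
  · subst hij
    simp
  · by_cases hi : i ∈ T
    · by_cases hj : j ∈ T
      · rw [if_pos hi, if_pos hj, if_pos (Finset.mem_erase.2 ⟨fun h => hij h.symm, hj⟩),
          if_pos (Finset.mem_erase.2 ⟨hij, hi⟩), Finset.erase_right_comm]
        rcases lt_or_gt_of_ne hij with h | h
        · rw [sg_erase_of_lt hi h, sg_erase_of_not_lt (not_lt.2 h.le)]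
          ring
        · rw [sg_erase_of_not_lt (not_lt.2 h.le), sg_erase_of_lt hj h]
          ring
      · rw [if_neg hj, if_neg (fun h => hj (Finset.mem_of_mem_erase h))]
        simp
    · rw [if_neg hi]
      split_ifs with h1 h2
      · exact absurd (Finset.mem_of_mem_erase h2) hi
      · simp
      · simp

theorem cc_cc (i j : Fin n) : (cc i * cc j : Module.End S (Fm S n)) = -(cc j * cc i) := by
  refine LinearMap.ext fun φ => ?_
  funext T
  rw [LinearMap.neg_apply, Module.End.mul_apply, Module.End.mul_apply, Pi.neg_apply, cc_apply,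
    cc_apply, cc_apply, cc_apply]
  by_cases hij : i = j
  · subst hij
    simp
  · by_cases hi : i ∈ T
    · rw [if_pos hi]
      split_ifs with h1 h2
      · simp
      · simp
      · exact absurd (Finset.mem_insert_of_mem hi) h2
    · by_cases hj : j ∈ T
      · rw [if_pos hj, if_neg hi, if_pos (Finset.mem_insert_of_mem hj)]
        simp
      · have h1 : j ∉ insert i T := by
          rw [Finset.mem_insert, not_or]
          exact ⟨fun h => hij h.symm, hj⟩
        have h2 : i ∉ insert j T := by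
          rw [Finset.mem_insert, not_or]
          exact ⟨hij, hi⟩
        rw [if_neg hi, if_neg hj, if_neg h1, if_neg h2, Finset.insert_comm j i]
        rcases lt_or_gt_of_ne hij with h | h
        · rw [sg_insert_of_lt hi h, sg_insert_of_not_lt hj (not_lt.2 h.le)]
          ring
        · rw [sg_insert_of_not_lt hi (not_lt.2 h.le), sg_insert_of_lt hj h]
          ring

theorem ee_cc (i j : Fin n) :
    (ee i * cc j + cc j * ee i : Module.End S (Fm S n)) = if i = j then 1 else 0 := by
  refine LinearMap.ext fun φ => ?_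
  funext T
  rw [LinearMap.add_apply, Module.End.mul_apply, Module.End.mul_apply, Pi.add_apply, ee_apply,
    cc_apply, cc_apply, ee_apply]
  by_cases hij : i = j
  · subst hij
    rw [if_pos rfl, Module.End.one_apply]
    by_cases hi : i ∈ T
    · rw [if_pos hi, if_pos hi, if_neg (Finset.notMem_erase i T), add_zero, ← mul_assoc,
        sg_erase_of_not_lt (lt_irrefl i), sg_sq, one_mul, Finset.insert_erase hi]
    · rw [if_neg hi, if_neg hi, if_pos (Finset.mem_insert_self i T), zero_add, ← mul_assoc,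
        sg_insert_of_not_lt hi (lt_irrefl i), sg_sq, one_mul, Finset.erase_insert hi]
  · rw [if_neg hij, LinearMap.zero_apply, Pi.zero_apply]
    by_cases hi : i ∈ T
    · by_cases hj : j ∈ T
      · rw [if_pos hi, if_pos hj, if_pos (Finset.mem_erase.2 ⟨fun h => hij h.symm, hj⟩)]
        simp
      · have h1 : j ∉ T.erase i := fun h => hj (Finset.mem_of_mem_erase h)
        have h3 : insert j (T.erase i) = (insert j T).erase i := by
          rw [Finset.erase_insert_of_ne (fun h => hij h.symm)]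
        rw [if_pos hi, if_neg hj, if_neg h1, if_pos (Finset.mem_insert_of_mem hi), h3]
        rcases lt_or_gt_of_ne hij with h | h
        · rw [sg_erase_of_lt hi h, sg_insert_of_not_lt hj (not_lt.2 h.le)]
          ring
        · rw [sg_erase_of_not_lt (not_lt.2 h.le), sg_insert_of_lt hj h]
          ring
    · rw [if_neg hi, zero_add]
      split_ifs with h1 h2
      · rfl
      · rw [Finset.mem_insert] at h2
        rcases h2 with h2 | h2
        · exact absurd h2 hij
        · exact absurd h2 hi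
      · simp

/-- exterior multiplication by `Σ a_i dx_i` -/
def ww (a : Fin n → S) : Module.End S (Fm S n) := ∑ i, a i • ee i

/-- contraction with `Σ v_i ∂_i` -/
def kk (v : Fin n → S) : Module.End S (Fm S n) := ∑ i, v i • cc i

theorem ww_ww (a b : Fin n → S) : ww a * ww b = -(ww b * ww a) := by
  rw [ww, ww, Finset.sum_mul_sum, Finset.sum_mul_sum, Finset.sum_comm, ← Finset.sum_neg_distrib]
  refine Finset.sum_congr rfl fun i _ => ?_
  rw [← Finset.sum_neg_distrib]
  refine Finset.sum_congr rfl fun j _ => ?_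
  rw [smul_mul_smul_comm, smul_mul_smul_comm, ee_ee i j, smul_neg, neg_neg, mul_comm (b i)]

theorem ee_self (i : Fin n) : (ee i * ee i : Module.End S (Fm S n)) = 0 := by
  refine LinearMap.ext fun φ => ?_
  funext T
  rw [Module.End.mul_apply, ee_apply, ee_apply]
  simp

theorem ww_self (a : Fin n → S) : ww a * ww a = 0 := by
  classical
  rw [ww, Finset.sum_mul_sum]
  have h1 : ∀ i j : Fin n, a i • (ee i : Module.End S (Fm S n)) * a j • ee j =
      (a i * a j) • (ee i * ee j) := fun i j => smul_mul_smul_comm _ _ _ _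
  simp only [h1]
  have h2 : ∑ i, ∑ j, (a i * a j) • (ee i * ee j : Module.End S (Fm S n)) =
      ∑ p ∈ (Finset.univ : Finset (Fin n × Fin n)), (a p.1 * a p.2) • (ee p.1 * ee p.2) :=
    (Finset.sum_product' _ _ _).symm
  rw [h2]
  refine Finset.sum_involution (fun p _ => (p.2, p.1)) ?_ ?_ ?_ ?_
  · rintro ⟨i, j⟩ -
    simp only
    rw [ee_ee i j, smul_neg, mul_comm (a i)]
    exact neg_add_cancel _
  · rintro ⟨i, j⟩ - h h'
    simp only [Prod.mk.injEq] at h'
    obtain ⟨h1, h2⟩ := h'
    subst h1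
    simp only [ee_self, smul_zero] at h
    exact h rfl
  · rintro ⟨i, j⟩ -
    exact Finset.mem_univ _
  · rintro ⟨i, j⟩ -
    rfl

theorem kk_ww (a v : Fin n → S) : ww a * kk v + kk v * ww a = (∑ i, a i * v i) • 1 := by
  rw [ww, kk, Finset.sum_mul_sum, Finset.sum_mul_sum, Finset.sum_comm (s := Finset.univ)
    (f := fun i j => v i • (cc i : Module.End S (Fm S n)) * a j • ee j),
    ← Finset.sum_add_distrib, Finset.sum_smul]
  refine Finset.sum_congr rfl fun i _ => ?_
  rw [← Finset.sum_add_distrib]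
  have h1 : ∀ j, a i • (ee i : Module.End S (Fm S n)) * v j • cc j + v j • cc j * a i • ee i =
      if i = j then (a i * v j) • 1 else 0 := by
    intro j
    rw [smul_mul_smul_comm, smul_mul_smul_comm, mul_comm (v j), ← smul_add, ee_cc]
    split_ifs
    · rfl
    · rw [smul_zero]
  simp only [h1]
  rw [Finset.sum_ite_eq]
  simp

theorem ww_ww_apply (a b : Fin n → S) (φ : Fm S n) : ww a (ww b φ) = -ww b (ww a φ) :=
  LinearMap.congr_fun (ww_ww a b) φ

theorem ww_self_apply (a : Fin n → S) (φ : Fm S n) : ww a (ww a φ) = 0 :=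
  LinearMap.congr_fun (ww_self a) φ

theorem kk_ww_apply (a v : Fin n → S) (φ : Fm S n) :
    ww a (kk v φ) + kk v (ww a φ) = (∑ i, a i * v i) • φ :=
  LinearMap.congr_fun (kk_ww a v) φ

theorem ww_apply (a : Fin n → S) (φ : Fm S n) : ww a φ = ∑ i, a i • ee i φ := by
  rw [ww, LinearMap.sum_apply]
  rfl

theorem kk_apply (a : Fin n → S) (φ : Fm S n) : kk a φ = ∑ i, a i • cc i φ := by
  rw [kk, LinearMap.sum_apply]
  rfl

/-- degree `q` -/
def Dg (q : ℕ) (φ : Fm S n) : Prop := ∀ T : Finset (Fin n), T.card ≠ q → φ T = 0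

/-- the degree `q` part -/
def pr (q : ℕ) (φ : Fm S n) : Fm S n := fun T => if T.card = q then φ T else 0

theorem pr_apply (q : ℕ) (φ : Fm S n) (T : Finset (Fin n)) :
    pr q φ T = if T.card = q then φ T else 0 := rfl

theorem Dg_pr (q : ℕ) (φ : Fm S n) : Dg q (pr q φ) := fun T hT => if_neg hT

theorem pr_of_Dg {q : ℕ} {φ : Fm S n} (h : Dg q φ) : pr q φ = φ := by
  funext T
  rw [pr_apply]
  split_ifs with h1
  · rfl
  · exact (h T h1).symm

theorem pr_add (q : ℕ) (φ ψ : Fm S n) : pr q (φ + ψ) = pr q φ + pr q ψ := by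
  funext T
  simp only [pr_apply, Pi.add_apply]
  split_ifs <;> simp

theorem pr_sub (q : ℕ) (φ ψ : Fm S n) : pr q (φ - ψ) = pr q φ - pr q ψ := by
  funext T
  simp only [pr_apply, Pi.sub_apply]
  split_ifs <;> simp

theorem pr_smul (q : ℕ) (a : S) (φ : Fm S n) : pr q (a • φ) = a • pr q φ := by
  funext T
  simp only [pr_apply, Pi.smul_apply]
  split_ifs <;> simp

theorem pr_sum {α : Type} (q : ℕ) (s : Finset α) (φ : α → Fm S n) :
    pr q (∑ x ∈ s, φ x) = ∑ x ∈ s, pr q (φ x) := by
  classical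
  induction s using Finset.induction_on with
  | empty =>
    funext T
    simp [pr_apply]
  | insert x s hx ih => rw [Finset.sum_insert hx, Finset.sum_insert hx, pr_add, ih]

theorem pr_ee (q : ℕ) (i : Fin n) (φ : Fm S n) : pr (q + 1) (ee i φ) = ee i (pr q φ) := by
  funext T
  simp only [pr_apply, ee_apply]
  by_cases hi : i ∈ T
  · have h1 : (T.erase i).card = q ↔ T.card = q + 1 := by
      rw [Finset.card_erase_of_mem hi]
      have := Finset.card_pos.2 ⟨i, hi⟩
      omega
    rw [if_pos hi, if_pos hi]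
    by_cases h2 : T.card = q + 1
    · rw [if_pos h2, if_pos (h1.2 h2)]
    · rw [if_neg h2, if_neg (fun h => h2 (h1.1 h)), mul_zero]
  · rw [if_neg hi, if_neg hi]
    simp

theorem pr_zero_ee (i : Fin n) (φ : Fm S n) : pr 0 (ee i φ) = 0 := by
  funext T
  simp only [pr_apply, ee_apply, Pi.zero_apply]
  split_ifs with h1 h2
  · rw [Finset.card_eq_zero] at h1
    rw [h1] at h2
    exact absurd h2 (Finset.notMem_empty i)
  · rfl
  · rfl

theorem pr_ww (q : ℕ) (a : Fin n → S) (φ : Fm S n) : pr (q + 1) (ww a φ) = ww a (pr q φ) := by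
  rw [ww_apply, ww_apply, pr_sum]
  refine Finset.sum_congr rfl fun i _ => ?_
  rw [pr_smul, pr_ee]

theorem pr_zero_ww (a : Fin n → S) (φ : Fm S n) : pr 0 (ww a φ) = 0 := by
  rw [ww_apply, pr_sum]
  refine Finset.sum_eq_zero fun i _ => ?_
  rw [pr_smul, pr_zero_ee, smul_zero]

theorem pr_cc (q : ℕ) (i : Fin n) (φ : Fm S n) : pr q (cc i φ) = cc i (pr (q + 1) φ) := by
  funext T
  simp only [pr_apply, cc_apply]
  by_cases hi : i ∈ T
  · simp [hi]
  · rw [if_neg hi, if_neg hi, Finset.card_insert_of_notMem hi]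
    by_cases h2 : T.card = q
    · rw [if_pos h2, if_pos (by omega)]
    · rw [if_neg h2, if_neg (by omega), mul_zero]

theorem pr_kk (q : ℕ) (a : Fin n → S) (φ : Fm S n) : pr q (kk a φ) = kk a (pr (q + 1) φ) := by
  rw [kk_apply, kk_apply, pr_sum]
  refine Finset.sum_congr rfl fun i _ => ?_
  rw [pr_smul, pr_cc]

theorem Dg_of_pr {q : ℕ} {φ : Fm S n} (h : pr q φ = φ) : Dg q φ := h ▸ Dg_pr q φ

theorem Dg.ww {q : ℕ} {φ : Fm S n} (h : Dg q φ) (a : Fin n → S) : Dg (q + 1) (ww a φ) :=
  Dg_of_pr (by rw [pr_ww, pr_of_Dg h])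

theorem Dg.kk {q : ℕ} {φ : Fm S n} (h : Dg (q + 1) φ) (a : Fin n → S) : Dg q (kk a φ) :=
  Dg_of_pr (by rw [pr_kk, pr_of_Dg h])

theorem Dg.add {q : ℕ} {φ ψ : Fm S n} (h : Dg q φ) (h' : Dg q ψ) : Dg q (φ + ψ) :=
  Dg_of_pr (by rw [pr_add, pr_of_Dg h, pr_of_Dg h'])

theorem Dg.sub {q : ℕ} {φ ψ : Fm S n} (h : Dg q φ) (h' : Dg q ψ) : Dg q (φ - ψ) :=
  Dg_of_pr (by rw [pr_sub, pr_of_Dg h, pr_of_Dg h'])

theorem Dg.smul {q : ℕ} {φ : Fm S n} (h : Dg q φ) (a : S) : Dg q (a • φ) :=
  Dg_of_pr (by rw [pr_smul, pr_of_Dg h])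

theorem Dg.zero (q : ℕ) : Dg q (0 : Fm S n) := fun T _ => rfl

theorem kk_Dg_zero {φ : Fm S n} (h : Dg 0 φ) (a : Fin n → S) : kk a φ = 0 := by
  rw [kk_apply]
  refine Finset.sum_eq_zero fun i _ => ?_
  have : cc i φ = 0 := by
    funext T
    rw [cc_apply]
    split_ifs with hi
    · rfl
    · rw [h _ (by rw [Finset.card_insert_of_notMem hi]; omega), mul_zero]
      rfl
  rw [this, smul_zero]

theorem Dg_big {q : ℕ} {φ : Fm S n} (h : Dg q φ) (hq : n < q) : φ = 0 := by
  funext T
  refine h T ?_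
  have := Finset.card_le_univ T
  rw [Fintype.card_fin] at this
  omega

/-- coefficients in an ideal -/
def InI (I : Ideal S) (φ : Fm S n) : Prop := ∀ T, φ T ∈ I

theorem InI.add {I : Ideal S} {φ ψ : Fm S n} (h : InI I φ) (h' : InI I ψ) : InI I (φ + ψ) :=
  fun T => I.add_mem (h T) (h' T)

theorem InI.sub {I : Ideal S} {φ ψ : Fm S n} (h : InI I φ) (h' : InI I ψ) : InI I (φ - ψ) :=
  fun T => I.sub_mem (h T) (h' T)

theorem InI.neg {I : Ideal S} {φ : Fm S n} (h : InI I φ) : InI I (-φ) :=
  fun T => I.neg_mem (h T)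

theorem InI.smul {I : Ideal S} {φ : Fm S n} (h : InI I φ) (a : S) : InI I (a • φ) :=
  fun T => I.mul_mem_left a (h T)

theorem InI.zero (I : Ideal S) : InI I (0 : Fm S n) := fun T => I.zero_mem

theorem InI.of_mem {I : Ideal S} {a : S} (ha : a ∈ I) (φ : Fm S n) : InI I (a • φ) :=
  fun T => I.mul_mem_right _ ha

theorem InI.sum {α : Type} {I : Ideal S} (s : Finset α) {φ : α → Fm S n}
    (h : ∀ x ∈ s, InI I (φ x)) : InI I (∑ x ∈ s, φ x) := fun T => by
  rw [Finset.sum_apply]
  exact I.sum_mem fun x hx => h x hx T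

theorem InI.ee {I : Ideal S} {φ : Fm S n} (h : InI I φ) (i : Fin n) : InI I (ee i φ) := by
  intro T
  rw [ee_apply]
  split_ifs
  · exact I.mul_mem_left _ (h _)
  · exact I.zero_mem

theorem InI.cc {I : Ideal S} {φ : Fm S n} (h : InI I φ) (i : Fin n) : InI I (cc i φ) := by
  intro T
  rw [cc_apply]
  split_ifs
  · exact I.zero_mem
  · exact I.mul_mem_left _ (h _)

theorem InI.ww {I : Ideal S} {φ : Fm S n} (h : InI I φ) (a : Fin n → S) : InI I (ww a φ) := by
  rw [ww_apply]
  exact InI.sum _ fun i _ => (h.ee i).smul _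

theorem InI.kk {I : Ideal S} {φ : Fm S n} (h : InI I φ) (a : Fin n → S) : InI I (kk a φ) := by
  rw [kk_apply]
  exact InI.sum _ fun i _ => (h.cc i).smul _

theorem InI.pr {I : Ideal S} {φ : Fm S n} (h : InI I φ) (q : ℕ) : InI I (pr q φ) := by
  intro T
  rw [pr_apply]
  split_ifs
  · exact h T
  · exact I.zero_mem

theorem InI.mono {I J : Ideal S} (hIJ : I ≤ J) {φ : Fm S n} (h : InI I φ) : InI J φ :=
  fun T => hIJ (h T)

/-- split a form with coefficients in `I ⊔ (a)` -/
theorem InI.split {I : Ideal S} {a : S} {φ : Fm S n} (h : InI (I ⊔ Ideal.span {a}) φ) :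
    ∃ ζ : Fm S n, InI I (φ - a • ζ) := by
  have h1 : ∀ T, ∃ z, φ T - a * z ∈ I := by
    intro T
    obtain ⟨x, hx, y, hy, hxy⟩ := Submodule.mem_sup.1 (h T)
    obtain ⟨z, rfl⟩ := Ideal.mem_span_singleton'.1 hy
    refine ⟨z, ?_⟩
    rw [← hxy, mul_comm a z, add_sub_cancel_right]
    exact hx
  choose z hz using h1
  exact ⟨z, hz⟩

/-! ### products -/

/-- the product of exterior multiplications -/
def Pr : List (Fin n → S) → Module.End S (Fm S n)
  | [] => 1
  | v :: L => ww v * Pr L

theorem Pr_nil (φ : Fm S n) : Pr ([] : List (Fin n → S)) φ = φ := rfl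

theorem Pr_cons (v : Fin n → S) (L : List (Fin n → S)) (φ : Fm S n) :
    Pr (v :: L) φ = ww v (Pr L φ) := rfl

theorem Pr_ww (L : List (Fin n → S)) (v : Fin n → S) (φ : Fm S n) :
    Pr L (ww v φ) = (-1 : S) ^ L.length • ww v (Pr L φ) := by
  induction L with
  | nil => rw [Pr_nil, Pr_nil, List.length_nil, pow_zero, one_smul]
  | cons v' L ih =>
    rw [Pr_cons, Pr_cons, ih, map_smul, ww_ww_apply, List.length_cons, pow_succ, smul_neg,
      mul_smul, neg_smul, one_smul, smul_neg]

theorem InI.Pr {I : Ideal S} {φ : Fm S n} (h : InI I φ) (L : List (Fin n → S)) :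
    InI I (Pr L φ) := by
  induction L with
  | nil => exact h
  | cons v L ih => exact ih.ww v

theorem Dg.Pr {q : ℕ} {φ : Fm S n} (h : Dg q φ) (L : List (Fin n → S)) :
    Dg (q + L.length) (Pr L φ) := by
  induction L with
  | nil => exact h
  | cons v L ih => exact ih.ww v

theorem pr_Pr (q : ℕ) (L : List (Fin n → S)) (φ : Fm S n) :
    pr (q + L.length) (Pr L φ) = Pr L (pr q φ) := by
  induction L with
  | nil => rfl
  | cons v L ih =>
    rw [Pr_cons, Pr_cons, List.length_cons, ← add_assoc, pr_ww, ih]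

/-- `Pr L` kills the multiples of members of `L` -/
theorem Pr_ww_mem (L : List (Fin n → S)) (v : Fin n → S) (hv : v ∈ L) (φ : Fm S n) :
    Pr L (ww v φ) = 0 := by
  induction L with
  | nil => simp at hv
  | cons v' L ih =>
    rw [Pr_cons]
    rcases List.mem_cons.1 hv with h | h
    · subst h
      rw [Pr_ww, map_smul, ww_self_apply, smul_zero]
    · rw [ih h, map_zero]

/-- membership in `Σ_{v ∈ L} v ∧ Λ + I Λ` -/
def InB (I : Ideal S) : List (Fin n → S) → Fm S n → Prop
  | [], φ => InI I φ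
  | v :: L, φ => ∃ η, InB I L (φ - ww v η)

theorem InB_of_InI {I : Ideal S} (L : List (Fin n → S)) {φ : Fm S n} (h : InI I φ) :
    InB I L φ := by
  induction L with
  | nil => exact h
  | cons v L ih => exact ⟨0, by rw [map_zero, sub_zero]; exact ih⟩

theorem InB.add {I : Ideal S} {L : List (Fin n → S)} : ∀ {φ ψ : Fm S n}, InB I L φ →
    InB I L ψ → InB I L (φ + ψ) := by
  induction L with
  | nil => exact fun h h' => InI.add h h'
  | cons v L ih =>
    rintro φ ψ ⟨η, h⟩ ⟨η', h'⟩
    refine ⟨η + η', ?_⟩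
    have : φ + ψ - ww v (η + η') = (φ - ww v η) + (ψ - ww v η') := by
      rw [map_add]
      abel
    rw [this]
    exact ih h h'

theorem InB.smul {I : Ideal S} {L : List (Fin n → S)} (a : S) : ∀ {φ : Fm S n}, InB I L φ →
    InB I L (a • φ) := by
  induction L with
  | nil => exact fun h => InI.smul h a
  | cons v L ih =>
    rintro φ ⟨η, h⟩
    refine ⟨a • η, ?_⟩
    rw [map_smul, ← smul_sub]
    exact ih h

theorem InB.neg {I : Ideal S} {L : List (Fin n → S)} {φ : Fm S n} (h : InB I L φ) :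
    InB I L (-φ) := by
  have := h.smul (-1)
  rwa [neg_smul, one_smul] at this

theorem InB.sub {I : Ideal S} {L : List (Fin n → S)} {φ ψ : Fm S n} (h : InB I L φ)
    (h' : InB I L ψ) : InB I L (φ - ψ) := by
  rw [sub_eq_add_neg]
  exact h.add h'.neg

theorem InB_cons {I : Ideal S} {L : List (Fin n → S)} (v : Fin n → S) {φ : Fm S n}
    (h : InB I L φ) : InB I (v :: L) φ := ⟨0, by rwa [map_zero, sub_zero]⟩

theorem InB_suffix {I : Ideal S} {L L' : List (Fin n → S)} (hL : L' <:+ L) {φ : Fm S n}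
    (h : InB I L' φ) : InB I L φ := by
  obtain ⟨t, rfl⟩ := hL
  induction t with
  | nil => exact h
  | cons v t ih => exact InB_cons v ih

theorem InB_ww_mem {I : Ideal S} {L : List (Fin n → S)} (v : Fin n → S) (hv : v ∈ L)
    (φ : Fm S n) : InB I L (ww v φ) := by
  induction L with
  | nil => simp at hv
  | cons v' L ih =>
    rcases List.mem_cons.1 hv with h | h
    · subst h
      exact ⟨φ, by rw [sub_self]; exact InB_of_InI L (InI.zero I)⟩
    · exact InB_cons _ (ih h)

/-- multiplication by `v` preserves -/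
theorem InB.wm {I : Ideal S} {L : List (Fin n → S)} (v : Fin n → S) : ∀ {φ : Fm S n},
    InB I L φ → InB I L (ww v φ) := by
  induction L with
  | nil => exact fun h => InI.ww h v
  | cons v' L ih =>
    rintro φ ⟨η, h⟩
    refine ⟨-ww v η, ?_⟩
    have : ww v φ - ww v' (-ww v η) =
        ww v (φ - ww v' η) := by
      rw [map_neg, map_sub, ww_ww_apply v v']
    rw [this]
    exact ih h

/-- multiplication by the head lands in the tail -/
theorem InB_head {I : Ideal S} {L : List (Fin n → S)} {v : Fin n → S} {φ : Fm S n}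
    (h : InB I (v :: L) φ) : InB I L (ww v φ) := by
  obtain ⟨η, h⟩ := h
  have h1 := h.wm v
  rwa [map_sub, ww_self_apply, sub_zero] at h1

theorem InB.split {I : Ideal S} {a : S} {L : List (Fin n → S)} : ∀ {φ : Fm S n},
    InB (I ⊔ Ideal.span {a}) L φ → ∃ ζ : Fm S n, InB I L (φ - a • ζ) := by
  induction L with
  | nil => exact fun h => InI.split h
  | cons v L ih =>
    rintro φ ⟨η, h⟩
    obtain ⟨ζ, hζ⟩ := ih h
    refine ⟨ζ, η, ?_⟩
    have : φ - a • ζ - ww v η = φ - ww v η - a • ζ := by abel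
    rw [this]
    exact hζ

theorem InB.proj {I : Ideal S} {L : List (Fin n → S)} : ∀ (q : ℕ) {φ : Fm S n},
    InB I L φ → InB I L (pr q φ) := by
  induction L with
  | nil => exact fun q φ h => InI.pr h q
  | cons v L ih =>
    rintro q φ ⟨η, h⟩
    have h1 := ih q h
    rw [pr_sub] at h1
    rcases q with _ | q
    · rw [pr_zero_ww, sub_zero] at h1
      exact InB_cons v h1
    · rw [pr_ww] at h1
      exact ⟨_, h1⟩

theorem InB.proj_succ {I : Ideal S} {L : List (Fin n → S)} {v : Fin n → S} {q : ℕ}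
    {φ : Fm S n} (hφ : Dg (q + 1) φ) (h : InB I (v :: L) φ) :
    ∃ η, Dg q η ∧ InB I L (φ - ww v η) := by
  obtain ⟨η, h⟩ := h
  have h1 := h.proj (q + 1)
  rw [pr_sub, pr_ww, pr_of_Dg hφ] at h1
  exact ⟨_, Dg_pr q η, h1⟩

theorem InB.proj_zero {I : Ideal S} {L : List (Fin n → S)} : ∀ {φ : Fm S n},
    Dg 0 φ → InB I L φ → InI I φ := by
  induction L with
  | nil => exact fun _ h => h
  | cons v L ih =>
    rintro φ hφ ⟨η, h⟩
    have h1 := h.proj 0
    rw [pr_sub, pr_zero_ww, sub_zero, pr_of_Dg hφ] at h1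
    exact ih hφ h1

/-- `Pr L` maps `B_L` into `I` -/
theorem InB.Pr_mem {I : Ideal S} {L : List (Fin n → S)} : ∀ {φ : Fm S n}, InB I L φ →
    InI I (Pr L φ) := by
  induction L with
  | nil => exact fun h => h
  | cons v L ih =>
    rintro φ ⟨η, h⟩
    have h1 := (ih h).ww v
    rw [map_sub, map_sub, Pr_ww, map_smul, ww_self_apply, smul_zero, sub_zero] at h1
    exact h1

end fm

end Pool.Agent.H35.CI
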