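import Pool.Agent.H35.CI.Red

set_option autoImplicit false
set_option linter.unusedSectionVars false
set_option linter.unusedVariables false

/-! # Reduction of the order of the poles along a complete intersection, II -/

namespace Pool.Agent.H35.CI

open MvPolynomial Pool.Agent.W574.SM

section red

variable {σ κ B : Type} [Fintype σ] [DecidableEq σ] [Fintype κ] [DecidableEq κ] [CommRing B]
  [Algebra ℂ B] {θ : σ → Derivation ℂ B B} {c : σ → B} {F : κ → B}

/-- **Symbols.** If `∑ a_i q_i ≡ 0` for homogeneous `q_i` of positive degree, then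
`q_i ≡ ∑_m a_m z_im` with antisymmetric `z`. -/
theorem symbol (V : κ → σ → B)
    (hV : ∀ j m, ∑ i, θ i (F j) * V m i - (if j = m then 1 else 0) ∈ JJ F) (k : ℕ)
    (q : σ → MvPolynomial κ B) (hq : ∀ i, (q i).IsHomogeneous (k + 1))
    (h : InJ F (∑ i, ai θ F i * q i)) :
    ∃ z : σ → σ → MvPolynomial κ B, (∀ i m, z i m = -z m i) ∧ (∀ i m, (z i m).IsHomogeneous k) ∧
      ∀ i, InJ F (q i - ∑ m, ai θ F m * z i m) := by
  classical
  -- `w_j = ∑ θ_i(F_j) q_i`
  set w : κ → MvPolynomial κ B := fun j => ∑ i, C (θ i (F j)) * q i with hw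
  have hwh : ∀ j, (w j).IsHomogeneous (k + 1) := fun j =>
    IsHomogeneous.sum _ _ _ fun i _ => by
      have := (isHomogeneous_C κ (θ i (F j))).mul (hq i)
      rwa [zero_add] at this
  have hXw : InJ F (∑ j, X j * w j) := by
    have : ∑ j, X j * w j = ∑ i, ai θ F i * q i := by
      simp only [hw, Finset.mul_sum, ai, Finset.sum_mul]
      rw [Finset.sum_comm]
      refine Finset.sum_congr rfl fun i _ => Finset.sum_congr rfl fun j _ => ?_
      ring
    rw [this]
    exact h
  have haV : ∀ m, InJ F (∑ i, ai θ F i * C (V m i) - X m) := by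
    intro m
    have : ∑ i, ai θ F i * C (V m i) - X m =
        ∑ j, X j * C (∑ i, θ i (F j) * V m i - (if j = m then 1 else 0)) := by
      have h1 : ∀ j, (X j * C (∑ i, θ i (F j) * V m i - (if j = m then 1 else 0)) :
          MvPolynomial κ B) = ∑ i, C (θ i (F j)) * X j * C (V m i) -
            (if j = m then X j else 0) := by
        intro j
        rw [C_sub, map_sum, mul_sub, Finset.mul_sum]
        congr 1
        · refine Finset.sum_congr rfl fun i _ => ?_
          rw [C_mul]
          ring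
        · split_ifs
          · rw [C_1, mul_one]
          · rw [C_0, mul_zero]
      simp only [h1, Finset.sum_sub_distrib, Finset.sum_ite_eq', Finset.mem_univ, if_true, ai,
        Finset.sum_mul]
      rw [Finset.sum_comm]
    rw [this]
    exact InJ.sum _ fun j _ => (InJ.of_C (hV j m)).mul_left _
  have hk : ((k : ℂ) + 1) ≠ 0 := by exact_mod_cast Nat.succ_ne_zero k
  have hk2 : ((k : ℂ) + 2) ≠ 0 := by exact_mod_cast Nat.succ_ne_zero (k + 1)
  -- `τ`
  set a1 : MvPolynomial κ B := C (algebraMap ℂ B ((k : ℂ) + 1)⁻¹) with ha1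
  set a2 : MvPolynomial κ B := C (algebraMap ℂ B ((k : ℂ) + 2)⁻¹) with ha2
  have ha1' : a1 * ((k : MvPolynomial κ B) + 1) = 1 := by
    have : ((k : MvPolynomial κ B) + 1) = C (algebraMap ℂ B ((k : ℂ) + 1)) := by
      rw [map_add, map_add, map_one, map_one, map_natCast, map_natCast]
    rw [this, ha1, ← map_mul, ← map_mul, inv_mul_cancel₀ hk, map_one, map_one]
  have ha2' : a2 * ((k : MvPolynomial κ B) + 2) = 1 := by
    have : ((k : MvPolynomial κ B) + 2) = C (algebraMap ℂ B ((k : ℂ) + 2)) := by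
      rw [map_add, map_add, map_natCast, map_natCast]
      congr 1
      rw [map_ofNat, map_ofNat]
    rw [this, ha2, ← map_mul, ← map_mul, inv_mul_cancel₀ hk2, map_one, map_one]
  set τ : κ → κ → MvPolynomial κ B := fun j m => a2 * (pderiv m (w j) - pderiv j (w m)) with hτ
  have hτa : ∀ j m, τ j m = -τ m j := fun j m => by simp only [hτ]; ring
  have hτh : ∀ j m, (τ j m).IsHomogeneous k := by
    intro j m
    have h1 : (pderiv m (w j) - pderiv j (w m)).IsHomogeneous k :=
      (homog_pderiv (hwh j) m).sub (homog_pderiv (hwh m) j)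
    have := (isHomogeneous_C κ (algebraMap ℂ B ((k : ℂ) + 2)⁻¹)).mul h1
    rwa [zero_add] at this
  have hτw : ∀ j, InJ F (∑ m, X m * τ j m - w j) := by
    intro j
    have h1 : ∑ m, X m * pderiv m (w j) = ((k : MvPolynomial κ B) + 1) * w j := by
      have := (hwh j).sum_X_mul_pderiv
      rw [this, nsmul_eq_mul]
      push_cast
      rfl
    have h2 : ∑ m, X m * pderiv j (w m) = pderiv j (∑ m, X m * w m) - w j := by
      rw [map_sum]
      have h3 : ∀ m, pderiv j (X m * w m) = X m * pderiv j (w m) + (if m = j then w m else 0) := by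
        intro m
        rw [Derivation.leibniz, pderiv_X, smul_eq_mul, smul_eq_mul, Pi.single_apply]
        by_cases hm : m = j
        · rw [if_pos hm, if_pos hm, mul_one]
        · rw [if_neg hm, if_neg hm, mul_zero]
      simp only [h3, Finset.sum_add_distrib, Finset.sum_ite_eq', Finset.mem_univ, if_true]
      ring
    have h4 : ∑ m, X m * τ j m - w j = (-a2) * pderiv j (∑ m, X m * w m) := by
      have h5 : ∑ m, X m * τ j m = a2 * (∑ m, X m * pderiv m (w j) - ∑ m, X m * pderiv j (w m)) := by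
        rw [← Finset.sum_sub_distrib, Finset.mul_sum]
        refine Finset.sum_congr rfl fun m _ => ?_
        simp only [hτ]
        ring
      rw [h5, h1, h2]
      linear_combination w j * ha2'
    rw [h4]
    exact (hXw.pderiv j).mul_left _
  -- `z`
  set z0 : σ → σ → MvPolynomial κ B := fun i m =>
    ∑ j, (C (V j m) * pderiv j (q i) - C (V j i) * pderiv j (q m)) with hz0
  set z1 : σ → σ → MvPolynomial κ B := fun i p =>
    ∑ j, ∑ m, τ j m * C (V j i) * C (V m p) with hz1
  have hz1a : ∀ i p, z1 i p = -z1 p i := by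
    intro i p
    simp only [hz1]
    conv_lhs => rw [Finset.sum_comm]
    rw [← Finset.sum_neg_distrib]
    refine Finset.sum_congr rfl fun m _ => ?_
    rw [← Finset.sum_neg_distrib]
    refine Finset.sum_congr rfl fun j _ => ?_
    rw [hτa j m]
    ring
  have hz0a : ∀ i p, z0 i p = -z0 p i := by
    intro i p
    simp only [hz0]
    rw [← Finset.sum_neg_distrib]
    refine Finset.sum_congr rfl fun m _ => ?_
    ring
  have hC0 : ∀ (b : B) {P : MvPolynomial κ B}, P.IsHomogeneous k → (C b * P).IsHomogeneous k := by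
    intro b P hP
    have := (isHomogeneous_C κ b).mul hP
    rwa [zero_add] at this
  have hz0h : ∀ i m, (z0 i m).IsHomogeneous k := by
    intro i m
    exact IsHomogeneous.sum _ _ _ fun j _ =>
      (hC0 _ (homog_pderiv (hq i) j)).sub (hC0 _ (homog_pderiv (hq m) j))
  have hz1h : ∀ i m, (z1 i m).IsHomogeneous k := by
    intro i p
    refine IsHomogeneous.sum _ _ _ fun j _ => IsHomogeneous.sum _ _ _ fun m _ => ?_
    have : τ j m * C (V j i) * C (V m p) = C (V j i) * (C (V m p) * τ j m) := by ring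
    rw [this]
    exact hC0 _ (hC0 _ (hτh j m))
  refine ⟨fun i m => a1 * (z0 i m - z1 i m), fun i m => ?_, fun i m => hC0 _ ((hz0h i m).sub
    (hz1h i m)), fun i => ?_⟩
  · beta_reduce
    rw [hz0a i m, hz1a i m]
    ring
  -- the congruence
  have e0 : InJ F (∑ m, ai θ F m * z0 i m - (((k : MvPolynomial κ B) + 1) * q i +
      ∑ j, C (V j i) * w j)) := by
    have h1 : ∑ m, ai θ F m * z0 i m = ∑ j, (∑ m, ai θ F m * C (V j m)) * pderiv j (q i) -
        ∑ j, C (V j i) * ∑ m, ai θ F m * pderiv j (q m) := by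
      simp only [hz0, Finset.mul_sum, Finset.sum_mul]
      rw [Finset.sum_comm, ← Finset.sum_sub_distrib]
      refine Finset.sum_congr rfl fun j _ => ?_
      rw [← Finset.sum_sub_distrib]
      refine Finset.sum_congr rfl fun m _ => ?_
      ring
    have h2 : ∀ j, ∑ m, ai θ F m * pderiv j (q m) = pderiv j (∑ m, ai θ F m * q m) - w j := by
      intro j
      rw [map_sum]
      have h3 : ∀ m, pderiv j (ai θ F m * q m) = ai θ F m * pderiv j (q m) +
          C (θ m (F j)) * q m := by
        intro m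
        rw [Derivation.leibniz, pderiv_ai, smul_eq_mul, smul_eq_mul]
        ring
      simp only [h3, Finset.sum_add_distrib, hw]
      ring
    have h3 : ∑ j, X j * pderiv j (q i) = ((k : MvPolynomial κ B) + 1) * q i := by
      have := (hq i).sum_X_mul_pderiv
      rw [this, nsmul_eq_mul]
      push_cast
      rfl
    have h4 : ∑ m, ai θ F m * z0 i m - (((k : MvPolynomial κ B) + 1) * q i +
        ∑ j, C (V j i) * w j) = ∑ j, pderiv j (q i) * (∑ m, ai θ F m * C (V j m) - X j) -
          ∑ j, C (V j i) * pderiv j (∑ m, ai θ F m * q m) := by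
      rw [h1, ← h3]
      simp only [h2]
      rw [← Finset.sum_sub_distrib, ← Finset.sum_add_distrib, ← Finset.sum_sub_distrib,
        ← Finset.sum_sub_distrib]
      refine Finset.sum_congr rfl fun j _ => ?_
      ring
    rw [h4]
    exact (InJ.sum _ fun j _ => (haV j).mul_left _).sub
      (InJ.sum _ fun j _ => (h.pderiv j).mul_left _)
  have e1 : InJ F (∑ m, ai θ F m * z1 i m - ∑ j, C (V j i) * w j) := by
    have h1 : ∑ p, ai θ F p * z1 i p = ∑ j, ∑ m, τ j m * C (V j i) *
        (∑ p, ai θ F p * C (V m p)) := by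
      simp only [hz1, Finset.mul_sum]
      rw [Finset.sum_comm]
      refine Finset.sum_congr rfl fun j _ => ?_
      rw [Finset.sum_comm]
      refine Finset.sum_congr rfl fun m _ => Finset.sum_congr rfl fun p _ => ?_
      ring
    have h2 : ∑ p, ai θ F p * z1 i p - ∑ j, C (V j i) * w j =
        ∑ j, ∑ m, τ j m * C (V j i) * (∑ p, ai θ F p * C (V m p) - X m) +
          ∑ j, C (V j i) * (∑ m, X m * τ j m - w j) := by
      rw [h1, ← Finset.sum_sub_distrib, ← Finset.sum_add_distrib]
      refine Finset.sum_congr rfl fun j _ => ?_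
      have h3 : ∑ m, τ j m * C (V j i) * (∑ p, ai θ F p * C (V m p) - X m) =
          ∑ m, τ j m * C (V j i) * (∑ p, ai θ F p * C (V m p)) -
            C (V j i) * ∑ m, X m * τ j m := by
        rw [Finset.mul_sum, ← Finset.sum_sub_distrib]
        refine Finset.sum_congr rfl fun m _ => ?_
        ring
      rw [h3]
      ring
    rw [h2]
    exact (InJ.sum _ fun j _ => InJ.sum _ fun m _ => (haV m).mul_left _).add
      (InJ.sum _ fun j _ => (hτw j).mul_left _)
  have h5 : q i - ∑ m, ai θ F m * (a1 * (z0 i m - z1 i m)) =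
      (-a1) * ((∑ m, ai θ F m * z0 i m - (((k : MvPolynomial κ B) + 1) * q i +
        ∑ j, C (V j i) * w j)) - (∑ m, ai θ F m * z1 i m - ∑ j, C (V j i) * w j)) := by
    have h6 : ∑ m, ai θ F m * (a1 * (z0 i m - z1 i m)) =
        a1 * (∑ m, ai θ F m * z0 i m - ∑ m, ai θ F m * z1 i m) := by
      rw [← Finset.sum_sub_distrib, Finset.mul_sum]
      refine Finset.sum_congr rfl fun m _ => ?_
      ring
    rw [h6]
    linear_combination (-(q i)) * ha1'
  rw [h5]
  exact (e0.sub e1).mul_left _

theorem Dq_LT {k : ℕ} (i : σ) {Q : MvPolynomial κ B} (hQ : LT k Q) :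
    LT (k + 1) (Dq θ c F i Q) := by
  rw [Dq, ai, Finset.sum_mul]
  refine (((hQ.dcoef _).add (hQ.C_mul _)).mono (Nat.le_succ k)).add (LT.sum _ fun j _ => ?_)
  rw [mul_assoc]
  exact (hQ.X_mul j).C_mul _

theorem tq_LT {k : ℕ} (j : κ) {Q : MvPolynomial κ B} (hQ : LT (k + 1) Q) :
    LT (k + 1) (tq F j Q) := by
  rw [tq]
  exact (hQ.C_mul _).add ((hQ.pderiv j).mono (Nat.le_succ k))

theorem hc_ai_mul (k : ℕ) (i : σ) (Q : MvPolynomial κ B) :
    homogeneousComponent (k + 1) (ai θ F i * Q) = ai θ F i * homogeneousComponent k Q := by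
  rw [ai, Finset.sum_mul, Finset.sum_mul, map_sum]
  refine Finset.sum_congr rfl fun j _ => ?_
  rw [mul_assoc, mul_assoc, hc_C_mul, hc_X_mul]

theorem hc_Dq {k : ℕ} (i : σ) {Q : MvPolynomial κ B} (hQ : LT (k + 1) Q) :
    homogeneousComponent (k + 1) (Dq θ c F i Q) = ai θ F i * homogeneousComponent k Q := by
  rw [Dq, map_add, hc_ai_mul, hc_LT ((hQ.dcoef _).add (hQ.C_mul _)), zero_add]

theorem hc_tq {k : ℕ} (j : κ) {Q : MvPolynomial κ B} (hQ : LT (k + 1) Q) :
    homogeneousComponent k (tq F j Q) = C (F j) * homogeneousComponent k Q := by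
  rw [tq, map_add, hc_C_mul, hc_LT (hQ.pderiv j), add_zero]

theorem anti_Dq (hcomm : ∀ i m u, θ i (θ m u) = θ m (θ i u)) (hc : ∀ i m, θ i (c m) = θ m (c i))
    (z : σ → σ → MvPolynomial κ B) (hz : ∀ i m, z i m = -z m i) :
    ∑ i, Dq θ c F i (∑ m, Dq θ c F m (z i m)) = 0 := by
  have h1 : ∑ i, Dq θ c F i (∑ m, Dq θ c F m (z i m)) =
      -∑ i, Dq θ c F i (∑ m, Dq θ c F m (z i m)) := by
    simp only [Dq_sum]
    conv_lhs => rw [Finset.sum_comm]
    rw [← Finset.sum_neg_distrib]
    refine Finset.sum_congr rfl fun m _ => ?_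
    rw [← Finset.sum_neg_distrib]
    refine Finset.sum_congr rfl fun i _ => ?_
    rw [hz i m, Dq_neg, Dq_neg, Dq_comm hcomm hc]
  have h2 : (C (algebraMap ℂ B 2) : MvPolynomial κ B) *
      ∑ i, Dq θ c F i (∑ m, Dq θ c F m (z i m)) = 0 := by
    rw [map_ofNat, map_ofNat]
    linear_combination h1
  have h3 := congrArg (fun x => C (algebraMap ℂ B (2 : ℂ)⁻¹) * x) h2
  simp only [mul_zero, ← mul_assoc, ← map_mul] at h3
  rw [inv_mul_cancel₀ (two_ne_zero), map_one, C_1, one_mul] at h3
  exact h3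

theorem anti_tq (τ : κ → κ → MvPolynomial κ B) (hτ : ∀ i m, τ i m = -τ m i) :
    ∑ i, tq F i (∑ m, tq F m (τ i m)) = 0 := by
  have h1 : ∑ i, tq F i (∑ m, tq F m (τ i m)) = -∑ i, tq F i (∑ m, tq F m (τ i m)) := by
    simp only [tq_sum]
    conv_lhs => rw [Finset.sum_comm]
    rw [← Finset.sum_neg_distrib]
    refine Finset.sum_congr rfl fun m _ => ?_
    rw [← Finset.sum_neg_distrib]
    refine Finset.sum_congr rfl fun i _ => ?_
    rw [hτ i m, tq_neg, tq_neg, tq_comm]
  have h2 : (C (algebraMap ℂ B 2) : MvPolynomial κ B) *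
      ∑ i, tq F i (∑ m, tq F m (τ i m)) = 0 := by
    rw [map_ofNat, map_ofNat]
    linear_combination h1
  have h3 := congrArg (fun x => C (algebraMap ℂ B (2 : ℂ)⁻¹) * x) h2
  simp only [mul_zero, ← mul_assoc, ← map_mul] at h3
  rw [inv_mul_cancel₀ (two_ne_zero), map_one, C_1, one_mul] at h3
  exact h3

/-- the statement of order `k` -/
def SS1 (θ : σ → Derivation ℂ B B) (c : σ → B) (F : κ → B) (k : ℕ) : Prop :=
  ∃ (q : σ → MvPolynomial κ B) (p : κ → MvPolynomial κ B), (∀ i, LT (k + 1) (q i)) ∧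
    (∀ j, LT (k + 2) (p j)) ∧ ∑ i, Dq θ c F i (q i) + ∑ j, tq F j (p j) = 1

/-- lowering the degree of the `p_j` -/
theorem lower_p (hK : KK F) (n : ℕ) (hn : 0 < n) (q : σ → MvPolynomial κ B)
    (p : κ → MvPolynomial κ B) (hq : ∀ i, LT n (Dq θ c F i (q i)))
    (hp : ∀ j, LT (n + 1) (p j)) (h : ∑ i, Dq θ c F i (q i) + ∑ j, tq F j (p j) = 1) :
    ∃ p' : κ → MvPolynomial κ B, (∀ j, LT n (p' j)) ∧
      ∑ i, Dq θ c F i (q i) + ∑ j, tq F j (p' j) = 1 := by
  have h1 : ∑ j, C (F j) * homogeneousComponent n (p j) = 0 := by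
    have h2 := congrArg (homogeneousComponent n) h
    rw [map_add, map_sum, map_sum, hc_LT (LT.one.mono hn)] at h2
    rw [Finset.sum_eq_zero fun i _ => hc_LT (hq i), zero_add] at h2
    rw [← h2]
    exact Finset.sum_congr rfl fun j _ => (hc_tq j (hp j)).symm
  obtain ⟨τ, hτ1, hτ2, hτ3⟩ := hK.lift _ n (fun j => homogeneousComponent_isHomogeneous n _) h1
  refine ⟨fun j => p j - ∑ m, tq F m (τ j m), fun j => ?_, ?_⟩
  · have h2 : p j - ∑ m, tq F m (τ j m) =
        (p j - homogeneousComponent n (p j)) - ∑ m, pderiv m (τ j m) := by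
      have h3 : ∑ m, tq F m (τ j m) = homogeneousComponent n (p j) + ∑ m, pderiv m (τ j m) := by
        rw [hτ3 j, ← Finset.sum_add_distrib]
        rfl
      rw [h3]
      ring
    beta_reduce
    rw [h2]
    obtain ⟨m, rfl⟩ := Nat.exists_eq_succ_of_ne_zero hn.ne'
    exact ((hp j).sub_hc).sub (LT.sum _ fun l _ => (LT.of_hom (hτ2 j l)).pderiv l)
  · simp only [tq_sub, Finset.sum_sub_distrib]
    rw [anti_tq τ hτ1, sub_zero]
    exact h

theorem SS1_step (hcomm : ∀ i m u, θ i (θ m u) = θ m (θ i u))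
    (hc : ∀ i m, θ i (c m) = θ m (c i)) (hK : KK F) (V : κ → σ → B)
    (hV : ∀ j m, ∑ i, θ i (F j) * V m i - (if j = m then 1 else 0) ∈ JJ F) (k : ℕ)
    (h : SS1 θ c F (k + 1)) : SS1 θ c F k := by
  obtain ⟨q, p, hq, hp, hrel⟩ := h
  have h1 : InJ F (∑ i, ai θ F i * homogeneousComponent (k + 1) (q i)) := by
    have h2 := congrArg (homogeneousComponent (k + 2)) hrel
    rw [map_add, map_sum, map_sum, hc_LT (LT.one.mono (by omega))] at h2
    rw [Finset.sum_congr rfl fun i _ => hc_Dq i (hq i),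
      Finset.sum_congr rfl fun j _ => hc_tq j (hp j)] at h2
    rw [eq_neg_of_add_eq_zero_left h2, ← Finset.sum_neg_distrib]
    refine InJ.sum _ fun j _ => ?_
    have : -(C (F j) * homogeneousComponent (k + 2) (p j)) =
        (-homogeneousComponent (k + 2) (p j)) * C (F j) := by ring
    rw [this]
    exact (InJ.of_C (Ideal.subset_span ⟨j, rfl⟩)).mul_left _
  obtain ⟨z, hz1, hz2, hz3⟩ := symbol V hV k _
    (fun i => homogeneousComponent_isHomogeneous (k + 1) (q i)) h1
  have hah : ∀ (i m : σ) , (ai θ F m * z i m).IsHomogeneous (k + 1) := by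
    intro i m
    have h2 : (ai θ F m).IsHomogeneous 1 :=
      IsHomogeneous.sum _ _ _ fun j _ => by
        have := (isHomogeneous_C κ (θ m (F j))).mul (isHomogeneous_X B j)
        rwa [zero_add] at this
    have := h2.mul (hz2 i m)
    rwa [add_comm] at this
  choose μ hμ1 hμ2 using fun i => exists_of_InJ (hz3 i)
    ((homogeneousComponent_isHomogeneous (k + 1) (q i)).sub
      (IsHomogeneous.sum _ _ _ fun m _ => hah i m))
  set q' : σ → MvPolynomial κ B := fun i => q i - ∑ m, Dq θ c F m (z i m) - ∑ j, tq F j (μ i j)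
    with hq'
  have hq'L : ∀ i, LT (k + 1) (q' i) := by
    intro i
    have h2 : q' i = (q i - homogeneousComponent (k + 1) (q i)) -
        ∑ m, (dcoef (θ m) (z i m) + C (c m) * z i m) - ∑ j, pderiv j (μ i j) := by
      have h3 : ∑ m, Dq θ c F m (z i m) = ∑ m, ai θ F m * z i m +
          ∑ m, (dcoef (θ m) (z i m) + C (c m) * z i m) := by
        rw [← Finset.sum_add_distrib]
        refine Finset.sum_congr rfl fun m _ => ?_
        rw [Dq]
        ring
      have h4 : ∑ j, tq F j (μ i j) = ∑ j, C (F j) * μ i j + ∑ j, pderiv j (μ i j) := by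
        rw [← Finset.sum_add_distrib]
        rfl
      simp only [hq']
      rw [h3, h4, ← hμ2 i]
      ring
    rw [h2]
    refine (((hq i).sub_hc).sub (LT.sum _ fun m _ => ?_)).sub (LT.sum _ fun j _ => ?_)
    · have := LT.of_hom (hz2 i m)
      exact (this.dcoef _).add (this.C_mul _)
    · exact (LT.of_hom (hμ1 i j)).pderiv j
  set p' : κ → MvPolynomial κ B := fun j => p j + ∑ i, Dq θ c F i (μ i j) with hp'
  have hp'L : ∀ j, LT (k + 3) (p' j) := by
    intro j
    exact (hp j).add (LT.sum _ fun i _ => Dq_LT i (LT.of_hom (hμ1 i j)))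
  have hrel' : ∑ i, Dq θ c F i (q' i) + ∑ j, tq F j (p' j) = 1 := by
    rw [← hrel]
    simp only [hq', hp', Dq_sub, tq_add, Finset.sum_sub_distrib, Finset.sum_add_distrib]
    rw [anti_Dq hcomm hc z hz1]
    have h2 : ∑ i, Dq θ c F i (∑ j, tq F j (μ i j)) = ∑ j, tq F j (∑ i, Dq θ c F i (μ i j)) := by
      simp only [Dq_sum, tq_sum]
      rw [Finset.sum_comm]
      refine Finset.sum_congr rfl fun j _ => Finset.sum_congr rfl fun i _ => ?_
      rw [Dq_tq]
    rw [h2]
    ring
  obtain ⟨p'', h2, h3⟩ := lower_p hK (k + 2) (by omega) q' p' (fun i => Dq_LT i (hq'L i)) hp'L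
    hrel'
  exact ⟨q', p'', hq'L, h2, h3⟩

theorem coeff_one_of_LT {P : MvPolynomial κ B} (hP : LT 1 P) : P = C (coeff 0 P) := by
  ext γ
  rw [coeff_C]
  split_ifs with h
  · rw [h]
  · apply hP
    rw [Nat.one_le_iff_ne_zero, Ne, Finsupp.degree_eq_zero_iff]
    exact fun h' => h h'.symm

theorem exists_LT (P : MvPolynomial κ B) : ∃ k, LT k P := by
  refine ⟨P.totalDegree + 1, fun γ hγ => ?_⟩
  by_contra h
  have := le_totalDegree (mem_support_iff.2 h)
  have h2 : γ.degree = γ.sum fun _ e => e := rfl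
  omega

/-- **Reduction to simple poles.** -/
theorem reduce (hcomm : ∀ i m u, θ i (θ m u) = θ m (θ i u))
    (hc : ∀ i m, θ i (c m) = θ m (c i)) (hK : KK F) (V : κ → σ → B)
    (hV : ∀ j m, ∑ i, θ i (F j) * V m i - (if j = m then 1 else 0) ∈ JJ F)
    (q : σ → MvPolynomial κ B) (p : κ → MvPolynomial κ B)
    (h : ∑ i, Dq θ c F i (q i) + ∑ j, tq F j (p j) = 1) :
    ∃ q0 : σ → B, (∀ j, ∑ i, θ i (F j) * q0 i ∈ JJ fun p : κ × κ => F p.1 * F p.2) ∧
      ∑ i, (θ i (q0 i) + c i * q0 i) - 1 ∈ JJ F := by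
  classical
  obtain ⟨k, hk1, hk2⟩ : ∃ k, (∀ i, LT (k + 1) (q i)) ∧ ∀ j, LT (k + 2) (p j) := by
    choose k1 hk1 using fun i => exists_LT (q i)
    choose k2 hk2 using fun j => exists_LT (p j)
    refine ⟨∑ i, k1 i + ∑ j, k2 j, fun i => (hk1 i).mono ?_, fun j => (hk2 j).mono ?_⟩
    · have := Finset.single_le_sum (f := k1) (fun _ _ => Nat.zero_le _) (Finset.mem_univ i)
      omega
    · have := Finset.single_le_sum (f := k2) (fun _ _ => Nat.zero_le _) (Finset.mem_univ j)
      omega
  have h1 : SS1 θ c F k := ⟨q, p, hk1, hk2, h⟩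
  have h2 : SS1 θ c F 0 := by
    clear hk1 hk2 h
    induction k with
    | zero => exact h1
    | succ k ih => exact ih (SS1_step hcomm hc hK V hV k h1)
  obtain ⟨q, p, hq, hp, hrel⟩ := h2
  -- the constant terms
  set u : σ → B := fun i => coeff 0 (q i) with hu
  have hqu : ∀ i, q i = C (u i) := fun i => coeff_one_of_LT (hq i)
  set ρ : κ → κ → B := fun j m => coeff (Finsupp.single m 1) (p j) with hρ
  -- degree one
  have h3 : ∀ m, ∑ i, θ i (F m) * u i + ∑ j, F j * ρ j m = 0 := by
    intro m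
    have h4 := congrArg (coeff (Finsupp.single m 1)) hrel
    rw [coeff_add, coeff_sum, coeff_sum, LT.one _ (by rw [Finsupp.degree_single])] at h4
    rw [← h4]
    congr 1
    · refine Finset.sum_congr rfl fun i _ => ?_
      have h5 : coeff (Finsupp.single m 1) (dcoef (θ i) (C (u i)) + C (c i) * C (u i) :
          MvPolynomial κ B) = 0 := by
        rw [dcoef_C', ← C_mul, ← C_add, coeff_C, if_neg]
        intro h
        have := DFunLike.congr_fun h m
        simp at this
      rw [hqu, Dq, coeff_add, h5, zero_add, ai, Finset.sum_mul, coeff_sum,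
        Finset.sum_eq_single m]
      · have h6 : (C (θ i (F m)) * X m * C (u i) : MvPolynomial κ B) =
            C (θ i (F m) * u i) * X m := by
          rw [C_mul]
          ring
        rw [h6, coeff_C_mul, coeff_X, if_pos rfl, mul_one]
      · intro j _ hj
        have h6 : (C (θ i (F j)) * X j * C (u i) : MvPolynomial κ B) =
            C (θ i (F j) * u i) * X j := by
          rw [C_mul]
          ring
        rw [h6, coeff_C_mul, coeff_X, if_neg, mul_zero]
        intro h
        exact hj (Finsupp.single_left_injective one_ne_zero h)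
      · intro h
        exact absurd (Finset.mem_univ m) h
    · refine Finset.sum_congr rfl fun j _ => ?_
      rw [tq, coeff_add, coeff_C_mul, (hp j).pderiv j (Finsupp.single m 1)
        (by rw [Finsupp.degree_single]), add_zero]
  -- degree zero
  have h4 : ∑ i, (θ i (u i) + c i * u i) + ∑ j, (F j * coeff 0 (p j) + ρ j j) = 1 := by
    have h5 := congrArg (coeff 0) hrel
    rw [coeff_add, coeff_sum, coeff_sum, coeff_one, if_pos rfl] at h5
    rw [← h5]
    congr 1
    · refine Finset.sum_congr rfl fun i _ => ?_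
      have h6 : coeff 0 (ai θ F i * C (u i)) = 0 := by
        rw [ai, Finset.sum_mul, coeff_sum]
        refine Finset.sum_eq_zero fun j _ => ?_
        have h6 : (C (θ i (F j)) * X j * C (u i) : MvPolynomial κ B) =
            C (θ i (F j) * u i) * X j := by
          rw [C_mul]
          ring
        rw [h6, coeff_C_mul, coeff_zero_X, mul_zero]
      rw [hqu, Dq, coeff_add, h6, add_zero, dcoef_C', ← C_mul, ← C_add, coeff_C, if_pos rfl]
    · refine Finset.sum_congr rfl fun j _ => ?_
      rw [tq, coeff_add, coeff_C_mul, coeff_pderiv, zero_add, Finsupp.coe_zero, Pi.zero_apply,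
        Nat.cast_zero, zero_add, mul_one]
  -- the correction
  set μ : σ → κ → B := fun i j => -∑ m, ρ j m * V m i with hμ
  set q0 : σ → B := fun i => u i - ∑ j, F j * μ i j with hq0
  have hFJ : ∀ j (a : B), F j * a ∈ JJ F := fun j a =>
    Ideal.mul_mem_right _ _ (Ideal.subset_span ⟨j, rfl⟩)
  refine ⟨q0, fun m => ?_, ?_⟩
  · have h5 : ∑ i, θ i (F m) * q0 i = ∑ j, F j * ∑ k, ρ j k *
        (∑ i, θ i (F m) * V k i - (if m = k then 1 else 0)) := by
      have h6 : ∑ i, θ i (F m) * q0 i = ∑ i, θ i (F m) * u i -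
          ∑ j, F j * ∑ i, θ i (F m) * μ i j := by
        simp only [hq0, mul_sub, Finset.sum_sub_distrib, Finset.mul_sum]
        congr 1
        rw [Finset.sum_comm]
        refine Finset.sum_congr rfl fun j _ => Finset.sum_congr rfl fun i _ => ?_
        ring
      rw [h6, eq_neg_of_add_eq_zero_left (h3 m), ← Finset.sum_neg_distrib,
        ← Finset.sum_sub_distrib]
      refine Finset.sum_congr rfl fun j _ => ?_
      simp only [hμ, mul_sub, Finset.sum_sub_distrib, mul_ite, mul_one, mul_zero,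
        Finset.sum_ite_eq, Finset.mem_univ, if_true]
      have h8 : ∑ i, θ i (F m) * -∑ k, ρ j k * V k i =
          -∑ k, ρ j k * ∑ i, θ i (F m) * V k i := by
        simp only [mul_neg, Finset.sum_neg_distrib, Finset.mul_sum]
        rw [Finset.sum_comm]
        congr 1
        refine Finset.sum_congr rfl fun k _ => Finset.sum_congr rfl fun i _ => ?_
        ring
      rw [h8]
      ring
    have h9 : ∀ (j : κ) (x : B), x ∈ JJ F → F j * x ∈ JJ fun p : κ × κ => F p.1 * F p.2 := by
      intro j x hx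
      obtain ⟨b, rfl⟩ := (Submodule.mem_span_range_iff_exists_fun B).1 hx
      rw [Finset.mul_sum]
      refine Ideal.sum_mem _ fun k _ => ?_
      have h10 : F j * b k • F k = b k * (F j * F k) := by
        rw [smul_eq_mul]
        ring
      rw [h10]
      exact Ideal.mul_mem_left _ _ (Ideal.subset_span ⟨(j, k), rfl⟩)
    rw [h5]
    exact Ideal.sum_mem _ fun j _ => h9 j _ (Ideal.sum_mem _ fun k _ =>
      Ideal.mul_mem_left _ _ (hV m k))
  · have h5 : ∑ i, (θ i (q0 i) + c i * q0 i) = ∑ i, (θ i (u i) + c i * u i) -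
        ∑ i, ∑ j, (θ i (F j) * μ i j + F j * (θ i (μ i j) + c i * μ i j)) := by
      rw [← Finset.sum_sub_distrib]
      refine Finset.sum_congr rfl fun i _ => ?_
      simp only [hq0, map_sub, map_sum, Derivation.leibniz, smul_eq_mul, mul_sub, Finset.mul_sum]
      have h6 : ∑ j, (θ i (F j) * μ i j + F j * (θ i (μ i j) + c i * μ i j)) =
          ∑ j, (F j * θ i (μ i j) + μ i j * θ i (F j)) + ∑ j, c i * (F j * μ i j) := by
        rw [← Finset.sum_add_distrib]
        refine Finset.sum_congr rfl fun j _ => ?_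
        ring
      rw [h6]
      ring
    have h6 : ∑ i, ∑ j, (θ i (F j) * μ i j + F j * (θ i (μ i j) + c i * μ i j)) =
        ∑ j, ∑ i, θ i (F j) * μ i j + ∑ i, ∑ j, F j * (θ i (μ i j) + c i * μ i j) := by
      simp only [Finset.sum_add_distrib]
      congr 1
      rw [Finset.sum_comm]
    have h7 : ∀ j, ∑ i, θ i (F j) * μ i j + ρ j j =
        -∑ m, ρ j m * (∑ i, θ i (F j) * V m i - (if j = m then 1 else 0)) := by
      intro j
      simp only [hμ, mul_sub, Finset.sum_sub_distrib, mul_ite, mul_one, mul_zero,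
        Finset.sum_ite_eq, Finset.mem_univ, if_true]
      have h8 : ∑ i, θ i (F j) * -∑ m, ρ j m * V m i =
          -∑ m, ρ j m * ∑ i, θ i (F j) * V m i := by
        simp only [mul_neg, Finset.sum_neg_distrib, Finset.mul_sum]
        rw [Finset.sum_comm]
        congr 1
        refine Finset.sum_congr rfl fun m _ => Finset.sum_congr rfl fun i _ => ?_
        ring
      rw [h8]
      ring
    have h8 : ∑ i, (θ i (q0 i) + c i * q0 i) - 1 =
        -∑ j, (F j * coeff 0 (p j)) + ∑ j, ∑ m, ρ j m * (∑ i, θ i (F j) * V m i -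
          (if j = m then 1 else 0)) - ∑ i, ∑ j, F j * (θ i (μ i j) + c i * μ i j) := by
      have h9 : ∑ j, ∑ m, ρ j m * (∑ i, θ i (F j) * V m i - (if j = m then 1 else 0)) =
          -∑ j, (∑ i, θ i (F j) * μ i j + ρ j j) := by
        rw [← Finset.sum_neg_distrib]
        refine Finset.sum_congr rfl fun j _ => ?_
        rw [h7 j, neg_neg]
      rw [h5, h6, h9, ← h4]
      simp only [Finset.sum_add_distrib]
      ring
    rw [h8]
    refine Ideal.sub_mem _ (Ideal.add_mem _ (neg_mem (Ideal.sum_mem _ fun j _ => hFJ j _))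
      (Ideal.sum_mem _ fun j _ => Ideal.sum_mem _ fun m _ => Ideal.mul_mem_left _ _ (hV j m)))
      (Ideal.sum_mem _ fun i _ => Ideal.sum_mem _ fun j _ => hFJ j _)

end red

end Pool.Agent.H35.CI
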