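import Pool.Agent.H35.CI.EX
import Pool.Agent.H35.CI.FE2
import Pool.Graph.R_seed8.Y229.SP4

set_option autoImplicit false
set_option linter.unusedSectionVars false
set_option linter.unusedVariables false

/-! # The roots of the local Bernstein-Sato polynomial -/

namespace Pool.Agent.H35.CI

open MvPolynomial Pool.Agent.W574.SM
open Pool.Agent.W574.LM (IsLocEq)

section root

variable {n r : ℕ}

/-- extension by zero -/
noncomputable def ext0 (f : Fin r → MvPolynomial (Fin n) ℂ) (k : ℕ) : MvPolynomial (Fin n) ℂ :=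
  if h : k < r then f ⟨k, h⟩ else 0

theorem ext0_eq (f : Fin r → MvPolynomial (Fin n) ℂ) (k : ℕ) (h : k < r) :
    ext0 f k = f ⟨k, h⟩ := dif_pos h

/-- **The roots.** -/
theorem root_ci (f : Fin r → MvPolynomial (Fin n) ℂ) (d : Fin r → ℕ)
    (hf : ∀ j, (f j).IsHomogeneous (d j)) (hd : ∀ j, 2 ≤ d j) (hmono : Monotone d) (o : Fin r)
    (ho : (o : ℕ) + 1 ≤ n)
    (hJ : ∀ k ≤ (o : ℕ) + 1, Jac fun j : Fin k => ext0 f j) (α : ℂ)
    (hα : α * d o = -((d o : ℂ) * (o : ℕ) + n - ∑ j ∈ Finset.Iio o, (d j : ℂ)))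
    (H : MvPolynomial (Fin n) ℂ) (b : Polynomial ℂ) (hb : IsLocEq H f b)
    (hH : constantCoeff H ≠ 0) : b.eval α = 0 := by
  classical
  by_contra hbα
  set c : ℕ := (o : ℕ) with hc
  have hcr : c < r := o.2
  let e : Fin c → Fin r := fun k => ⟨k, by omega⟩
  have he : Function.Injective e := fun a b h => Fin.ext (by simpa [e] using h)
  have heo : ∀ k, e k ≠ o := fun k h => by
    have : (k : ℕ) = c := congrArg Fin.val h
    omega
  set A : Finset (Fin r) := Finset.univ.image e with hA
  set B : Finset (Fin r) := Finset.Ioi o with hB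
  have hAio : A = Finset.Iio o := by
    ext j
    rw [hA, Finset.mem_image, Finset.mem_Iio]
    constructor
    · rintro ⟨k, -, rfl⟩
      exact k.2
    · intro hj
      exact ⟨⟨j, hj⟩, Finset.mem_univ _, rfl⟩
  have hdo : (d o : ℂ) ≠ 0 := by
    have := hd o
    exact Nat.cast_ne_zero.2 (by omega)
  have hAcard : A.card = c := by rw [hAio, Fin.card_Iio]
  have hZ : ZZ f d A B 1 := by
    refine one_mem hf o ?_ ?_ ?_ ?_ (by have := hd o; omega) ?_ ?_ α ?_ H b hb hH hbα
    · ext j
      simp only [Finset.mem_insert, Finset.mem_union, Finset.mem_univ, iff_true, hAio, hB,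
        Finset.mem_Iio, Finset.mem_Ioi]
      rcases lt_trichotomy j o with h | h | h
      · exact Or.inr (Or.inl h)
      · exact Or.inl h
      · exact Or.inr (Or.inr h)
    · rw [hAio, Finset.mem_Iio]
      exact lt_irrefl o
    · rw [hB, Finset.mem_Ioi]
      exact lt_irrefl o
    · rw [Finset.disjoint_left, hAio]
      intro j h1 h2
      rw [Finset.mem_Iio] at h1
      rw [hB, Finset.mem_Ioi] at h2
      exact lt_asymm h1 h2
    · intro j hj
      rw [hAio, Finset.mem_Iio] at hj
      exact hmono hj.le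
    · intro j hj
      rw [hB, Finset.mem_Ioi] at hj
      exact hmono hj.le
    · rw [hα, hAcard, hAio, Fintype.card_fin]
  -- the vector field
  set s : ℂ := α + c with hs
  have hsum : ∑ j ∈ Finset.Iio o, (d j : ℂ) = ∑ k : Fin c, (d (e k) : ℂ) := by
    rw [← hAio, hA, Finset.sum_image fun a _ b _ h => he h]
  have hfe : ∀ k : Fin c, f (e k) = ext0 f k := fun k => (ext0_eq f k (by omega)).symm
  have hfo : f o = ext0 f c := (ext0_eq f c hcr).symm
  have hev : ∀ j < c + 1, eval 0 (ext0 f j) = 0 := by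
    intro j hj
    rw [ext0_eq f j (by omega)]
    exact eval_hom_zero (hf _) (by have := hd ⟨j, by omega⟩; omega)
  set dN : ℕ → ℕ := fun k => if h : k < r then d ⟨k, h⟩ else 0 with hdN
  have hfN : ∀ j < c + 1, (ext0 f j).IsHomogeneous (dN j) := by
    intro j hj
    rw [ext0_eq f j (by omega), hdN]
    simp only
    rw [dif_pos (by omega)]
    exact hf _
  have hdNpos : ∀ j < c + 1, 0 < dN j := by
    intro j hj
    rw [hdN]
    simp only
    rw [dif_pos (by omega)]
    have := hd ⟨j, by omega⟩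
    omega
  have hdNc : dN c = d o := by
    rw [hdN]
    simp only
    rw [dif_pos hcr]
  have hNZ := nz_all (ext0 f) (c + 1) ho hev hJ
  have hJJ : (JJ fun k : Fin c => f (e k)) = JJ fun k : Fin c => ext0 f k := by
    congr 1
    funext k
    exact hfe k
  have hJJ2 : (JJ fun k : Fin c × Fin c => f (e k.1) * f (e k.2)) =
      JJ fun k : Fin c × Fin c => ext0 f k.1 * ext0 f k.2 := by
    congr 1
    funext k
    rw [hfe, hfe]
  have hK : KK fun k : Fin c => f (e k) := by
    have h1 := kk_prefix (ext0 f) c fun k hk => hNZ k (by omega)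
    have h2 : (fun k : Fin c => f (e k)) = fun k : Fin c => ext0 f k := funext hfe
    rw [h2]
    exact h1
  obtain ⟨M, u, V, hu, hV⟩ := exists_u (ext0 f) c (hJ c (by omega)) (ext0 f c) (hev c (by omega))
  have hs' : s * d o = -((Fintype.card (Fin n) : ℂ) - ∑ k : Fin c, (d (e k) : ℂ)) := by
    rw [hs, add_mul, hα, hsum, Fintype.card_fin]
    ring
  have hfo0 : f o ≠ 0 := by
    intro h0
    have h1 := hNZ c (by omega) 1 (by rw [← hfo, h0, zero_mul]; exact Ideal.zero_mem _)
    have h2 := JJ_le_ker (ext0 f) c dN hfN hdNpos h1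
    rw [RingHom.mem_ker, map_one] at h2
    exact one_ne_zero h2
  obtain ⟨N, Q, hQ1, hQ2⟩ := exists_vf f d e he o heo B (by
      intro j hj
      rw [hB, Finset.mem_Ioi] at hj
      refine ⟨hj.ne', fun k hk => ?_⟩
      have h1 : (k : ℕ) = j := congrArg Fin.val hk
      have h2 : (o : ℕ) < j := hj
      omega) (by
      intro j
      rcases lt_trichotomy j o with h | h | h
      · exact Or.inr (Or.inl ⟨⟨j, h⟩, rfl⟩)
      · exact Or.inl h
      · exact Or.inr (Or.inr (Finset.mem_Ioi.2 h))) s hs' hfo0 hK M V (by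
      intro j m
      rw [hJJ]
      have h1 := hV j m
      simp only [gr] at h1
      rw [hfe, h1]
      split_ifs
      · rw [hfo]; exact hu
      · rw [sub_zero]; exact Ideal.zero_mem _) hZ
  obtain ⟨Vs, hVs⟩ := dual_Lg (ext0 f) V hV
  obtain ⟨K, Ξ, hΞ, hrel⟩ := exists_Rel (ext0 f) c ho s u M hu Vs hVs N Q (by
      intro j
      rw [← hJJ2]
      have := hQ1 j
      rwa [hfe] at this) (by
      rw [hJJ, hfo] at hQ2
      exact hQ2)
  refine contra (ext0 f) c dN ho hfN hdNpos hJ s ?_ (by rw [hdNc]; exact hd o) K Ξ hΞ hrel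
  rw [hdNc, hs', Fintype.card_fin]
  congr 2
  rw [← Fin.sum_univ_eq_sum_range (fun j => (dN j : ℂ))]
  refine Finset.sum_congr rfl fun k _ => ?_
  rw [hdN]
  simp only
  rw [dif_pos (show (k : ℕ) < r by omega)]

end root

end Pool.Agent.H35.CI
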