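import Pool.Agent.H35.CI.Fm

set_option autoImplicit false
set_option linter.unusedSectionVars false
set_option linter.unusedVariables false

/-! # Saito's division lemma -/

namespace Pool.Agent.H35.CI

section saito

variable {S : Type} [CommRing S] {n : ℕ}

/-- nonzerodivisor modulo `I` -/
def NZ (I : Ideal S) (a : S) : Prop := ∀ h, a * h ∈ I → h ∈ I

/-- weakly regular sequences modulo `I` -/
def Wreg : Ideal S → List S → Prop
  | _, [] => True
  | I, a :: l => NZ I a ∧ Wreg (I ⊔ Ideal.span {a}) l

/-- property (a) -/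
def Good (L : List (Fin n → S)) (I : Ideal S) (a : S) : Prop :=
  ∀ I', I ≤ I' → ∀ φ : Fm S n, InI I' (Pr L φ) → InB I' L (a • φ)

/-- property (a) for all tails -/
def GoodA (L : List (Fin n → S)) (I : Ideal S) (a : S) : Prop := ∀ L', L' <:+ L → Good L' I a

theorem Good.mono {L : List (Fin n → S)} {I J : Ideal S} {a : S} (h : Good L I a)
    (hIJ : I ≤ J) : Good L J a := fun I' hI' => h I' (hIJ.trans hI')

theorem GoodA.mono {L : List (Fin n → S)} {I J : Ideal S} {a : S} (h : GoodA L I a)
    (hIJ : I ≤ J) : GoodA L J a := fun L' hL' => (h L' hL').mono hIJ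

theorem GoodA.suffix {L L' : List (Fin n → S)} {I : Ideal S} {a : S} (h : GoodA L I a)
    (hL : L' <:+ L) : GoodA L' I a := fun L'' hL'' => h L'' (hL''.trans hL)

theorem GoodA.add {L : List (Fin n → S)} {I : Ideal S} {a b : S} (ha : GoodA L I a)
    (hb : GoodA L I b) : GoodA L I (a + b) := fun L' hL' I' hI' φ hφ => by
  rw [add_smul]
  exact (ha L' hL' I' hI' φ hφ).add (hb L' hL' I' hI' φ hφ)

theorem GoodA.smul {L : List (Fin n → S)} {I : Ideal S} {a : S} (ha : GoodA L I a)
    (c : S) : GoodA L I (c * a) := fun L' hL' I' hI' φ hφ => by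
  rw [mul_smul]
  exact (ha L' hL' I' hI' φ hφ).smul c

theorem GoodA.of_mem {L : List (Fin n → S)} {I : Ideal S} {a : S} (ha : a ∈ I) :
    GoodA L I a := fun L' hL' I' hI' φ hφ => InB_of_InI _ (InI.of_mem (hI' ha) φ)

theorem GoodA.of_span {L : List (Fin n → S)} {I : Ideal S} {s : Set S}
    (hs : ∀ a ∈ s, GoodA L I a) {x : S} (hx : x ∈ Ideal.span s ⊔ I) : GoodA L I x := by
  obtain ⟨y, hy, z, hz, rfl⟩ := Submodule.mem_sup.1 hx
  refine GoodA.add ?_ (GoodA.of_mem hz)
  clear hx hz z
  induction hy using Submodule.span_induction with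
  | mem x hx => exact hs x hx
  | zero => exact GoodA.of_mem I.zero_mem
  | add x y _ _ hx hy => exact hx.add hy
  | smul c x _ hx => exact hx.smul c

/-- **Saito's lemma.** -/
theorem saito : ∀ (q : ℕ) (L : List (Fin n → S)) (I : Ideal S) (rs : List S),
    rs.length = q + 1 → Wreg I rs → (∀ a ∈ rs, GoodA L I a) → ∀ φ : Fm S n, Dg q φ →
      InI I (Pr L φ) → InB I L φ := by
  intro q
  induction q with
  | zero =>
    intro L I rs hrs hreg hgood φ hφ hP
    obtain ⟨a, rs', rfl⟩ := List.exists_cons_of_length_eq_add_one hrs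
    obtain ⟨ha, hreg'⟩ := hreg
    have h1 := hgood a (by simp) L (List.suffix_refl L) I le_rfl φ hP
    have h2 := h1.proj_zero (hφ.smul a)
    exact InB_of_InI L fun T => ha _ (h2 T)
  | succ q ih =>
    intro L I rs hrs hreg hgood φ hφ hP
    obtain ⟨a, rs', rfl⟩ := List.exists_cons_of_length_eq_add_one hrs
    obtain ⟨ha, hreg'⟩ := hreg
    have h1 := hgood a (by simp) L (List.suffix_refl L) I le_rfl φ hP
    -- the inner induction
    have key : ∀ L' : List (Fin n → S), L' <:+ L → ∀ φ' : Fm S n, Dg (q + 1) φ' →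
        InB I L (φ - φ') → InB I L' (a • φ') → InB I L φ := by
      intro L'
      induction L' with
      | nil =>
        intro _ φ' hφ' h2 h3
        have h4 : InI I φ' := fun T => ha _ (h3 T)
        have h5 : φ = (φ - φ') + φ' := by abel
        rw [h5]
        exact h2.add (InB_of_InI L h4)
      | cons v L' ihL =>
        intro hL φ' hφ' h2 h3
        have hL' : L' <:+ L := (List.suffix_cons v L').trans hL
        obtain ⟨η, hη, h4⟩ := h3.proj_succ (hφ'.smul a)
        -- `Pr L' (ww v η)` lies in `I + (a)`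
        have h5 : InI (I ⊔ Ideal.span {a}) (Pr (v :: L') η) := by
          have h6 := h4.Pr_mem
          rw [map_sub, map_smul] at h6
          have h7 : InI (I ⊔ Ideal.span {a}) (Pr L' (ww v η)) := by
            have h8 : Pr L' (ww v η) = a • Pr L' φ' - (a • Pr L' φ' - Pr L' (ww v η)) := by abel
            rw [h8]
            exact (InI.of_mem (Ideal.mem_sup_right (Ideal.mem_span_singleton_self a)) _).sub
              (h6.mono le_sup_left)
          rw [Pr_ww] at h7
          have h8 := h7.smul ((-1) ^ L'.length)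
          rwa [smul_smul, ← mul_pow, neg_mul_neg, one_mul, one_pow, one_smul] at h8
        have h6 : InB (I ⊔ Ideal.span {a}) (v :: L') η :=
          ih (v :: L') (I ⊔ Ideal.span {a}) rs' (by simpa using hrs) hreg'
            (fun b hb => ((hgood b (List.mem_cons_of_mem _ hb)).suffix hL).mono le_sup_left) η hη h5
        obtain ⟨ζ, hζ⟩ := h6.split
        -- project
        have hζ' := hζ.proj q
        rw [pr_sub, pr_smul, pr_of_Dg hη] at hζ'
        set ζ' := pr q ζ with hζdef
        have h7 := InB_head hζ'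
        rw [map_sub, map_smul] at h7
        refine ihL hL' (φ' - ww v ζ') (hφ'.sub ((Dg_pr q ζ).ww v)) ?_ ?_
        · have h8 : φ - (φ' - ww v ζ') = (φ - φ') + ww v ζ' := by abel
          rw [h8]
          exact h2.add (InB_ww_mem v (hL.subset List.mem_cons_self) ζ')
        · have h8 : a • (φ' - ww v ζ') = (a • φ' - ww v η) + (ww v η - a • ww v ζ') := by
            rw [smul_sub]
            abel
          rw [h8]
          exact h4.add h7
    exact key L (List.suffix_refl L) φ hφ (by rw [sub_self]; exact InB_of_InI L (InI.zero I)) h1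

/-- dual vectors -/
def Dual (u : S) : List (Fin n → S) → List (Fin n → S) → Prop
  | [], [] => True
  | v :: L, V :: Vs => (∑ i, v i * V i = u) ∧ (∀ v' ∈ L, ∑ i, v' i * V i = 0) ∧ Dual u L Vs
  | _, _ => False

/-- contraction with all the dual vectors -/
def Kr : List (Fin n → S) → Fm S n → Fm S n
  | [], φ => φ
  | V :: Vs, φ => Kr Vs (kk V φ)

theorem Pr_kk (L : List (Fin n → S)) (V : Fin n → S) (hV : ∀ v ∈ L, ∑ i, v i * V i = 0)
    (φ : Fm S n) : Pr L (kk V φ) = (-1 : S) ^ L.length • kk V (Pr L φ) := by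
  induction L with
  | nil => rw [Pr_nil, Pr_nil, List.length_nil, pow_zero, one_smul]
  | cons v L ih =>
    have h1 := kk_ww_apply v V (Pr L φ)
    rw [hV v (by simp), zero_smul] at h1
    rw [Pr_cons, Pr_cons, ih (fun v' hv' => hV v' (List.mem_cons_of_mem _ hv')), map_smul,
      eq_neg_of_add_eq_zero_left h1, List.length_cons, pow_succ, mul_smul, neg_smul, one_smul]

/-- property (a) from dual vectors -/
theorem good_of_dual (u : S) : ∀ (L Vs : List (Fin n → S)), Dual u L Vs →
    ∀ (I : Ideal S) (φ : Fm S n), InI I (Pr L φ) → InB I L (u ^ L.length • φ) := by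
  intro L
  induction L with
  | nil =>
    intro Vs _ I φ h
    rw [List.length_nil, pow_zero, one_smul]
    exact h
  | cons v L ih =>
    intro Vs hD I φ h
    rcases Vs with _ | ⟨V, Vs⟩
    · exact absurd hD (by simp [Dual])
    · obtain ⟨h1, h2, h3⟩ := hD
      have h4 := kk_ww_apply v V φ
      rw [h1] at h4
      have h5 : InI I (Pr L (kk V (ww v φ))) := by
        rw [Pr_kk L V h2, Pr_ww, map_smul]
        exact ((h.kk V).smul _).smul _
      have h6 := ih Vs h3 I _ h5
      have h7 : u ^ (v :: L).length • φ = u ^ L.length • kk V (ww v φ) +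
          u ^ L.length • ww v (kk V φ) := by
        rw [List.length_cons, pow_succ, mul_smul, ← h4, smul_add, add_comm]
      rw [h7]
      refine (InB_cons v h6).add ?_
      rw [← map_smul]
      exact InB_ww_mem v (by simp) _

theorem Dual.suffix {u : S} {L Vs L' : List (Fin n → S)} (h : Dual u L Vs) (hL : L' <:+ L) :
    ∃ Vs', Dual u L' Vs' := by
  obtain ⟨t, rfl⟩ := hL
  induction t generalizing Vs with
  | nil => exact ⟨Vs, h⟩
  | cons v t ih =>
    rcases Vs with _ | ⟨V, Vs⟩
    · exact absurd h (by simp [Dual])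
    · exact ih h.2.2

theorem goodA_of_dual {u : S} {L Vs : List (Fin n → S)} (h : Dual u L Vs) (I : Ideal S) :
    GoodA L I (u ^ L.length) := by
  intro L' hL' I' _ φ hφ
  obtain ⟨Vs', hVs'⟩ := h.suffix hL'
  obtain ⟨M, hM⟩ := Nat.exists_eq_add_of_le hL'.length_le
  rw [hM, pow_add, mul_comm, mul_smul]
  exact (good_of_dual u L' Vs' hVs' I' φ hφ).smul _

/-- reconstruction from contractions, modulo an ideal -/
theorem Pr_Kr (u : S) : ∀ (L Vs : List (Fin n → S)), Dual u L Vs →
    ∀ (I : Ideal S) (φ : Fm S n), (∀ v ∈ L, InI I (ww v φ)) →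
      InI I (Pr L (Kr Vs φ) - u ^ L.length • φ) := by
  intro L
  induction L with
  | nil =>
    intro Vs hD I φ _
    rcases Vs with _ | ⟨V, Vs⟩
    · rw [Pr_nil, Kr, List.length_nil, pow_zero, one_smul, sub_self]
      exact InI.zero I
    · exact absurd hD (by simp [Dual])
  | cons v L ih =>
    intro Vs hD I φ h
    rcases Vs with _ | ⟨V, Vs⟩
    · exact absurd hD (by simp [Dual])
    · obtain ⟨h1, h2, h3⟩ := hD
      have h4 : ∀ v' ∈ L, InI I (ww v' (kk V φ)) := by
        intro v' hv'
        have h5 := kk_ww_apply v' V φ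
        rw [h2 v' hv', zero_smul] at h5
        rw [eq_neg_of_add_eq_zero_left h5]
        exact ((h v' (List.mem_cons_of_mem _ hv')).kk V).neg
      have h5 := (ih Vs h3 I _ h4).ww v
      have h6 := kk_ww_apply v V φ
      rw [h1] at h6
      have h7 : Pr (v :: L) (Kr (V :: Vs) φ) - u ^ (v :: L).length • φ =
          ww v (Pr L (Kr Vs (kk V φ)) - u ^ L.length • kk V φ) -
            u ^ L.length • kk V (ww v φ) := by
        rw [Pr_cons, Kr, List.length_cons, pow_succ, mul_smul, ← h6, map_sub, map_smul, smul_add]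
        abel
      rw [h7]
      exact h5.sub (((h v (by simp)).kk V).smul _)

theorem Dg_Kr : ∀ (Vs : List (Fin n → S)) (q : ℕ) (φ : Fm S n), Dg (q + Vs.length) φ →
    Dg q (Kr Vs φ) := by
  intro Vs
  induction Vs with
  | nil => exact fun q φ h => h
  | cons V Vs ih =>
    intro q φ h
    refine ih q _ (Dg.kk ?_ V)
    rw [List.length_cons, ← add_assoc] at h
    exact h

theorem Dual.length {u : S} : ∀ {L Vs : List (Fin n → S)}, Dual u L Vs →
    L.length = Vs.length := by
  intro L
  induction L with
  | nil =>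
    intro Vs h
    rcases Vs with _ | ⟨V, Vs⟩
    · rfl
    · exact absurd h (by simp [Dual])
  | cons v L ih =>
    intro Vs h
    rcases Vs with _ | ⟨V, Vs⟩
    · exact absurd h (by simp [Dual])
    · rw [List.length_cons, List.length_cons, ih h.2.2]

end saito

end Pool.Agent.H35.CI
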