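import Pool.Agent.H35.CI.VT

set_option autoImplicit false
set_option linter.unusedSectionVars false
set_option linter.unusedVariables false

/-! # Rationality of the series -/

namespace Pool.Agent.H35.CI

open Pool.Agent.W428.MOT Pool.Agent.TH192.MT Pool.Agent.TH192.DT Pool.Agent.Q49.CO

section seq

variable {R : Type} [CommRing R] (u : Rˣ)

theorem fin_mem {D : Set (ℤ × ℤ)} (p : ℕ → R) (N : ℕ) (hp : ∀ e, N ≤ e → p e = 0) :
    PowerSeries.mk p ∈ ratU u D := by
  have h1 : PowerSeries.mk p = ∑ e ∈ Finset.range N, PowerSeries.C (p e) * PowerSeries.X ^ e := by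
    ext e
    rw [PowerSeries.coeff_mk, map_sum]
    simp only [PowerSeries.coeff_C_mul, PowerSeries.coeff_X_pow, mul_ite, mul_one, mul_zero]
    rw [Finset.sum_ite_eq]
    split_ifs with h
    · rfl
    · exact hp e (by simpa using h)
  rw [h1]
  exact Subalgebra.sum_mem _ fun e _ => Subalgebra.mul_mem _ (rat_C u _)
    (Subalgebra.pow_mem _ (rat_X u) _)

/-- the terms `α k < e ≤ β k` -/
def Hf (a x : R) (α β K e : ℕ) : R :=
  ∑ k ∈ Finset.range K, if (k + 1) * α < e ∧ e ≤ (k + 1) * β then a ^ (k + 1) * x ^ e else 0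

/-- the terms `α + β (k - 1) < e ≤ β k` -/
def Jf (a x : R) (α β K e : ℕ) : R :=
  ∑ k ∈ Finset.range K, if k * β + α < e ∧ e ≤ (k + 1) * β then a ^ (k + 1) * x ^ e else 0

/-- the terms `α k < e` -/
def If (a x : R) (α K e : ℕ) : R :=
  ∑ k ∈ Finset.range K, if (k + 1) * α < e then a ^ (k + 1) * x ^ e else 0

theorem stable (t : ℕ → R) (K K' : ℕ) (h : K' ≤ K) (ht : ∀ k, K' ≤ k → t k = 0) :
    ∑ k ∈ Finset.range K, t k = ∑ k ∈ Finset.range K', t k := by
  symm
  refine Finset.sum_subset (Finset.range_subset_range.2 h) fun k _ hk => ht k ?_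
  simpa using hk

theorem Hf_stable (a x : R) (α β K e : ℕ) (hα : 0 < α) (hK : e ≤ K) :
    Hf a x α β K e = Hf a x α β e e := by
  refine stable _ K e hK fun k hk => ?_
  rw [if_neg]
  intro h
  have : (k + 1) * 1 ≤ (k + 1) * α := Nat.mul_le_mul_left _ hα
  omega

theorem Jf_stable (a x : R) (α β K e : ℕ) (hβ : 0 < β) (hK : e ≤ K) :
    Jf a x α β K e = Jf a x α β e e := by
  refine stable _ K e hK fun k hk => ?_
  rw [if_neg]
  intro h
  have : k * 1 ≤ k * β := Nat.mul_le_mul_left _ hβ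
  omega

theorem If_stable (a x : R) (α K e : ℕ) (hα : 0 < α) (hK : e ≤ K) :
    If a x α K e = If a x α e e := by
  refine stable _ K e hK fun k hk => ?_
  rw [if_neg]
  intro h
  have : (k + 1) * 1 ≤ (k + 1) * α := Nat.mul_le_mul_left _ hα
  omega

theorem Hf_rec (a x : R) (α β K e : ℕ) (hαβ : α ≤ β) :
    Hf a x α β (K + 1) (e + α) = Jf a x α β (K + 1) (e + α) + a * x ^ α * Hf a x α β K e := by
  rw [Hf, Jf, Hf, Finset.sum_range_succ', Finset.sum_range_succ', Finset.mul_sum]
  have h0 : (if (0 + 1) * α < e + α ∧ e + α ≤ (0 + 1) * β then a ^ (0 + 1) * x ^ (e + α) else 0) =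
      (if 0 * β + α < e + α ∧ e + α ≤ (0 + 1) * β then a ^ (0 + 1) * x ^ (e + α) else 0) := by
    rw [zero_add, one_mul, zero_mul, zero_add, one_mul]
  have h1 : ∀ k, (if (k + 1 + 1) * α < e + α ∧ e + α ≤ (k + 1 + 1) * β then
      a ^ (k + 1 + 1) * x ^ (e + α) else 0) =
      (if (k + 1) * β + α < e + α ∧ e + α ≤ (k + 1 + 1) * β then
        a ^ (k + 1 + 1) * x ^ (e + α) else 0) +
      a * x ^ α * (if (k + 1) * α < e ∧ e ≤ (k + 1) * β then a ^ (k + 1) * x ^ e else 0) := by
    intro k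
    have e1 : (k + 1 + 1) * α = (k + 1) * α + α := by ring
    have e2 : (k + 1 + 1) * β = (k + 1) * β + β := by ring
    have e3 : (k + 1) * α ≤ (k + 1) * β := Nat.mul_le_mul_left _ hαβ
    rw [e1, e2]
    generalize (k + 1) * α = p at *
    generalize (k + 1) * β = q at *
    by_cases hA : p + α < e + α ∧ e + α ≤ q + β
    · rw [if_pos hA]
      by_cases hB : q + α < e + α
      · rw [if_pos ⟨hB, hA.2⟩, if_neg (by omega), mul_zero, add_zero]
      · rw [if_neg (by omega), if_pos (by omega), zero_add]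
        ring
    · rw [if_neg hA, if_neg (by omega), if_neg (by omega), mul_zero, add_zero]
  rw [Finset.sum_congr rfl fun k _ => h1 k, h0, Finset.sum_add_distrib]
  ring

theorem Jf_rec (a x : R) (α β K e : ℕ) :
    Jf a x α β (K + 1) (e + β) = (if α < e + β ∧ e + β ≤ β then a * x ^ (e + β) else 0) +
      a * x ^ β * Jf a x α β K e := by
  rw [Jf, Jf, Finset.sum_range_succ', Finset.mul_sum, add_comm]
  congr 1
  · rw [zero_add, zero_mul, zero_add, one_mul, pow_one]
  · refine Finset.sum_congr rfl fun k _ => ?_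
    have e1 : (k + 1) * β = k * β + β := by ring
    have e2 : (k + 1 + 1) * β = (k * β + β) + β := by ring
    rw [e1, e2]
    generalize k * β = q at *
    by_cases hA : q + α < e ∧ e ≤ q + β
    · rw [if_pos hA, if_pos (by omega)]
      ring
    · rw [if_neg hA, if_neg (by omega), mul_zero]

theorem If_rec (a x : R) (α K e : ℕ) :
    If a x α (K + 1) (e + α) = (if α < e + α then a * x ^ (e + α) else 0) +
      a * x ^ α * If a x α K e := by
  rw [If, If, Finset.sum_range_succ', Finset.mul_sum, add_comm]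
  congr 1
  · rw [zero_add, one_mul, pow_one]
  · refine Finset.sum_congr rfl fun k _ => ?_
    have e2 : (k + 1 + 1) * α = (k + 1) * α + α := by ring
    rw [e2]
    generalize (k + 1) * α = q at *
    by_cases hA : q < e
    · rw [if_pos hA, if_pos (by omega)]
      ring
    · rw [if_neg hA, if_neg (by omega), mul_zero]

/-- coefficients of `Z' + C c X ^ N Z` -/
theorem mk_rec (p q : ℕ → R) (c : R) (N : ℕ) (h1 : ∀ e, e < N → p e = q e)
    (h2 : ∀ e, p (e + N) = q (e + N) + c * p e) :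
    PowerSeries.mk p = PowerSeries.mk q + PowerSeries.C c * PowerSeries.X ^ N *
      PowerSeries.mk p := by
  ext e
  rw [map_add, mul_assoc, PowerSeries.coeff_C_mul, PowerSeries.coeff_X_pow_mul',
    PowerSeries.coeff_mk, PowerSeries.coeff_mk]
  split_ifs with h
  · obtain ⟨k, rfl⟩ := Nat.exists_eq_add_of_le h
    rw [Nat.add_sub_cancel_left, PowerSeries.coeff_mk, add_comm N k, h2]
  · rw [mul_zero, add_zero, h1 e (by omega)]

/-- **The bounded cones.** -/
theorem Hf_mem {D : Set (ℤ × ℤ)} (a x : R) (α β ν₁ ν₂ : ℕ) (hα : 0 < α) (hαβ : α ≤ β)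
    (h1 : a * x ^ α = ((u⁻¹ : Rˣ) : R) ^ ν₁) (h2 : a * x ^ β = ((u⁻¹ : Rˣ) : R) ^ ν₂)
    (hD1 : (-(ν₁ : ℤ), (α : ℤ)) ∈ D) (hD2 : (-(ν₂ : ℤ), (β : ℤ)) ∈ D) :
    PowerSeries.mk (fun e => Hf a x α β e e) ∈ ratU u D := by
  have hβ : 0 < β := by omega
  have hJ : PowerSeries.mk (fun e => Jf a x α β e e) ∈ ratU u D := by
    refine geo_solve u hβ hD2 _ (PowerSeries.mk fun e => if α < e ∧ e ≤ β then a * x ^ e else 0)
      (fin_mem u _ (β + 1) fun e he => if_neg (by omega)) ?_
    rw [← h2]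
    refine mk_rec _ _ _ _ (fun e he => ?_) fun e => ?_
    · rw [← Jf_stable a x α β (e + 1) e hβ (by omega), Jf, Finset.sum_range_succ',
        Finset.sum_eq_zero, zero_add]
      · rw [zero_add, zero_mul, zero_add, one_mul, pow_one]
      · intro k _
        rw [if_neg]
        have : (k + 1) * β = k * β + β := by ring
        omega
    · rw [← Jf_stable a x α β (e + β + 1) (e + β) hβ (by omega),
        ← Jf_stable a x α β (e + β) e hβ (by omega), Jf_rec]
  refine geo_solve u hα hD1 _ _ hJ ?_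
  rw [← h1]
  refine mk_rec _ _ _ _ (fun e he => ?_) fun e => ?_
  · rw [Hf, Jf]
    refine Finset.sum_congr rfl fun k _ => ?_
    rw [if_neg, if_neg]
    · omega
    · have : (k + 1) * α = k * α + α := by ring
      omega
  · rw [← Hf_stable a x α β (e + α + 1) (e + α) hα (by omega),
      ← Hf_stable a x α β (e + α) e hα (by omega),
      ← Jf_stable a x α β (e + α + 1) (e + α) hβ (by omega), Hf_rec a x α β _ _ hαβ]

/-- **The unbounded cone.** -/
theorem If_mem {D : Set (ℤ × ℤ)} (a x : R) (α ν₁ ν₂ : ℕ) (hα : 0 < α)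
    (h1 : a * x ^ α = ((u⁻¹ : Rˣ) : R) ^ ν₁) (h2 : x = ((u⁻¹ : Rˣ) : R) ^ ν₂)
    (hD1 : (-(ν₁ : ℤ), (α : ℤ)) ∈ D) (hD2 : (-(ν₂ : ℤ), (1 : ℤ)) ∈ D) :
    PowerSeries.mk (fun e => If a x α e e) ∈ ratU u D := by
  have hQ : PowerSeries.mk (fun e => if α < e then a * x ^ e else 0) ∈ ratU u D := by
    refine geo_solve u (N := 1) one_pos hD2 _
      (PowerSeries.mk fun e => if e = α + 1 then a * x ^ e else 0)
      (fin_mem u _ (α + 2) fun e he => if_neg (by omega)) ?_
    rw [← h2]
    refine mk_rec _ _ _ _ (fun e he => ?_) fun e => ?_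
    · rw [if_neg (by omega), if_neg (by omega)]
    · by_cases h : α < e
      · rw [if_pos (by omega), if_neg (by omega), if_pos h, pow_succ]
        ring
      · by_cases h' : e = α
        · rw [if_pos (by omega), if_pos (by omega), if_neg h, mul_zero, add_zero]
        · rw [if_neg (by omega), if_neg (by omega), if_neg h, mul_zero, add_zero]
  refine geo_solve u hα hD1 _ _ hQ ?_
  rw [← h1]
  refine mk_rec _ _ _ _ (fun e he => ?_) fun e => ?_
  · rw [If, if_neg (by omega)]
    refine Finset.sum_eq_zero fun k _ => ?_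
    rw [if_neg]
    have : (k + 1) * α = k * α + α := by ring
    omega
  · rw [← If_stable a x α (e + α + 1) (e + α) hα (by omega),
      ← If_stable a x α (e + α) e hα (by omega), If_rec]

/-- the terms without conditions -/
def Bf (w : R) (δ K e : ℕ) : R :=
  w ^ (K + 1) + ∑ k ∈ Finset.range K, if e ≤ (k + 1) * δ then w ^ (k + 1) * (1 - w) else 0

theorem Bf_succ (w : R) (δ K e : ℕ) (h : e ≤ (K + 1) * δ) : Bf w δ (K + 1) e = Bf w δ K e := by
  rw [Bf, Bf, Finset.sum_range_succ, if_pos h, pow_succ w (K + 1)]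
  ring

theorem Bf_stable (w : R) (δ K e : ℕ) (hδ : 0 < δ) (hK : e ≤ K) : Bf w δ K e = Bf w δ e e := by
  obtain ⟨k, rfl⟩ := Nat.exists_eq_add_of_le hK
  clear hK
  induction k with
  | zero => rfl
  | succ k ih =>
    rw [← add_assoc, Bf_succ, ih]
    have : (e + k + 1) * 1 ≤ (e + k + 1) * δ := Nat.mul_le_mul_left _ hδ
    omega

theorem Bf_small (w : R) (δ K e : ℕ) (h : e ≤ δ) : Bf w δ K e = w := by
  induction K with
  | zero => rw [Bf, Finset.sum_range_zero, add_zero, zero_add, pow_one]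
  | succ K ih =>
    rw [Bf_succ, ih]
    have : 1 * δ ≤ (K + 1) * δ := Nat.mul_le_mul_right _ (by omega)
    omega

theorem Bf_rec (w : R) (δ K e : ℕ) (he : 0 < e) : Bf w δ (K + 1) (e + δ) = w * Bf w δ K e := by
  rw [Bf, Bf, Finset.sum_range_succ', if_neg (by omega), add_zero, mul_add, Finset.mul_sum,
    pow_succ w (K + 1), mul_comm _ w]
  congr 1
  refine Finset.sum_congr rfl fun k _ => ?_
  have e2 : (k + 1 + 1) * δ = (k + 1) * δ + δ := by ring
  rw [e2]
  by_cases hA : e ≤ (k + 1) * δ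
  · rw [if_pos hA, if_pos (by omega)]
    ring
  · rw [if_neg hA, if_neg (by omega), mul_zero]

theorem Bf_mem {D : Set (ℤ × ℤ)} (δ n : ℕ) (hδ : 0 < δ) (hD : (-(n : ℤ), (δ : ℤ)) ∈ D) :
    PowerSeries.mk (fun e => Bf (((u⁻¹ : Rˣ) : R) ^ n) δ e e) ∈ ratU u D := by
  set w := ((u⁻¹ : Rˣ) : R) ^ n with hw
  refine geo_solve u hδ hD _
    (PowerSeries.mk fun e => if e < δ then w else if e = δ then w - w * w else 0)
    (fin_mem u _ (δ + 1) fun e he => by rw [if_neg (by omega), if_neg (by omega)]) ?_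
  rw [← hw]
  refine mk_rec _ _ _ _ (fun e he => ?_) fun e => ?_
  · rw [if_pos he, Bf_small w δ e e he.le]
  · rcases Nat.eq_zero_or_pos e with h | h
    · subst h
      rw [zero_add, if_neg (by omega), if_pos rfl, Bf_small w δ δ δ le_rfl,
        Bf_small w δ 0 0 (by omega)]
      ring
    · rw [if_neg (by omega), if_neg (by omega), zero_add,
        ← Bf_stable w δ (e + δ + 1) (e + δ) hδ (by omega),
        ← Bf_stable w δ (e + δ) e hδ (by omega), Bf_rec w δ _ _ h]

end seq

end Pool.Agent.H35.CI
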