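import Pool.Agent.H35.CI.FE2

set_option autoImplicit false
set_option linter.unusedSectionVars false
set_option linter.unusedVariables false

/-! # From `A[∂_t]` to the twisted local cohomology module -/

namespace Pool.Agent.H35.CI

open MvPolynomial Pool.Agent.W574.SM

theorem deriv_w {σ B : Type} [Fintype σ] [DecidableEq σ] [CommRing B] [Algebra ℂ B]
    {φ : MvPolynomial σ ℂ →ₐ[ℂ] B} {θ : σ → Derivation ℂ B B} {g : MvPolynomial σ ℂ} {w : B}
    (hw : φ g * w = 1) (hθ : ∀ i p, θ i (φ p) = φ (pderiv i p)) (i : σ) :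
    θ i w = -(w * w * φ (pderiv i g)) := by
  have h1 := congrArg (θ i) hw
  rw [Derivation.leibniz, Derivation.map_one_eq_zero, hθ, smul_eq_mul, smul_eq_mul] at h1
  linear_combination w * h1 + (-(θ i w)) * hw

section tm

variable {σ ι κ B : Type} [Fintype σ] [DecidableEq σ] [Fintype ι] [DecidableEq ι]
  [Fintype κ] [DecidableEq κ] [CommRing B] [Algebra ℂ B]
  (φ : MvPolynomial σ ℂ →ₐ[ℂ] B) (θ : σ → Derivation ℂ B B) (e : κ → ι) (o : ι) (w : B) (s : ℂ)

/-- the exponents of the variables `e k` -/
noncomputable def rs (γ : ι →₀ ℕ) : κ →₀ ℕ := Finsupp.equivFunOnFinite.symm fun k => γ (e k)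

theorem rs_apply (γ : ι →₀ ℕ) (k : κ) : rs e γ k = γ (e k) := rfl

/-- the coefficient of `g ^ s` -/
noncomputable def an (N : ℕ) : B := algebraMap ℂ B (dpoch s N) * w ^ N

theorem an_zero : an w s 0 = 1 := by simp [an, dpoch]

theorem an_succ (N : ℕ) : an w s (N + 1) = an w s N * (algebraMap ℂ B (s - N) * w) := by
  have h2 : dpoch s (N + 1) = dpoch s N * (s - N) := by
    rw [dpoch, Finset.prod_range_succ, dpoch]
  rw [an, an, h2, map_mul, pow_succ]
  ring

/-- only the variables `X_(e k)` and `X_o` -/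
def Only (γ : ι →₀ ℕ) : Prop := ∀ j, j ≠ o → (∀ k, e k ≠ j) → γ j = 0

open Classical in
/-- the image of the monomial `X ^ γ` -/
noncomputable def cf (γ : ι →₀ ℕ) : MvPolynomial κ B :=
  if Only e o γ then monomial (rs e γ) (an w s (γ o)) else 0

/-- the map -/
noncomputable def TT (q : MvPolynomial ι (MvPolynomial σ ℂ)) : MvPolynomial κ B :=
  ∑ γ ∈ q.support, C (φ (coeff γ q)) * cf e o w s γ

theorem TT_eq (q : MvPolynomial ι (MvPolynomial σ ℂ)) (t : Finset (ι →₀ ℕ)) (h : q.support ⊆ t) :
    TT φ e o w s q = ∑ γ ∈ t, C (φ (coeff γ q)) * cf e o w s γ := by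
  rw [TT]
  refine Finset.sum_subset h fun γ _ hγ => ?_
  rw [notMem_support_iff.1 hγ, map_zero, C_0, zero_mul]

theorem TT_add (p q : MvPolynomial ι (MvPolynomial σ ℂ)) :
    TT φ e o w s (p + q) = TT φ e o w s p + TT φ e o w s q := by
  classical
  rw [TT_eq φ e o w s (p + q) (p.support ∪ q.support) support_add,
    TT_eq φ e o w s p (p.support ∪ q.support) Finset.subset_union_left,
    TT_eq φ e o w s q (p.support ∪ q.support) Finset.subset_union_right,
    ← Finset.sum_add_distrib]
  refine Finset.sum_congr rfl fun γ _ => ?_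
  rw [coeff_add, map_add, C_add, add_mul]

theorem TT_monomial (γ : ι →₀ ℕ) (a : MvPolynomial σ ℂ) :
    TT φ e o w s (monomial γ a) = C (φ a) * cf e o w s γ := by
  classical
  rw [TT_eq φ e o w s _ {γ} support_monomial_subset, Finset.sum_singleton, coeff_monomial,
    if_pos rfl]

theorem TT_zero : TT φ e o w s 0 = 0 := by
  rw [TT, support_zero, Finset.sum_empty]

theorem TT_sum {α : Type} (t : Finset α) (q : α → MvPolynomial ι (MvPolynomial σ ℂ)) :
    TT φ e o w s (∑ i ∈ t, q i) = ∑ i ∈ t, TT φ e o w s (q i) := by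
  classical
  induction t using Finset.induction_on with
  | empty => rw [Finset.sum_empty, Finset.sum_empty, TT_zero]
  | insert a t ha ih => rw [Finset.sum_insert ha, Finset.sum_insert ha, TT_add, ih]

theorem TT_C (a : MvPolynomial σ ℂ) (q : MvPolynomial ι (MvPolynomial σ ℂ)) :
    TT φ e o w s (C a * q) = C (φ a) * TT φ e o w s q := by
  induction q using MvPolynomial.induction_on' with
  | monomial γ b => rw [C_mul_monomial, TT_monomial, TT_monomial, map_mul, C_mul, mul_assoc]
  | add p q hp hq => rw [mul_add, TT_add, TT_add, hp, hq, mul_add]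

variable (he : Function.Injective e) (heo : ∀ k, e k ≠ o)
include he heo

theorem rs_add (γ : ι →₀ ℕ) (k : κ) :
    rs e (γ + Finsupp.single (e k) 1) = rs e γ + Finsupp.single k 1 := by
  ext l
  rw [rs_apply, Finsupp.add_apply, Finsupp.add_apply, rs_apply]
  congr 1
  by_cases h : l = k
  · rw [h, Finsupp.single_eq_same, Finsupp.single_eq_same]
  · rw [Finsupp.single_eq_of_ne h, Finsupp.single_eq_of_ne fun h' => h (he h')]

theorem rs_sub (γ : ι →₀ ℕ) (k : κ) :
    rs e (γ - Finsupp.single (e k) 1) = rs e γ - Finsupp.single k 1 := by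
  ext l
  rw [rs_apply, Finsupp.tsub_apply, Finsupp.tsub_apply, rs_apply]
  congr 1
  by_cases h : l = k
  · rw [h, Finsupp.single_eq_same, Finsupp.single_eq_same]
  · rw [Finsupp.single_eq_of_ne h, Finsupp.single_eq_of_ne fun h' => h (he h')]

theorem rs_addo (γ : ι →₀ ℕ) : rs e (γ + Finsupp.single o 1) = rs e γ := by
  ext l
  rw [rs_apply, Finsupp.add_apply, rs_apply, Finsupp.single_eq_of_ne (heo l), add_zero]

theorem rs_subo (γ : ι →₀ ℕ) : rs e (γ - Finsupp.single o 1) = rs e γ := by
  ext l
  rw [rs_apply, Finsupp.tsub_apply, rs_apply, Finsupp.single_eq_of_ne (heo l), Nat.sub_zero]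

theorem only_add (γ : ι →₀ ℕ) (k : κ) :
    Only e o (γ + Finsupp.single (e k) 1) ↔ Only e o γ := by
  refine forall_congr' fun j => forall_congr' fun hj => forall_congr' fun hk => ?_
  rw [Finsupp.add_apply, Finsupp.single_eq_of_ne (Ne.symm (hk k)), add_zero]

theorem only_addo (γ : ι →₀ ℕ) : Only e o (γ + Finsupp.single o 1) ↔ Only e o γ := by
  refine forall_congr' fun j => forall_congr' fun hj => forall_congr' fun hk => ?_
  rw [Finsupp.add_apply, Finsupp.single_eq_of_ne hj, add_zero]

theorem cf_add (γ : ι →₀ ℕ) (k : κ) :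
    cf e o w s (γ + Finsupp.single (e k) 1) = X k * cf e o w s γ := by
  classical
  rw [cf, cf, only_add e o he heo]
  split_ifs with h
  · rw [rs_add e o he heo, X_mul_monomial, Finsupp.add_apply,
      Finsupp.single_eq_of_ne (Ne.symm (heo k)), add_zero]
  · rw [mul_zero]

theorem cf_addo (γ : ι →₀ ℕ) :
    cf e o w s (γ + Finsupp.single o 1) = C (algebraMap ℂ B (s - γ o) * w) * cf e o w s γ := by
  classical
  rw [cf, cf, only_addo e o he heo]
  split_ifs with h
  · rw [rs_addo e o he heo, C_mul_monomial, Finsupp.add_apply, Finsupp.single_eq_same, an_succ,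
      mul_comm]
  · rw [mul_zero]

theorem cf_other (γ : ι →₀ ℕ) (j : ι) (hj : j ≠ o) (hk : ∀ k, e k ≠ j) :
    cf e o w s (γ + Finsupp.single j 1) = 0 := by
  classical
  rw [cf, if_neg]
  intro h
  have := h j hj hk
  rw [Finsupp.add_apply, Finsupp.single_eq_same] at this
  omega

theorem TT_X (k : κ) (q : MvPolynomial ι (MvPolynomial σ ℂ)) :
    TT φ e o w s (X (e k) * q) = X k * TT φ e o w s q := by
  induction q using MvPolynomial.induction_on' with
  | monomial γ b =>
    rw [X_mul_monomial, TT_monomial, TT_monomial, cf_add e o w s he heo]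
    ring
  | add p q hp hq => rw [mul_add, TT_add, TT_add, hp, hq, mul_add]

theorem TT_other (j : ι) (hj : j ≠ o) (hk : ∀ k, e k ≠ j)
    (q : MvPolynomial ι (MvPolynomial σ ℂ)) : TT φ e o w s (X j * q) = 0 := by
  induction q using MvPolynomial.induction_on' with
  | monomial γ b =>
    rw [X_mul_monomial, TT_monomial, cf_other e o w s he heo γ j hj hk, mul_zero]
  | add p q hp hq => rw [mul_add, TT_add, hp, hq, add_zero]

theorem TT_pderiv (k : κ) (q : MvPolynomial ι (MvPolynomial σ ℂ)) :
    TT φ e o w s (pderiv (e k) q) = pderiv k (TT φ e o w s q) := by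
  classical
  induction q using MvPolynomial.induction_on' with
  | monomial γ b =>
    rw [pderiv_monomial, TT_monomial, TT_monomial, Derivation.leibniz, pderiv_C, smul_zero,
      add_zero, smul_eq_mul, map_mul, map_natCast, C_mul, map_natCast, mul_assoc]
    congr 1
    by_cases h : γ (e k) = 0
    · have h1 : pderiv k (cf e o w s γ) = 0 := by
        rw [cf]
        split_ifs
        · rw [pderiv_monomial, rs_apply, h]
          simp
        · rw [map_zero]
      rw [h1, h, Nat.cast_zero, zero_mul]
    · have h2 : (γ - Finsupp.single (e k) 1) + Finsupp.single (e k) 1 = γ := by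
        rw [tsub_add_cancel_of_le]
        rw [Finsupp.single_le_iff]
        omega
      have h3 : Only e o (γ - Finsupp.single (e k) 1) ↔ Only e o γ := by
        conv_rhs => rw [← h2, only_add e o he heo]
      rw [cf, cf, h3]
      split_ifs with h4
      · rw [pderiv_monomial, rs_apply, rs_sub e o he heo, Finsupp.tsub_apply,
          Finsupp.single_eq_of_ne (Ne.symm (heo k)), Nat.sub_zero]
        have h5 : ((γ (e k) : ℕ) : MvPolynomial κ B) = C ((γ (e k) : ℕ) : B) := by simp
        rw [h5, C_mul_monomial, mul_comm]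
      · rw [mul_zero, map_zero]
  | add p q hp hq => rw [map_add, TT_add, TT_add, hp, hq, map_add]

theorem TT_pderivo (γ : ι →₀ ℕ) (a : MvPolynomial σ ℂ) :
    TT φ e o w s (X o * pderiv o (monomial γ a)) =
      C (algebraMap ℂ B (γ o : ℂ)) * TT φ e o w s (monomial γ a) := by
  rw [pderiv_monomial, X_mul_monomial, TT_monomial, TT_monomial]
  by_cases h : γ o = 0
  · rw [h]
    simp
  · rw [tsub_add_cancel_of_le, map_mul, map_natCast, map_natCast, C_mul, map_natCast]
    · ring
    · rw [Finsupp.single_le_iff]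
      omega

theorem TT_Xo (γ : ι →₀ ℕ) (a : MvPolynomial σ ℂ) :
    TT φ e o w s (X o * monomial γ a) =
      C (algebraMap ℂ B (s - γ o) * w) * TT φ e o w s (monomial γ a) := by
  rw [X_mul_monomial, TT_monomial, TT_monomial, cf_addo e o w s he heo]
  ring

variable {φ} {f : ι → MvPolynomial σ ℂ} (hw : φ (f o) * w = 1)
include hw

theorem TT_theta (q : MvPolynomial ι (MvPolynomial σ ℂ)) :
    TT φ e o w s (theta f o q) = C (algebraMap ℂ B s) * TT φ e o w s q := by
  induction q using MvPolynomial.induction_on' with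
  | monomial γ a =>
    have h1 : theta f o (monomial γ a) = C (f o) * (X o * monomial γ a) +
        X o * pderiv o (monomial γ a) := by
      rw [theta]
      ring
    rw [h1, TT_add, TT_C, TT_Xo φ e o w s he heo, TT_pderivo φ e o w s he heo, ← mul_assoc,
      ← C_mul, ← add_mul, ← C_add]
    congr 2
    have h2 : φ (f o) * (algebraMap ℂ B (s - γ o) * w) = algebraMap ℂ B (s - γ o) := by
      rw [mul_left_comm, hw, mul_one]
    rw [h2, ← map_add, sub_add_cancel]
  | add p q hp hq => rw [theta_add, TT_add, TT_add, hp, hq, mul_add]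

theorem TT_dh (hθ : ∀ i p, θ i (φ p) = φ (pderiv i p)) (hf0 : ∀ j, j = o ∨ (∃ k, e k = j) ∨
    ∀ q, TT φ e o w s (X j * q) = 0) (i : σ) (q : MvPolynomial ι (MvPolynomial σ ℂ)) :
    TT φ e o w s (dh f i q) = dcoef (θ i) (TT φ e o w s q) +
      C (algebraMap ℂ B s * (φ (pderiv i (f o)) * w)) * TT φ e o w s q +
      (∑ k, C (φ (pderiv i (f (e k)))) * X k) * TT φ e o w s q := by
  classical
  have hsum : ∀ q : MvPolynomial ι (MvPolynomial σ ℂ),
      TT φ e o w s ((∑ j, C (pderiv i (f j)) * X j) * q) =
        C (φ (pderiv i (f o))) * TT φ e o w s (X o * q) +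
          (∑ k, C (φ (pderiv i (f (e k)))) * X k) * TT φ e o w s q := by
    intro q
    rw [Finset.sum_mul, TT_sum]
    have h1 : ∀ j, TT φ e o w s (C (pderiv i (f j)) * X j * q) =
        C (φ (pderiv i (f j))) * TT φ e o w s (X j * q) := by
      intro j
      rw [mul_assoc, TT_C]
    simp only [h1]
    have hS : ∑ j ∈ insert o (Finset.univ.image e), C (φ (pderiv i (f j))) *
        TT φ e o w s (X j * q) = ∑ j, C (φ (pderiv i (f j))) * TT φ e o w s (X j * q) := by
      refine Finset.sum_subset (Finset.subset_univ _) fun j _ hj => ?_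
      rw [Finset.mem_insert, Finset.mem_image, not_or] at hj
      rcases hf0 j with h2 | ⟨k, h2⟩ | h2
      · exact absurd h2 hj.1
      · exact absurd ⟨k, Finset.mem_univ k, h2⟩ hj.2
      · rw [h2, mul_zero]
    rw [← hS, Finset.sum_insert, Finset.sum_image fun a _ b _ h => he h]
    · congr 1
      rw [Finset.sum_mul]
      refine Finset.sum_congr rfl fun k _ => ?_
      rw [TT_X φ e o w s he heo]
      ring
    · rw [Finset.mem_image]
      rintro ⟨k, -, hk⟩
      exact heo k hk
  induction q using MvPolynomial.induction_on' with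
  | monomial γ a =>
    rw [dh, TT_add, hsum, TT_Xo φ e o w s he heo, dcoef_monomial, TT_monomial, TT_monomial]
    have h1 : dcoef (θ i) (C (φ a) * cf e o w s γ) = C (φ (pderiv i a)) * cf e o w s γ +
        C (-(algebraMap ℂ B (γ o : ℂ) * (φ (pderiv i (f o)) * w))) *
          (C (φ a) * cf e o w s γ) := by
      rw [dcoef_C_mul, hθ]
      congr 1
      rw [mul_left_comm]
      congr 1
      rw [cf]
      split_ifs
      · rw [dcoef_monomial, C_mul_monomial]
        congr 1
        rw [an, Derivation.leibniz, Derivation.map_algebraMap, smul_zero, add_zero,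
          Derivation.leibniz_pow, deriv_w hw hθ, smul_eq_mul, smul_eq_mul, nsmul_eq_mul,
          map_natCast]
        rcases Nat.eq_zero_or_pos (γ o) with h0 | h0
        · rw [h0]
          simp
        · obtain ⟨N, hN⟩ := Nat.exists_eq_succ_of_ne_zero h0.ne'
          rw [hN, Nat.succ_sub_one, pow_succ]
          ring
      · rw [mul_zero]
        have := dcoef_monomial (θ i) (0 : κ →₀ ℕ) 0
        rw [monomial_zero, map_zero, monomial_zero] at this
        exact this
    rw [h1, map_sub, C_mul, C_sub, C_mul, C_mul, C_neg, C_mul, C_mul]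
    ring
  | add p q hp hq =>
    rw [dh_add, TT_add, TT_add, hp, hq, dcoef_add]
    ring

end tm

end Pool.Agent.H35.CI
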