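import Pool.Agent.H35.CI.Sq
import Pool.Agent.H35.CI.Root
import Pool.Agent.H35.CI.Defs

set_option autoImplicit false
set_option linter.unusedSectionVars false
set_option linter.unusedVariables false

/-! # The zeta function of a flag of smooth complete intersections -/

namespace Pool.Agent.H35.CI

open MvPolynomial Pool.Agent.W428.MOT Pool.Agent.TH192.MT Pool.Agent.TH192.DT Pool.Agent.Q49.CO

section flag

variable {n r : ℕ}

theorem Flag.jac {f : Fin r → MvPolynomial (Fin n) ℂ} (h : Flag f) (k : ℕ) (hk : k ≤ r) :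
    Jac fun j : Fin k => ext0 f j := by
  rcases k with _ | k
  · intro p _ _
    exact linearIndependent_empty_type
  · intro p hp0 hp
    have h1 := h ⟨k, hk⟩ p hp0 (fun j hj => by
      have := hp ⟨j, by have : (j : ℕ) ≤ k := hj; omega⟩
      simp only at this
      rwa [ext0_eq f j j.2] at this)
    let φ : Fin (k + 1) → Finset.Iic (⟨k, hk⟩ : Fin r) := fun j =>
      ⟨⟨j, by omega⟩, Finset.mem_Iic.2 (show (j : ℕ) ≤ k by omega)⟩
    have hφ : Function.Injective φ := by
      intro a b hab
      have := congrArg (fun x : Finset.Iic (⟨k, hk⟩ : Fin r) => ((x : Fin r) : ℕ)) hab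
      exact Fin.ext this
    have h2 := h1.comp φ hφ
    convert h2 using 1
    funext j i
    simp only [Function.comp_apply]
    rw [ext0_eq f j (by omega)]

/-- the stratum -/
def XX (f : Fin r → MvPolynomial (Fin n) ℂ) (o : Fin r) : Set (Pt ℂ (Fin n)) :=
  {z | z ≠ 0 ∧ ∀ j, j ≤ o → aeval z (f j) = 0}

theorem constr_XX (f : Fin r → MvPolynomial (Fin n) ℂ) (o : Fin r) : Constr (XX f o) := by
  refine Constr.and constr_pt0.compl (Constr.all fun j => ?_)
  by_cases h : j ≤ o
  · simp only [h, true_imp_iff]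
    exact Constr.eqz (IsPF.poly _)
  · simp only [h, false_imp_iff]
    exact Constr.const True

theorem indA_XX {f : Fin r → MvPolynomial (Fin n) ℂ} (h : Flag f) (o : Fin r) :
    IndA f (Finset.Iic o) (XX f o) := by
  rintro z ⟨hz0, hz⟩ l hl j hj
  obtain ⟨p, rfl⟩ := exists_pt z
  have hb := IsAlgClosed.algebraMap_bijective_of_isIntegral (k := ℂ) (K := AlgebraicClosure ℂ)
  choose l' hl' using fun j => hb.2 (l j)
  have h1 := h o p (pt_ne_zero p hz0) fun j hj => (aeval_pt_zero p _).1 (hz j hj)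
  have h2 := Fintype.linearIndependent_iff.1 h1 (fun j => l' j) (by
    funext i
    rw [Finset.sum_apply, Pi.zero_apply]
    simp only [Pi.smul_apply, smul_eq_mul]
    rw [Finset.sum_coe_sort (Finset.Iic o) fun j => l' j * eval p (pderiv i (f j))]
    apply hb.1
    rw [map_zero, ← hl i, map_sum]
    refine Finset.sum_congr rfl fun j _ => ?_
    rw [map_mul, hl', aeval_pt]) ⟨j, hj⟩
  rw [← hl' j, h2, map_zero]

theorem XX_empty {f : Fin r → MvPolynomial (Fin n) ℂ} (h : Flag f) {d : Fin r → ℕ}
    (hf : ∀ j, (f j).IsHomogeneous (d j)) (o : Fin r) (ho : n ≤ (o : ℕ) + 1) : XX f o = ∅ := by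
  rw [Set.eq_empty_iff_forall_notMem]
  rintro z ⟨hz0, hz⟩
  obtain ⟨p, rfl⟩ := exists_pt z
  have hp0 := pt_ne_zero p hz0
  have hp : ∀ j ≤ o, eval p (f j) = 0 := fun j hj => (aeval_pt_zero p _).1 (hz j hj)
  have h1 := h o p hp0 hp
  have hcard : Fintype.card (Finset.Iic o) = (o : ℕ) + 1 := by
    rw [Fintype.card_coe, Fin.card_Iic]
  have hle := h1.fintype_card_le_finrank
  rw [hcard, Module.finrank_fin_fun] at hle
  have hspan := h1.span_eq_top_of_card_eq_finrank' (by
    rw [hcard, Module.finrank_fin_fun]; omega)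
  -- all the gradients are orthogonal to `p`
  let φ : (Fin n → ℂ) →ₗ[ℂ] ℂ := ∑ i, p i • LinearMap.proj i
  have hφ : ∀ v, φ v = ∑ i, p i * v i := fun v => by
    simp [φ, LinearMap.sum_apply]
  have h2 : ∀ v, φ v = 0 := by
    intro v
    have hv : v ∈ (⊤ : Submodule ℂ (Fin n → ℂ)) := Submodule.mem_top
    rw [← hspan] at hv
    induction hv using Submodule.span_induction with
    | mem x hx =>
      obtain ⟨j, rfl⟩ := hx
      rw [hφ]
      have h3 := congrArg (eval p) (hf j).sum_X_mul_pderiv
      rw [map_sum, map_nsmul, hp j (Finset.mem_Iic.1 j.2), smul_zero] at h3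
      rw [← h3]
      refine Finset.sum_congr rfl fun i _ => ?_
      rw [map_mul, eval_X]
    | zero => exact map_zero _
    | add x y _ _ hx hy => rw [map_add, hx, hy, add_zero]
    | smul a x _ hx => rw [map_smul, hx, smul_zero]
  apply hp0
  funext i
  have h3 := h2 (Pi.single i 1)
  rw [hφ] at h3
  simpa [Pi.single_apply] using h3

/-- the index of the last positive threshold -/
def Cd (d : Fin r → ℕ) (o : Fin r) (e k : ℕ) : Prop := k * d o < e ∧ ∀ j, o < j → e ≤ k * d j

instance (d : Fin r → ℕ) (o : Fin r) (e k : ℕ) : Decidable (Cd d o e k) := by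
  unfold Cd
  infer_instance

theorem Cd_unique (d : Fin r → ℕ) {o o' : Fin r} {e k : ℕ} (h : Cd d o e k) (h' : Cd d o' e k) :
    o = o' := by
  rcases lt_trichotomy o o' with h1 | h1 | h1
  · have := h.2 o' h1
    have := h'.1
    omega
  · exact h1
  · have := h'.2 o h1
    have := h.1
    omega

theorem Cd_exists (d : Fin r → ℕ) (e k : ℕ) (h : ¬ ∀ j, e ≤ k * d j) : ∃ o, Cd d o e k := by
  push Not at h
  obtain ⟨j, hj⟩ := h
  set A : Finset (Fin r) := Finset.univ.filter fun j => k * d j < e with hA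
  have hne : A.Nonempty := ⟨j, by rw [hA, Finset.mem_filter]; exact ⟨Finset.mem_univ _, hj⟩⟩
  refine ⟨A.max' hne, ?_, fun j' hj' => ?_⟩
  · have h1 : ∀ x ∈ A, k * d x < e := fun x hx => by
      rw [hA, Finset.mem_filter] at hx
      exact hx.2
    exact h1 _ (A.max'_mem hne)
  · by_contra hc
    have h1 : j' ∈ A := by
      rw [hA, Finset.mem_filter]
      exact ⟨Finset.mem_univ _, by omega⟩
    exact absurd (A.le_max' j' h1) (not_le.2 hj')

end flag

section zeta

variable {n r : ℕ} {R : Type} [CommRing R] (M : Meas ℂ R) {v : R} (hv : M.L * v = 1)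
  {f : Fin r → MvPolynomial (Fin n) ℂ} (hF : Flag f) {d : Fin r → ℕ}
  (hf : ∀ j, (f j).IsHomogeneous (d j)) (hd : ∀ j, 0 < d j) (hmono : Monotone d)

/-- `∑_(j ≤ o) d_j` -/
def DD (d : Fin r → ℕ) (o : Fin r) : ℕ := ∑ j ∈ Finset.Iic o, d j

include hv hF hmono in
theorem U_eq (e k : ℕ) : v ^ (n * k) * VT M v f {0}ᶜ (fun j => e - k * d j) =
    ∑ o, (if Cd d o e k then M.χ _ (XX f o) * v ^ n * M.L ^ ((o : ℕ) + 1) *
      ((v ^ n * M.L ^ DD d o) ^ k * (v ^ ((o : ℕ) + 1)) ^ e) else 0) +
    (if ∀ j, e ≤ k * d j then v ^ (n * k) * (1 - v ^ n) else 0) := by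
  by_cases h : ∀ j, e ≤ k * d j
  · rw [if_pos h, Finset.sum_eq_zero, zero_add]
    · have h1 : (fun j : Fin r => e - k * d j) = fun _ => 0 := by
        funext j
        have := h j
        omega
      rw [h1, VT_zero M hv f constr_pt0.compl, Fintype.card_fin]
      have h2 := M.add ({0} : Set (Pt ℂ (Fin n))) {0}ᶜ constr_pt0 constr_pt0.compl
        (Set.disjoint_left.2 fun z h h' => h' h)
      rw [Set.union_compl_self, chi_univ, chi_pt0, Fintype.card_fin] at h2
      have h3 : M.L ^ n * v ^ n = 1 := by rw [← mul_pow, hv, one_pow]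
      linear_combination v ^ (n * k) * (h3 - v ^ n * h2)
    · intro o _
      rw [if_neg]
      intro hc
      have := h o
      have := hc.1
      omega
  · rw [if_neg h, add_zero]
    obtain ⟨o, ho⟩ := Cd_exists d e k h
    rw [Finset.sum_eq_single o (fun o' _ ho' => if_neg fun hc => ho' (Cd_unique d hc ho))
      (fun h => absurd (Finset.mem_univ o) h), if_pos ho]
    have hpos : ∀ j, e - k * d j ≠ 0 ↔ j ≤ o := by
      intro j
      constructor
      · intro hj
        by_contra hc
        have := ho.2 j (not_le.1 hc)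
        omega
      · intro hj
        have h1 : k * d j ≤ k * d o := Nat.mul_le_mul_left _ (hmono hj)
        have := ho.1
        omega
    have h1 : VT M v f {0}ᶜ (fun j => e - k * d j) = VT M v f (XX f o) (fun j => e - k * d j) := by
      refine VT_congr M f _ fun z hz => ?_
      constructor
      · exact fun h => ⟨h, fun j hj => hz j ((hpos j).2 hj)⟩
      · exact fun h => h.1
    rw [h1, VT_smooth M hv f (constr_XX f o) _ (fun z hz j hj => hz.2 j ((hpos j).1 hj)) (by
      have h2 : (Finset.univ.filter fun j => e - k * d j ≠ 0) = Finset.Iic o := by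
        ext j
        rw [Finset.mem_filter, Finset.mem_Iic, hpos]
        simp
      rw [h2]
      exact indA_XX hF o), Fintype.card_fin]
    have h2 : ∑ j, (e - k * d j - 1) = ∑ j ∈ Finset.Iic o, (e - k * d j - 1) := by
      symm
      refine Finset.sum_subset (Finset.subset_univ _) fun j _ hj => ?_
      rw [Finset.mem_Iic, ← hpos] at hj
      omega
    have h3 : ∑ j ∈ Finset.Iic o, (e - k * d j - 1) + (((o : ℕ) + 1) + DD d o * k) =
        ((o : ℕ) + 1) * e := by
      have h4 : ((o : ℕ) + 1) = ∑ j ∈ Finset.Iic o, 1 := by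
        rw [Finset.sum_const, Fin.card_Iic, smul_eq_mul, mul_one]
      have h5 : ((o : ℕ) + 1) * e = ∑ j ∈ Finset.Iic o, e := by
        rw [Finset.sum_const, Fin.card_Iic, smul_eq_mul]
      rw [h5, h4, DD, Finset.sum_mul, ← Finset.sum_add_distrib, ← Finset.sum_add_distrib]
      refine Finset.sum_congr rfl fun j hj => ?_
      have := (hpos j).2 (Finset.mem_Iic.1 hj)
      rw [mul_comm (d j) k]
      omega
    rw [h2]
    have h4 : ∀ m, M.L ^ m * v ^ m = 1 := fun m => by rw [← mul_pow, hv, one_pow]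
    have h5 : M.L ^ ((o : ℕ) + 1) * (M.L ^ DD d o) ^ k * v ^ (((o : ℕ) + 1) * e) =
        v ^ ∑ j ∈ Finset.Iic o, (e - k * d j - 1) := by
      rw [← h3, ← pow_mul, ← pow_add, pow_add v]
      linear_combination (v ^ ∑ j ∈ Finset.Iic o, (e - k * d j - 1)) *
        h4 (((o : ℕ) + 1) + DD d o * k)
    rw [← h5, mul_pow (v ^ n), ← pow_mul v n k, ← pow_mul v _ e]
    ring

include hv hf in
theorem V_sum (e K : ℕ) : VT M v f {0} (fun _ => e) =
    ∑ k ∈ Finset.range K, v ^ (n * (k + 1)) * VT M v f {0}ᶜ (fun j => e - (k + 1) * d j) +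
      v ^ (n * K) * VT M v f {0} (fun j => e - K * d j) := by
  induction K with
  | zero => simp
  | succ K ih =>
    rw [ih, Finset.sum_range_succ, VT_rec M hv f d hf (fun j => e - K * d j), Fintype.card_fin]
    have h1 : (fun j => e - K * d j - d j) = fun j => e - (K + 1) * d j := by
      funext j
      rw [Nat.sub_sub]
      congr 1
      ring
    rw [h1]
    ring

/-- the shift of the index -/
theorem Cd_last {d : Fin r → ℕ} {o : Fin r} (ho : (o : ℕ) + 1 = r) (e k : ℕ) :
    Cd d o e k ↔ k * d o < e := by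
  constructor
  · exact fun h => h.1
  · intro h
    refine ⟨h, fun j hj => ?_⟩
    have : (o : ℕ) < j := hj
    omega

theorem Cd_next {d : Fin r → ℕ} (hmono : Monotone d) {o o' : Fin r} (ho : (o : ℕ) + 1 = o')
    (e k : ℕ) : Cd d o e k ↔ k * d o < e ∧ e ≤ k * d o' := by
  refine and_congr_right fun _ => ⟨fun h => h o' ?_, fun h j hj => h.trans ?_⟩
  · exact Fin.lt_def.2 (by omega)
  · refine Nat.mul_le_mul_left _ (hmono ?_)
    rw [Fin.le_def]
    have : (o : ℕ) < j := hj
    omega

end zeta

end Pool.Agent.H35.CI
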