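import Pool.Agent.H35.CI.VR

set_option autoImplicit false
set_option linter.unusedSectionVars false
set_option linter.unusedVariables false

/-! # The zeta function of a flag of smooth complete intersections: the result -/

namespace Pool.Agent.H35.CI

open MvPolynomial Pool.Agent.W428.MOT Pool.Agent.TH192.MT Pool.Agent.TH192.DT Pool.Agent.Q49.CO
open Pool.Agent.Q57.MD

variable {n r : ℕ}

theorem mem_flagPairs_o {d : Fin r → ℕ} (o : Fin r) (h : (o : ℕ) + 1 ≤ n) :
    (-(nu n d o : ℤ), (d o : ℤ)) ∈ flagPairs n d :=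
  Finset.mem_union_left _ (Finset.mem_image.2
    ⟨o, Finset.mem_filter.2 ⟨Finset.mem_univ _, h⟩, rfl⟩)

theorem mem_flagPairs_r {d : Fin r → ℕ} (h : r < n) : (-(r : ℤ), (1 : ℤ)) ∈ flagPairs n d := by
  refine Finset.mem_union_right _ ?_
  rw [if_pos h]
  exact Finset.mem_singleton_self _

theorem of_mem_flagPairs {d : Fin r → ℕ} {q : ℤ × ℤ} (h : q ∈ flagPairs n d) :
    (∃ o : Fin r, (o : ℕ) + 1 ≤ n ∧ q = (-(nu n d o : ℤ), (d o : ℤ))) ∨
      (r < n ∧ q = (-(r : ℤ), 1)) := by
  rcases Finset.mem_union.1 h with h | h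
  · obtain ⟨o, ho, rfl⟩ := Finset.mem_image.1 h
    exact Or.inl ⟨o, (Finset.mem_filter.1 ho).2, rfl⟩
  · split_ifs at h with hr
    · exact Or.inr ⟨hr, Finset.mem_singleton.1 h⟩
    · exact absurd h (Finset.notMem_empty _)

theorem nu_self {d : Fin r → ℕ} (hmono : Monotone d) (o : Fin r) :
    nu n d o + DD d o = n + ((o : ℕ) + 1) * d o := by
  have h5 : ((o : ℕ) + 1) * d o = ∑ j ∈ Finset.Iic o, d o := by
    rw [Finset.sum_const, Fin.card_Iic, smul_eq_mul]
  rw [nu, DD, h5, add_assoc, ← Finset.sum_add_distrib]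
  congr 1
  refine Finset.sum_congr rfl fun j hj => ?_
  have := hmono (Finset.mem_Iic.1 hj)
  omega

theorem nu_next {d : Fin r → ℕ} (hmono : Monotone d) {o o' : Fin r}
    (ho : (o : ℕ) + 1 = o') : nu n d o' + DD d o = n + ((o : ℕ) + 1) * d o' := by
  have h5 : ((o : ℕ) + 1) * d o' = ∑ j ∈ Finset.Iic o, d o' := by
    rw [Finset.sum_const, Fin.card_Iic, smul_eq_mul]
  have h6 : Finset.Iic o' = insert o' (Finset.Iic o) := by
    ext j
    rw [Finset.mem_insert, Finset.mem_Iic, Finset.mem_Iic, Fin.le_def, Fin.le_def, Fin.ext_iff]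
    omega
  have h7 : o' ∉ Finset.Iic o := by
    rw [Finset.mem_Iic, Fin.le_def]
    omega
  rw [nu, DD, h5, h6, Finset.sum_insert h7, Nat.sub_self, zero_add, add_assoc,
    ← Finset.sum_add_distrib]
  congr 1
  refine Finset.sum_congr rfl fun j hj => ?_
  have h8 : d j ≤ d o' := hmono (by
    have := Finset.mem_Iic.1 hj
    rw [Fin.le_def] at this ⊢
    omega)
  omega

section main

variable {R : Type} [CommRing R] (M : Meas ℂ R) (u : Rˣ) (hL : M.L = (u : R))
  {f : Fin r → MvPolynomial (Fin n) ℂ} (hF : Flag f) {d : Fin r → ℕ}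
  (hf : ∀ j, (f j).IsHomogeneous (d j)) (hd : ∀ j, 0 < d j) (hmono : Monotone d)

include hL hF hf hd hmono in
/-- **The generating series of the volumes.** -/
theorem VW_flag (hr : 0 < r) (hn : 0 < n) :
    VW M ((u⁻¹ : Rˣ) : R) f {0} ∈ ratU u (flagPairs n d : Set (ℤ × ℤ)) := by
  set v : R := ((u⁻¹ : Rˣ) : R) with hvdef
  have hv : M.L * v = 1 := by rw [hL, hvdef, Units.mul_inv]
  have hLv : ∀ m, M.L ^ m * v ^ m = 1 := fun m => by rw [← mul_pow, hv, one_pow]
  set o0 : Fin r := ⟨0, hr⟩ with ho0
  set c : Fin r → R := fun o => M.χ _ (XX f o) * v ^ n * M.L ^ ((o : ℕ) + 1) with hc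
  set a : Fin r → R := fun o => v ^ n * M.L ^ DD d o with ha
  set x : Fin r → R := fun o => v ^ ((o : ℕ) + 1) with hx
  set H : Fin r → ℕ → R := fun o e => ∑ k ∈ Finset.range e,
    if Cd d o e (k + 1) then a o ^ (k + 1) * x o ^ e else 0 with hH
  have hV : VW M v f {0} = PowerSeries.mk (fun e => Bf (v ^ n) (d o0) e e) +
      ∑ o, PowerSeries.C (c o) * PowerSeries.mk (H o) := by
    ext e
    rw [coeff_VW, map_add, map_sum, ← VT_const M hv f constr_pt0, V_sum M hv hf e e]
    simp only [PowerSeries.coeff_C_mul, PowerSeries.coeff_mk]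
    have h1 : (fun j => e - e * d j) = fun _ => 0 := by
      funext j
      have : e * 1 ≤ e * d j := Nat.mul_le_mul_left _ (hd j)
      omega
    rw [h1, VT_zero M hv f constr_pt0, chi_pt0, one_mul, Fintype.card_fin]
    have h2 : ∀ k, v ^ (n * (k + 1)) * VT M v f {0}ᶜ (fun j => e - (k + 1) * d j) =
        ∑ o, (if Cd d o e (k + 1) then c o * (a o ^ (k + 1) * x o ^ e) else 0) +
          (if e ≤ (k + 1) * d o0 then (v ^ n) ^ (k + 1) * (1 - v ^ n) else 0) := by
      intro k
      rw [U_eq M hv hF hmono e (k + 1)]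
      congr 1
      rw [← pow_mul]
      have h3 : (∀ j, e ≤ (k + 1) * d j) ↔ e ≤ (k + 1) * d o0 := by
        refine ⟨fun h => h o0, fun h j => h.trans (Nat.mul_le_mul_left _ (hmono ?_))⟩
        rw [Fin.le_def]
        exact Nat.zero_le _
      simp only [h3]
    rw [Finset.sum_congr rfl fun k _ => h2 k, Finset.sum_add_distrib, Finset.sum_comm, Bf]
    have h3 : ∀ o, ∑ k ∈ Finset.range e, (if Cd d o e (k + 1) then
        c o * (a o ^ (k + 1) * x o ^ e) else 0) = c o * H o e := by
      intro o
      rw [hH, Finset.mul_sum]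
      refine Finset.sum_congr rfl fun k _ => ?_
      rw [mul_ite, mul_zero]
    rw [Finset.sum_congr rfl fun o _ => h3 o, pow_succ (v ^ n), pow_mul]
    ring
  rw [hV]
  refine Subalgebra.add_mem _ ?_ (Subalgebra.sum_mem _ fun o _ => ?_)
  · refine Bf_mem u (d o0) n (hd o0) ?_
    have h1 := mem_flagPairs_o (n := n) (d := d) o0 (by rw [ho0]; exact hn)
    have h2 : nu n d o0 = n := by
      rw [nu]
      have : Finset.Iic o0 = {o0} := by
        ext j
        rw [Finset.mem_Iic, Finset.mem_singleton, Fin.le_def, Fin.ext_iff, ho0]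
        simp
      rw [this, Finset.sum_singleton, Nat.sub_self, add_zero]
    rw [h2] at h1
    exact Finset.mem_coe.2 h1
  · rcases Nat.lt_or_ge ((o : ℕ) + 1) n with hon | hon
    · refine Subalgebra.mul_mem _ (rat_C u _) ?_
      have h1 : a o * x o ^ d o = v ^ nu n d o := by
        rw [ha, hx]
        simp only
        have h2 := nu_self (n := n) hmono o
        rw [← pow_mul]
        have h3 : v ^ n * M.L ^ DD d o * v ^ (((o : ℕ) + 1) * d o) =
            M.L ^ DD d o * v ^ (n + ((o : ℕ) + 1) * d o) := by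
          rw [pow_add]
          ring
        rw [h3, ← h2, pow_add]
        linear_combination (v ^ nu n d o) * hLv (DD d o)
      by_cases hor : (o : ℕ) + 1 = r
      · have h2 : H o = fun e => If (a o) (x o) (d o) e e := by
          funext e
          rw [hH, If]
          refine Finset.sum_congr rfl fun k _ => ?_
          simp only [Cd_last hor]
        rw [h2]
        refine If_mem u (a o) (x o) (d o) (nu n d o) r (hd o) h1 ?_
          (Finset.mem_coe.2 (mem_flagPairs_o o hon.le))
          (Finset.mem_coe.2 (mem_flagPairs_r (by omega)))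
        rw [hx]
        simp only
        rw [hor]
      · set o' : Fin r := ⟨(o : ℕ) + 1, by omega⟩ with ho'
        have hoo' : (o : ℕ) + 1 = o' := rfl
        have h2 : H o = fun e => Hf (a o) (x o) (d o) (d o') e e := by
          funext e
          rw [hH, Hf]
          refine Finset.sum_congr rfl fun k _ => ?_
          simp only [Cd_next hmono hoo']
        rw [h2]
        have h4 : a o * x o ^ d o' = v ^ nu n d o' := by
          rw [ha, hx]
          simp only
          have h2 := nu_next (n := n) hmono hoo'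
          rw [← pow_mul]
          have h3 : v ^ n * M.L ^ DD d o * v ^ (((o : ℕ) + 1) * d o') =
              M.L ^ DD d o * v ^ (n + ((o : ℕ) + 1) * d o') := by
            rw [pow_add]
            ring
          rw [h3, ← h2, pow_add]
          linear_combination (v ^ nu n d o') * hLv (DD d o)
        refine Hf_mem u (a o) (x o) (d o) (d o') (nu n d o) (nu n d o') (hd o) (hmono ?_) h1 h4
          (Finset.mem_coe.2 (mem_flagPairs_o o hon.le))
          (Finset.mem_coe.2 (mem_flagPairs_o o' (by omega)))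
        rw [Fin.le_def]
        omega
    · have h1 : c o = 0 := by
        rw [hc]
        simp only
        rw [XX_empty hF hf o hon, Pool.Agent.W375.MT.chi_empty, zero_mul, zero_mul]
      rw [h1, map_zero, zero_mul]
      exact zero_mem _

end main

end Pool.Agent.H35.CI
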