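import Pool.Graph.R_pool_sql_team_seeded_3997aac3.Q57.MD.Cases

set_option autoImplicit false
set_option linter.unusedSectionVars false
set_option linter.unusedVariables false

/-! # Volumes of sets of jets with several thresholds -/

namespace Pool.Agent.H35.CI

open MvPolynomial Pool.Agent.W428.MOT Pool.Agent.TH192.MT Pool.Agent.TH192.DT Pool.Agent.Q49.CO

variable {K : Type} [Field K] {σ J : Type}

/-- The jets of level `M` with origin in `W` on which `f j` has order at least `N j`. -/
def GT (f : J → MvPolynomial σ K) (W : Set (Pt K σ)) (N : J → ℕ) (M : ℕ) :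
    Set (Pt K (σ × Fin (M + 1))) :=
  {z | (fun i => z (i, 0)) ∈ W ∧ ∀ j, Vn (N j) (aeval (ar z) (f j))}

theorem mem_GT (f : J → MvPolynomial σ K) (W : Set (Pt K σ)) (N : J → ℕ) (M : ℕ)
    (z : Pt K (σ × Fin (M + 1))) :
    z ∈ GT f W N M ↔ (fun i => z (i, 0)) ∈ W ∧ ∀ j, Vn (N j) (aeval (ar z) (f j)) := Iff.rfl

variable [Fintype J]

theorem constr_GT (f : J → MvPolynomial σ K) {W : Set (Pt K σ)} (hW : Constr W)
    (N : J → ℕ) (M : ℕ) : Constr (GT f W N M) := by
  refine Constr.and (hW.preimage (fun (z : Pt K (σ × Fin (M + 1))) (i : σ) => z (i, 0))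
    fun i => IsPF.coord _) ?_
  refine Constr.all fun j => Constr.allLt _ fun k _ => Constr.eqz ?_
  exact pf_coeffK (fun z => z) (fun i => IsPF.coord _) _ _

variable {R : Type} [CommRing R] (M : Meas K R) [Fintype σ]

theorem chi_levT (f : J → MvPolynomial σ K) {W : Set (Pt K σ)} (hW : Constr W) (N : J → ℕ)
    (m : ℕ) (hN : ∀ j, N j ≤ m + 1) :
    M.χ _ (GT f W N (m + 1)) = M.χ _ (GT f W N m) * M.L ^ Fintype.card σ := by
  refine chi_split M (eL σ m) _ _ (constr_GT f hW N m) fun z => ?_
  have h1 : ∀ i, Cg m (ar z i) (ar (N := m) (fun x => z (eL σ m (Sum.inl x))) i) := by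
    intro i k hk
    rw [coeff_ar, coeff_ar, dif_pos (by omega), dif_pos (by omega)]
    rfl
  rw [mem_GT, mem_GT]
  refine and_congr Iff.rfl (forall_congr' fun j => ?_)
  exact vn_congr' (cg_aevalK _ m _ _ h1) (hN j)

variable (v : R)

/-- The normalised volume of the arcs with origin in `W` on which `f j` has order at least
`N j`. -/
noncomputable def VT (f : J → MvPolynomial σ K) (W : Set (Pt K σ)) (N : J → ℕ) : R :=
  M.χ _ (GT f W N (∑ j, N j)) * v ^ (Fintype.card σ * (∑ j, N j + 1))

variable {v} (hv : M.L * v = 1)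
include hv

theorem lev_addT (f : J → MvPolynomial σ K) {W : Set (Pt K σ)} (hW : Constr W) (N : J → ℕ)
    (m : ℕ) (hN : ∀ j, N j ≤ m + 1) (k : ℕ) :
    M.χ _ (GT f W N (m + k)) * v ^ (Fintype.card σ * (m + k + 1)) =
      M.χ _ (GT f W N m) * v ^ (Fintype.card σ * (m + 1)) := by
  induction k with
  | zero => rfl
  | succ k ih =>
    rw [← ih]
    have h2 : m + (k + 1) = (m + k) + 1 := by ring
    rw [h2, chi_levT M f hW N (m + k) (fun j => by have := hN j; omega),
      mul_add (Fintype.card σ) (m + k + 1) 1, pow_add, mul_one]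
    have h3 : M.L ^ Fintype.card σ * v ^ Fintype.card σ = 1 := by rw [← mul_pow, hv, one_pow]
    linear_combination (M.χ _ (GT f W N (m + k)) * v ^ (Fintype.card σ * (m + k + 1))) * h3

theorem VT_eq (f : J → MvPolynomial σ K) {W : Set (Pt K σ)} (hW : Constr W) (N : J → ℕ)
    (m : ℕ) (hN : ∀ j, N j ≤ m + 1) :
    M.χ _ (GT f W N m) * v ^ (Fintype.card σ * (m + 1)) = VT M v f W N := by
  unfold VT
  have hN' : ∀ j, N j ≤ ∑ j, N j + 1 := fun j => by
    have := Finset.single_le_sum (f := N) (fun _ _ => Nat.zero_le _) (Finset.mem_univ j)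
    omega
  rcases le_total (∑ j, N j) m with h | h
  · obtain ⟨k, rfl⟩ := Nat.exists_eq_add_of_le h
    exact lev_addT M hv f hW N (∑ j, N j) hN' k
  · obtain ⟨k, hk⟩ := Nat.exists_eq_add_of_le h
    rw [hk]
    exact (lev_addT M hv f hW N m hN k).symm

omit hv in
theorem VT_add (f : J → MvPolynomial σ K) {W W' : Set (Pt K σ)} (hW : Constr W)
    (hW' : Constr W') (hd : Disjoint W W') (N : J → ℕ) :
    VT M v f (W ∪ W') N = VT M v f W N + VT M v f W' N := by
  have h1 : ∀ m, GT f (W ∪ W') N m = GT f W N m ∪ GT f W' N m := by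
    intro m
    ext z
    rw [Set.mem_union, mem_GT, mem_GT, mem_GT, Set.mem_union, or_and_right]
  have h2 : ∀ m, Disjoint (GT f W N m) (GT f W' N m) := by
    intro m
    rw [Set.disjoint_left] at hd ⊢
    intro z hz hz'
    exact hd hz.1 hz'.1
  unfold VT
  rw [h1, M.add _ _ (constr_GT f hW _ _) (constr_GT f hW' _ _) (h2 _), add_mul]

theorem VT_const (f : J → MvPolynomial σ K) {W : Set (Pt K σ)} (hW : Constr W) (N : ℕ) :
    VT M v f W (fun _ => N) = vol M v f W N := by
  rw [← VT_eq M hv f hW (fun _ => N) N (fun _ => by omega)]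
  rfl

theorem VT_zero (f : J → MvPolynomial σ K) {W : Set (Pt K σ)} (hW : Constr W) :
    VT M v f W (fun _ => 0) = M.χ σ W * v ^ Fintype.card σ := by
  rw [VT_const M hv f hW, vol_zero M hv f hW]

theorem VT_empty (f : J → MvPolynomial σ K) (N : J → ℕ) : VT M v f ∅ N = 0 := by
  have h1 : ∀ m, GT f ∅ N m = ∅ := by
    intro m
    rw [Set.eq_empty_iff_forall_notMem]
    intro z hz
    exact hz.1
  unfold VT
  rw [h1, Pool.Agent.W375.MT.chi_empty, zero_mul]

omit hv in
theorem GT_congr (f : J → MvPolynomial σ K) {W W' : Set (Pt K σ)} (N : J → ℕ)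
    (h : ∀ z, (∀ j, N j ≠ 0 → aeval z (f j) = 0) → (z ∈ W ↔ z ∈ W')) (m : ℕ) :
    GT f W N m = GT f W' N m := by
  ext z
  rw [mem_GT, mem_GT]
  refine and_congr_left fun h2 => h _ fun j hj => ?_
  have h3 := h2 j 0 (Nat.pos_of_ne_zero hj)
  rw [coeff_zero_aevalK] at h3
  rw [← h3]
  congr 2
  funext i
  rw [coeff_ar_zero]

omit hv in
theorem VT_congr (f : J → MvPolynomial σ K) {W W' : Set (Pt K σ)} (N : J → ℕ)
    (h : ∀ z, (∀ j, N j ≠ 0 → aeval z (f j) = 0) → (z ∈ W ↔ z ∈ W')) :
    VT M v f W N = VT M v f W' N := by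
  unfold VT
  rw [GT_congr f N h]

section scale

omit hv in
theorem chi_scaleT (f : J → MvPolynomial σ K) (d : J → ℕ) (hf : ∀ j, (f j).IsHomogeneous (d j))
    (N : J → ℕ) (m : ℕ) :
    M.χ _ (GT f {0} N (m + 1)) = M.χ _ (GT f Set.univ (fun j => N j - d j) m) := by
  have hX : ∀ (N d : ℕ) (a : PowerSeries (AlgebraicClosure K)),
      Vn N (PowerSeries.X ^ d * a) ↔ Vn (N - d) a := by
    intro N d a
    rcases le_total d N with h | h
    · obtain ⟨k, rfl⟩ := Nat.exists_eq_add_of_le h
      rw [Nat.add_comm d k, vn_X, Nat.add_sub_cancel]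
    · rw [Nat.sub_eq_zero_of_le h, vn_iff, vn_iff, pow_zero]
      exact ⟨fun _ => one_dvd _, fun _ => (pow_dvd_pow _ h).mul_right _⟩
  have key : ∀ z : Pt K (σ × Fin (m + 2)), (∀ i, z (i, 0) = 0) →
      (z ∈ GT f {0} N (m + 1) ↔
        (fun q => z (q.1, q.2.succ) : Pt K (σ × Fin (m + 1))) ∈
          GT f Set.univ (fun j => N j - d j) m) := by
    intro z hz
    rw [mem_GT, mem_GT]
    refine and_congr ⟨fun _ => trivial, fun _ => funext hz⟩ (forall_congr' fun j => ?_)
    rw [ar_shift z hz, hom_aeval _ (d j) (hf j), hX]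
  refine M.iso _ _ (constr_GT f constr_pt0 _ _) (constr_GT f Constr.univ _ _)
    (fun z q => z (q.1, q.2.succ))
    (fun w q => Fin.cases (motive := fun _ => AlgebraicClosure K) 0 (fun j => w (q.1, j)) q.2)
    (regularOn_poly (fun i => IsPF.coord _) _) (regularOn_poly ?_ _) ?_ ?_ ?_ ?_
  · rintro ⟨i, j⟩
    refine Fin.cases ?_ (fun j => ?_) j
    · exact IsPF.zero
    · exact IsPF.coord _
  · intro z hz
    exact (key z fun i => congrFun hz.1 i).1 hz
  · intro w hw
    exact (key _ fun i => rfl).2 hw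
  · intro z hz
    funext ⟨i, j⟩
    refine Fin.cases ?_ (fun j => ?_) j
    · exact (congrFun hz.1 i).symm
    · rfl
  · intro w _
    rfl

theorem VT_scale (f : J → MvPolynomial σ K) (d : J → ℕ) (hf : ∀ j, (f j).IsHomogeneous (d j))
    (N : J → ℕ) : VT M v f {0} N =
      v ^ Fintype.card σ * VT M v f Set.univ (fun j => N j - d j) := by
  have hN' : ∀ j, N j ≤ ∑ j, N j := fun j =>
    Finset.single_le_sum (f := N) (fun _ _ => Nat.zero_le _) (Finset.mem_univ j)
  rw [← VT_eq M hv f constr_pt0 N (∑ j, N j + 1) (fun j => by have := hN' j; omega),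
    chi_scaleT M f d hf,
    ← VT_eq M hv f Constr.univ (fun j => N j - d j) (∑ j, N j)
      (fun j => by have := hN' j; omega),
    mul_add (Fintype.card σ) (∑ j, N j + 1) 1, pow_add, mul_one]
  ring

theorem VT_rec (f : J → MvPolynomial σ K) (d : J → ℕ) (hf : ∀ j, (f j).IsHomogeneous (d j))
    (N : J → ℕ) : VT M v f {0} N =
      v ^ Fintype.card σ * (VT M v f {0}ᶜ (fun j => N j - d j) +
        VT M v f {0} (fun j => N j - d j)) := by
  rw [VT_scale M hv f d hf, ← VT_add M f constr_pt0.compl constr_pt0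
    (Set.disjoint_left.2 fun z h h' => h h'), Set.compl_union_self]

end scale

section smooth

/-- the differentials of the `f j`, `j ∈ A`, are independent on `W` -/
def IndA (f : J → MvPolynomial σ K) (A : Finset J) (W : Set (Pt K σ)) : Prop :=
  ∀ z ∈ W, ∀ l : J → AlgebraicClosure K,
    (∀ s, ∑ j ∈ A, l j * aeval z (pderiv s (f j)) = 0) → ∀ j ∈ A, l j = 0

omit hv in
theorem IndA.mono [DecidableEq J] {f : J → MvPolynomial σ K} {A B : Finset J} {W : Set (Pt K σ)}
    (h : IndA f B W) (hAB : A ⊆ B) : IndA f A W := by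
  intro z hz l hl j hj
  have h1 := h z hz (fun j => if j ∈ A then l j else 0) (fun s => by
    refine Eq.trans ?_ (hl s)
    simp only [ite_mul, zero_mul]
    rw [← Finset.sum_filter]
    congr 1
    ext x
    simp only [Finset.mem_filter]
    exact ⟨fun h => h.2, fun h => ⟨hAB h, h⟩⟩) j (hAB hj)
  rwa [if_pos hj] at h1

omit hv in
theorem chi_stepT [DecidableEq J] (f : J → MvPolynomial σ K) {W : Set (Pt K σ)} (hW : Constr W)
    (A : Finset J) (hI : IndA f A W) (N N' : J → ℕ) (k m : ℕ) (hkm : k + 1 ≤ m)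
    (hN : ∀ j ∈ A, N j = k + 1) (hN2 : ∀ j, j ∉ A → N j ≤ k + 1)
    (hN' : ∀ j ∈ A, N' j = k + 2) (hN2' : ∀ j, j ∉ A → N' j = N j) :
    M.χ _ (GT f W N' m) * M.L ^ A.card = M.χ _ (GT f W N m) := by
  classical
  set c := A.card with hc
  let e : Fin c → J := fun t => (A.equivFin.symm t : J)
  have he : ∀ t, e t ∈ A := fun t => (A.equivFin.symm t).2
  have hle : ∀ j, N j ≤ k + 1 := fun j => by
    by_cases hj : j ∈ A
    · rw [hN j hj]
    · exact hN2 j hj
  set s' : Fin (m + 1) := ⟨k + 1, by omega⟩ with hs'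
  set C : Finset (σ × Fin (m + 1)) := Finset.univ.image (fun s => (s, s')) with hC
  have hmC : ∀ p, p ∈ C ↔ p.2 = s' := by
    intro p
    rw [hC, Finset.mem_image]
    constructor
    · rintro ⟨v, _, rfl⟩
      rfl
    · intro h
      exact ⟨p.1, Finset.mem_univ _, Prod.ext rfl h.symm⟩
  have h0s : (0 : Fin (m + 1)) ≠ s' := by
    intro h
    have := congrArg Fin.val h
    simp [hs'] at this
  set zr : Pt K (σ × Fin (m + 1)) → Pt K (σ × Fin (m + 1)) := fun z q =>
    if q.2 = s' then 0 else z q with hzr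
  set D : Fin c → (σ × Fin (m + 1)) → Pt K (σ × Fin (m + 1)) → AlgebraicClosure K :=
    fun t q z => aeval (fun i => z (i, 0)) (pderiv q.1 (f (e t))) with hD
  set H : Fin c → Pt K (σ × Fin (m + 1)) → AlgebraicClosure K :=
    fun t z => PowerSeries.coeff (k + 1) (aeval (ar (zr z)) (f (e t))) with hH
  have hcoef : ∀ (z : Pt K (σ × Fin (m + 1))) t,
      PowerSeries.coeff (k + 1) (aeval (ar z) (f (e t))) = ∑ q ∈ C, D t q z * z q + H t z := by
    intro z t
    rw [coeff_taylor (f (e t)) k (ar z) (ar (zr z)) (fun i => z (i, s'))]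
    · rw [hC, Finset.sum_image (fun a _ b _ h => (Prod.mk.inj h).1)]
      congr 1
      refine Finset.sum_congr rfl fun s _ => ?_
      simp only [hD]
      congr 3
      funext i
      rw [coeff_ar_zero]
      simp only [hzr]
      rw [if_neg h0s]
    · intro i
      ext j
      rw [map_add, PowerSeries.coeff_C_mul, PowerSeries.coeff_X_pow, coeff_ar, coeff_ar]
      by_cases hj : j < m + 1
      · rw [dif_pos hj, dif_pos hj]
        simp only [hzr]
        by_cases hjk : j = k + 1
        · subst hjk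
          rw [if_pos rfl, if_pos rfl, zero_add, mul_one]
        · rw [if_neg, if_neg hjk, mul_zero, add_zero]
          intro h
          apply hjk
          have := congrArg Fin.val h
          simpa [hs'] using this
      · rw [dif_neg hj, dif_neg hj, if_neg (by omega), mul_zero, add_zero]
  have key := sLin' M C c (GT f W N m) D H (constr_GT f hW _ _) ?_ ?_ ?_ ?_
  · rw [← key]
    congr 2
    ext z
    rw [Set.mem_inter_iff, mem_GT, mem_GT]
    constructor
    · rintro ⟨h1, h2⟩
      refine ⟨⟨h1, fun j => vn_mono (h2 j) ?_⟩, fun t => ?_⟩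
      · by_cases hj : j ∈ A
        · rw [hN j hj, hN' j hj]
          omega
        · rw [hN2' j hj]
      · rw [← hcoef]
        exact h2 (e t) (k + 1) (by rw [hN' _ (he t)]; omega)
    · rintro ⟨⟨h1, h2⟩, h3⟩
      refine ⟨h1, fun j i hi => ?_⟩
      by_cases hj : j ∈ A
      · rw [hN' j hj] at hi
        rcases Nat.lt_or_ge i (k + 1) with h4 | h4
        · exact h2 j i (by rw [hN j hj]; exact h4)
        · have h5 : i = k + 1 := by omega
          subst h5
          have h6 : e (A.equivFin ⟨j, hj⟩) = j := by simp [e]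
          have h7 := h3 (A.equivFin ⟨j, hj⟩)
          rw [← hcoef, h6] at h7
          exact h7
      · rw [hN2' j hj] at hi
        exact h2 j i hi
  · intro t q
    exact (IsPF.poly (pderiv q.1 (f (e t)))).comp (fun (z : Pt K (σ × Fin (m + 1))) (i : σ) =>
      z (i, 0)) fun i => IsPF.coord _
  · intro t
    refine pf_coeffK (fun z => zr z) (fun q => ?_) _ _
    simp only [hzr]
    by_cases h : q.2 = s'
    · simp only [if_pos h]
      exact IsPF.zero
    · simp only [if_neg h]
      exact IsPF.coord q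
  · intro z w hzw
    have h1 : ∀ i, w (i, 0) = z (i, 0) := fun i => hzw _ fun hc => h0s ((hmC _).1 hc)
    have h2 : ∀ i, Cg k (ar w i) (ar z i) := by
      intro i j hj
      rw [coeff_ar, coeff_ar, dif_pos (by omega), dif_pos (by omega)]
      refine hzw _ fun hc => ?_
      have := congrArg Fin.val ((hmC _).1 hc)
      simp [hs'] at this
      omega
    refine ⟨?_, ?_, ?_⟩
    · rintro ⟨h3, h4⟩
      refine ⟨?_, fun t => (vn_congr' (cg_aevalK _ k _ _ h2) (hle t)).2 (h4 t)⟩
      have : (fun i => w (i, 0)) = fun i => z (i, 0) := funext h1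
      rw [this]
      exact h3
    · intro t q
      simp only [hD]
      congr 2
      funext i
      exact h1 i
    · intro t
      simp only [hH]
      have h5 : zr w = zr z := by
        funext q
        simp only [hzr]
        by_cases h : q.2 = s'
        · rw [if_pos h, if_pos h]
        · rw [if_neg h, if_neg h]
          exact hzw q fun hc => h ((hmC q).1 hc)
      rw [h5]
  · rintro z ⟨h1, h2⟩ l hl t
    have h4 := hI _ h1 (fun j => if hj : j ∈ A then l (A.equivFin ⟨j, hj⟩) else 0) (fun s => by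
      have h3 := hl (s, s') ((hmC _).2 rfl)
      simp only [hD] at h3
      rw [← h3, ← Finset.sum_coe_sort]
      rw [← Equiv.sum_comp A.equivFin.symm]
      refine Finset.sum_congr rfl fun t _ => ?_
      rw [dif_pos (A.equivFin.symm t).2, Subtype.coe_eta, Equiv.apply_symm_apply]) (e t) (he t)
    rw [dif_pos (he t)] at h4
    have h5 : A.equivFin ⟨e t, he t⟩ = t := by simp [e]
    rwa [h5] at h4

/-- **The volume at the smooth points.** -/
theorem VT_smooth [DecidableEq J] (f : J → MvPolynomial σ K) {W : Set (Pt K σ)} (hW : Constr W)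
    (N : J → ℕ) (h0 : ∀ z ∈ W, ∀ j, N j ≠ 0 → aeval z (f j) = 0)
    (hI : IndA f (Finset.univ.filter fun j => N j ≠ 0) W) :
    VT M v f W N = M.χ σ W * v ^ Fintype.card σ * v ^ ∑ j, (N j - 1) := by
  have key : ∀ k : ℕ, VT M v f W (fun j => min (N j) (k + 1)) =
      M.χ σ W * v ^ Fintype.card σ * v ^ ∑ j, min (N j - 1) k := by
    intro k
    induction k with
    | zero =>
      simp only [Nat.min_zero, Finset.sum_const_zero, pow_zero, mul_one]
      rw [← VT_zero M hv f hW, ← VT_eq M hv f hW (fun j => min (N j) (0 + 1)) 0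
        (fun j => by omega), ← VT_eq M hv f hW (fun _ => 0) 0 (fun j => by omega)]
      congr 2
      ext z
      rw [mem_GT, mem_GT]
      refine and_congr_right fun hz => forall_congr' fun j => ?_
      by_cases hj : N j = 0
      · rw [hj]
        rfl
      · constructor
        · exact fun h => vn_mono h (Nat.zero_le _)
        · intro _ i hi
          have hi0 : i = 0 := by omega
          subst hi0
          rw [coeff_zero_aevalK]
          have := h0 _ hz j hj
          rw [← this]
          congr 2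
          funext i
          rw [coeff_ar_zero]
    | succ k ih =>
      set A : Finset J := Finset.univ.filter fun j => k + 2 ≤ N j with hA
      have hstep := chi_stepT M f hW A (hI.mono (by
        intro j hj
        rw [hA, Finset.mem_filter] at hj
        rw [Finset.mem_filter]
        exact ⟨Finset.mem_univ _, by omega⟩)) (fun j => min (N j) (k + 1))
        (fun j => min (N j) (k + 1 + 1)) k (k + 1) le_rfl
        (fun j hj => by
          rw [hA, Finset.mem_filter] at hj
          omega)
        (fun j hj => by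
          omega)
        (fun j hj => by
          rw [hA, Finset.mem_filter] at hj
          omega)
        (fun j hj => by
          rw [hA, Finset.mem_filter, not_and] at hj
          have := hj (Finset.mem_univ _)
          omega)
      have hsum : ∑ j, min (N j - 1) (k + 1) = ∑ j, min (N j - 1) k + A.card := by
        rw [hA, Finset.card_filter, ← Finset.sum_add_distrib]
        refine Finset.sum_congr rfl fun j _ => ?_
        split_ifs with h
        · omega
        · omega
      rw [hsum, pow_add, ← mul_assoc, ← ih, ← VT_eq M hv f hW _ (k + 1) (fun j => by omega),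
        ← VT_eq M hv f hW (fun j => min (N j) (k + 1)) (k + 1) (fun j => by omega), ← hstep]
      have h2 : M.L ^ A.card * v ^ A.card = 1 := by rw [← mul_pow, hv, one_pow]
      linear_combination (-(M.χ _ (GT f W (fun j => min (N j) (k + 1 + 1)) (k + 1)) *
        v ^ (Fintype.card σ * (k + 1 + 1)))) * h2
  have hle : ∀ j, N j ≤ ∑ j, N j := fun j =>
    Finset.single_le_sum (f := N) (fun _ _ => Nat.zero_le _) (Finset.mem_univ j)
  have h1 := key (∑ j, N j)
  have h2 : (fun j => min (N j) (∑ j, N j + 1)) = N := by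
    funext j
    have := hle j
    omega
  have h3 : ∑ j, min (N j - 1) (∑ j, N j) = ∑ j, (N j - 1) :=
    Finset.sum_congr rfl fun j _ => by have := hle j; omega
  rwa [h2, h3] at h1

end smooth

end Pool.Agent.H35.CI
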